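import Mathlib

/-!
# Strongly Kreiss bounded operators: basic definitions (MP_f9ecb8_an)
-/

open scoped BigOperators

namespace Pool.Agent.SKB

/-- The scalar matrix `a` has regular norm at most `r` : `|a|` is bounded by `r` on `ℓ²`. -/
def RegLe {ι κ : Type} [Fintype ι] [Fintype κ] (a : κ → ι → ℂ) (r : ℝ) : Prop :=
  ∀ (u : ι → ℝ) (w : κ → ℝ), (∀ j, 0 ≤ u j) → (∀ k, 0 ≤ w k) →
    ∑ k, ∑ j, ‖a k j‖ * u j * w k ≤ r * √(∑ j, u j ^ 2) * √(∑ k, w k ^ 2)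

/-- The scalar matrix `a` has norm at most `s` on `ℓ²`. -/
def OpLe {ι κ : Type} [Fintype ι] [Fintype κ] (a : κ → ι → ℂ) (s : ℝ) : Prop :=
  ∀ u : ι → ℂ, ∑ k, ‖∑ j, a k j * u j‖ ^ 2 ≤ s ^ 2 * ∑ j, ‖u j‖ ^ 2

/-- `X` is curved with exponent `ϑ`: every finite scalar matrix with regular norm `≤ r` and
`ℓ²`-norm `≤ s` acts on `ℓ²(X)` with norm `≤ s^ϑ r^(1-ϑ)`. -/
def Curved (X : Type*) [NormedAddCommGroup X] [NormedSpace ℂ X] (ϑ : ℝ) : Prop :=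
  ∀ (ι κ : Type) [Fintype ι] [Fintype κ] (a : κ → ι → ℂ) (r s : ℝ), 0 ≤ r → 0 ≤ s →
    RegLe a r → OpLe a s → ∀ x : ι → X,
      √(∑ k, ‖∑ j, a k j • x j‖ ^ 2) ≤ s ^ ϑ * r ^ (1 - ϑ) * √(∑ j, ‖x j‖ ^ 2)

end Pool.Agent.SKB
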