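import Mathlib

/-!
# Trace weights, moments and `L^q` norms: definitions
-/

open scoped ENNReal NNReal ComplexOrder Topology
open Filter

namespace Pool.Agent.SKB

/-- A (lower semicontinuous) trace weight on a C*-algebra. Only the values on positive elements
matter. -/
structure TraceWt (A : Type*) [CStarAlgebra A] [PartialOrder A] [StarOrderedRing A] where
  toFun : A → ℝ≥0∞
  map_add' : ∀ a b, 0 ≤ a → 0 ≤ b → toFun (a + b) = toFun a + toFun b
  map_smul' : ∀ (c : ℝ≥0) (a : A), 0 ≤ a → toFun ((c : ℝ) • a) = c * toFun a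
  tracial' : ∀ x, toFun (star x * x) = toFun (x * star x)
  normal' : ∀ (u : ℕ → A) (a : A), (∀ n, 0 ≤ u n) → Monotone u → Tendsto u atTop (𝓝 a) →
    toFun a = ⨆ n, toFun (u n)

variable {A : Type*} [CStarAlgebra A] [PartialOrder A] [StarOrderedRing A]

instance TraceWt.instCoeFun : CoeFun (TraceWt A) (fun _ => A → ℝ≥0∞) := ⟨TraceWt.toFun⟩

/-- Moment `τ(|x|^q)`. -/
noncomputable def mom (τ : TraceWt A) (q : ℝ) (x : A) : ℝ≥0∞ :=
  τ (cfc (fun t : ℝ => t ^ (q / 2)) (star x * x))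

/-- The `L^q` norm `τ(|x|^q)^{1/q}`. -/
noncomputable def lqnrm (τ : TraceWt A) (q : ℝ) (x : A) : ℝ := (mom τ q x).toReal ^ (1 / q)

end Pool.Agent.SKB
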