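import Mathlib
import Pool.Agent.SKB.Defs
import Pool.Agent.SKB.TraceDef

/-!
# Traces on C*-algebras and the associated pre-Hilbert space
-/

open scoped ENNReal NNReal ComplexOrder Topology
open Filter

namespace Pool.Agent.SKB

variable {A : Type*} [CStarAlgebra A] [PartialOrder A] [StarOrderedRing A]

namespace TraceWt

variable (τ : TraceWt A)

lemma map_add {a b : A} (ha : 0 ≤ a) (hb : 0 ≤ b) : τ (a + b) = τ a + τ b := τ.map_add' a b ha hb

lemma map_smul {c : ℝ} (hc : 0 ≤ c) {a : A} (ha : 0 ≤ a) : τ (c • a) = ENNReal.ofReal c * τ a := by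
  lift c to ℝ≥0 using hc
  rw [τ.map_smul' c a ha, ENNReal.ofReal_coe_nnreal]

lemma map_zero : τ 0 = 0 := by
  have := τ.map_smul (c := 0) le_rfl (a := 0) le_rfl
  simpa using this

lemma mono {a b : A} (ha : 0 ≤ a) (hab : a ≤ b) : τ a ≤ τ b := by
  have : τ b = τ a + τ (b - a) := by
    rw [← τ.map_add ha (sub_nonneg.2 hab)]
    congr 1
    abel
  rw [this]
  exact le_self_add

lemma tracial (x : A) : τ (star x * x) = τ (x * star x) := τ.tracial' x

/-- Square summable elements. -/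
def Fin2 (x : A) : Prop := τ (star x * x) < ∞

variable {τ}

omit [PartialOrder A] [StarOrderedRing A] in
lemma parallelogram (x y : A) :
    star (x + y) * (x + y) + star (x - y) * (x - y) = (2 : ℝ) • (star x * x) + (2 : ℝ) • (star y * y) := by
  simp only [star_add, star_sub, two_smul]
  noncomm_ring

lemma Fin2.add {x y : A} (hx : τ.Fin2 x) (hy : τ.Fin2 y) : τ.Fin2 (x + y) := by
  have h := parallelogram x y
  unfold Fin2 at *
  calc τ (star (x + y) * (x + y)) ≤ τ (star (x + y) * (x + y)) + τ (star (x - y) * (x - y)) :=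
        le_self_add
    _ = τ ((2 : ℝ) • (star x * x) + (2 : ℝ) • (star y * y)) := by
        rw [← τ.map_add (star_mul_self_nonneg _) (star_mul_self_nonneg _), h]
    _ = ENNReal.ofReal 2 * τ (star x * x) + ENNReal.ofReal 2 * τ (star y * y) := by
        rw [τ.map_add (smul_nonneg zero_le_two (star_mul_self_nonneg _))
          (smul_nonneg zero_le_two (star_mul_self_nonneg _)),
          τ.map_smul zero_le_two (star_mul_self_nonneg _),
          τ.map_smul zero_le_two (star_mul_self_nonneg _)]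
    _ < ∞ := by
        exact ENNReal.add_lt_top.2 ⟨ENNReal.mul_lt_top ENNReal.ofReal_lt_top hx,
          ENNReal.mul_lt_top ENNReal.ofReal_lt_top hy⟩

lemma tau_smul_sq (c : ℂ) (x : A) :
    τ (star (c • x) * (c • x)) = ENNReal.ofReal (‖c‖ ^ 2) * τ (star x * x) := by
  rw [← τ.map_smul (by positivity) (star_mul_self_nonneg _)]
  congr 1
  rw [star_smul, smul_mul_smul_comm]
  have : (star c * c : ℂ) = ((‖c‖ ^ 2 : ℝ) : ℂ) := by
    rw [Complex.star_def, ← Complex.normSq_eq_conj_mul_self, Complex.normSq_eq_norm_sq]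
  rw [this]
  exact Complex.coe_smul _ _

lemma Fin2.smul {x : A} (hx : τ.Fin2 x) (c : ℂ) : τ.Fin2 (c • x) := by
  unfold Fin2 at *
  rw [tau_smul_sq]
  exact ENNReal.mul_lt_top ENNReal.ofReal_lt_top hx

lemma Fin2.star {x : A} (hx : τ.Fin2 x) : τ.Fin2 (star x) := by
  unfold Fin2 at *
  rw [star_star, ← τ.tracial]
  exact hx

lemma tau_mul_left_le (a x : A) :
    τ (star (a * x) * (a * x)) ≤ ENNReal.ofReal (‖a‖ ^ 2) * τ (star x * x) := by
  rw [← τ.map_smul (by positivity) (star_mul_self_nonneg _)]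
  apply τ.mono (star_mul_self_nonneg _)
  have h := CStarAlgebra.star_left_conjugate_le_norm_smul (a := x) (b := star a * a)
  have h2 : ‖star a * a‖ = ‖a‖ ^ 2 := by rw [CStarRing.norm_star_mul_self, sq]
  rw [h2] at h
  rw [star_mul]
  simpa [mul_assoc] using h

lemma tau_mul_right_le (x a : A) :
    τ (star (x * a) * (x * a)) ≤ ENNReal.ofReal (‖a‖ ^ 2) * τ (star x * x) := by
  have h := tau_mul_left_le (τ := τ) (star a) (star x)
  rw [norm_star] at h
  rw [← star_mul, star_star, ← τ.tracial, star_star, ← τ.tracial] at h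
  exact h

lemma Fin2.mul_left {x : A} (hx : τ.Fin2 x) (a : A) : τ.Fin2 (a * x) :=
  lt_of_le_of_lt (tau_mul_left_le a x) (ENNReal.mul_lt_top ENNReal.ofReal_lt_top hx)

lemma Fin2.mul_right {x : A} (hx : τ.Fin2 x) (a : A) : τ.Fin2 (x * a) :=
  lt_of_le_of_lt (tau_mul_right_le x a) (ENNReal.mul_lt_top ENNReal.ofReal_lt_top hx)

variable (τ)

/-- The ideal of square summable elements. -/
def N : Submodule ℂ A where
  carrier := {x | τ.Fin2 x}
  add_mem' := fun hx hy => hx.add hy
  zero_mem' := by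
    change τ.Fin2 0
    unfold Fin2
    simp [τ.map_zero]
  smul_mem' := fun c _ hx => hx.smul c

lemma mem_N {x : A} : x ∈ τ.N ↔ τ.Fin2 x := Iff.rfl

/-- `q x = τ(x*x)`. -/
noncomputable def q (x : A) : ℝ := (τ (star x * x)).toReal

lemma q_nonneg (x : A) : 0 ≤ τ.q x := ENNReal.toReal_nonneg

lemma q_star (x : A) : τ.q (star x) = τ.q x := by
  unfold q
  rw [star_star, ← τ.tracial]

lemma q_smul (c : ℂ) (x : A) : τ.q (c • x) = ‖c‖ ^ 2 * τ.q x := by
  unfold q
  rw [tau_smul_sq, ENNReal.toReal_mul, ENNReal.toReal_ofReal (by positivity)]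

lemma q_neg (x : A) : τ.q (-x) = τ.q x := by
  unfold q
  simp

lemma q_sub_comm (x y : A) : τ.q (x - y) = τ.q (y - x) := by
  rw [← neg_sub, q_neg]

/-- equality of sums of positive operators gives an equality for `q` -/
lemma q_add_eq {x y x' y' : A} (hx : τ.Fin2 x) (hy : τ.Fin2 y) (hx' : τ.Fin2 x') (hy' : τ.Fin2 y')
    (h : star x * x + star y * y = star x' * x' + star y' * y') :
    τ.q x + τ.q y = τ.q x' + τ.q y' := by
  unfold q
  rw [← ENNReal.toReal_add hx.ne hy.ne, ← ENNReal.toReal_add hx'.ne hy'.ne,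
    ← τ.map_add (star_mul_self_nonneg _) (star_mul_self_nonneg _), h,
    ← τ.map_add (star_mul_self_nonneg _) (star_mul_self_nonneg _)]

lemma q_add_eq3 {x y z x' y' z' : A} (hx : τ.Fin2 x) (hy : τ.Fin2 y) (hz : τ.Fin2 z)
    (hx' : τ.Fin2 x') (hy' : τ.Fin2 y') (hz' : τ.Fin2 z')
    (h : star x * x + star y * y + star z * z = star x' * x' + star y' * y' + star z' * z') :
    τ.q x + τ.q y + τ.q z = τ.q x' + τ.q y' + τ.q z' := by
  unfold q
  rw [← ENNReal.toReal_add hx.ne hy.ne, ← ENNReal.toReal_add hx'.ne hy'.ne,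
    ← ENNReal.toReal_add (ENNReal.add_ne_top.2 ⟨hx.ne, hy.ne⟩) hz.ne,
    ← ENNReal.toReal_add (ENNReal.add_ne_top.2 ⟨hx'.ne, hy'.ne⟩) hz'.ne,
    ← τ.map_add (star_mul_self_nonneg _) (star_mul_self_nonneg _),
    ← τ.map_add (add_nonneg (star_mul_self_nonneg _) (star_mul_self_nonneg _))
      (star_mul_self_nonneg _), h,
    ← τ.map_add (star_mul_self_nonneg _) (star_mul_self_nonneg _),
    ← τ.map_add (add_nonneg (star_mul_self_nonneg _) (star_mul_self_nonneg _))
      (star_mul_self_nonneg _)]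

/-- The real part of the form. -/
noncomputable def reB (x y : A) : ℝ := (τ.q (x + y) - τ.q (x - y)) / 4

/-- The form, conjugate linear in the first variable. -/
noncomputable def ip (x y : A) : ℂ := (τ.reB x y : ℂ) + Complex.I * (τ.reB (Complex.I • x) y : ℂ)

variable {τ}

lemma Fin2.neg {x : A} (hx : τ.Fin2 x) : τ.Fin2 (-x) := by
  unfold Fin2 at *
  simpa using hx

lemma Fin2.sub {x y : A} (hx : τ.Fin2 x) (hy : τ.Fin2 y) : τ.Fin2 (x - y) := by
  rw [sub_eq_add_neg]
  exact hx.add hy.neg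

lemma reB_add_left {x x' y : A} (hx : τ.Fin2 x) (hx' : τ.Fin2 x') (hy : τ.Fin2 y) :
    τ.reB (x + x') y = τ.reB x y + τ.reB x' y := by
  have h := τ.q_add_eq3 ((hx.add hx').add hy) (hx.sub hy) (hx'.sub hy)
    ((hx.add hx').sub hy) (hx.add hy) (hx'.add hy) (by
      simp only [star_add, star_sub]
      noncomm_ring)
  unfold reB
  linarith

lemma reB_smul_left_nonneg {x y : A} (hx : τ.Fin2 x) (hy : τ.Fin2 y) {c : ℝ} (hc : 0 ≤ c) :
    τ.reB ((c : ℂ) • x) y = c * τ.reB x y := by
  have h : τ.q ((c : ℂ) • x + y) + c * τ.q (x - y) = τ.q ((c : ℂ) • x - y) + c * τ.q (x + y) := by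
    have hs : ((√c : ℝ) : ℂ) * ((√c : ℝ) : ℂ) = (c : ℂ) := by
      rw [← Complex.ofReal_mul, Real.mul_self_sqrt hc]
    have key := τ.q_add_eq ((hx.smul (c : ℂ)).add hy) ((hx.sub hy).smul ((√c : ℝ) : ℂ))
      ((hx.smul (c : ℂ)).sub hy) ((hx.add hy).smul ((√c : ℝ) : ℂ)) (by
      simp only [star_add, star_sub, star_smul, Complex.star_def, Complex.conj_ofReal, add_mul,
        mul_add, sub_mul, mul_sub, smul_mul_assoc, mul_smul_comm, smul_sub, smul_add, smul_smul, hs]
      abel)
    rw [q_smul, q_smul] at key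
    simp only [Complex.norm_real, Real.norm_eq_abs, sq_abs, Real.sq_sqrt hc] at key
    exact key
  unfold reB
  linarith

lemma reB_neg_left {x y : A} : τ.reB (-x) y = - τ.reB x y := by
  unfold reB
  rw [show -x + y = -(x - y) by abel, show -x - y = -(x + y) by abel, q_neg, q_neg]
  ring

lemma reB_smul_left_real {x y : A} (hx : τ.Fin2 x) (hy : τ.Fin2 y) (c : ℝ) :
    τ.reB ((c : ℂ) • x) y = c * τ.reB x y := by
  rcases le_total 0 c with hc | hc
  · exact reB_smul_left_nonneg hx hy hc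
  · have h := reB_smul_left_nonneg hx hy (c := -c) (by linarith)
    have e : ((c : ℂ) • x) = -(((-c : ℝ) : ℂ) • x) := by
      rw [Complex.ofReal_neg, neg_smul, neg_neg]
    rw [e, reB_neg_left, h]
    ring

lemma reB_comm (x y : A) : τ.reB x y = τ.reB y x := by
  unfold reB
  rw [add_comm, q_sub_comm]

lemma reB_I_smul_comm (x y : A) : τ.reB (Complex.I • x) y = - τ.reB x (Complex.I • y) := by
  unfold reB
  have h1 : τ.q (Complex.I • x + y) = τ.q (x - Complex.I • y) := by
    have : Complex.I • x + y = Complex.I • (x - Complex.I • y) := by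
      rw [smul_sub, smul_smul, Complex.I_mul_I]; simp
    rw [this, q_smul]; simp
  have h2 : τ.q (Complex.I • x - y) = τ.q (x + Complex.I • y) := by
    have : Complex.I • x - y = Complex.I • (x + Complex.I • y) := by
      rw [smul_add, smul_smul, Complex.I_mul_I]; simp [sub_eq_add_neg]
    rw [this, q_smul]; simp
  rw [h1, h2]
  ring

lemma reB_self (x : A) : τ.reB x x = τ.q x := by
  unfold reB
  have : x + x = (2 : ℂ) • x := by rw [two_smul]
  rw [this, q_smul, sub_self]
  have h0 : τ.q (0 : A) = 0 := by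
    unfold q; simp [τ.map_zero]
  rw [h0]
  norm_num

lemma reB_I_self (x : A) : τ.reB (Complex.I • x) x = 0 := by
  have h := reB_I_smul_comm (τ := τ) x x
  rw [reB_comm x (Complex.I • x)] at h
  linarith

lemma ip_add_left {x x' y : A} (hx : τ.Fin2 x) (hx' : τ.Fin2 x') (hy : τ.Fin2 y) :
    τ.ip (x + x') y = τ.ip x y + τ.ip x' y := by
  unfold ip
  rw [smul_add, reB_add_left hx hx' hy, reB_add_left (hx.smul _) (hx'.smul _) hy]
  push_cast
  ring

lemma ip_smul_left {x y : A} (hx : τ.Fin2 x) (hy : τ.Fin2 y) (c : ℂ) :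
    τ.ip (c • x) y = (starRingEnd ℂ) c * τ.ip x y := by
  have hI : (Complex.I * Complex.I : ℂ) = -1 := Complex.I_mul_I
  have e1 : c • x = ((c.re : ℂ) • x) + ((c.im : ℂ) • (Complex.I • x)) := by
    conv_lhs => rw [← Complex.re_add_im c]
    rw [add_smul, mul_smul]
  have e2 : Complex.I • (c • x) = ((c.re : ℂ) • (Complex.I • x)) + (((-c.im : ℝ) : ℂ) • x) := by
    rw [e1, smul_add, smul_comm Complex.I, smul_smul _ (Complex.I : ℂ), smul_smul]
    congr 1
    rw [smul_comm, ← mul_smul]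
    congr 1
    push_cast
    linear_combination (c.im : ℂ) * hI
  unfold ip
  rw [e2, e1, reB_add_left (hx.smul _) ((hx.smul _).smul _) hy,
    reB_add_left ((hx.smul _).smul _) (hx.smul _) hy,
    reB_smul_left_real hx hy, reB_smul_left_real (hx.smul _) hy,
    reB_smul_left_real (hx.smul _) hy, reB_smul_left_real hx hy]
  have : (starRingEnd ℂ) c = (c.re : ℂ) - Complex.I * (c.im : ℂ) := by
    apply Complex.ext <;> simp
  rw [this]
  push_cast
  linear_combination ((c.im : ℂ) * (τ.reB (Complex.I • x) y : ℂ)) * hI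

lemma ip_conj (x y : A) : (starRingEnd ℂ) (τ.ip y x) = τ.ip x y := by
  unfold ip
  simp only [_root_.map_add, _root_.map_mul, Complex.conj_ofReal, Complex.conj_I]
  rw [reB_comm y x, reB_I_smul_comm x y, reB_comm (Complex.I • y) x]
  push_cast
  ring

lemma ip_self (x : A) : τ.ip x x = (τ.q x : ℂ) := by
  unfold ip
  rw [reB_self, reB_I_self]
  simp

/-- moving a left multiplication to the other side -/
lemma reB_mul_left {x y : A} (hx : τ.Fin2 x) (hy : τ.Fin2 y) (a : A) :
    τ.reB (a * x) y = τ.reB x (star a * y) := by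
  have h := τ.q_add_eq ((hx.mul_left a).add hy) (hx.sub (hy.mul_left (star a)))
    ((hx.mul_left a).sub hy) (hx.add (hy.mul_left (star a))) (by
      simp only [star_add, star_sub, star_mul, star_star]
      noncomm_ring)
  unfold reB
  linarith

lemma ip_mul_left {x y : A} (hx : τ.Fin2 x) (hy : τ.Fin2 y) (a : A) :
    τ.ip (a * x) y = τ.ip x (star a * y) := by
  unfold ip
  rw [reB_mul_left hx hy, ← mul_smul_comm, reB_mul_left (hx.smul _) hy]

lemma reB_star (x y : A) : τ.reB (star x) (star y) = τ.reB x y := by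
  unfold reB
  rw [← star_add, ← star_sub, q_star, q_star]

lemma reB_mul_right {x y : A} (hx : τ.Fin2 x) (hy : τ.Fin2 y) (a : A) :
    τ.reB (x * a) y = τ.reB x (y * star a) := by
  rw [← reB_star, star_mul, reB_mul_left hx.star hy.star, ← reB_star, star_star, star_mul,
    star_star, star_star]

lemma ip_mul_right {x y : A} (hx : τ.Fin2 x) (hy : τ.Fin2 y) (a : A) :
    τ.ip (x * a) y = τ.ip x (y * star a) := by
  unfold ip
  rw [reB_mul_right hx hy, ← smul_mul_assoc, reB_mul_right (hx.smul _) hy]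

variable (τ)

/-- The pre-Hilbert space of square summable elements. -/
def L2 : Type _ := τ.N

noncomputable instance : AddCommGroup (L2 τ) := inferInstanceAs (AddCommGroup τ.N)
noncomputable instance : Module ℂ (L2 τ) := inferInstanceAs (Module ℂ τ.N)

/-- The inner product data. -/
@[instance_reducible]
noncomputable def l2core : PreInnerProductSpace.Core ℂ (L2 τ) where
  inner x y := τ.ip (x : τ.N).1 (y : τ.N).1
  conj_inner_symm x y := ip_conj _ _
  re_inner_nonneg x := by
    rw [ip_self]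
    simpa using τ.q_nonneg _
  add_left x y z := ip_add_left (x : τ.N).2 (y : τ.N).2 (z : τ.N).2
  smul_left x y r := ip_smul_left (x : τ.N).2 (y : τ.N).2 r

noncomputable instance : SeminormedAddCommGroup (L2 τ) :=
  @InnerProductSpace.Core.toSeminormedAddCommGroup ℂ (L2 τ) _ _ _ (l2core τ)

noncomputable instance : InnerProductSpace ℂ (L2 τ) := InnerProductSpace.ofCore (l2core τ)

/-- The Hilbert space of the trace. -/
def H2 : Type _ := UniformSpace.Completion (L2 τ)

noncomputable instance : NormedAddCommGroup (H2 τ) :=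
  inferInstanceAs (NormedAddCommGroup (UniformSpace.Completion (L2 τ)))
noncomputable instance : InnerProductSpace ℂ (H2 τ) :=
  inferInstanceAs (InnerProductSpace ℂ (UniformSpace.Completion (L2 τ)))

/-- The canonical map. -/
noncomputable def jj : τ.N →ₗ[ℂ] H2 τ :=
  (UniformSpace.Completion.toComplₗᵢ (𝕜 := ℂ) (E := L2 τ)).toLinearMap

lemma inner_jj (x y : τ.N) : inner ℂ (jj τ x) (jj τ y) = τ.ip x.1 y.1 :=
  UniformSpace.Completion.inner_coe (𝕜 := ℂ) (show L2 τ from x) (show L2 τ from y)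

lemma norm_jj_sq (x : τ.N) : ‖jj τ x‖ ^ 2 = τ.q x.1 := by
  have h := inner_self_eq_norm_sq (𝕜 := ℂ) (jj τ x)
  rw [inner_jj, ip_self] at h
  rw [← h]
  simp

lemma norm_jj (x : τ.N) : ‖jj τ x‖ = √(τ.q x.1) := by
  rw [← norm_jj_sq, Real.sqrt_sq (norm_nonneg _)]

/-- Cauchy–Schwarz. -/
lemma norm_ip_le {x y : A} (hx : τ.Fin2 x) (hy : τ.Fin2 y) :
    ‖τ.ip x y‖ ≤ √(τ.q x) * √(τ.q y) := by
  have h := norm_inner_le_norm (𝕜 := ℂ) (jj τ ⟨x, hx⟩) (jj τ ⟨y, hy⟩)
  rw [inner_jj, norm_jj, norm_jj] at h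
  exact h

lemma q_mul_left_le (a : A) {x : A} (hx : τ.Fin2 x) : τ.q (a * x) ≤ ‖a‖ ^ 2 * τ.q x := by
  unfold q
  rw [← ENNReal.toReal_ofReal (show 0 ≤ ‖a‖ ^ 2 by positivity), ← ENNReal.toReal_mul]
  exact ENNReal.toReal_mono (ENNReal.mul_lt_top ENNReal.ofReal_lt_top hx).ne (tau_mul_left_le a x)

lemma q_mul_right_le (a : A) {x : A} (hx : τ.Fin2 x) : τ.q (x * a) ≤ ‖a‖ ^ 2 * τ.q x := by
  unfold q
  rw [← ENNReal.toReal_ofReal (show 0 ≤ ‖a‖ ^ 2 by positivity), ← ENNReal.toReal_mul]
  exact ENNReal.toReal_mono (ENNReal.mul_lt_top ENNReal.ofReal_lt_top hx).ne (tau_mul_right_le x a)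

end TraceWt

end Pool.Agent.SKB
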