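import Mathlib
import Pool.Agent.SKB.Trace

/-!
# Functional calculus families `g ↦ g χ(g*g) (g*g)^c` in a C*-algebra with trace
-/

open scoped ENNReal NNReal ComplexOrder Topology
open Filter

namespace Pool.Agent.SKB

/-- Cut-off function: `0` on `(-∞, δ]`, `1` on `[2δ, ∞)`. -/
noncomputable def cut (δ t : ℝ) : ℝ := min 1 (max 0 (t / δ - 1))

/-- Regularised logarithm. -/
noncomputable def Lg (δ t : ℝ) : ℝ := Real.log (max t δ)

lemma cut_nonneg (δ t : ℝ) : 0 ≤ cut δ t := le_min zero_le_one (le_max_left _ _)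

lemma cut_le_one (δ t : ℝ) : cut δ t ≤ 1 := min_le_left _ _

lemma cut_eq_zero {δ t : ℝ} (hδ : 0 < δ) (h : t ≤ δ) : cut δ t = 0 := by
  unfold cut
  have : t / δ - 1 ≤ 0 := by
    rw [sub_nonpos, div_le_one hδ]; exact h
  rw [max_eq_left this]
  exact min_eq_right zero_le_one

lemma cut_eq_one {δ t : ℝ} (hδ : 0 < δ) (h : 2 * δ ≤ t) : cut δ t = 1 := by
  unfold cut
  have : 1 ≤ t / δ - 1 := by
    have : 2 ≤ t / δ := by rw [le_div_iff₀ hδ]; exact h
    linarith
  rw [max_eq_right (by linarith)]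
  exact min_eq_left this

@[fun_prop]
lemma continuous_cut (δ : ℝ) : Continuous (cut δ) := by
  unfold cut; fun_prop

lemma cut_anti {δ δ' t : ℝ} (hδ' : 0 < δ') (h : δ' ≤ δ) (ht : 0 ≤ t) : cut δ t ≤ cut δ' t := by
  unfold cut
  have : t / δ ≤ t / δ' := by gcongr
  gcongr

lemma continuous_Lg {δ : ℝ} (hδ : 0 < δ) : Continuous (Lg δ) := by
  unfold Lg
  refine Continuous.log (by fun_prop) fun t => ?_
  exact (lt_of_lt_of_le hδ (le_max_right _ _)).ne'

lemma exp_Lg {δ t : ℝ} (hδ : 0 < δ) (h : δ ≤ t) (e : ℝ) : Real.exp (e * Lg δ t) = t ^ e := by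
  unfold Lg
  rw [max_eq_left h, Real.rpow_def_of_pos (by linarith), mul_comm]

variable {A : Type*} [CStarAlgebra A] [PartialOrder A] [StarOrderedRing A]

omit [PartialOrder A] [StarOrderedRing A] in
lemma star_cfc_real (ψ : ℝ → ℝ) (b : A) : star (cfc ψ b) = cfc ψ b :=
  (cfc_predicate (R := ℝ) ψ b : IsSelfAdjoint _).star_eq

omit [PartialOrder A] [StarOrderedRing A] in
lemma sa_sq (g : A) : IsSelfAdjoint (star g * g) := IsSelfAdjoint.star_mul_self g

lemma spec_nonneg (g : A) {t : ℝ} (ht : t ∈ spectrum ℝ (star g * g)) : 0 ≤ t :=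
  spectrum_nonneg_of_nonneg (star_mul_self_nonneg g) ht

omit [PartialOrder A] [StarOrderedRing A] in
lemma spec_le (g : A) {t : ℝ} (ht : t ∈ spectrum ℝ (star g * g)) : t ≤ ‖g‖ ^ 2 := by
  rcases subsingleton_or_nontrivial A with hA | hA
  · simp at ht
  · have h := spectrum.norm_le_norm_of_mem ht
    rw [CStarRing.norm_star_mul_self] at h
    rw [sq]
    exact (le_abs_self t).trans h

omit [PartialOrder A] [StarOrderedRing A] in
lemma fam_star_mul (g : A) {ψ φ : ℝ → ℝ} (hψ : Continuous ψ) (hφ : Continuous φ) :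
    star (g * cfc ψ (star g * g)) * (g * cfc φ (star g * g)) =
      cfc (fun t => ψ t * t * φ t) (star g * g) := by
  rw [star_mul, star_cfc_real]
  have h1 : cfc (fun t => ψ t * t * φ t) (star g * g) =
      cfc ψ (star g * g) * (star g * g) * cfc φ (star g * g) := by
    rw [cfc_mul (fun t => ψ t * t) φ (star g * g) (by fun_prop) (by fun_prop),
      cfc_mul ψ (fun t => t) (star g * g) (by fun_prop) (by fun_prop)]
    congr 2
    exact cfc_id' ℝ (star g * g) (sa_sq g)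
  rw [h1]
  noncomm_ring

variable {τ : TraceWt A}

lemma fam_q (g : A) {ψ : ℝ → ℝ} (hψ : Continuous ψ) :
    τ.q (g * cfc ψ (star g * g)) = (τ (cfc (fun t => ψ t ^ 2 * t) (star g * g))).toReal := by
  unfold TraceWt.q
  rw [fam_star_mul g hψ hψ]
  congr 2
  exact cfc_congr fun t _ => by ring

lemma fam_Fin2 (g : A) {ψ : ℝ → ℝ} (hψ : Continuous ψ) :
    τ.Fin2 (g * cfc ψ (star g * g)) ↔ τ (cfc (fun t => ψ t ^ 2 * t) (star g * g)) < ∞ := by
  unfold TraceWt.Fin2
  rw [fam_star_mul g hψ hψ]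
  have : cfc (fun t => ψ t * t * ψ t) (star g * g) = cfc (fun t => ψ t ^ 2 * t) (star g * g) :=
    cfc_congr fun t _ => by ring
  rw [this]

/-- monotonicity of `τ ∘ cfc` -/
lemma tau_cfc_mono (g : A) {ψ φ : ℝ → ℝ} (hψ : ContinuousOn ψ (Set.Ici 0))
    (hφ : ContinuousOn φ (Set.Ici 0)) (h0 : ∀ t, 0 ≤ t → 0 ≤ ψ t)
    (h : ∀ t, 0 ≤ t → t ≤ ‖g‖ ^ 2 → ψ t ≤ φ t) :
    τ (cfc ψ (star g * g)) ≤ τ (cfc φ (star g * g)) := by
  have hs : ∀ t ∈ spectrum ℝ (star g * g), 0 ≤ t := fun t ht => spec_nonneg g ht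
  apply τ.mono
  · exact cfc_nonneg fun t ht => h0 t (hs t ht)
  · exact cfc_mono (fun t ht => h t (hs t ht) (spec_le g ht)) (hψ.mono hs) (hφ.mono hs)

/-- monotonicity up to a constant -/
lemma tau_cfc_lt_top (g : A) {ψ φ : ℝ → ℝ} (hψ : ContinuousOn ψ (Set.Ici 0))
    (hφ : ContinuousOn φ (Set.Ici 0)) (h0 : ∀ t, 0 ≤ t → 0 ≤ ψ t) {C : ℝ} (hC : 0 ≤ C)
    (h : ∀ t, 0 ≤ t → t ≤ ‖g‖ ^ 2 → ψ t ≤ C * φ t) (hφ0 : ∀ t, 0 ≤ t → 0 ≤ φ t)
    (hfin : τ (cfc φ (star g * g)) < ∞) :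
    τ (cfc ψ (star g * g)) < ∞ := by
  have hs : ∀ t ∈ spectrum ℝ (star g * g), 0 ≤ t := fun t ht => spec_nonneg g ht
  have h1 : τ (cfc ψ (star g * g)) ≤ τ (cfc (fun t => C * φ t) (star g * g)) :=
    tau_cfc_mono g hψ (by fun_prop) h0 h
  have h2 : cfc (fun t => C * φ t) (star g * g) = C • cfc φ (star g * g) :=
    cfc_const_mul C φ (star g * g) (hφ.mono hs)
  rw [h2, τ.map_smul hC (cfc_nonneg fun t ht => hφ0 t (hs t ht))] at h1
  exact lt_of_le_of_lt h1 (ENNReal.mul_lt_top ENNReal.ofReal_lt_top hfin)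

/-- operator norm of the family -/
lemma fam_norm_le (g : A) {ψ : ℝ → ℝ} (hψ : Continuous ψ) {C : ℝ} (hC : 0 ≤ C)
    (h : ∀ t, 0 ≤ t → t ≤ ‖g‖ ^ 2 → ψ t ^ 2 * t ≤ C ^ 2) :
    ‖g * cfc ψ (star g * g)‖ ≤ C := by
  have h1 : ‖g * cfc ψ (star g * g)‖ ^ 2 ≤ C ^ 2 := by
    rw [sq, ← CStarRing.norm_star_mul_self, fam_star_mul g hψ hψ]
    refine norm_cfc_le (sq_nonneg C) fun t ht => ?_
    have ht0 := spec_nonneg g ht
    have := h t ht0 (spec_le g ht)
    rw [Real.norm_of_nonneg]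
    · calc ψ t * t * ψ t = ψ t ^ 2 * t := by ring
        _ ≤ C ^ 2 := this
    · nlinarith [mul_nonneg (sq_nonneg (ψ t)) ht0]
  exact le_of_sq_le_sq h1 hC

/-- right multiplication by a unitary preserves `q` -/
lemma q_mul_unitary (x : A) (U : unitary A) : τ.q (x * (U : A)) = τ.q x := by
  have h : ∀ y : A, τ.q y = (τ (y * star y)).toReal := fun y => by
    unfold TraceWt.q; rw [τ.tracial]
  rw [h, h, star_mul]
  congr 2
  have : (U : A) * star (U : A) = 1 := Unitary.mul_star_self_of_mem U.2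
  calc x * (U : A) * (star (U : A) * star x) = x * ((U : A) * star (U : A)) * star x := by
        noncomm_ring
    _ = x * star x := by rw [this, mul_one]

/-- The regularised logarithm of `g*g`. -/
noncomputable def lg (δ : ℝ) (g : A) : A := cfc (Lg δ) (star g * g)

omit [PartialOrder A] [StarOrderedRing A] in
lemma star_lg (δ : ℝ) (g : A) : star (lg δ g) = lg δ g := star_cfc_real _ _

/-- `E δ g c = exp (c log(g*g))`. -/
noncomputable def E (δ : ℝ) (g : A) (c : ℂ) : A := NormedSpace.exp (c • lg δ g)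

omit [PartialOrder A] [StarOrderedRing A] in
lemma star_E (δ : ℝ) (g : A) (c : ℂ) : star (E δ g c) = E δ g ((starRingEnd ℂ) c) := by
  unfold E
  rw [NormedSpace.star_exp, star_smul, star_lg]
  rfl

omit [PartialOrder A] [StarOrderedRing A] in
lemma exists_unitary_E {δ : ℝ} (hδ : 0 < δ) (g : A) (c : ℂ) :
    ∃ U : unitary A, E δ g c = cfc (fun t => Real.exp (c.re * Lg δ t)) (star g * g) * (U : A) := by
  let s : selfAdjoint A := ⟨c.im • lg δ g, by
    have : IsSelfAdjoint (lg δ g) := star_lg δ g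
    exact (IsSelfAdjoint.all c.im).smul this⟩
  refine ⟨selfAdjoint.expUnitary s, ?_⟩
  rw [selfAdjoint.expUnitary_coe]
  have hre : cfc (fun t => Real.exp (c.re * Lg δ t)) (star g * g) =
      NormedSpace.exp (c.re • lg δ g) := by
    have hsa : IsSelfAdjoint (c.re • lg δ g) := by
      have : IsSelfAdjoint (lg δ g) := star_lg δ g
      exact (IsSelfAdjoint.all c.re).smul this
    rw [← CFC.real_exp_eq_normedSpace_exp hsa]
    unfold lg
    rw [← cfc_const_mul c.re (Lg δ) (star g * g) (continuous_Lg hδ).continuousOn,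
      ← cfc_comp' Real.exp (fun t => c.re * Lg δ t) (star g * g)
        (by fun_prop) ((continuous_Lg hδ).const_mul _ |>.continuousOn) (sa_sq g)]
  rw [hre]
  have hs : (s : A) = c.im • lg δ g := rfl
  rw [hs]
  unfold E
  have hsplit : c • lg δ g = c.re • lg δ g + Complex.I • (c.im • lg δ g) := by
    conv_lhs => rw [← Complex.re_add_im c]
    rw [add_smul, mul_comm, mul_smul, Complex.coe_smul, Complex.coe_smul]
  rw [hsplit]
  let _ : NormedAlgebra ℚ A := NormedAlgebra.restrictScalars ℚ ℂ A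
  apply NormedSpace.exp_add_of_commute
  have : Commute (lg δ g) (lg δ g) := Commute.refl _
  exact ((this.smul_left _).smul_right _).smul_right _

end Pool.Agent.SKB
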