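import Mathlib
import Pool.Agent.SKB.Defs

/-!
# Scalar matrices acting on Hilbert space valued sequences
-/

namespace Pool.Agent.SKB

variable {ι κ : Type} [Fintype ι] [Fintype κ]

lemma OpLe.hilbert {a : κ → ι → ℂ} {s : ℝ} (h : OpLe a s)
    {E : Type*} [NormedAddCommGroup E] [InnerProductSpace ℂ E] (x : ι → E) :
    ∑ k, ‖∑ j, a k j • x j‖ ^ 2 ≤ s ^ 2 * ∑ j, ‖x j‖ ^ 2 := by
  classical
  let S : Submodule ℂ E := Submodule.span ℂ (Set.range x)
  have : FiniteDimensional ℂ S := FiniteDimensional.span_of_finite ℂ (Set.finite_range x)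
  let e := stdOrthonormalBasis ℂ S
  let x' : ι → S := fun j => ⟨x j, Submodule.subset_span ⟨j, rfl⟩⟩
  have hx : ∀ j, ‖x j‖ ^ 2 = ∑ m, ‖inner ℂ (e m) (x' j)‖ ^ 2 := by
    intro j
    rw [e.sum_sq_norm_inner_right]
    rfl
  have hk : ∀ k, ‖∑ j, a k j • x j‖ ^ 2 = ∑ m, ‖∑ j, a k j * inner ℂ (e m) (x' j)‖ ^ 2 := by
    intro k
    have h1 : ‖∑ j, a k j • x j‖ = ‖∑ j, a k j • x' j‖ := by
      rw [← Submodule.norm_coe]
      congr 1
      simp [x']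
    rw [h1, ← e.sum_sq_norm_inner_right]
    refine Finset.sum_congr rfl fun m _ => ?_
    rw [inner_sum]
    simp only [inner_smul_right]
  calc ∑ k, ‖∑ j, a k j • x j‖ ^ 2 = ∑ k, ∑ m, ‖∑ j, a k j * inner ℂ (e m) (x' j)‖ ^ 2 :=
        Finset.sum_congr rfl fun k _ => hk k
    _ = ∑ m, ∑ k, ‖∑ j, a k j * inner ℂ (e m) (x' j)‖ ^ 2 := Finset.sum_comm
    _ ≤ ∑ m, s ^ 2 * ∑ j, ‖inner ℂ (e m) (x' j)‖ ^ 2 :=
        Finset.sum_le_sum fun m _ => h (fun j => inner ℂ (e m) (x' j))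
    _ = s ^ 2 * ∑ j, ‖x j‖ ^ 2 := by
        rw [← Finset.mul_sum, Finset.sum_comm]
        congr 1
        exact Finset.sum_congr rfl fun j _ => (hx j).symm

lemma OpLe.hilbert_bilin {a : κ → ι → ℂ} {s : ℝ} (hs : 0 ≤ s) (h : OpLe a s)
    {E : Type*} [NormedAddCommGroup E] [InnerProductSpace ℂ E] (x : ι → E) (y : κ → E) :
    ‖∑ k, ∑ j, a k j * inner ℂ (y k) (x j)‖ ≤
      s * √(∑ j, ‖x j‖ ^ 2) * √(∑ k, ‖y k‖ ^ 2) := by
  have e : ∑ k, ∑ j, a k j * inner ℂ (y k) (x j) = ∑ k, inner ℂ (y k) (∑ j, a k j • x j) := by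
    refine Finset.sum_congr rfl fun k _ => ?_
    rw [inner_sum]
    simp only [inner_smul_right]
  rw [e]
  calc ‖∑ k, inner ℂ (y k) (∑ j, a k j • x j)‖ ≤ ∑ k, ‖y k‖ * ‖∑ j, a k j • x j‖ :=
        (norm_sum_le _ _).trans (Finset.sum_le_sum fun k _ => norm_inner_le_norm _ _)
    _ ≤ √(∑ k, ‖y k‖ ^ 2) * √(∑ k, ‖∑ j, a k j • x j‖ ^ 2) :=
        Real.sum_mul_le_sqrt_mul_sqrt _ _ _
    _ ≤ √(∑ k, ‖y k‖ ^ 2) * (s * √(∑ j, ‖x j‖ ^ 2)) := by
        gcongr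
        rw [← Real.sqrt_sq hs, ← Real.sqrt_mul (sq_nonneg s)]
        exact Real.sqrt_le_sqrt (h.hilbert x)
    _ = _ := by ring

/-- The conjugate transpose of a matrix has the same bounds. -/
lemma OpLe.adjoint {a : κ → ι → ℂ} {s : ℝ} (hs : 0 ≤ s) (h : OpLe a s) :
    OpLe (fun (j : ι) (k : κ) => (starRingEnd ℂ) (a k j)) s := by
  intro u
  -- `v j = ∑ k conj (a k j) u k`
  set v : ι → ℂ := fun j => ∑ k, (starRingEnd ℂ) (a k j) * u k with hv
  have key : ∑ j, ‖v j‖ ^ 2 ≤ s * √(∑ j, ‖v j‖ ^ 2) * √(∑ k, ‖u k‖ ^ 2) := by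
    have h1 := h.hilbert_bilin hs v u
    have h2 : (∑ k, ∑ j, a k j * inner ℂ (u k) (v j) : ℂ) = ((∑ j, ‖v j‖ ^ 2 : ℝ) : ℂ) := by
      rw [Finset.sum_comm]
      push_cast
      refine Finset.sum_congr rfl fun j _ => ?_
      have : (‖v j‖ : ℂ) ^ 2 = (starRingEnd ℂ) (v j) * v j := by
        rw [← Complex.normSq_eq_conj_mul_self, Complex.normSq_eq_norm_sq]; push_cast; rfl
      rw [this, hv]
      simp only [map_sum, map_mul, Complex.conj_conj, Finset.sum_mul]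
      refine Finset.sum_congr rfl fun k _ => ?_
      simp only [RCLike.inner_apply]
      ring
    rw [h2, Complex.norm_real, Real.norm_of_nonneg (by positivity)] at h1
    exact h1
  change ∑ j, ‖v j‖ ^ 2 ≤ _
  set V := ∑ j, ‖v j‖ ^ 2 with hV
  have hV0 : 0 ≤ V := by positivity
  rcases hV0.eq_or_lt with h0 | h0
  · rw [← h0]; positivity
  · have h3 : √V ≤ s * √(∑ k, ‖u k‖ ^ 2) := by
      have h4 : √V * √V ≤ √V * (s * √(∑ k, ‖u k‖ ^ 2)) := by
        rw [Real.mul_self_sqrt hV0]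
        linarith [key]
      exact le_of_mul_le_mul_left h4 (Real.sqrt_pos.2 h0)
    calc V = √V ^ 2 := (Real.sq_sqrt hV0).symm
      _ ≤ (s * √(∑ k, ‖u k‖ ^ 2)) ^ 2 := by gcongr
      _ = s ^ 2 * ∑ k, ‖u k‖ ^ 2 := by
          rw [mul_pow, Real.sq_sqrt (by positivity)]

lemma RegLe.adjoint {a : κ → ι → ℂ} {r : ℝ} (h : RegLe a r) :
    RegLe (fun (j : ι) (k : κ) => (starRingEnd ℂ) (a k j)) r := by
  intro u w hu hw
  have := h w u hw hu
  rw [Finset.sum_comm] at this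
  simp only [RCLike.norm_conj]
  calc _ = ∑ j, ∑ k, ‖a k j‖ * w j * u k := by
        refine Finset.sum_congr rfl fun j _ => Finset.sum_congr rfl fun k _ => by ring
    _ ≤ _ := this
    _ = _ := by ring

lemma RegLe.transpose {a : κ → ι → ℂ} {r : ℝ} (h : RegLe a r) :
    RegLe (fun (j : ι) (k : κ) => a k j) r := by
  have := h.adjoint
  simpa [RegLe, RCLike.norm_conj] using this

lemma OpLe.transpose {a : κ → ι → ℂ} {s : ℝ} (hs : 0 ≤ s) (h : OpLe a s) :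
    OpLe (fun (j : ι) (k : κ) => a k j) s := by
  intro u
  have := h.adjoint hs (fun k => (starRingEnd ℂ) (u k))
  simp only [← map_mul, ← map_sum, RCLike.norm_conj] at this
  exact this

end Pool.Agent.SKB
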