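import Mathlib
import Pool.Agent.SKB.FC
import Pool.Agent.SKB.HilbertOp

/-!
# The three lines argument for families in a C*-algebra with trace
-/

open scoped ENNReal NNReal ComplexOrder Topology
open Filter

namespace Pool.Agent.SKB

variable {A : Type*} [CStarAlgebra A] [PartialOrder A] [StarOrderedRing A]

/-- Truncated element `g χ(g*g)`. -/
noncomputable def trn (δ : ℝ) (g : A) : A := g * cfc (fun t : ℝ => cut δ t ^ 2) (star g * g)

/-- `Phi δ g c = g χ(g*g) (g*g)^c`. -/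
noncomputable def Phi (δ : ℝ) (g : A) (c : ℂ) : A := trn δ g * E δ g c

omit [PartialOrder A] [StarOrderedRing A] in
lemma exists_unitary_Phi {δ : ℝ} (hδ : 0 < δ) (g : A) (c : ℂ) :
    ∃ U : unitary A, Phi δ g c =
      g * cfc (fun t => cut δ t ^ 2 * Real.exp (c.re * Lg δ t)) (star g * g) * (U : A) := by
  obtain ⟨U, hU⟩ := exists_unitary_E hδ g c
  have hL := continuous_Lg hδ
  refine ⟨U, ?_⟩
  unfold Phi trn
  rw [hU, cfc_mul (fun t => cut δ t ^ 2) (fun t => Real.exp (c.re * Lg δ t)) (star g * g)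
    (by fun_prop) (by fun_prop)]
  noncomm_ring

variable (τ : TraceWt A)

/-- Truncated moment `τ(χ(|g|²) |g|^u)`. -/
noncomputable def tmom (δ u : ℝ) (g : A) : ℝ≥0∞ :=
  τ (cfc (fun t : ℝ => cut δ t ^ 2 * t ^ (u / 2)) (star g * g))

variable {τ}

lemma continuous_tfun (δ : ℝ) {u : ℝ} (hu : 0 ≤ u) :
    Continuous (fun t : ℝ => cut δ t ^ 2 * t ^ (u / 2)) := by
  refine ((continuous_cut δ).pow 2).mul ?_
  exact Real.continuous_rpow_const (by positivity)

lemma pointwise_sq {δ : ℝ} (hδ : 0 < δ) (e : ℝ) {t : ℝ} (ht : 0 ≤ t) :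
    (cut δ t ^ 2 * Real.exp (e * Lg δ t)) ^ 2 * t ≤ cut δ t ^ 2 * t ^ (2 * e + 1) := by
  rcases le_or_gt t δ with h | h
  · rw [cut_eq_zero hδ h]; simp
  · rw [exp_Lg hδ h.le]
    have ht0 : 0 < t := hδ.trans h
    have e1 : (cut δ t ^ 2 * t ^ e) ^ 2 * t = cut δ t ^ 2 * (cut δ t ^ 2 * t ^ (2 * e + 1)) := by
      rw [Real.rpow_add ht0, Real.rpow_one, two_mul, Real.rpow_add ht0]; ring
    rw [e1]
    have h1 : cut δ t ^ 2 ≤ 1 := by
      have := cut_nonneg δ t
      have := cut_le_one δ t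
      nlinarith
    have h2 : 0 ≤ t ^ (2 * e + 1) := Real.rpow_nonneg ht _
    have h3 : 0 ≤ cut δ t ^ 2 := sq_nonneg _
    calc cut δ t ^ 2 * (cut δ t ^ 2 * t ^ (2 * e + 1)) ≤ cut δ t ^ 2 * (1 * t ^ (2 * e + 1)) := by
          gcongr
      _ = _ := by ring

lemma Phi_q_le {δ : ℝ} (hδ : 0 < δ) (g : A) {u : ℝ} (hu : 0 < u) {c : ℂ}
    (hc : c.re = u / 4 - 1 / 2) (hfin : tmom τ δ u g < ∞) :
    τ.q (Phi δ g c) ≤ (tmom τ δ u g).toReal := by
  obtain ⟨U, hU⟩ := exists_unitary_Phi hδ g c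
  have hL := continuous_Lg hδ
  rw [hU, q_mul_unitary, fam_q g (by fun_prop)]
  apply ENNReal.toReal_mono hfin.ne
  apply tau_cfc_mono g (by fun_prop) (continuous_tfun δ hu.le).continuousOn
  · intro t ht; positivity
  · intro t ht _
    have := pointwise_sq hδ c.re ht
    rw [show 2 * c.re + 1 = u / 2 by rw [hc]; ring] at this
    exact this

lemma trn_Fin2 {δ : ℝ} (hδ : 0 < δ) (g : A) {u : ℝ} (hu : 0 < u) (hfin : tmom τ δ u g < ∞) :
    τ.Fin2 (trn δ g) := by
  unfold trn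
  rw [fam_Fin2 g (by fun_prop)]
  apply tau_cfc_lt_top g (by fun_prop) (continuous_tfun δ hu.le).continuousOn
    (C := δ ^ (1 - u / 2) + (‖g‖ ^ 2) ^ (1 - u / 2)) _ (by positivity) _ _ hfin
  · intro t ht; positivity
  · intro t ht htg
    rcases le_or_gt t δ with h | h
    · rw [cut_eq_zero hδ h]; simp
    · have ht0 : 0 < t := hδ.trans h
      have h1 : cut δ t ^ 2 ≤ 1 := by
        have := cut_nonneg δ t
        have := cut_le_one δ t
        nlinarith
      have h2 : t ^ (1 - u / 2) ≤ δ ^ (1 - u / 2) + (‖g‖ ^ 2) ^ (1 - u / 2) := by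
        rcases le_total 0 (1 - u / 2) with h0 | h0
        · have := Real.rpow_le_rpow ht htg h0
          have : 0 ≤ δ ^ (1 - u / 2) := by positivity
          linarith
        · have := Real.rpow_le_rpow_of_nonpos hδ h.le h0
          have : 0 ≤ (‖g‖ ^ 2) ^ (1 - u / 2) := by positivity
          linarith
      have h3 : t = t ^ (1 - u / 2) * t ^ (u / 2) := by
        rw [← Real.rpow_add ht0]; simp
      calc (cut δ t ^ 2) ^ 2 * t = cut δ t ^ 2 * (cut δ t ^ 2 * t) := by ring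
        _ ≤ 1 * (cut δ t ^ 2 * t) := by gcongr
        _ = t ^ (1 - u / 2) * (cut δ t ^ 2 * t ^ (u / 2)) := by
            rw [one_mul]; nth_rewrite 2 [h3]; ring
        _ ≤ _ := by gcongr
  · intro t ht; positivity

lemma Phi_Fin2 {δ : ℝ} (hδ : 0 < δ) (g : A) {u : ℝ} (hu : 0 < u) (hfin : tmom τ δ u g < ∞)
    (c : ℂ) : τ.Fin2 (Phi δ g c) :=
  (trn_Fin2 hδ g hu hfin).mul_right _

lemma Phi_norm_le {δ : ℝ} (hδ : 0 < δ) (g : A) {c : ℂ} (hc : c.re = -1 / 2) :
    ‖Phi δ g c‖ ≤ 1 := by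
  obtain ⟨U, hU⟩ := exists_unitary_Phi hδ g c
  have hL := continuous_Lg hδ
  rw [hU]
  have h1 : ‖g * cfc (fun t => cut δ t ^ 2 * Real.exp (c.re * Lg δ t)) (star g * g)‖ ≤ 1 := by
    apply fam_norm_le g (by fun_prop) zero_le_one
    intro t ht _
    have := pointwise_sq hδ c.re ht
    rw [show 2 * c.re + 1 = 0 by rw [hc]; ring, Real.rpow_zero, mul_one] at this
    have h0 := cut_nonneg δ t
    have h1 := cut_le_one δ t
    nlinarith
  rcases subsingleton_or_nontrivial A with hA | hA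
  · have h0 : ∀ x : A, ‖x‖ = 0 := fun x => by rw [Subsingleton.elim x 0, norm_zero]
    rw [h0]; exact zero_le_one
  · have hU1 : ‖(U : A)‖ ≤ 1 := (CStarRing.norm_coe_unitary U).le
    calc _ ≤ ‖g * cfc (fun t => cut δ t ^ 2 * Real.exp (c.re * Lg δ t)) (star g * g)‖ * ‖(U : A)‖ :=
          norm_mul_le _ _
      _ ≤ 1 * 1 := by gcongr
      _ = 1 := by ring

lemma Phi_ip_le {δ : ℝ} (hδ : 0 < δ) (h : A) {v : ℝ} {c : ℂ}
    (hc : c.re = v / 2 - 1 / 2) (hfin : tmom τ δ v h < ∞) {X : A} (hX : τ.Fin2 X) :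
    ‖τ.ip (Phi δ h c) X‖ ≤ ‖X‖ * (tmom τ δ v h).toReal := by
  obtain ⟨U, hU⟩ := exists_unitary_Phi hδ h c
  have hL := continuous_Lg hδ
  set b := star h * h with hb
  set ψa : ℝ → ℝ := fun t => cut δ t * Real.exp ((v / 4 - 1 / 2) * Lg δ t) with hψa
  set ψb : ℝ → ℝ := fun t => cut δ t * Real.exp (v / 4 * Lg δ t) with hψb
  have hca : Continuous ψa := by fun_prop
  have hcb : Continuous ψb := by fun_prop
  have hsplit : cfc (fun t => cut δ t ^ 2 * Real.exp (c.re * Lg δ t)) b = cfc ψa b * cfc ψb b := by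
    rw [← cfc_mul ψa ψb b (by fun_prop) (by fun_prop)]
    refine cfc_congr fun t _ => ?_
    simp only [hψa, hψb]
    rw [show c.re * Lg δ t = (v / 4 - 1 / 2) * Lg δ t + v / 4 * Lg δ t by rw [hc]; ring,
      Real.exp_add]
    ring
  have hpw : ∀ t : ℝ, 0 ≤ t → ψa t ^ 2 * t = cut δ t ^ 2 * t ^ (v / 2) := by
    intro t ht
    rcases le_or_gt t δ with h' | h'
    · simp only [hψa]
      rw [cut_eq_zero hδ h']; simp
    · simp only [hψa]
      have ht0 : 0 < t := hδ.trans h'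
      rw [exp_Lg hδ h'.le, show v / 2 = (v / 4 - 1 / 2) + (v / 4 - 1 / 2) + 1 by ring,
        Real.rpow_add ht0, Real.rpow_add ht0, Real.rpow_one]
      ring
  have hpw2 : ∀ t : ℝ, 0 ≤ t → ψb t * ψb t = cut δ t ^ 2 * t ^ (v / 2) := by
    intro t ht
    rcases le_or_gt t δ with h' | h'
    · simp only [hψb]
      rw [cut_eq_zero hδ h']; simp
    · simp only [hψb]
      have ht0 : 0 < t := hδ.trans h'
      rw [exp_Lg hδ h'.le, show v / 2 = v / 4 + v / 4 by ring, Real.rpow_add ht0]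
      ring
  have hqa : τ.q (h * cfc ψa b) = (tmom τ δ v h).toReal := by
    rw [hb, fam_q h hca]
    unfold tmom
    congr 2
    exact cfc_congr fun t ht => hpw t (spec_nonneg h ht)
  have hFa : τ.Fin2 (h * cfc ψa b) := by
    rw [hb, fam_Fin2 h hca]
    have : cfc (fun t => ψa t ^ 2 * t) (star h * h) =
        cfc (fun t : ℝ => cut δ t ^ 2 * t ^ (v / 2)) (star h * h) :=
      cfc_congr fun t ht => hpw t (spec_nonneg h ht)
    rw [this]
    exact hfin
  have hbb : star (cfc ψb b) * cfc ψb b = cfc (fun t : ℝ => cut δ t ^ 2 * t ^ (v / 2)) b := by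
    rw [star_cfc_real, ← cfc_mul ψb ψb b (by fun_prop) (by fun_prop)]
    exact cfc_congr fun t ht => hpw2 t (spec_nonneg h ht)
  have hqb : τ.q (cfc ψb b) = (tmom τ δ v h).toReal := by
    unfold TraceWt.q; rw [hbb]; rfl
  have hFb : τ.Fin2 (cfc ψb b) := by
    unfold TraceWt.Fin2; rw [hbb]; exact hfin
  have hX' : τ.Fin2 (X * star (U : A)) := hX.mul_right _
  have hXn : ‖X * star (U : A)‖ ≤ ‖X‖ := by
    rcases subsingleton_or_nontrivial A with hA | hA
    · rw [Subsingleton.elim (X * star (U : A)) X]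
    · calc _ ≤ ‖X‖ * ‖star (U : A)‖ := norm_mul_le _ _
        _ = ‖X‖ := by rw [norm_star, CStarRing.norm_coe_unitary, mul_one]
  have key : τ.ip (Phi δ h c) X = τ.ip (h * cfc ψa b) (X * star (U : A) * cfc ψb b) := by
    have hF1 : τ.Fin2 (h * (cfc ψa b * cfc ψb b)) := by
      rw [← mul_assoc]; exact hFa.mul_right _
    rw [hU, hsplit, TraceWt.ip_mul_right hF1 hX, ← mul_assoc, TraceWt.ip_mul_right hFa hX',
      star_cfc_real]
  rw [key]
  have hq2 : τ.q (X * star (U : A) * cfc ψb b) ≤ ‖X‖ ^ 2 * (tmom τ δ v h).toReal := by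
    calc _ ≤ ‖X * star (U : A)‖ ^ 2 * τ.q (cfc ψb b) := τ.q_mul_left_le _ hFb
      _ ≤ ‖X‖ ^ 2 * (tmom τ δ v h).toReal := by
          rw [hqb]; gcongr
  calc _ ≤ √(τ.q (h * cfc ψa b)) * √(τ.q (X * star (U : A) * cfc ψb b)) :=
        τ.norm_ip_le hFa (hX'.mul_right _)
    _ ≤ √((tmom τ δ v h).toReal) * √(‖X‖ ^ 2 * (tmom τ δ v h).toReal) := by
        rw [hqa]; gcongr
    _ = ‖X‖ * (tmom τ δ v h).toReal := by
        rw [Real.sqrt_mul (sq_nonneg _), Real.sqrt_sq (norm_nonneg _)]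
        have := Real.mul_self_sqrt (ENNReal.toReal_nonneg (a := tmom τ δ v h))
        linear_combination ‖X‖ * this

/-! ### Analyticity -/

lemma TraceWt.ip_add_right {x y y' : A} (hx : τ.Fin2 x) (hy : τ.Fin2 y) (hy' : τ.Fin2 y') :
    τ.ip x (y + y') = τ.ip x y + τ.ip x y' := by
  rw [← TraceWt.ip_conj, TraceWt.ip_add_left hy hy' hx, _root_.map_add, TraceWt.ip_conj,
    TraceWt.ip_conj]

lemma TraceWt.ip_smul_right {x y : A} (hx : τ.Fin2 x) (hy : τ.Fin2 y) (c : ℂ) :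
    τ.ip x (c • y) = c * τ.ip x y := by
  rw [← TraceWt.ip_conj, TraceWt.ip_smul_left hy hx, _root_.map_mul, TraceWt.ip_conj,
    Complex.conj_conj]

/-- The functional `b ↦ τ(x* y b)`. -/
noncomputable def lfun {x y : A} (hx : τ.Fin2 x) (hy : τ.Fin2 y) : A →L[ℂ] ℂ :=
  LinearMap.mkContinuous
    { toFun := fun b => τ.ip x (y * b)
      map_add' := fun b b' => by
        rw [mul_add, TraceWt.ip_add_right hx (hy.mul_right _) (hy.mul_right _)]
      map_smul' := fun c b => by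
        rw [mul_smul_comm, TraceWt.ip_smul_right hx (hy.mul_right _)]; rfl }
    (√(τ.q x) * √(τ.q y)) (fun b => by
      change ‖τ.ip x (y * b)‖ ≤ _
      refine (τ.norm_ip_le hx (hy.mul_right b)).trans ?_
      have := τ.q_mul_right_le b hy
      calc √(τ.q x) * √(τ.q (y * b)) ≤ √(τ.q x) * √(‖b‖ ^ 2 * τ.q y) := by gcongr
        _ = √(τ.q x) * √(τ.q y) * ‖b‖ := by
            rw [Real.sqrt_mul (sq_nonneg _), Real.sqrt_sq (norm_nonneg _)]; ring)

lemma lfun_apply {x y : A} (hx : τ.Fin2 x) (hy : τ.Fin2 y) (b : A) :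
    lfun hx hy b = τ.ip x (y * b) := rfl

omit [PartialOrder A] [StarOrderedRing A] in
lemma differentiable_E (δ : ℝ) (g : A) : Differentiable ℂ (fun c : ℂ => E δ g c) := by
  intro c
  unfold E
  exact (hasDerivAt_exp_smul_const (lg δ g) c).differentiableAt

omit [PartialOrder A] [StarOrderedRing A] in
lemma norm_E_le {δ : ℝ} (hδ : 0 < δ) (g : A) : ∃ M : ℝ, 0 ≤ M ∧ ∀ c : ℂ,
    ‖E δ g c‖ ≤ Real.exp (|c.re| * M) := by
  have hL := continuous_Lg hδ
  refine ⟨|Real.log δ| + |Real.log (max (‖g‖ ^ 2) δ)|, by positivity, fun c => ?_⟩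
  obtain ⟨U, hU⟩ := exists_unitary_E hδ g c
  rw [hU]
  rcases subsingleton_or_nontrivial A with hA | hA
  · have h0 : ∀ x : A, ‖x‖ = 0 := fun x => by rw [Subsingleton.elim x 0, norm_zero]
    rw [h0]; positivity
  · calc _ ≤ ‖cfc (fun t => Real.exp (c.re * Lg δ t)) (star g * g)‖ * ‖(U : A)‖ := norm_mul_le _ _
      _ = ‖cfc (fun t => Real.exp (c.re * Lg δ t)) (star g * g)‖ := by
          rw [CStarRing.norm_coe_unitary, mul_one]
      _ ≤ _ := by
          refine norm_cfc_le (Real.exp_pos _).le fun t ht => ?_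
          rw [Real.norm_of_nonneg (Real.exp_pos _).le]
          apply Real.exp_le_exp.2
          have htg := spec_le g ht
          have h1 : Real.log δ ≤ Lg δ t := by
            unfold Lg
            exact Real.log_le_log hδ (le_max_right _ _)
          have h2 : Lg δ t ≤ Real.log (max (‖g‖ ^ 2) δ) := by
            unfold Lg
            apply Real.log_le_log (lt_of_lt_of_le hδ (le_max_right _ _))
            exact max_le_max_right δ htg
          have h3 : |Lg δ t| ≤ |Real.log δ| + |Real.log (max (‖g‖ ^ 2) δ)| := by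
            rw [abs_le]
            constructor
            · have := neg_abs_le (Real.log δ)
              have := abs_nonneg (Real.log (max (‖g‖ ^ 2) δ))
              linarith
            · have := le_abs_self (Real.log (max (‖g‖ ^ 2) δ))
              have := abs_nonneg (Real.log δ)
              linarith
          calc c.re * Lg δ t ≤ |c.re * Lg δ t| := le_abs_self _
            _ = |c.re| * |Lg δ t| := abs_mul _ _
            _ ≤ _ := by gcongr

/-- **Three lines**: the bilinear interpolation inequality. -/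
theorem three_lines {ι κ : Type} [Fintype ι] [Fintype κ] {a : κ → ι → ℂ} {r s : ℝ}
    (hr : 0 ≤ r) (hs : 0 ≤ s) (hreg : RegLe a r) (hop : OpLe a s)
    (g : ι → A) (h : κ → A) {δ : ι → ℝ} {ε : κ → ℝ} (hδ : ∀ j, 0 < δ j) (hε : ∀ k, 0 < ε k)
    {u v : ℝ} (hu : 0 < u) (hv : 0 < v) {ρ : ι → ℝ} {σ : κ → ℝ} (hρ : ∀ j, 0 < ρ j)
    (hσ : ∀ k, 0 < σ k)
    (hg : ∀ j, tmom τ (δ j) u (g j) ≤ ENNReal.ofReal (ρ j ^ u))
    (hh : ∀ k, tmom τ (ε k) v (h k) ≤ ENNReal.ofReal (σ k ^ v))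
    {θ : ℝ} (hθ0 : 0 ≤ θ) (hθ1 : θ ≤ 1) :
    ‖∑ k, ∑ j, a k j * ((ρ j ^ (1 - u * (1 - θ) / 2) * σ k ^ (1 - v * (1 + θ) / 2) : ℝ) : ℂ) *
        τ.ip (Phi (ε k) (h k) ((v * (1 + θ) / 4 - 1 / 2 : ℝ) : ℂ))
          (Phi (δ j) (g j) ((u * (1 - θ) / 4 - 1 / 2 : ℝ) : ℂ))‖ ≤
      s ^ (1 - θ) * r ^ θ * (√(∑ j, ρ j ^ 2) * √(∑ k, σ k ^ 2)) := by
  classical
  have hgf : ∀ j, tmom τ (δ j) u (g j) < ∞ := fun j => (hg j).trans_lt ENNReal.ofReal_lt_top
  have hhf : ∀ k, tmom τ (ε k) v (h k) < ∞ := fun k => (hh k).trans_lt ENNReal.ofReal_lt_top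
  have hgt : ∀ j, τ.Fin2 (trn (δ j) (g j)) := fun j => trn_Fin2 (hδ j) (g j) hu (hgf j)
  have hht : ∀ k, τ.Fin2 (trn (ε k) (h k)) := fun k => trn_Fin2 (hε k) (h k) hv (hhf k)
  have hgr : ∀ j, (tmom τ (δ j) u (g j)).toReal ≤ ρ j ^ u := fun j => by
    have := ENNReal.toReal_mono ENNReal.ofReal_lt_top.ne (hg j)
    rwa [ENNReal.toReal_ofReal (Real.rpow_nonneg (hρ j).le _)] at this
  have hhr : ∀ k, (tmom τ (ε k) v (h k)).toReal ≤ σ k ^ v := fun k => by
    have := ENNReal.toReal_mono ENNReal.ofReal_lt_top.ne (hh k)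
    rwa [ENNReal.toReal_ofReal (Real.rpow_nonneg (hσ k).le _)] at this
  -- scalar analytic factors
  let c : ℂ → ℂ := fun z => u * (1 - z) / 4 - 1 / 2
  let d : ℂ → ℂ := fun z => v * (1 + z) / 4 - 1 / 2
  let R : ι → ℂ → ℂ := fun j z => Complex.exp ((1 - u * (1 - z) / 2) * (Real.log (ρ j) : ℂ))
  let S : κ → ℂ → ℂ := fun k z => Complex.exp ((1 - v * (1 + z) / 2) * (Real.log (σ k) : ℂ))
  have hcre : ∀ z, (c z).re = u * (1 - z.re) / 4 - 1 / 2 := fun z => by
    simp [c]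
  have hdre : ∀ z, (d z).re = v * (1 + z.re) / 4 - 1 / 2 := fun z => by
    simp [d]
  have hR : ∀ j z, ‖R j z‖ = ρ j ^ (1 - u * (1 - z.re) / 2) := fun j z => by
    simp only [R]
    rw [Complex.norm_exp, Real.rpow_def_of_pos (hρ j)]
    congr 1
    simp; ring
  have hS : ∀ k z, ‖S k z‖ = σ k ^ (1 - v * (1 + z.re) / 2) := fun k z => by
    simp only [S]
    rw [Complex.norm_exp, Real.rpow_def_of_pos (hσ k)]
    congr 1
    simp; ring
  let F : ℂ → ℂ := fun z => ∑ k, ∑ j, a k j * (R j z * S k z) *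
    lfun (hht k) (hgt j) (E (δ j) (g j) (c z) * E (ε k) (h k) (d z))
  have hFdiff : Differentiable ℂ F := by
    have hE1 : ∀ j, Differentiable ℂ (fun z => E (δ j) (g j) (c z)) := fun j =>
      (differentiable_E (δ j) (g j)).comp (by simp only [c]; fun_prop)
    have hE2 : ∀ k, Differentiable ℂ (fun z => E (ε k) (h k) (d z)) := fun k =>
      (differentiable_E (ε k) (h k)).comp (by simp only [d]; fun_prop)
    have hRd : ∀ j, Differentiable ℂ (R j) := fun j => by simp only [R]; fun_prop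
    have hSd : ∀ k, Differentiable ℂ (S k) := fun k => by simp only [S]; fun_prop
    simp only [F]
    refine Differentiable.fun_sum fun k _ => Differentiable.fun_sum fun j _ => ?_
    refine Differentiable.mul (((hRd j).mul (hSd k)).const_mul _) ?_
    exact (lfun (hht k) (hgt j)).differentiable.comp ((hE1 j).mul (hE2 k))
  -- the vectors
  let X : ι → ℂ → A := fun j z => R j z • Phi (δ j) (g j) (c z)
  let Y : κ → ℂ → A := fun k z =>
    (starRingEnd ℂ) (S k z) • Phi (ε k) (h k) ((starRingEnd ℂ) (d z))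
  have hX : ∀ j z, τ.Fin2 (X j z) := fun j z => (Phi_Fin2 (hδ j) (g j) hu (hgf j) _).smul _
  have hY : ∀ k z, τ.Fin2 (Y k z) := fun k z => (Phi_Fin2 (hε k) (h k) hv (hhf k) _).smul _
  have hFeq : ∀ z, F z = ∑ k, ∑ j, a k j * τ.ip (Y k z) (X j z) := by
    intro z
    simp only [F]
    refine Finset.sum_congr rfl fun k _ => Finset.sum_congr rfl fun j _ => ?_
    have e1 : τ.ip (Y k z) (X j z) = S k z * (R j z *
        τ.ip (Phi (ε k) (h k) ((starRingEnd ℂ) (d z))) (Phi (δ j) (g j) (c z))) := by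
      simp only [X, Y]
      rw [TraceWt.ip_smul_left (Phi_Fin2 (hε k) (h k) hv (hhf k) _) (hX j z),
        TraceWt.ip_smul_right (Phi_Fin2 (hε k) (h k) hv (hhf k) _)
          (Phi_Fin2 (hδ j) (g j) hu (hgf j) _), Complex.conj_conj]
    have e2 : τ.ip (Phi (ε k) (h k) ((starRingEnd ℂ) (d z))) (Phi (δ j) (g j) (c z)) =
        lfun (hht k) (hgt j) (E (δ j) (g j) (c z) * E (ε k) (h k) (d z)) := by
      rw [lfun_apply]
      unfold Phi
      rw [TraceWt.ip_mul_right (hht k) ((hgt j).mul_right _), star_E, Complex.conj_conj, mul_assoc]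
    rw [e1, e2]
    ring
  -- boundary Re z = 0
  have hB0 : ∀ z ∈ Complex.re ⁻¹' {(0 : ℝ)}, ‖F z‖ ≤ s * (√(∑ j, ρ j ^ 2) * √(∑ k, σ k ^ 2)) := by
    intro z hz
    have hz0 : z.re = 0 := hz
    rw [hFeq z]
    have h1 := hop.hilbert_bilin hs (fun j => TraceWt.jj τ ⟨X j z, hX j z⟩)
      (fun k => TraceWt.jj τ ⟨Y k z, hY k z⟩)
    simp only [TraceWt.inner_jj, TraceWt.norm_jj_sq] at h1
    refine h1.trans ?_
    rw [mul_assoc]
    have hqX : ∀ j, τ.q (X j z) ≤ ρ j ^ 2 := by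
      intro j
      simp only [X]
      rw [TraceWt.q_smul, hR, hz0]
      have h2 : τ.q (Phi (δ j) (g j) (c z)) ≤ ρ j ^ u :=
        (Phi_q_le (hδ j) (g j) hu (by rw [hcre, hz0]; ring) (hgf j)).trans (hgr j)
      calc (ρ j ^ (1 - u * (1 - 0) / 2)) ^ 2 * τ.q (Phi (δ j) (g j) (c z))
          ≤ (ρ j ^ (1 - u * (1 - 0) / 2)) ^ 2 * ρ j ^ u := by gcongr
        _ = ρ j ^ 2 := by
            rw [← Real.rpow_natCast (ρ j ^ _) 2, ← Real.rpow_mul (hρ j).le,
              ← Real.rpow_add (hρ j), ← Real.rpow_natCast (ρ j) 2]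
            congr 1
            push_cast
            ring
    have hqY : ∀ k, τ.q (Y k z) ≤ σ k ^ 2 := by
      intro k
      simp only [Y]
      rw [TraceWt.q_smul, RCLike.norm_conj, hS, hz0]
      have h2 : τ.q (Phi (ε k) (h k) ((starRingEnd ℂ) (d z))) ≤ σ k ^ v :=
        (Phi_q_le (hε k) (h k) hv (by rw [Complex.conj_re, hdre, hz0]; ring) (hhf k)).trans (hhr k)
      calc (σ k ^ (1 - v * (1 + 0) / 2)) ^ 2 * τ.q (Phi (ε k) (h k) ((starRingEnd ℂ) (d z)))
          ≤ (σ k ^ (1 - v * (1 + 0) / 2)) ^ 2 * σ k ^ v := by gcongr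
        _ = σ k ^ 2 := by
            rw [← Real.rpow_natCast (σ k ^ _) 2, ← Real.rpow_mul (hσ k).le,
              ← Real.rpow_add (hσ k), ← Real.rpow_natCast (σ k) 2]
            congr 1
            push_cast
            ring
    have hsX := Real.sqrt_le_sqrt (Finset.sum_le_sum fun j (_ : j ∈ Finset.univ) => hqX j)
    have hsY := Real.sqrt_le_sqrt (Finset.sum_le_sum fun k (_ : k ∈ Finset.univ) => hqY k)
    gcongr
  -- boundary Re z = 1
  have hB1 : ∀ z ∈ Complex.re ⁻¹' {(1 : ℝ)}, ‖F z‖ ≤ r * (√(∑ j, ρ j ^ 2) * √(∑ k, σ k ^ 2)) := by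
    intro z hz
    have hz1 : z.re = 1 := hz
    rw [hFeq z]
    have hXn : ∀ j, ‖X j z‖ ≤ ρ j := by
      intro j
      simp only [X]
      rw [norm_smul, hR, hz1]
      have := Phi_norm_le (hδ j) (g j) (c := c z) (by rw [hcre, hz1]; ring)
      have hp : 0 ≤ ρ j ^ (1 - u * (1 - 1) / 2) := Real.rpow_nonneg (hρ j).le _
      calc ρ j ^ (1 - u * (1 - 1) / 2) * ‖Phi (δ j) (g j) (c z)‖
          ≤ ρ j ^ (1 - u * (1 - 1) / 2) * 1 := by gcongr
        _ = ρ j := by simp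
    have hip : ∀ k j, ‖τ.ip (Y k z) (X j z)‖ ≤ ρ j * σ k := by
      intro k j
      simp only [Y]
      rw [TraceWt.ip_smul_left (Phi_Fin2 (hε k) (h k) hv (hhf k) _) (hX j z), norm_mul,
        Complex.conj_conj, hS, hz1]
      have h2 := Phi_ip_le (hε k) (h k) (c := (starRingEnd ℂ) (d z))
        (by rw [Complex.conj_re, hdre, hz1]; ring) (hhf k) (hX j z)
      have hp : 0 ≤ σ k ^ (1 - v * (1 + 1) / 2) := Real.rpow_nonneg (hσ k).le _
      calc σ k ^ (1 - v * (1 + 1) / 2) *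
            ‖τ.ip (Phi (ε k) (h k) ((starRingEnd ℂ) (d z))) (X j z)‖
          ≤ σ k ^ (1 - v * (1 + 1) / 2) * (ρ j * σ k ^ v) := by
            gcongr
            exact h2.trans (mul_le_mul (hXn j) (hhr k) ENNReal.toReal_nonneg (hρ j).le)
        _ = ρ j * (σ k ^ (1 - v * (1 + 1) / 2) * σ k ^ v) := by ring
        _ = ρ j * σ k := by
            rw [← Real.rpow_add (hσ k)]
            congr 1
            rw [show 1 - v * (1 + 1) / 2 + v = 1 by ring, Real.rpow_one]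
    calc ‖∑ k, ∑ j, a k j * τ.ip (Y k z) (X j z)‖
        ≤ ∑ k, ∑ j, ‖a k j * τ.ip (Y k z) (X j z)‖ :=
          (norm_sum_le _ _).trans (Finset.sum_le_sum fun k _ => norm_sum_le _ _)
      _ ≤ ∑ k, ∑ j, ‖a k j‖ * ρ j * σ k := by
          refine Finset.sum_le_sum fun k _ => Finset.sum_le_sum fun j _ => ?_
          rw [norm_mul, mul_assoc]
          gcongr
          exact hip k j
      _ ≤ r * √(∑ j, ρ j ^ 2) * √(∑ k, σ k ^ 2) :=
          hreg ρ σ (fun j => (hρ j).le) (fun k => (hσ k).le)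
      _ = _ := by ring
  -- boundedness on the strip
  have hBdd : BddAbove ((norm ∘ F) '' Complex.HadamardThreeLines.verticalClosedStrip 0 1) := by
    choose Mg hMg0 hMg using fun j => norm_E_le (hδ j) (g j)
    choose Mh hMh0 hMh using fun k => norm_E_le (hε k) (h k)
    refine ⟨∑ k, ∑ j, ‖a k j‖ * ((Real.exp ((1 + u) * |Real.log (ρ j)|)) *
      (Real.exp ((1 + v) * |Real.log (σ k)|))) *
      (‖lfun (hht k) (hgt j)‖ * (Real.exp ((u + 1) * Mg j) * Real.exp ((v + 1) * Mh k))), ?_⟩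
    rintro _ ⟨z, hz, rfl⟩
    have hz' : 0 ≤ z.re ∧ z.re ≤ 1 := hz
    obtain ⟨hz0, hz1⟩ := hz'
    simp only [Function.comp_apply, F]
    refine (norm_sum_le _ _).trans (Finset.sum_le_sum fun k _ => ?_)
    refine (norm_sum_le _ _).trans (Finset.sum_le_sum fun j _ => ?_)
    rw [norm_mul, norm_mul, norm_mul]
    have b1 : ‖R j z‖ ≤ Real.exp ((1 + u) * |Real.log (ρ j)|) := by
      rw [hR, Real.rpow_def_of_pos (hρ j)]
      apply Real.exp_le_exp.2
      calc Real.log (ρ j) * (1 - u * (1 - z.re) / 2)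
          ≤ |Real.log (ρ j) * (1 - u * (1 - z.re) / 2)| := le_abs_self _
        _ = |1 - u * (1 - z.re) / 2| * |Real.log (ρ j)| := by rw [abs_mul, mul_comm]
        _ ≤ (1 + u) * |Real.log (ρ j)| := by
            gcongr
            rw [abs_le]
            constructor <;> nlinarith
    have b2 : ‖S k z‖ ≤ Real.exp ((1 + v) * |Real.log (σ k)|) := by
      rw [hS, Real.rpow_def_of_pos (hσ k)]
      apply Real.exp_le_exp.2
      calc Real.log (σ k) * (1 - v * (1 + z.re) / 2)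
          ≤ |Real.log (σ k) * (1 - v * (1 + z.re) / 2)| := le_abs_self _
        _ = |1 - v * (1 + z.re) / 2| * |Real.log (σ k)| := by rw [abs_mul, mul_comm]
        _ ≤ (1 + v) * |Real.log (σ k)| := by
            gcongr
            rw [abs_le]
            constructor <;> nlinarith
    have b3 : ‖E (δ j) (g j) (c z)‖ ≤ Real.exp ((u + 1) * Mg j) := by
      refine (hMg j (c z)).trans (Real.exp_le_exp.2 ?_)
      have := hMg0 j
      gcongr
      rw [hcre, abs_le]
      constructor <;> nlinarith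
    have b4 : ‖E (ε k) (h k) (d z)‖ ≤ Real.exp ((v + 1) * Mh k) := by
      refine (hMh k (d z)).trans (Real.exp_le_exp.2 ?_)
      have := hMh0 k
      gcongr
      rw [hdre, abs_le]
      constructor <;> nlinarith
    have b5 : ‖lfun (hht k) (hgt j) (E (δ j) (g j) (c z) * E (ε k) (h k) (d z))‖ ≤
        ‖lfun (hht k) (hgt j)‖ * (Real.exp ((u + 1) * Mg j) * Real.exp ((v + 1) * Mh k)) := by
      refine (ContinuousLinearMap.le_opNorm _ _).trans ?_
      gcongr
      exact (norm_mul_le _ _).trans (by gcongr)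
    gcongr
  have hmem : ((θ : ℝ) : ℂ) ∈ Complex.HadamardThreeLines.verticalClosedStrip 0 1 := by
    change (0 : ℝ) ≤ ((θ : ℝ) : ℂ).re ∧ ((θ : ℝ) : ℂ).re ≤ 1
    simp [hθ0, hθ1]
  have key := Complex.HadamardThreeLines.norm_le_interp_of_mem_verticalClosedStrip' (f := F)
    (z := (θ : ℂ)) zero_lt_one hmem hFdiff.diffContOnCl hBdd hB0 hB1
  simp only [Complex.ofReal_re, sub_zero, div_one] at key
  have hW : 0 ≤ √(∑ j, ρ j ^ 2) * √(∑ k, σ k ^ 2) := by positivity
  set W := √(∑ j, ρ j ^ 2) * √(∑ k, σ k ^ 2) with hWdef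
  have e1 : (s * W) ^ (1 - θ) * (r * W) ^ θ = s ^ (1 - θ) * r ^ θ * W := by
    rw [Real.mul_rpow hs hW, Real.mul_rpow hr hW]
    have : W ^ (1 - θ) * W ^ θ = W := by
      rw [← Real.rpow_add' hW (by simp)]; simp
    calc _ = s ^ (1 - θ) * r ^ θ * (W ^ (1 - θ) * W ^ θ) := by ring
      _ = _ := by rw [this]
  rw [e1] at key
  refine le_trans (le_of_eq ?_) key
  rw [hFeq]
  congr 1
  refine Finset.sum_congr rfl fun k _ => Finset.sum_congr rfl fun j _ => ?_
  have hRθ : R j (θ : ℂ) = ((ρ j ^ (1 - u * (1 - θ) / 2) : ℝ) : ℂ) := by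
    simp only [R]
    rw [Real.rpow_def_of_pos (hρ j)]
    push_cast
    congr 1
    ring
  have hSθ : S k (θ : ℂ) = ((σ k ^ (1 - v * (1 + θ) / 2) : ℝ) : ℂ) := by
    simp only [S]
    rw [Real.rpow_def_of_pos (hσ k)]
    push_cast
    congr 1
    ring
  have hcθ : c (θ : ℂ) = ((u * (1 - θ) / 4 - 1 / 2 : ℝ) : ℂ) := by
    simp only [c]; push_cast; ring
  have hdθ : d (θ : ℂ) = ((v * (1 + θ) / 4 - 1 / 2 : ℝ) : ℂ) := by
    simp only [d]; push_cast; ring
  simp only [X, Y]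
  rw [TraceWt.ip_smul_left (Phi_Fin2 (hε k) (h k) hv (hhf k) _)
      ((Phi_Fin2 (hδ j) (g j) hu (hgf j) _).smul _),
    TraceWt.ip_smul_right (Phi_Fin2 (hε k) (h k) hv (hhf k) _)
      (Phi_Fin2 (hδ j) (g j) hu (hgf j) _), Complex.conj_conj, hRθ, hSθ, hcθ, hdθ,
    Complex.conj_ofReal]
  push_cast
  ring

end Pool.Agent.SKB
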