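import Mathlib
import Pool.Agent.SKB.ThreeLines

/-!
# Moments `τ(|x|^q)` and the matrix inequality for them
-/

open scoped ENNReal NNReal ComplexOrder Topology
open Filter

namespace Pool.Agent.SKB

variable {A : Type*} [CStarAlgebra A] [PartialOrder A] [StarOrderedRing A]

variable {τ : TraceWt A}

lemma cut_sq_le_one (δ t : ℝ) : cut δ t ^ 2 ≤ 1 := by
  have := cut_nonneg δ t
  have := cut_le_one δ t
  nlinarith

lemma continuous_pw {q : ℝ} (hq : 0 < q) : Continuous (fun t : ℝ => t ^ (q / 2)) :=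
  Real.continuous_rpow_const (by positivity)

lemma tmom_le_mom {q : ℝ} (hq : 0 < q) (δ : ℝ) (x : A) : tmom τ δ q x ≤ mom τ q x := by
  apply tau_cfc_mono x (continuous_tfun δ hq.le).continuousOn (continuous_pw hq).continuousOn
  · intro t ht; positivity
  · intro t ht _
    have := cut_sq_le_one δ t
    have h0 : 0 ≤ t ^ (q / 2) := by positivity
    nlinarith

lemma tmom_anti {q : ℝ} (hq : 0 < q) {δ δ' : ℝ} (hδ' : 0 < δ') (h : δ' ≤ δ) (x : A) :
    tmom τ δ q x ≤ tmom τ δ' q x := by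
  apply tau_cfc_mono x (continuous_tfun δ hq.le).continuousOn (continuous_tfun δ' hq.le).continuousOn
  · intro t ht; positivity
  · intro t ht _
    have h1 := cut_anti hδ' h ht
    have h2 := cut_nonneg δ t
    have h0 : 0 ≤ t ^ (q / 2) := by positivity
    gcongr

/-- Norm approximation by truncated elements. -/
lemma norm_sub_trn_le {η : ℝ} (hη : 0 < η) (x : A) : ‖x - trn η x‖ ≤ √(2 * η) := by
  have e : x - trn η x = x * cfc (fun t : ℝ => 1 - cut η t ^ 2) (star x * x) := by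
    unfold trn
    rw [cfc_sub (fun _ => (1 : ℝ)) (fun t => cut η t ^ 2) (star x * x) (by fun_prop) (by fun_prop),
      cfc_const_one ℝ (star x * x) (sa_sq x), mul_sub, mul_one]
  rw [e]
  apply fam_norm_le x (by fun_prop) (Real.sqrt_nonneg _)
  intro t ht _
  rw [Real.sq_sqrt (by positivity)]
  rcases le_or_gt (2 * η) t with h | h
  · rw [cut_eq_one hη h]; simp; positivity
  · have h1 := cut_sq_le_one η t
    have h2 : 0 ≤ cut η t ^ 2 := sq_nonneg _
    have h3 : (1 - cut η t ^ 2) ^ 2 ≤ 1 := by nlinarith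
    calc (1 - cut η t ^ 2) ^ 2 * t ≤ 1 * (2 * η) := by gcongr
      _ = 2 * η := one_mul _

lemma norm_sum_sub_trn_le {ι : Type} [Fintype ι] (c : ι → ℂ) (x : ι → A) {η : ℝ} (hη : 0 < η) :
    ‖∑ j, c j • x j - ∑ j, c j • trn η (x j)‖ ≤ (∑ j, ‖c j‖) * √(2 * η) := by
  rw [← Finset.sum_sub_distrib, Finset.sum_mul]
  refine (norm_sum_le _ _).trans (Finset.sum_le_sum fun j _ => ?_)
  rw [← smul_sub, norm_smul]
  gcongr
  exact norm_sub_trn_le hη (x j)

lemma Fin2.sum {ι : Type} [Fintype ι] {x : ι → A} (hx : ∀ j, τ.Fin2 (x j)) :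
    τ.Fin2 (∑ j, x j) :=
  τ.N.sum_mem (fun j _ => hx j)

/-- Spectral truncations of linear combinations have finite trace. -/
lemma tau_cut_lt_top {ι : Type} [Fintype ι] (c : ι → ℂ) (x : ι → A) {q : ℝ} (hq : 0 < q)
    (hx : ∀ j, mom τ q (x j) < ∞) {δ : ℝ} (hδ : 0 < δ) :
    τ (cfc (fun t : ℝ => cut δ t ^ 2) (star (∑ j, c j • x j) * (∑ j, c j • x j))) < ∞ := by
  set h := ∑ j, c j • x j with hh
  -- choose `η` so that the error is small
  obtain ⟨η, hη, hsmall⟩ : ∃ η : ℝ, 0 < η ∧ 2 * (((∑ j, ‖c j‖) * √(2 * η)) ^ 2) ≤ δ / 2 := by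
    refine ⟨δ / (8 * ((∑ j, ‖c j‖) ^ 2 + 1)), by positivity, ?_⟩
    rw [mul_pow, Real.sq_sqrt (by positivity)]
    have h0 : 0 ≤ (∑ j, ‖c j‖) ^ 2 := sq_nonneg _
    have h1 : (∑ j, ‖c j‖) ^ 2 / ((∑ j, ‖c j‖) ^ 2 + 1) ≤ 1 := by
      rw [div_le_one (by positivity)]; linarith
    calc 2 * ((∑ j, ‖c j‖) ^ 2 * (2 * (δ / (8 * ((∑ j, ‖c j‖) ^ 2 + 1)))))
        = (δ / 2) * ((∑ j, ‖c j‖) ^ 2 / ((∑ j, ‖c j‖) ^ 2 + 1)) := by
          field_simp; ring
      _ ≤ (δ / 2) * 1 := by gcongr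
      _ = δ / 2 := mul_one _
  set hη' := ∑ j, c j • trn η (x j) with hhη
  have hF : τ.Fin2 hη' := Fin2.sum fun j =>
    (trn_Fin2 hη (x j) hq ((tmom_le_mom hq η (x j)).trans_lt (hx j))).smul _
  set e := (∑ j, ‖c j‖) * √(2 * η) with he
  have he0 : 0 ≤ e := by positivity
  have hen : ‖h - hη'‖ ≤ e := norm_sum_sub_trn_le c x hη
  set b := star h * h with hb
  set f := cfc (cut δ) b with hf
  have hfs : star f = f := star_cfc_real _ _
  -- operator inequality
  have hop : b ≤ (2 : ℝ) • (star hη' * hη') + (2 * e ^ 2) • (1 : A) := by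
    have h1 := TraceWt.parallelogram hη' (h - hη')
    have h2 : hη' + (h - hη') = h := by abel
    rw [h2] at h1
    have h3 : b ≤ (2 : ℝ) • (star hη' * hη') + (2 : ℝ) • (star (h - hη') * (h - hη')) := by
      rw [← h1]
      exact le_add_of_nonneg_right (star_mul_self_nonneg _)
    have h4 : star (h - hη') * (h - hη') ≤ (e ^ 2) • (1 : A) := by
      have h5 := IsSelfAdjoint.le_algebraMap_norm_self (IsSelfAdjoint.star_mul_self (h - hη'))
      rw [CStarRing.norm_star_mul_self, Algebra.algebraMap_eq_smul_one] at h5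
      refine h5.trans ?_
      apply smul_le_smul_of_nonneg_right _ zero_le_one
      rw [← sq]
      gcongr
    refine h3.trans ?_
    gcongr
    rw [mul_smul]
    gcongr
  have hconj : f * b * f ≤ (2 : ℝ) • (star (hη' * f) * (hη' * f)) + (2 * e ^ 2) • (f * f) := by
    have h1 := star_left_conjugate_le_conjugate hop f
    rw [hfs] at h1
    refine h1.trans (le_of_eq ?_)
    rw [star_mul, hfs, mul_add, add_mul]
    congr 1
    · rw [mul_smul_comm, smul_mul_assoc]; congr 1; noncomm_ring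
    · rw [mul_smul_comm, smul_mul_assoc, mul_one]
  have hcont : ContinuousOn (cut δ) (spectrum ℝ b) := (continuous_cut δ).continuousOn
  have hbsa : IsSelfAdjoint b := sa_sq h
  have hfbf : f * b * f = cfc (fun t => cut δ t * t * cut δ t) b := by
    rw [cfc_mul (fun t => cut δ t * t) (cut δ) b (by fun_prop) (by fun_prop),
      cfc_mul (cut δ) (fun t => t) b (by fun_prop) (by fun_prop)]
    rw [hf]
    congr 2
    exact (cfc_id' ℝ b hbsa).symm
  have hff : f * f = cfc (fun t => cut δ t * cut δ t) b := by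
    rw [cfc_mul (cut δ) (cut δ) b (by fun_prop) (by fun_prop)]
  have hlow : (δ / 2) • cfc (fun t : ℝ => cut δ t ^ 2) b ≤
      (2 : ℝ) • (star (hη' * f) * (hη' * f)) := by
    have h1 : (δ / 2) • cfc (fun t : ℝ => cut δ t ^ 2) b + (2 * e ^ 2) • (f * f) ≤ f * b * f := by
      rw [hfbf, hff, ← cfc_smul (δ / 2) (fun t : ℝ => cut δ t ^ 2) b (by fun_prop),
        ← cfc_smul (2 * e ^ 2) (fun t : ℝ => cut δ t * cut δ t) b (by fun_prop),
        ← cfc_add b _ _ (by fun_prop) (by fun_prop)]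
      apply cfc_mono _ (by fun_prop) (by fun_prop)
      intro t ht
      have ht0 : 0 ≤ t := spec_nonneg h ht
      simp only [smul_eq_mul]
      rcases le_or_gt t δ with h' | h'
      · rw [cut_eq_zero hδ h']; simp
      · have h2 : 0 ≤ cut δ t ^ 2 := sq_nonneg _
        nlinarith
    have h2 := h1.trans hconj
    exact le_of_add_le_add_right h2
  have hcpos : 0 ≤ cfc (fun t : ℝ => cut δ t ^ 2) b := cfc_nonneg fun t _ => sq_nonneg _
  have hτ : ENNReal.ofReal (δ / 2) * τ (cfc (fun t : ℝ => cut δ t ^ 2) b) < ∞ := by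
    rw [← τ.map_smul (by positivity) hcpos]
    refine (τ.mono (smul_nonneg (by positivity) hcpos) hlow).trans_lt ?_
    rw [τ.map_smul zero_le_two (star_mul_self_nonneg _)]
    exact ENNReal.mul_lt_top ENNReal.ofReal_lt_top (hF.mul_right f)
  by_contra hcon
  rw [not_lt, top_le_iff] at hcon
  rw [hcon, ENNReal.mul_top (by simpa using hδ)] at hτ
  exact lt_irrefl _ hτ

lemma tmom_sum_lt_top {ι : Type} [Fintype ι] (c : ι → ℂ) (x : ι → A) {q : ℝ} (hq : 0 < q)
    (hx : ∀ j, mom τ q (x j) < ∞) {δ : ℝ} (hδ : 0 < δ) :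
    tmom τ δ q (∑ j, c j • x j) < ∞ := by
  apply tau_cfc_lt_top _ (continuous_tfun δ hq.le).continuousOn
    (φ := fun t : ℝ => cut δ t ^ 2) (by fun_prop) _ (C := (‖∑ j, c j • x j‖ ^ 2) ^ (q / 2))
    (by positivity) _ _ (tau_cut_lt_top c x hq hx hδ)
  · intro t ht; positivity
  · intro t ht htg
    rw [mul_comm]
    gcongr
  · intro t ht; positivity

end Pool.Agent.SKB
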