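import Mathlib
import Pool.Agent.SKB.Moment

/-!
# The matrix inequality for non-commutative `L^q` norms
-/

open scoped ENNReal NNReal ComplexOrder Topology
open Filter

namespace Pool.Agent.SKB

variable {A : Type*} [CStarAlgebra A] [PartialOrder A] [StarOrderedRing A]

omit [PartialOrder A] [StarOrderedRing A] in
lemma E_ofReal {δ : ℝ} (hδ : 0 < δ) (g : A) (c : ℝ) :
    E δ g (c : ℂ) = cfc (fun t => Real.exp (c * Lg δ t)) (star g * g) := by
  have hsa : IsSelfAdjoint (c • lg δ g) := by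
    have : IsSelfAdjoint (lg δ g) := star_lg δ g
    exact (IsSelfAdjoint.all c).smul this
  have hL := continuous_Lg hδ
  unfold E
  rw [Complex.coe_smul, ← CFC.real_exp_eq_normedSpace_exp hsa]
  unfold lg
  rw [← cfc_const_mul c (Lg δ) (star g * g) hL.continuousOn,
    ← cfc_comp' Real.exp (fun t => c * Lg δ t) (star g * g)
      (by fun_prop) (hL.const_mul _ |>.continuousOn) (sa_sq g)]

omit [PartialOrder A] [StarOrderedRing A] in
lemma Phi_ofReal {δ : ℝ} (hδ : 0 < δ) (g : A) (c : ℝ) :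
    Phi δ g (c : ℂ) = g * cfc (fun t => cut δ t ^ 2 * Real.exp (c * Lg δ t)) (star g * g) := by
  have hL := continuous_Lg hδ
  unfold Phi trn
  rw [E_ofReal hδ, cfc_mul (fun t => cut δ t ^ 2) (fun t => Real.exp (c * Lg δ t)) (star g * g)
    (by fun_prop) (by fun_prop), mul_assoc]

omit [PartialOrder A] [StarOrderedRing A] in
lemma Phi_zero (δ : ℝ) (g : A) : Phi δ g 0 = trn δ g := by
  unfold Phi E
  rw [zero_smul, NormedSpace.exp_zero, mul_one]

omit [PartialOrder A] [StarOrderedRing A] in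
lemma cut_half_mul {δ : ℝ} (hδ : 0 < δ) (t : ℝ) : cut (δ / 2) t * cut δ t = cut δ t := by
  rcases le_or_gt t δ with h | h
  · rw [cut_eq_zero hδ h, mul_zero]
  · rw [cut_eq_one (by positivity) (by linarith), one_mul]

variable {τ : TraceWt A}

/-- The pairing of `h` (cut off) with its norming element. -/
lemma ip_norming {δ : ℝ} (hδ : 0 < δ) (h : A) {q : ℝ} (hfin : tmom τ δ q h < ∞)
    (hK : τ.Fin2 (cfc (cut (δ / 2)) (star h * h))) :
    τ.ip (Phi δ h (((q - 2) / 2 : ℝ) : ℂ)) (h * cfc (cut (δ / 2)) (star h * h)) =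
      ((tmom τ δ q h).toReal : ℂ) := by
  have hL := continuous_Lg hδ
  set b := star h * h with hb
  set ψ : ℝ → ℝ := fun t => cut δ t * Real.exp ((q - 2) / 4 * Lg δ t) with hψ
  have hc : Continuous ψ := by fun_prop
  have hsplit : cfc (fun t => cut δ t ^ 2 * Real.exp ((q - 2) / 2 * Lg δ t)) b =
      cfc ψ b * cfc ψ b := by
    rw [← cfc_mul ψ ψ b (by fun_prop) (by fun_prop)]
    refine cfc_congr fun t _ => ?_
    simp only [hψ]
    rw [show (q - 2) / 2 * Lg δ t = (q - 2) / 4 * Lg δ t + (q - 2) / 4 * Lg δ t by ring,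
      Real.exp_add]
    ring
  have hpw : ∀ t : ℝ, 0 ≤ t → ψ t ^ 2 * t = cut δ t ^ 2 * t ^ (q / 2) := by
    intro t ht
    rcases le_or_gt t δ with h' | h'
    · simp only [hψ]
      rw [cut_eq_zero hδ h']; simp
    · simp only [hψ]
      have ht0 : 0 < t := hδ.trans h'
      rw [exp_Lg hδ h'.le, show q / 2 = (q - 2) / 4 + (q - 2) / 4 + 1 by ring,
        Real.rpow_add ht0, Real.rpow_add ht0, Real.rpow_one]
      ring
  have hqa : τ.q (h * cfc ψ b) = (tmom τ δ q h).toReal := by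
    rw [hb, fam_q h hc]
    unfold tmom
    congr 2
    exact cfc_congr fun t ht => hpw t (spec_nonneg h ht)
  have hFa : τ.Fin2 (h * cfc ψ b) := by
    rw [hb, fam_Fin2 h hc]
    have : cfc (fun t => ψ t ^ 2 * t) (star h * h) =
        cfc (fun t : ℝ => cut δ t ^ 2 * t ^ (q / 2)) (star h * h) :=
      cfc_congr fun t ht => hpw t (spec_nonneg h ht)
    rw [this]
    exact hfin
  have hKψ : cfc (cut (δ / 2)) b * cfc ψ b = cfc ψ b := by
    rw [← cfc_mul (cut (δ / 2)) ψ b (by fun_prop) (by fun_prop)]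
    refine cfc_congr fun t _ => ?_
    simp only [hψ]
    rw [← mul_assoc, cut_half_mul hδ]
  rw [Phi_ofReal hδ, ← hb, hsplit, ← mul_assoc, TraceWt.ip_mul_right hFa (hK.mul_left h),
    star_cfc_real, mul_assoc h, hKψ, TraceWt.ip_self, hqa]

omit [PartialOrder A] [StarOrderedRing A] in
lemma Phi_mul_K {δ : ℝ} (hδ : 0 < δ) (h : A) (c : ℝ) :
    Phi δ h (c : ℂ) * cfc (cut (δ / 2)) (star h * h) = Phi δ h (c : ℂ) := by
  have hL := continuous_Lg hδ
  rw [Phi_ofReal hδ, mul_assoc, ← cfc_mul _ (cut (δ / 2)) (star h * h) (by fun_prop) (by fun_prop)]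
  congr 1
  refine cfc_congr fun t _ => ?_
  have := cut_half_mul hδ t
  calc cut δ t ^ 2 * Real.exp (c * Lg δ t) * cut (δ / 2) t
      = (cut (δ / 2) t * cut δ t) * cut δ t * Real.exp (c * Lg δ t) := by ring
    _ = _ := by rw [this]; ring

/-- quantitative form of the limit `η → 0`. -/
lemma ip_limit {ι : Type} [Fintype ι] (c : ι → ℂ) (x : ι → A) {q : ℝ} (hq : 0 < q)
    (hx : ∀ j, mom τ q (x j) < ∞) {δ : ℝ} (hδ : 0 < δ) :
    ∃ C : ℝ, 0 ≤ C ∧ ∀ η : ℝ, 0 < η →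
      ‖∑ j, c j * τ.ip (Phi δ (∑ j, c j • x j) (((q - 2) / 2 : ℝ) : ℂ)) (trn η (x j)) -
        ((tmom τ δ q (∑ j, c j • x j)).toReal : ℂ)‖ ≤ C * √(2 * η) := by
  set h := ∑ j, c j • x j with hh
  set y := Phi δ h (((q - 2) / 2 : ℝ) : ℂ) with hy
  set K := cfc (cut (δ / 2)) (star h * h) with hKdef
  have hKs : star K = K := star_cfc_real _ _
  have hKF : τ.Fin2 K := by
    unfold TraceWt.Fin2
    rw [hKs, hKdef, ← cfc_mul (cut (δ / 2)) (cut (δ / 2)) (star h * h) (by fun_prop) (by fun_prop)]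
    have := tau_cut_lt_top c x hq hx (δ := δ / 2) (by positivity)
    rw [← hh] at this
    have e : cfc (fun t => cut (δ / 2) t * cut (δ / 2) t) (star h * h) =
        cfc (fun t : ℝ => cut (δ / 2) t ^ 2) (star h * h) := cfc_congr fun t _ => by ring
    rw [e]
    exact this
  have hfin : tmom τ δ q h < ∞ := tmom_sum_lt_top c x hq hx hδ
  have hyF : τ.Fin2 y := Phi_Fin2 hδ h hq hfin _
  refine ⟨√(τ.q y) * ((∑ j, ‖c j‖) * √(τ.q K)), by positivity, fun η hη => ?_⟩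
  have htF : ∀ j, τ.Fin2 (trn η (x j)) := fun j =>
    trn_Fin2 hη (x j) hq ((tmom_le_mom hq η (x j)).trans_lt (hx j))
  have hsumF : τ.Fin2 (∑ j, c j • trn η (x j)) := Fin2.sum fun j => (htF j).smul _
  have e1 : ∑ j, c j * τ.ip y (trn η (x j)) = τ.ip y (∑ j, c j • trn η (x j)) := by
    have h1 := TraceWt.inner_jj τ ⟨y, hyF⟩ (∑ j, c j • (⟨trn η (x j), htF j⟩ : τ.N))
    rw [map_sum, inner_sum] at h1
    simp only [map_smul, inner_smul_right, TraceWt.inner_jj] at h1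
    rw [h1]
    congr 1
    simp
  have e2 : τ.ip y (∑ j, c j • trn η (x j)) = τ.ip y ((∑ j, c j • trn η (x j)) * K) := by
    have : y = y * K := (Phi_mul_K hδ h _).symm
    rw [this, TraceWt.ip_mul_right hyF hsumF, hKs, ← this]
  have e3 : ((tmom τ δ q h).toReal : ℂ) = τ.ip y (h * K) := (ip_norming hδ h hfin hKF).symm
  rw [e1, e2, e3]
  have e4 : τ.ip y ((∑ j, c j • trn η (x j)) * K) - τ.ip y (h * K) =
      τ.ip y ((∑ j, c j • trn η (x j) - h) * K) := by
    have h1 : (∑ j, c j • trn η (x j)) * K = (∑ j, c j • trn η (x j) - h) * K + h * K := by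
      noncomm_ring
    rw [h1, TraceWt.ip_add_right hyF (hKF.mul_left _) (hKF.mul_left _)]
    ring
  rw [e4]
  have h5 : ‖∑ j, c j • trn η (x j) - h‖ ≤ (∑ j, ‖c j‖) * √(2 * η) := by
    rw [norm_sub_rev]; exact norm_sum_sub_trn_le c x hη
  calc _ ≤ √(τ.q y) * √(τ.q ((∑ j, c j • trn η (x j) - h) * K)) :=
        τ.norm_ip_le hyF (hKF.mul_left _)
    _ ≤ √(τ.q y) * √(‖∑ j, c j • trn η (x j) - h‖ ^ 2 * τ.q K) := by
        gcongr
        exact τ.q_mul_left_le _ hKF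
    _ = √(τ.q y) * (‖∑ j, c j • trn η (x j) - h‖ * √(τ.q K)) := by
        rw [Real.sqrt_mul (sq_nonneg _), Real.sqrt_sq (norm_nonneg _)]
    _ ≤ √(τ.q y) * ((∑ j, ‖c j‖) * √(2 * η) * √(τ.q K)) := by gcongr
    _ = _ := by ring

/-- The exponent `ϑ(q) = 1 - |1 - 2/q|`. -/
noncomputable def vt (q : ℝ) : ℝ := 1 - |1 - 2 / q|

/-- The interpolation inequality for truncated elements against norming elements. -/
lemma three_lines_norming {ι κ : Type} [Fintype ι] [Fintype κ] {a : κ → ι → ℂ} {r s : ℝ}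
    (hr : 0 ≤ r) (hs : 0 ≤ s) (hreg : RegLe a r) (hop : OpLe a s)
    (x : ι → A) (h : κ → A) {η δ : ℝ} (hη : 0 < η) (hδ : 0 < δ)
    {q : ℝ} (hq : 1 ≤ q) {ρ : ι → ℝ} {σ : κ → ℝ} (hρ : ∀ j, 0 < ρ j)
    (hσ : ∀ k, 0 < σ k)
    (hx : ∀ j, tmom τ η q (x j) ≤ ENNReal.ofReal (ρ j ^ q))
    (hh : ∀ k, tmom τ δ q (h k) ≤ ENNReal.ofReal (σ k ^ q)) :
    ‖∑ k, ∑ j, a k j * ((σ k ^ (2 - q) : ℝ) : ℂ) *
        τ.ip (Phi δ (h k) (((q - 2) / 2 : ℝ) : ℂ)) (trn η (x j))‖ ≤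
      s ^ vt q * r ^ (1 - vt q) * (√(∑ j, ρ j ^ 2) * √(∑ k, σ k ^ 2)) := by
  have hq0 : 0 < q := by linarith
  rcases le_total 2 q with h2 | h2
  · -- q ≥ 2
    have h2q : 2 / q ≤ 1 := by rw [div_le_one hq0]; exact h2
    have hvt : vt q = 2 / q := by
      unfold vt; rw [abs_of_nonneg (by linarith)]; ring
    have key := three_lines (τ := τ) hr hs hreg hop x h (δ := fun _ => η) (ε := fun _ => δ)
      (fun _ => hη) (fun _ => hδ) hq0 hq0 hρ hσ hx hh (θ := 1 - 2 / q) (by linarith)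
      (by have : 0 < 2 / q := by positivity
          linarith)
    have e1 : 1 - q * (1 - (1 - 2 / q)) / 2 = 0 := by field_simp; ring
    have e2 : 1 - q * (1 + (1 - 2 / q)) / 2 = 2 - q := by field_simp; ring
    have e3 : q * (1 + (1 - 2 / q)) / 4 - 1 / 2 = (q - 2) / 2 := by field_simp; ring
    have e4 : q * (1 - (1 - 2 / q)) / 4 - 1 / 2 = 0 := by field_simp; ring
    have e5 : 1 - (1 - 2 / q) = 2 / q := by ring
    simp only [e1, e2, e3, e4, Real.rpow_zero, one_mul, Complex.ofReal_zero, Phi_zero] at key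
    rw [e5] at key
    rw [hvt]
    exact key
  · have h2q : 1 ≤ 2 / q := by rw [le_div_iff₀ hq0]; linarith
    have hvt : vt q = 2 - 2 / q := by
      unfold vt; rw [abs_of_nonpos (by linarith)]; ring
    have h2q' : 2 / q ≤ 2 := by rw [div_le_iff₀ hq0]; linarith
    have key := three_lines (τ := τ) hr hs hreg.adjoint (hop.adjoint hs) h x
      (δ := fun _ => δ) (ε := fun _ => η)
      (fun _ => hδ) (fun _ => hη) hq0 hq0 hσ hρ hh hx (θ := 2 / q - 1) (by linarith) (by linarith)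
    have e1 : 1 - q * (1 - (2 / q - 1)) / 2 = 2 - q := by field_simp; ring
    have e2 : 1 - q * (1 + (2 / q - 1)) / 2 = 0 := by field_simp; ring
    have e3 : q * (1 + (2 / q - 1)) / 4 - 1 / 2 = 0 := by field_simp; ring
    have e4 : q * (1 - (2 / q - 1)) / 4 - 1 / 2 = (q - 2) / 2 := by field_simp; ring
    have e5 : 1 - (2 / q - 1) = 2 - 2 / q := by ring
    simp only [e1, e2, e3, e4, Real.rpow_zero, mul_one, Complex.ofReal_zero, Phi_zero] at key
    rw [e5] at key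
    rw [hvt, show 1 - (2 - 2 / q) = 2 / q - 1 by ring]
    rw [mul_comm (√(∑ k, σ k ^ 2))] at key
    refine le_trans (le_of_eq ?_) key
    rw [← RCLike.norm_conj]
    congr 1
    simp only [map_sum, map_mul, TraceWt.ip_conj, Complex.conj_ofReal]
    exact Finset.sum_comm

/-- passing to the limit `η → 0`. -/
lemma norming_bound {ι κ : Type} [Fintype ι] [Fintype κ] {a : κ → ι → ℂ} {r s : ℝ}
    (hr : 0 ≤ r) (hs : 0 ≤ s) (hreg : RegLe a r) (hop : OpLe a s)
    (x : ι → A) {δ : ℝ} (hδ : 0 < δ)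
    {q : ℝ} (hq : 1 ≤ q) {ρ : ι → ℝ} {σ : κ → ℝ} (hρ : ∀ j, 0 < ρ j)
    (hσ : ∀ k, 0 < σ k)
    (hx : ∀ j, mom τ q (x j) ≤ ENNReal.ofReal (ρ j ^ q))
    (hh : ∀ k, tmom τ δ q (∑ j, a k j • x j) ≤ ENNReal.ofReal (σ k ^ q)) :
    ∑ k, σ k ^ (2 - q) * (tmom τ δ q (∑ j, a k j • x j)).toReal ≤
      s ^ vt q * r ^ (1 - vt q) * (√(∑ j, ρ j ^ 2) * √(∑ k, σ k ^ 2)) := by
  have hq0 : 0 < q := by linarith
  have hxf : ∀ j, mom τ q (x j) < ∞ := fun j => (hx j).trans_lt ENNReal.ofReal_lt_top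
  choose C hC0 hC using fun k => ip_limit (τ := τ) (a k) x hq0 hxf hδ
  set D := ∑ k, σ k ^ (2 - q) * C k with hD
  have hσp : ∀ k, 0 ≤ σ k ^ (2 - q) := fun k => Real.rpow_nonneg (hσ k).le _
  have hD0 : 0 ≤ D := Finset.sum_nonneg fun k _ => mul_nonneg (hσp k) (hC0 k)
  set B := s ^ vt q * r ^ (1 - vt q) * (√(∑ j, ρ j ^ 2) * √(∑ k, σ k ^ 2)) with hB
  have main : ∀ η : ℝ, 0 < η →
      ∑ k, σ k ^ (2 - q) * (tmom τ δ q (∑ j, a k j • x j)).toReal ≤ B + D * √(2 * η) := by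
    intro η hη
    have key := three_lines_norming (τ := τ) hr hs hreg hop x (fun k => ∑ j, a k j • x j) hη hδ hq
      hρ hσ (fun j => (tmom_le_mom hq0 η (x j)).trans (hx j)) hh
    set Z := ∑ k, ∑ j, a k j * ((σ k ^ (2 - q) : ℝ) : ℂ) *
        τ.ip (Phi δ (∑ j, a k j • x j) (((q - 2) / 2 : ℝ) : ℂ)) (trn η (x j)) with hZ
    have hdiff : ‖Z - ((∑ k, σ k ^ (2 - q) * (tmom τ δ q (∑ j, a k j • x j)).toReal : ℝ) : ℂ)‖ ≤
        D * √(2 * η) := by
      rw [hZ, hD, Finset.sum_mul]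
      simp only [Complex.ofReal_sum, Complex.ofReal_mul]
      rw [← Finset.sum_sub_distrib]
      refine (norm_sum_le _ _).trans (Finset.sum_le_sum fun k _ => ?_)
      have e : (∑ j, a k j * ((σ k ^ (2 - q) : ℝ) : ℂ) *
          τ.ip (Phi δ (∑ j, a k j • x j) (((q - 2) / 2 : ℝ) : ℂ)) (trn η (x j))) -
          ((σ k ^ (2 - q) : ℝ) : ℂ) * ((tmom τ δ q (∑ j, a k j • x j)).toReal : ℂ) =
          ((σ k ^ (2 - q) : ℝ) : ℂ) * (∑ j, a k j *
          τ.ip (Phi δ (∑ j, a k j • x j) (((q - 2) / 2 : ℝ) : ℂ)) (trn η (x j)) -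
          ((tmom τ δ q (∑ j, a k j • x j)).toReal : ℂ)) := by
        rw [mul_sub, Finset.mul_sum]
        congr 1
        refine Finset.sum_congr rfl fun j _ => by ring
      rw [e, norm_mul, Complex.norm_real, Real.norm_of_nonneg (hσp k), mul_assoc]
      have := hC k η hη
      have := hσp k
      gcongr
    have h1 : ∑ k, σ k ^ (2 - q) * (tmom τ δ q (∑ j, a k j • x j)).toReal =
        ‖((∑ k, σ k ^ (2 - q) * (tmom τ δ q (∑ j, a k j • x j)).toReal : ℝ) : ℂ)‖ := by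
      rw [Complex.norm_real, Real.norm_of_nonneg]
      exact Finset.sum_nonneg fun k _ => mul_nonneg (hσp k) ENNReal.toReal_nonneg
    rw [h1]
    calc _ = ‖Z - (Z - ((∑ k, σ k ^ (2 - q) *
          (tmom τ δ q (∑ j, a k j • x j)).toReal : ℝ) : ℂ))‖ := by rw [sub_sub_cancel]
      _ ≤ ‖Z‖ + ‖Z - ((∑ k, σ k ^ (2 - q) *
          (tmom τ δ q (∑ j, a k j • x j)).toReal : ℝ) : ℂ)‖ := norm_sub_le _ _
      _ ≤ B + D * √(2 * η) := add_le_add key hdiff
  apply le_of_forall_pos_le_add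
  intro e he
  refine (main ((e / (D + 1)) ^ 2 / 2) (by positivity)).trans ?_
  rw [show 2 * ((e / (D + 1)) ^ 2 / 2) = (e / (D + 1)) ^ 2 by ring, Real.sqrt_sq (by positivity)]
  have : D * (e / (D + 1)) ≤ e := by
    rw [mul_div_assoc', div_le_iff₀ (by positivity)]
    nlinarith
  linarith

/-- the bound for truncated moments. -/
lemma tmom_bound {ι κ : Type} [Fintype ι] [Fintype κ] {a : κ → ι → ℂ} {r s : ℝ}
    (hr : 0 ≤ r) (hs : 0 ≤ s) (hreg : RegLe a r) (hop : OpLe a s)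
    (x : ι → A) {δ : ℝ} (hδ : 0 < δ)
    {q : ℝ} (hq : 1 ≤ q) {ρ : ι → ℝ} (hρ : ∀ j, 0 < ρ j)
    (hx : ∀ j, mom τ q (x j) ≤ ENNReal.ofReal (ρ j ^ q)) :
    ∑ k, (tmom τ δ q (∑ j, a k j • x j)).toReal ^ (2 / q) ≤
      (s ^ vt q * r ^ (1 - vt q)) ^ 2 * ∑ j, ρ j ^ 2 := by
  classical
  have hq0 : 0 < q := by linarith
  have hxf : ∀ j, mom τ q (x j) < ∞ := fun j => (hx j).trans_lt ENNReal.ofReal_lt_top
  set T : κ → ℝ := fun k => (tmom τ δ q (∑ j, a k j • x j)).toReal with hT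
  have hT0 : ∀ k, 0 ≤ T k := fun k => ENNReal.toReal_nonneg
  have hTfin : ∀ k, tmom τ δ q (∑ j, a k j • x j) < ∞ := fun k =>
    tmom_sum_lt_top (a k) x hq0 hxf hδ
  set C := s ^ vt q * r ^ (1 - vt q) with hC
  have hC0 : 0 ≤ C := by positivity
  set P := ∑ j, ρ j ^ 2 with hP
  have hP0 : 0 ≤ P := by positivity
  set S := ∑ k, T k ^ (2 / q) with hS
  have hS0 : 0 ≤ S := Finset.sum_nonneg fun k _ => Real.rpow_nonneg (hT0 k) _
  have main : ∀ e : ℝ, 0 < e → S ≤ C * (√P * √(S + Fintype.card κ * e ^ 2)) := by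
    intro e he
    let σ : κ → ℝ := fun k => if T k = 0 then e else T k ^ (1 / q)
    have hσ : ∀ k, 0 < σ k := by
      intro k
      simp only [σ]
      split_ifs with h
      · exact he
      · exact Real.rpow_pos_of_pos (lt_of_le_of_ne (hT0 k) (Ne.symm h)) _
    have hh : ∀ k, tmom τ δ q (∑ j, a k j • x j) ≤ ENNReal.ofReal (σ k ^ q) := by
      intro k
      rw [← ENNReal.ofReal_toReal (hTfin k).ne]
      apply ENNReal.ofReal_le_ofReal
      change T k ≤ σ k ^ q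
      simp only [σ]
      split_ifs with h
      · rw [h]; positivity
      · rw [← Real.rpow_mul (hT0 k), one_div_mul_cancel hq0.ne', Real.rpow_one]
    have key := norming_bound hr hs hreg hop x hδ hq hρ hσ hx hh
    have h1 : S = ∑ k, σ k ^ (2 - q) * T k := by
      refine Finset.sum_congr rfl fun k _ => ?_
      simp only [σ]
      split_ifs with h
      · rw [h, Real.zero_rpow (by positivity), mul_zero]
      · have hTk : 0 < T k := lt_of_le_of_ne (hT0 k) (Ne.symm h)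
        rw [← Real.rpow_mul (hT0 k)]
        nth_rewrite 3 [← Real.rpow_one (T k)]
        rw [← Real.rpow_add hTk]
        congr 1
        field_simp
        ring
    have h2 : ∑ k, σ k ^ 2 ≤ S + Fintype.card κ * e ^ 2 := by
      have : ∀ k, σ k ^ 2 ≤ T k ^ (2 / q) + e ^ 2 := by
        intro k
        simp only [σ]
        split_ifs with h
        · rw [h]
          have : (0 : ℝ) ≤ 0 ^ (2 / q) := Real.rpow_nonneg le_rfl _
          linarith
        · rw [← Real.rpow_natCast (T k ^ (1 / q)) 2, ← Real.rpow_mul (hT0 k)]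
          have : 1 / q * ((2 : ℕ) : ℝ) = 2 / q := by push_cast; ring
          rw [this]
          have := sq_nonneg e
          linarith
      calc ∑ k, σ k ^ 2 ≤ ∑ k, (T k ^ (2 / q) + e ^ 2) := Finset.sum_le_sum fun k _ => this k
        _ = S + Fintype.card κ * e ^ 2 := by
            rw [Finset.sum_add_distrib, Finset.sum_const, Finset.card_univ, nsmul_eq_mul]
    rw [h1]
    refine key.trans ?_
    gcongr
    rw [← h1]
    exact h2
  have hsq : S ^ 2 ≤ C ^ 2 * P * S := by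
    apply le_of_forall_pos_le_add
    intro e he
    have hN : (0 : ℝ) ≤ Fintype.card κ := Nat.cast_nonneg _
    set N : ℝ := (Fintype.card κ : ℝ) with hNdef
    have h1 := main (√(e / (C ^ 2 * P * N + 1))) (by positivity)
    rw [Real.sq_sqrt (by positivity)] at h1
    have h2 : S ^ 2 ≤ (C * (√P * √(S + N * (e / (C ^ 2 * P * N + 1))))) ^ 2 := by
      gcongr
    rw [mul_pow C, mul_pow (√P), Real.sq_sqrt hP0, Real.sq_sqrt (by positivity)] at h2
    have h3 : C ^ 2 * P * N * (e / (C ^ 2 * P * N + 1)) ≤ e := by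
      rw [mul_div_assoc', div_le_iff₀ (by positivity)]
      nlinarith
    calc S ^ 2 ≤ C ^ 2 * (P * (S + N * (e / (C ^ 2 * P * N + 1)))) := h2
      _ = C ^ 2 * P * S + C ^ 2 * P * N * (e / (C ^ 2 * P * N + 1)) := by ring
      _ ≤ _ := by linarith
  rcases hS0.eq_or_lt with h0 | h0
  · rw [← h0]; positivity
  · have : S * S ≤ (C ^ 2 * P) * S := by rw [← sq]; exact hsq
    exact le_of_mul_le_mul_right this h0

lemma mom_eq_iSup {q : ℝ} (hq : 0 < q) (x : A) :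
    mom τ q x = ⨆ n : ℕ, tmom τ ((1 / 2 : ℝ) ^ n) q x := by
  unfold mom tmom
  apply τ.normal'
  · intro n
    apply cfc_nonneg
    intro t ht
    have := spec_nonneg x ht
    positivity
  · intro n m hnm
    apply cfc_mono _ (continuous_tfun _ hq.le).continuousOn (continuous_tfun _ hq.le).continuousOn
    intro t ht
    have ht0 := spec_nonneg x ht
    have h1 : (1 / 2 : ℝ) ^ m ≤ (1 / 2) ^ n := pow_le_pow_of_le_one (by norm_num) (by norm_num) hnm
    have h2 := cut_anti (by positivity) h1 ht0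
    have h3 := cut_nonneg ((1 / 2 : ℝ) ^ n) t
    gcongr
  · rw [tendsto_iff_norm_sub_tendsto_zero]
    have hbound : ∀ n : ℕ, ‖cfc (fun t : ℝ => cut ((1 / 2 : ℝ) ^ n) t ^ 2 * t ^ (q / 2)) (star x * x) -
        cfc (fun t : ℝ => t ^ (q / 2)) (star x * x)‖ ≤ (2 * (1 / 2 : ℝ) ^ n) ^ (q / 2) := by
      intro n
      have hd : 0 < (1 / 2 : ℝ) ^ n := by positivity
      rw [← cfc_sub _ _ (star x * x) (continuous_tfun _ hq.le).continuousOn
        (continuous_pw hq).continuousOn]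
      refine norm_cfc_le (by positivity) fun t ht => ?_
      have ht0 := spec_nonneg x ht
      rcases le_or_gt (2 * (1 / 2 : ℝ) ^ n) t with h | h
      · rw [cut_eq_one hd h]; simp; positivity
      · have h1 := cut_sq_le_one ((1 / 2 : ℝ) ^ n) t
        have h2 : 0 ≤ cut ((1 / 2 : ℝ) ^ n) t ^ 2 := sq_nonneg _
        have h3 : t ^ (q / 2) ≤ (2 * (1 / 2 : ℝ) ^ n) ^ (q / 2) := by gcongr
        have h4 : 0 ≤ t ^ (q / 2) := by positivity
        rw [Real.norm_eq_abs, abs_le]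
        constructor <;> nlinarith
    refine squeeze_zero (fun _ => norm_nonneg _) hbound ?_
    have h1 : Tendsto (fun n : ℕ => 2 * (1 / 2 : ℝ) ^ n) atTop (𝓝 (2 * 0)) :=
      (tendsto_pow_atTop_nhds_zero_of_lt_one (by norm_num) (by norm_num)).const_mul 2
    rw [mul_zero] at h1
    have h2 := h1.rpow_const (p := q / 2) (Or.inr (by positivity))
    rwa [Real.zero_rpow (by positivity)] at h2

lemma tendsto_tmom {q : ℝ} (hq : 0 < q) (x : A) :
    Tendsto (fun n : ℕ => tmom τ ((1 / 2 : ℝ) ^ n) q x) atTop (𝓝 (mom τ q x)) := by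
  rw [mom_eq_iSup hq]
  apply tendsto_atTop_iSup
  intro n m hnm
  exact tmom_anti hq (by positivity) (pow_le_pow_of_le_one (by norm_num) (by norm_num) hnm) x

/-- **Matrix inequality** for moments. -/
theorem mom_matrix_aux {ι κ : Type} [Fintype ι] [Fintype κ] {a : κ → ι → ℂ} {r s : ℝ}
    (hr : 0 ≤ r) (hs : 0 ≤ s) (hreg : RegLe a r) (hop : OpLe a s)
    (x : ι → A) {q : ℝ} (hq : 1 ≤ q) {ρ : ι → ℝ} (hρ : ∀ j, 0 < ρ j)
    (hx : ∀ j, mom τ q (x j) ≤ ENNReal.ofReal (ρ j ^ q)) :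
    (∀ k, mom τ q (∑ j, a k j • x j) < ∞) ∧
    ∑ k, (mom τ q (∑ j, a k j • x j)).toReal ^ (2 / q) ≤
      (s ^ vt q * r ^ (1 - vt q)) ^ 2 * ∑ j, ρ j ^ 2 := by
  have hq0 : 0 < q := by linarith
  have hxf : ∀ j, mom τ q (x j) < ∞ := fun j => (hx j).trans_lt ENNReal.ofReal_lt_top
  have hb := fun n : ℕ => tmom_bound hr hs hreg hop x (δ := (1 / 2 : ℝ) ^ n) (by positivity) hq hρ hx
  set Q := (s ^ vt q * r ^ (1 - vt q)) ^ 2 * ∑ j, ρ j ^ 2 with hQ
  have hQ0 : 0 ≤ Q := by positivity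
  have hTfin : ∀ k (n : ℕ), tmom τ ((1 / 2 : ℝ) ^ n) q (∑ j, a k j • x j) < ∞ := fun k n =>
    tmom_sum_lt_top (a k) x hq0 hxf (by positivity)
  have hfin : ∀ k, mom τ q (∑ j, a k j • x j) < ∞ := by
    intro k
    rw [mom_eq_iSup hq0]
    refine lt_of_le_of_lt (iSup_le fun n => ?_) (ENNReal.ofReal_lt_top (r := Q ^ (q / 2)))
    rw [← ENNReal.ofReal_toReal (hTfin k n).ne]
    apply ENNReal.ofReal_le_ofReal
    have h1 : (tmom τ ((1 / 2 : ℝ) ^ n) q (∑ j, a k j • x j)).toReal ^ (2 / q) ≤ Q := by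
      refine le_trans ?_ (hb n)
      exact Finset.single_le_sum (f := fun k =>
        (tmom τ ((1 / 2 : ℝ) ^ n) q (∑ j, a k j • x j)).toReal ^ (2 / q))
        (fun k _ => Real.rpow_nonneg ENNReal.toReal_nonneg _) (Finset.mem_univ k)
    have h2 := Real.rpow_le_rpow (Real.rpow_nonneg ENNReal.toReal_nonneg _) h1
      (show 0 ≤ q / 2 by positivity)
    rw [← Real.rpow_mul ENNReal.toReal_nonneg] at h2
    have : 2 / q * (q / 2) = 1 := by field_simp
    rwa [this, Real.rpow_one] at h2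
  refine ⟨hfin, ?_⟩
  have hlim : Tendsto (fun n : ℕ => ∑ k,
      (tmom τ ((1 / 2 : ℝ) ^ n) q (∑ j, a k j • x j)).toReal ^ (2 / q)) atTop
      (𝓝 (∑ k, (mom τ q (∑ j, a k j • x j)).toReal ^ (2 / q))) := by
    apply tendsto_finsetSum
    intro k _
    have h1 := (ENNReal.tendsto_toReal (hfin k).ne).comp
      (tendsto_tmom (τ := τ) hq0 (∑ j, a k j • x j))
    exact h1.rpow_const (Or.inr (by positivity))
  exact le_of_tendsto hlim (Eventually.of_forall hb)

lemma lqnrm_nonneg (q : ℝ) (x : A) : 0 ≤ lqnrm τ q x := Real.rpow_nonneg ENNReal.toReal_nonneg _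

lemma lqnrm_sq {q : ℝ} (x : A) : lqnrm τ q x ^ 2 = (mom τ q x).toReal ^ (2 / q) := by
  unfold lqnrm
  rw [← Real.rpow_natCast _ 2, ← Real.rpow_mul ENNReal.toReal_nonneg]
  congr 1
  push_cast
  ring

/-- **Matrix inequality** for the `L^q` norm. -/
theorem lqnrm_matrix {ι κ : Type} [Fintype ι] [Fintype κ] {a : κ → ι → ℂ} {r s : ℝ}
    (hr : 0 ≤ r) (hs : 0 ≤ s) (hreg : RegLe a r) (hop : OpLe a s)
    (x : ι → A) {q : ℝ} (hq : 1 ≤ q) (hx : ∀ j, mom τ q (x j) < ∞) :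
    (∀ k, mom τ q (∑ j, a k j • x j) < ∞) ∧
    √(∑ k, lqnrm τ q (∑ j, a k j • x j) ^ 2) ≤
      s ^ vt q * r ^ (1 - vt q) * √(∑ j, lqnrm τ q (x j) ^ 2) := by
  have hq0 : 0 < q := by linarith
  have hle : ∀ e : ℝ, 0 < e → ∀ j, mom τ q (x j) ≤ ENNReal.ofReal ((lqnrm τ q (x j) + e) ^ q) := by
    intro e he j
    rw [← ENNReal.ofReal_toReal (hx j).ne]
    apply ENNReal.ofReal_le_ofReal
    have h1 : (mom τ q (x j)).toReal = lqnrm τ q (x j) ^ q := by
      unfold lqnrm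
      rw [← Real.rpow_mul ENNReal.toReal_nonneg, one_div_mul_cancel hq0.ne', Real.rpow_one]
    rw [h1]
    have := lqnrm_nonneg (τ := τ) q (x j)
    gcongr
    linarith
  have hmain := fun (e : ℝ) (he : 0 < e) => mom_matrix_aux (τ := τ) hr hs hreg hop x hq
    (ρ := fun j => lqnrm τ q (x j) + e) (fun j => by have := lqnrm_nonneg (τ := τ) q (x j); positivity)
    (hle e he)
  refine ⟨(hmain 1 one_pos).1, ?_⟩
  have hC0 : 0 ≤ s ^ vt q * r ^ (1 - vt q) := by positivity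
  rw [← Real.sqrt_sq hC0, ← Real.sqrt_mul (sq_nonneg _)]
  apply Real.sqrt_le_sqrt
  simp only [lqnrm_sq (x := ∑ j, a _ j • x j)]
  have hlim : Tendsto (fun e : ℝ => (s ^ vt q * r ^ (1 - vt q)) ^ 2 *
      ∑ j, (lqnrm τ q (x j) + e) ^ 2) (𝓝[>] 0)
      (𝓝 ((s ^ vt q * r ^ (1 - vt q)) ^ 2 * ∑ j, (lqnrm τ q (x j) + 0) ^ 2)) := by
    apply Tendsto.mono_left _ nhdsWithin_le_nhds
    exact Continuous.tendsto (by fun_prop) 0
  simp only [add_zero] at hlim
  refine ge_of_tendsto hlim ?_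
  filter_upwards [self_mem_nhdsWithin] with e he
  exact (hmain e he).2

end Pool.Agent.SKB
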