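import Mathlib
import Pool.Agent.SKB.MatrixIneq

/-!
# The `L^q` norm is a norm
-/

open scoped ENNReal NNReal ComplexOrder Topology
open Filter

namespace Pool.Agent.SKB

universe u v

variable {M : Type u} [CStarAlgebra M] [PartialOrder M] [StarOrderedRing M]

lemma row_RegLe {ι : Type} [Fintype ι] (a : ι → ℂ) :
    RegLe (fun (_ : Unit) (j : ι) => a j) (√(∑ j, ‖a j‖ ^ 2)) := by
  intro u w hu hw
  simp only [Finset.univ_unique, PUnit.default_eq_unit, Finset.sum_singleton]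
  rw [Real.sqrt_sq (hw ()), ← Finset.sum_mul]
  have := hw ()
  gcongr
  exact Real.sum_mul_le_sqrt_mul_sqrt _ _ _

lemma row_OpLe {ι : Type} [Fintype ι] (a : ι → ℂ) :
    OpLe (fun (_ : Unit) (j : ι) => a j) (√(∑ j, ‖a j‖ ^ 2)) := by
  intro u
  simp only [Finset.univ_unique, Finset.sum_singleton]
  rw [Real.sq_sqrt (by positivity)]
  have h1 : ‖∑ j, a j * u j‖ ≤ √(∑ j, ‖a j‖ ^ 2) * √(∑ j, ‖u j‖ ^ 2) := by
    refine (norm_sum_le _ _).trans ?_
    simp only [norm_mul]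
    exact Real.sum_mul_le_sqrt_mul_sqrt _ _ _
  calc ‖∑ j, a j * u j‖ ^ 2 ≤ (√(∑ j, ‖a j‖ ^ 2) * √(∑ j, ‖u j‖ ^ 2)) ^ 2 := by gcongr
    _ = _ := by rw [mul_pow, Real.sq_sqrt (by positivity), Real.sq_sqrt (by positivity)]

variable {τ : TraceWt M}

lemma lqnrm_row {ι : Type} [Fintype ι] (a : ι → ℂ) (x : ι → M) {q : ℝ} (hq : 1 ≤ q)
    (hx : ∀ j, mom τ q (x j) < ∞) :
    mom τ q (∑ j, a j • x j) < ∞ ∧
    lqnrm τ q (∑ j, a j • x j) ≤ √(∑ j, ‖a j‖ ^ 2) * √(∑ j, lqnrm τ q (x j) ^ 2) := by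
  have h := lqnrm_matrix (τ := τ) (a := fun (_ : Unit) (j : ι) => a j)
    (Real.sqrt_nonneg _) (Real.sqrt_nonneg _) (row_RegLe a) (row_OpLe a) x hq hx
  refine ⟨h.1 (), ?_⟩
  have h2 := h.2
  simp only [Finset.univ_unique, Finset.sum_singleton] at h2
  rw [Real.sqrt_sq (lqnrm_nonneg _ _)] at h2
  refine h2.trans (le_of_eq ?_)
  congr 1
  rw [← Real.rpow_add' (Real.sqrt_nonneg _) (by simp)]
  simp

lemma mom_zero {q : ℝ} (hq : 0 < q) : mom τ q 0 = 0 := by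
  unfold mom
  have : cfc (fun t : ℝ => t ^ (q / 2)) (star (0 : M) * 0) = 0 := by
    rw [star_zero, mul_zero, cfc_apply_zero, Real.zero_rpow (by positivity), map_zero]
  rw [this, τ.map_zero]

lemma lqnrm_zero {q : ℝ} (hq : 0 < q) : lqnrm τ q (0 : M) = 0 := by
  unfold lqnrm
  rw [mom_zero hq, ENNReal.toReal_zero, Real.zero_rpow (by positivity)]

lemma mom_smul_lt {q : ℝ} (hq : 1 ≤ q) {x : M} (hx : mom τ q x < ∞) (c : ℂ) :
    mom τ q (c • x) < ∞ := by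
  have := (lqnrm_row (τ := τ) (fun _ : Unit => c) (fun _ => x) hq (fun _ => hx)).1
  simpa using this

lemma lqnrm_smul_le {q : ℝ} (hq : 1 ≤ q) {x : M} (hx : mom τ q x < ∞) (c : ℂ) :
    lqnrm τ q (c • x) ≤ ‖c‖ * lqnrm τ q x := by
  have := (lqnrm_row (τ := τ) (fun _ : Unit => c) (fun _ => x) hq (fun _ => hx)).2
  simpa [Real.sqrt_sq, lqnrm_nonneg, norm_nonneg] using this

lemma mom_add_lt {q : ℝ} (hq : 1 ≤ q) {x y : M} (hx : mom τ q x < ∞) (hy : mom τ q y < ∞) :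
    mom τ q (x + y) < ∞ := by
  have := (lqnrm_row (τ := τ) (fun _ : Bool => (1 : ℂ)) (fun b => if b then x else y) hq
    (fun b => by cases b <;> simp [hx, hy])).1
  simpa [add_comm] using this

lemma lqnrm_add_le {q : ℝ} (hq : 1 ≤ q) {x y : M} (hx : mom τ q x < ∞) (hy : mom τ q y < ∞) :
    lqnrm τ q (x + y) ≤ lqnrm τ q x + lqnrm τ q y := by
  set X := lqnrm τ q x with hX
  set Y := lqnrm τ q y with hY
  have hX0 : 0 ≤ X := lqnrm_nonneg _ _
  have hY0 : 0 ≤ Y := lqnrm_nonneg _ _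
  have main : ∀ e : ℝ, 0 < e → lqnrm τ q (x + y) ^ 2 ≤ (X + Y + 2 * e) * (X + Y) := by
    intro e he
    set α := √(X + e) with hα
    set β := √(Y + e) with hβ
    have hα0 : 0 < α := Real.sqrt_pos.2 (by positivity)
    have hβ0 : 0 < β := Real.sqrt_pos.2 (by positivity)
    have h1 := (lqnrm_row (τ := τ) (fun b : Bool => if b then (α : ℂ) else (β : ℂ))
      (fun b => if b then ((α⁻¹ : ℝ) : ℂ) • x else ((β⁻¹ : ℝ) : ℂ) • y) hq
      (fun b => by
        cases b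
        · simpa using mom_smul_lt hq hy _
        · simpa using mom_smul_lt hq hx _)).2
    simp only [Fintype.sum_bool, if_true, Bool.false_eq_true, if_false] at h1
    rw [smul_smul, smul_smul, ← Complex.ofReal_mul, ← Complex.ofReal_mul,
      mul_inv_cancel₀ hα0.ne', mul_inv_cancel₀ hβ0.ne', Complex.ofReal_one, one_smul, one_smul,
      Complex.norm_real, Complex.norm_real, Real.norm_of_nonneg hα0.le,
      Real.norm_of_nonneg hβ0.le] at h1
    have hα2 : α ^ 2 = X + e := Real.sq_sqrt (by positivity)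
    have hβ2 : β ^ 2 = Y + e := Real.sq_sqrt (by positivity)
    have h2 : lqnrm τ q (((α⁻¹ : ℝ) : ℂ) • x) ≤ α⁻¹ * X := by
      have := lqnrm_smul_le hq hx ((α⁻¹ : ℝ) : ℂ)
      rwa [Complex.norm_real, Real.norm_of_nonneg (by positivity)] at this
    have h3 : lqnrm τ q (((β⁻¹ : ℝ) : ℂ) • y) ≤ β⁻¹ * Y := by
      have := lqnrm_smul_le hq hy ((β⁻¹ : ℝ) : ℂ)
      rwa [Complex.norm_real, Real.norm_of_nonneg (by positivity)] at this
    have h4 : lqnrm τ q (((α⁻¹ : ℝ) : ℂ) • x) ^ 2 ≤ X := by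
      calc _ ≤ (α⁻¹ * X) ^ 2 := by
            have := lqnrm_nonneg (τ := τ) q (((α⁻¹ : ℝ) : ℂ) • x)
            gcongr
        _ = X * (X / (X + e)) := by rw [mul_pow, inv_pow, hα2]; field_simp
        _ ≤ X * 1 := by
            gcongr
            rw [div_le_one (by positivity)]; linarith
        _ = X := mul_one X
    have h5 : lqnrm τ q (((β⁻¹ : ℝ) : ℂ) • y) ^ 2 ≤ Y := by
      calc _ ≤ (β⁻¹ * Y) ^ 2 := by
            have := lqnrm_nonneg (τ := τ) q (((β⁻¹ : ℝ) : ℂ) • y)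
            gcongr
        _ = Y * (Y / (Y + e)) := by rw [mul_pow, inv_pow, hβ2]; field_simp
        _ ≤ Y * 1 := by
            gcongr
            rw [div_le_one (by positivity)]; linarith
        _ = Y := mul_one Y
    have h6 := lqnrm_nonneg (τ := τ) q (x + y)
    calc lqnrm τ q (x + y) ^ 2 ≤ (√(α ^ 2 + β ^ 2) *
          √(lqnrm τ q (((α⁻¹ : ℝ) : ℂ) • x) ^ 2 + lqnrm τ q (((β⁻¹ : ℝ) : ℂ) • y) ^ 2)) ^ 2 := by
          gcongr
      _ = (α ^ 2 + β ^ 2) *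
          (lqnrm τ q (((α⁻¹ : ℝ) : ℂ) • x) ^ 2 + lqnrm τ q (((β⁻¹ : ℝ) : ℂ) • y) ^ 2) := by
          rw [mul_pow, Real.sq_sqrt (show 0 ≤ α ^ 2 + β ^ 2 by positivity),
            Real.sq_sqrt (show 0 ≤ lqnrm τ q (((α⁻¹ : ℝ) : ℂ) • x) ^ 2 +
              lqnrm τ q (((β⁻¹ : ℝ) : ℂ) • y) ^ 2 by positivity)]
      _ ≤ (α ^ 2 + β ^ 2) * (X + Y) := by gcongr
      _ = (X + Y + 2 * e) * (X + Y) := by rw [hα2, hβ2]; ring
  have h7 : lqnrm τ q (x + y) ^ 2 ≤ (X + Y) ^ 2 := by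
    apply le_of_forall_pos_le_add
    intro e he
    have h8 := main (e / (2 * (X + Y) + 1)) (by positivity)
    have h9 : 2 * (e / (2 * (X + Y) + 1)) * (X + Y) ≤ e := by
      have : 2 * (e / (2 * (X + Y) + 1)) * (X + Y) = e * (2 * (X + Y)) / (2 * (X + Y) + 1) := by
        field_simp
      rw [this, div_le_iff₀ (by positivity)]
      nlinarith
    nlinarith
  exact le_of_sq_le_sq h7 (by positivity)

lemma lqnrm_one (x : M) : lqnrm τ 1 x = (mom τ 1 x).toReal := by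
  unfold lqnrm
  rw [div_one, Real.rpow_one]

end Pool.Agent.SKB
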