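import Mathlib
import Pool.Agent.SKB.LpLemmas

/-!
# Tracial non-commutative `L^p` spaces
-/

open scoped ENNReal NNReal ComplexOrder Topology
open Filter

namespace Pool.Agent.SKB

universe u v

/-- A normal semifinite faithful trace on a W*-algebra `M` (only values on positive elements
matter). -/
structure NSFTrace (M : Type u) [CStarAlgebra M] [PartialOrder M] [StarOrderedRing M] where
  /-- the trace -/
  toFun : M → ℝ≥0∞
  map_add' : ∀ a b : M, 0 ≤ a → 0 ≤ b → toFun (a + b) = toFun a + toFun b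
  map_smul' : ∀ (c : ℝ≥0) (a : M), 0 ≤ a → toFun ((c : ℝ) • a) = c * toFun a
  tracial' : ∀ x : M, toFun (star x * x) = toFun (x * star x)
  faithful' : ∀ a : M, 0 ≤ a → toFun a = 0 → a = 0
  normal' : ∀ (S : Set M) (a : M), S.Nonempty → DirectedOn (· ≤ ·) S → (∀ x ∈ S, 0 ≤ x) →
    IsLUB S a → toFun a = ⨆ x ∈ S, toFun x
  semifinite' : ∀ a : M, 0 ≤ a → a ≠ 0 → ∃ b : M, 0 ≤ b ∧ b ≤ a ∧ b ≠ 0 ∧ toFun b < ∞

variable {M : Type u} [CStarAlgebra M] [PartialOrder M] [StarOrderedRing M]

/-- The underlying trace weight. -/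
def NSFTrace.wt (τ : NSFTrace M) : TraceWt M where
  toFun := τ.toFun
  map_add' := τ.map_add'
  map_smul' := τ.map_smul'
  tracial' := τ.tracial'
  normal' := by
    intro u a hu hmono hlim
    have hlub : IsLUB (Set.range u) a := isLUB_of_tendsto_atTop hmono hlim
    rw [τ.normal' (Set.range u) a ⟨u 0, 0, rfl⟩ (hmono.directed_le.directedOn_range)
      (by rintro _ ⟨n, rfl⟩; exact hu n) hlub]
    exact iSup_range

/-- `|x|^p = (x*x)^{p/2}`, by continuous functional calculus. -/
noncomputable def absPow (p : ℝ) (x : M) : M := cfc (fun t : ℝ => t ^ (p / 2)) (star x * x)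

/-! ### The `L^p` space -/

/-- `{x ∈ M : τ(|x|^p) < ∞}`. -/
def lpDom (τ : NSFTrace M) (p : ℝ) [hp : Fact (1 < p)] : Submodule ℂ M where
  carrier := {x | τ.toFun (absPow p x) < ∞}
  add_mem' := fun hx hy => mom_add_lt (τ := τ.wt) hp.out.le hx hy
  zero_mem' := by
    change mom τ.wt p 0 < ∞
    rw [mom_zero (by linarith [hp.out])]
    exact ENNReal.zero_lt_top
  smul_mem' := fun c _ hx => mom_smul_lt (τ := τ.wt) hp.out.le hx c

/-- `lpDom` with the norm `‖x‖_p = τ(|x|^p)^{1/p}`. -/
def LpPre (τ : NSFTrace M) (p : ℝ) [Fact (1 < p)] : Type u := lpDom τ p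

variable (τ' : NSFTrace M) (p : ℝ) [hp : Fact (1 < p)]

noncomputable instance : AddCommGroup (LpPre τ' p) :=
  (inferInstance : AddCommGroup (lpDom τ' p))
noncomputable instance : Module ℂ (LpPre τ' p) := (inferInstance : Module ℂ (lpDom τ' p))

/-- `‖x‖_p = τ(|x|^p)^{1/p}`. -/
noncomputable def lpNorm (x : M) : ℝ := (τ'.toFun (absPow p x)).toReal ^ (1 / p)

omit hp in
lemma lpNorm_eq (x : M) : lpNorm τ' p x = lqnrm τ'.wt p x := rfl

noncomputable instance : SeminormedAddCommGroup (LpPre τ' p) :=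
  AddGroupSeminorm.toSeminormedAddCommGroup
    { toFun := fun x => lpNorm τ' p (x : lpDom τ' p).1
      map_zero' := lqnrm_zero (τ := τ'.wt) (by linarith [hp.out])
      add_le' := fun x y => lqnrm_add_le (τ := τ'.wt) hp.out.le (x : lpDom τ' p).2 (y : lpDom τ' p).2
      neg' := fun x => by
        change (τ'.toFun (absPow p (-(x : lpDom τ' p).1))).toReal ^ (1 / p) =
          (τ'.toFun (absPow p (x : lpDom τ' p).1)).toReal ^ (1 / p)
        unfold absPow
        simp }

noncomputable instance : NormedSpace ℂ (LpPre τ' p) where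
  norm_smul_le := fun c x => lqnrm_smul_le (τ := τ'.wt) hp.out.le (x : lpDom τ' p).2 c

/-- The non-commutative `L^p` space `L^p(M,τ)`: the completion of `{x ∈ M : τ(|x|^p) < ∞}` under
`‖x‖_p = τ(|x|^p)^{1/p}`. -/
def Lp : Type u := UniformSpace.Completion (LpPre τ' p)

noncomputable instance : NormedAddCommGroup (Lp τ' p) :=
  (inferInstance : NormedAddCommGroup (UniformSpace.Completion (LpPre τ' p)))
noncomputable instance : NormedSpace ℂ (Lp τ' p) :=
  (inferInstance : NormedSpace ℂ (UniformSpace.Completion (LpPre τ' p)))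
instance : CompleteSpace (Lp τ' p) :=
  (inferInstance : CompleteSpace (UniformSpace.Completion (LpPre τ' p)))

end Pool.Agent.SKB
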