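import Mathlib
import Pool.Agent.SKB.Lp

/-!
# Finite representability in tracial non-commutative `L^p` spaces: definition
-/

open scoped ENNReal NNReal ComplexOrder Topology
open Filter

namespace Pool.Agent.SKB

universe u v

/-- `X` is finitely representable in the class of tracial non-commutative `L^p` spaces: every
finite dimensional subspace embeds into some `L^p(M,τ)` with distortion arbitrarily close to
`1`. -/
def FinRepTracial (p : ℝ) [Fact (1 < p)] (X : Type v) [NormedAddCommGroup X] [NormedSpace ℂ X] :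
    Prop :=
  ∀ E : Submodule ℂ X, FiniteDimensional ℂ E → ∀ ε : ℝ, 0 < ε →
    ∃ (M : Type u) (_ : CStarAlgebra M) (_ : PartialOrder M) (_ : StarOrderedRing M)
      (_ : WStarAlgebra M) (τ : NSFTrace M) (f : E →ₗ[ℂ] Lp τ p),
      ∀ x : E, (1 - ε) * ‖x‖ ≤ ‖f x‖ ∧ ‖f x‖ ≤ (1 + ε) * ‖x‖

end Pool.Agent.SKB
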