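import Mathlib
import Pool.Agent.SKB.Lp

/-!
# Tracial non-commutative `L^p` spaces are curved
-/

open scoped ENNReal NNReal ComplexOrder Topology
open Filter

namespace Pool.Agent.SKB

universe u v

variable {M : Type u} [CStarAlgebra M] [PartialOrder M] [StarOrderedRing M]

variable (τ' : NSFTrace M) (p : ℝ) [hp : Fact (1 < p)]

/-- Curvature passes to completions. -/
lemma Curved.completion {E : Type*} [SeminormedAddCommGroup E] [NormedSpace ℂ E] {ϑ : ℝ}
    (h : ∀ (ι κ : Type) [Fintype ι] [Fintype κ] (a : κ → ι → ℂ) (r s : ℝ), 0 ≤ r → 0 ≤ s →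
      RegLe a r → OpLe a s → ∀ x : ι → E,
        √(∑ k, ‖∑ j, a k j • x j‖ ^ 2) ≤ s ^ ϑ * r ^ (1 - ϑ) * √(∑ j, ‖x j‖ ^ 2)) :
    Curved (UniformSpace.Completion E) ϑ := by
  intro ι κ _ _ a r s hr hs hreg hop x
  have hd : DenseRange (fun y : ι → E => fun j => (y j : UniformSpace.Completion E)) :=
    DenseRange.piMap fun _ => UniformSpace.Completion.denseRange_coe
  refine hd.induction_on (p := fun x : ι → UniformSpace.Completion E =>
    √(∑ k, ‖∑ j, a k j • x j‖ ^ 2) ≤ s ^ ϑ * r ^ (1 - ϑ) * √(∑ j, ‖x j‖ ^ 2)) x ?_ ?_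
  · have c1 : ∀ k, Continuous fun z : ι → UniformSpace.Completion E => ‖∑ j, a k j • z j‖ ^ 2 :=
      fun k => (continuous_finsetSum _ fun j _ =>
        (continuous_apply j).const_smul (a k j)).norm.pow 2
    have c2 : ∀ j, Continuous fun z : ι → UniformSpace.Completion E => ‖z j‖ ^ 2 :=
      fun j => (continuous_apply j).norm.pow 2
    exact isClosed_le (Real.continuous_sqrt.comp (continuous_finsetSum _ fun k _ => c1 k))
      (continuous_const.mul (Real.continuous_sqrt.comp (continuous_finsetSum _ fun j _ => c2 j)))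
  · intro y
    have := h ι κ a r s hr hs hreg hop y
    have e : ∀ k, ‖∑ j, a k j • (y j : UniformSpace.Completion E)‖ = ‖∑ j, a k j • y j‖ := by
      intro k
      rw [← UniformSpace.Completion.norm_coe (∑ j, a k j • y j)]
      congr 1
      have := map_sum (UniformSpace.Completion.toComplL (𝕜 := ℂ) (E := E))
        (fun j => a k j • y j) Finset.univ
      simp only [map_smul] at this
      exact this.symm
    simp only [e, UniformSpace.Completion.norm_coe]
    exact this

/-- Tracial `L^p` spaces are curved with exponent `1 - |1 - 2/p|`. -/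
theorem curved_Lp : Curved (Lp τ' p) (vt p) := by
  apply Curved.completion
  intro ι κ _ _ a r s hr hs hreg hop x
  have key := (lqnrm_matrix (τ := τ'.wt) hr hs hreg hop (fun j => (x j : lpDom τ' p).1) hp.out.le
    (fun j => (x j : lpDom τ' p).2)).2
  have e : ∀ k, ‖∑ j, a k j • x j‖ = lqnrm τ'.wt p (∑ j, a k j • (x j : lpDom τ' p).1) := by
    intro k
    change lqnrm τ'.wt p ((∑ j, a k j • x j : lpDom τ' p) : M) = _
    congr 1
    have h1 := map_sum (lpDom τ' p).subtype (fun j => a k j • (show lpDom τ' p from x j))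
      Finset.univ
    exact h1
  simp only [e]
  exact key

end Pool.Agent.SKB
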