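import Mathlib
import Pool.Agent.SKB.FinRepDef
import Pool.Agent.SKB.LpCurved

/-!
# Banach spaces finitely representable in tracial non-commutative `L^p` spaces
-/

open scoped ENNReal NNReal ComplexOrder Topology
open Filter

namespace Pool.Agent.SKB

universe u v

/-- Tracial `L^p` spaces are finitely representable in themselves. -/
lemma finRepTracial_Lp {M : Type u} [CStarAlgebra M] [PartialOrder M] [StarOrderedRing M]
    [hM : WStarAlgebra M] (τ : NSFTrace M) (p : ℝ) [Fact (1 < p)] :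
    FinRepTracial.{u, u} p (Lp τ p) := by
  intro E _ ε hε
  refine ⟨M, _, _, _, hM, τ, E.subtype, fun x => ?_⟩
  have h : ‖E.subtype x‖ = ‖x‖ := rfl
  rw [h]
  have := norm_nonneg x
  constructor <;> nlinarith

/-- Curvature passes to finitely representable spaces. -/
theorem FinRepTracial.curved {p : ℝ} [hp : Fact (1 < p)] {X : Type v} [NormedAddCommGroup X]
    [NormedSpace ℂ X] (h : FinRepTracial.{u, v} p X) : Curved X (vt p) := by
  intro ι κ _ _ a r s hr hs hreg hop x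
  set E : Submodule ℂ X := Submodule.span ℂ (Set.range x) with hE
  have hEf : FiniteDimensional ℂ E := FiniteDimensional.span_of_finite ℂ (Set.finite_range x)
  let x' : ι → E := fun j => ⟨x j, Submodule.subset_span ⟨j, rfl⟩⟩
  set C := s ^ vt p * r ^ (1 - vt p) with hC
  have hC0 : 0 ≤ C := by positivity
  set L := √(∑ k, ‖∑ j, a k j • x j‖ ^ 2) with hL
  set R := √(∑ j, ‖x j‖ ^ 2) with hR
  have hR0 : 0 ≤ R := Real.sqrt_nonneg _
  have hL0 : 0 ≤ L := Real.sqrt_nonneg _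
  have main : ∀ ε : ℝ, 0 < ε → ε < 1 → (1 - ε) * L ≤ (1 + ε) * (C * R) := by
    intro ε hε hε1
    obtain ⟨M, i1, i2, i3, i4, τ, f, hf⟩ := h E hEf ε hε
    have key := curved_Lp τ p ι κ a r s hr hs hreg hop (fun j => f (x' j))
    have e1 : ∀ k, ∑ j, a k j • f (x' j) = f (∑ j, a k j • x' j) := by
      intro k; rw [map_sum]; simp only [map_smul]
    have e2 : ∀ k, ‖∑ j, a k j • x j‖ = ‖∑ j, a k j • x' j‖ := by
      intro k
      rw [← Submodule.norm_coe]
      congr 1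
      simp [x']
    have h1 : (1 - ε) * L ≤ √(∑ k, ‖∑ j, a k j • f (x' j)‖ ^ 2) := by
      have hnn : 0 ≤ 1 - ε := by linarith
      rw [hL, ← Real.sqrt_sq hnn, ← Real.sqrt_mul (sq_nonneg _)]
      apply Real.sqrt_le_sqrt
      rw [Finset.mul_sum]
      refine Finset.sum_le_sum fun k _ => ?_
      rw [← mul_pow, e1, e2]
      have := (hf (∑ j, a k j • x' j)).1
      gcongr
    have h2 : √(∑ j, ‖f (x' j)‖ ^ 2) ≤ (1 + ε) * R := by
      have hnn : 0 ≤ 1 + ε := by linarith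
      rw [hR, ← Real.sqrt_sq hnn, ← Real.sqrt_mul (sq_nonneg _)]
      apply Real.sqrt_le_sqrt
      rw [Finset.mul_sum]
      refine Finset.sum_le_sum fun j _ => ?_
      rw [← mul_pow]
      have := (hf (x' j)).2
      gcongr
      exact this
    calc (1 - ε) * L ≤ √(∑ k, ‖∑ j, a k j • f (x' j)‖ ^ 2) := h1
      _ ≤ C * √(∑ j, ‖f (x' j)‖ ^ 2) := key
      _ ≤ C * ((1 + ε) * R) := by gcongr
      _ = (1 + ε) * (C * R) := by ring
  have hlim1 : Tendsto (fun ε : ℝ => (1 - ε) * L) (𝓝[>] 0) (𝓝 ((1 - 0) * L)) :=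
    Tendsto.mono_left (Continuous.tendsto (by fun_prop) 0) nhdsWithin_le_nhds
  have hlim2 : Tendsto (fun ε : ℝ => (1 + ε) * (C * R)) (𝓝[>] 0) (𝓝 ((1 + 0) * (C * R))) :=
    Tendsto.mono_left (Continuous.tendsto (by fun_prop) 0) nhdsWithin_le_nhds
  rw [sub_zero, one_mul] at hlim1
  rw [add_zero, one_mul] at hlim2
  refine le_of_tendsto_of_tendsto hlim1 hlim2 ?_
  have : Set.Ioo (0 : ℝ) 1 ∈ 𝓝[>] (0 : ℝ) := Ioo_mem_nhdsGT one_pos
  filter_upwards [this] with ε hε
  exact main ε hε.1 hε.2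

lemma vt_pos {p : ℝ} (hp : 1 < p) : 0 < vt p := by
  unfold vt
  have h0 : 0 < 2 / p := by positivity
  have h1 : 2 / p < 2 := by rw [div_lt_iff₀ (by linarith)]; linarith
  have : |1 - 2 / p| < 1 := by rw [abs_lt]; constructor <;> linarith
  linarith

lemma vt_le_one (p : ℝ) : vt p ≤ 1 := by
  unfold vt; linarith [abs_nonneg (1 - 2 / p)]

lemma one_sub_vt_half (p : ℝ) : (1 - vt p) / 2 = |1 / 2 - 1 / p| := by
  unfold vt
  rw [sub_sub_cancel, show 1 / 2 - 1 / p = (1 - 2 / p) / 2 by ring, abs_div, abs_two]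

end Pool.Agent.SKB
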