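import Mathlib
import Pool.Agent.SKB.Defs

/-!
# Fourier multipliers on `ZMod N` with Lipschitz symbols
-/

open Finset

namespace Pool.Agent.SKB

variable {N : ℕ} [NeZero N]


lemma norm_e (j : ZMod N) : ‖(ZMod.stdAddChar : AddChar (ZMod N) ℂ) j‖ = 1 := by
  exact Circle.norm_coe _

lemma conj_e (j : ZMod N) : (starRingEnd ℂ) ((ZMod.stdAddChar : AddChar (ZMod N) ℂ) j) = (ZMod.stdAddChar : AddChar (ZMod N) ℂ) (-j) := by
  rw [AddChar.map_neg_eq_inv, Complex.inv_def]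
  have : Complex.normSq ((ZMod.stdAddChar : AddChar (ZMod N) ℂ) j) = 1 := by rw [Complex.normSq_eq_norm_sq, norm_e]; norm_num
  rw [this]; simp

lemma sum_e (b : ZMod N) : ∑ u : ZMod N, (ZMod.stdAddChar : AddChar (ZMod N) ℂ) (u * b) = if b = 0 then (N : ℂ) else 0 := by
  rw [AddChar.sum_mulShift b (ZMod.isPrimitive_stdAddChar N)]
  simp [ZMod.card]

lemma parseval (c : ZMod N → ℂ) :
    ∑ u : ZMod N, ‖∑ k : ZMod N, c k * (ZMod.stdAddChar : AddChar (ZMod N) ℂ) (k * u)‖ ^ 2 = N * ∑ k, ‖c k‖ ^ 2 := by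
  have key : ∀ z : ℂ, ((‖z‖ ^ 2 : ℝ) : ℂ) = z * (starRingEnd ℂ) z := by
    intro z
    rw [Complex.mul_conj, Complex.normSq_eq_norm_sq]
  have : ((∑ u : ZMod N, ‖∑ k : ZMod N, c k * (ZMod.stdAddChar : AddChar (ZMod N) ℂ) (k * u)‖ ^ 2 : ℝ) : ℂ) =
      ((N * ∑ k, ‖c k‖ ^ 2 : ℝ) : ℂ) := by
    rw [Complex.ofReal_sum]
    calc ∑ u : ZMod N, ((‖∑ k : ZMod N, c k * (ZMod.stdAddChar : AddChar (ZMod N) ℂ) (k * u)‖ ^ 2 : ℝ) : ℂ)
        = ∑ u : ZMod N, ∑ k : ZMod N, ∑ l : ZMod N,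
            (c k * (starRingEnd ℂ) (c l)) * (ZMod.stdAddChar : AddChar (ZMod N) ℂ) (u * (k - l)) := by
          refine sum_congr rfl fun u _ => ?_
          rw [key, map_sum, sum_mul_sum]
          refine sum_congr rfl fun k _ => sum_congr rfl fun l _ => ?_
          rw [map_mul (starRingEnd ℂ), conj_e]
          have : (ZMod.stdAddChar : AddChar (ZMod N) ℂ) (u * (k - l)) = (ZMod.stdAddChar : AddChar (ZMod N) ℂ) (k * u) * (ZMod.stdAddChar : AddChar (ZMod N) ℂ) (-(l * u)) := by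
            rw [← AddChar.map_add_eq_mul]; congr 1; ring
          rw [this]; ring
      _ = ∑ k : ZMod N, ∑ l : ZMod N, ∑ u : ZMod N,
            (c k * (starRingEnd ℂ) (c l)) * (ZMod.stdAddChar : AddChar (ZMod N) ℂ) (u * (k - l)) := by
          rw [sum_comm]
          refine sum_congr rfl fun k _ => ?_
          rw [sum_comm]
      _ = ∑ k : ZMod N, ∑ l : ZMod N,
            (c k * (starRingEnd ℂ) (c l)) * (if k - l = 0 then (N : ℂ) else 0) := by
          refine sum_congr rfl fun k _ => sum_congr rfl fun l _ => ?_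
          rw [← mul_sum, sum_e]
      _ = ∑ k : ZMod N, c k * (starRingEnd ℂ) (c k) * N := by
          refine sum_congr rfl fun k _ => ?_
          simp [sub_eq_zero]
      _ = _ := by
          push_cast
          rw [mul_sum]
          refine sum_congr rfl fun k _ => ?_
          rw [← key]; push_cast; ring
  exact_mod_cast this

/-- The kernel of the multiplier `v`. -/
noncomputable def ker (v : ZMod N → ℝ) (u : ZMod N) : ℂ := ∑ k : ZMod N, (v k : ℂ) * (ZMod.stdAddChar : AddChar (ZMod N) ℂ) (k * u)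

lemma parseval_ker (v : ZMod N → ℝ) : ∑ u : ZMod N, ‖ker v u‖ ^ 2 = N * ∑ k, v k ^ 2 := by
  unfold ker
  rw [parseval]
  simp

lemma ker_diff (v : ZMod N → ℝ) (u : ZMod N) :
    (1 - (ZMod.stdAddChar : AddChar (ZMod N) ℂ) (-u)) * ker v u = ∑ k : ZMod N, ((v k - v (k + 1) : ℝ) : ℂ) * (ZMod.stdAddChar : AddChar (ZMod N) ℂ) (k * u) := by
  have h1 : (ZMod.stdAddChar : AddChar (ZMod N) ℂ) (-u) * ker v u = ∑ k : ZMod N, (v (k + 1) : ℂ) * (ZMod.stdAddChar : AddChar (ZMod N) ℂ) (k * u) := by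
    unfold ker
    rw [mul_sum, ← Equiv.sum_comp (Equiv.addRight (1 : ZMod N))]
    refine sum_congr rfl fun k _ => ?_
    simp only [Equiv.coe_addRight]
    have : (ZMod.stdAddChar : AddChar (ZMod N) ℂ) (k * u) = (ZMod.stdAddChar : AddChar (ZMod N) ℂ) (-u) * (ZMod.stdAddChar : AddChar (ZMod N) ℂ) ((k + 1) * u) := by
      rw [← AddChar.map_add_eq_mul]; congr 1; ring
    rw [this]; ring
  rw [sub_mul, one_mul, h1]
  unfold ker
  rw [← sum_sub_distrib]
  refine sum_congr rfl fun k _ => ?_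
  push_cast; ring

lemma parseval_ker_diff (v : ZMod N → ℝ) :
    ∑ u : ZMod N, ‖1 - (ZMod.stdAddChar : AddChar (ZMod N) ℂ) (-u)‖ ^ 2 * ‖ker v u‖ ^ 2 = N * ∑ k, (v k - v (k + 1)) ^ 2 := by
  have h : ∀ u : ZMod N, ‖1 - (ZMod.stdAddChar : AddChar (ZMod N) ℂ) (-u)‖ ^ 2 * ‖ker v u‖ ^ 2 =
      ‖∑ k : ZMod N, ((v k - v (k + 1) : ℝ) : ℂ) * (ZMod.stdAddChar : AddChar (ZMod N) ℂ) (k * u)‖ ^ 2 := by
    intro u
    rw [← ker_diff, norm_mul, mul_pow]
  rw [sum_congr rfl fun u _ => h u, parseval]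
  congr 1
  refine sum_congr rfl fun k _ => ?_
  rw [Complex.norm_real, Real.norm_eq_abs, sq_abs]

/-- Telescoping estimate. -/
lemma sum_inv_le {c : ℝ} (hc : 0 < c) (J : ℕ) :
    ∑ j ∈ range J, 1 / (1 + (c * (j + 1)) ^ 2) ≤ 2 / c := by
  have h1 : ∀ j : ℕ, 1 / (1 + (c * (j + 1)) ^ 2) ≤
      (2 / c) * ((c * ((j : ℝ) + 1)) / (1 + c * ((j : ℝ) + 1)) - (c * j) / (1 + c * j)) := by
    intro j
    have hj : (0 : ℝ) ≤ j := Nat.cast_nonneg j
    have e : (2 / c) * ((c * ((j : ℝ) + 1)) / (1 + c * ((j : ℝ) + 1)) - (c * j) / (1 + c * j)) =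
        2 / ((1 + c * ((j : ℝ) + 1)) * (1 + c * j)) := by
      field_simp
      ring
    rw [e, div_le_div_iff₀ (by positivity) (by positivity)]
    nlinarith [sq_nonneg (1 - c * ((j : ℝ) + 1)), mul_nonneg hc.le hj, mul_nonneg hc.le (mul_nonneg hc.le hj)]
  calc ∑ j ∈ range J, 1 / (1 + (c * (j + 1)) ^ 2)
      ≤ ∑ j ∈ range J, (2 / c) * ((c * ((j : ℝ) + 1)) / (1 + c * ((j : ℝ) + 1)) -
          (c * j) / (1 + c * j)) := sum_le_sum fun j _ => h1 j
    _ = (2 / c) * ((c * (J : ℝ)) / (1 + c * (J : ℝ))) := by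
        rw [← mul_sum]
        have := Finset.sum_range_sub (fun j : ℕ => (c * (j : ℝ)) / (1 + c * (j : ℝ))) J
        simp only [Nat.cast_add, Nat.cast_one, Nat.cast_zero, mul_zero, zero_div, sub_zero] at this
        rw [this]
    _ ≤ (2 / c) * 1 := by
        gcongr
        rw [div_le_one (by positivity)]
        linarith
    _ = _ := mul_one _

/-- lower bound for the distance of roots of unity to `1`. -/
lemma norm_one_sub_e (u : ZMod N) :
    4 * min ((u.val : ℝ) / N) (1 - (u.val : ℝ) / N) ≤ ‖1 - (ZMod.stdAddChar : AddChar (ZMod N) ℂ) (-u)‖ := by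
  have hN : (0 : ℝ) < N := by exact_mod_cast Nat.pos_of_ne_zero (NeZero.ne N)
  set t : ℝ := (u.val : ℝ) / N with ht
  have ht0 : 0 ≤ t := by positivity
  have ht1 : t < 1 := by
    rw [ht, div_lt_one hN]; exact_mod_cast u.val_lt
  have e1 : ‖1 - (ZMod.stdAddChar : AddChar (ZMod N) ℂ) (-u)‖ = ‖(ZMod.stdAddChar : AddChar (ZMod N) ℂ) u - 1‖ := by
    have : (ZMod.stdAddChar : AddChar (ZMod N) ℂ) u - 1 = (ZMod.stdAddChar : AddChar (ZMod N) ℂ) u * (1 - (ZMod.stdAddChar : AddChar (ZMod N) ℂ) (-u)) := by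
      rw [mul_sub, mul_one, ← AddChar.map_add_eq_mul, add_neg_cancel, AddChar.map_zero_eq_one]
    rw [this, norm_mul, norm_e, one_mul]
  have e2 : (ZMod.stdAddChar : AddChar (ZMod N) ℂ) u = Complex.exp (Complex.I * ((2 * Real.pi * t : ℝ) : ℂ)) := by
    have h1 : (ZMod.stdAddChar : AddChar (ZMod N) ℂ) u = (ZMod.stdAddChar : AddChar (ZMod N) ℂ) ((u.val : ℤ) : ZMod N) := by simp
    rw [h1, ZMod.stdAddChar_coe]
    congr 1
    rw [ht]; push_cast; ring
  rw [e1, e2, Complex.norm_exp_I_mul_ofReal_sub_one]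
  have e3 : 2 * Real.pi * t / 2 = Real.pi * t := by ring
  rw [e3, norm_mul, Real.norm_eq_abs, Real.norm_eq_abs, abs_of_pos (by norm_num : (0 : ℝ) < 2)]
  have key : 2 * min t (1 - t) ≤ |Real.sin (Real.pi * t)| := by
    rcases le_total t (1 / 2) with h | h
    · have h1 := Real.mul_le_sin (x := Real.pi * t) (by positivity) (by nlinarith [Real.pi_pos])
      have h2 : 2 / Real.pi * (Real.pi * t) = 2 * t := by field_simp
      rw [h2] at h1
      calc 2 * min t (1 - t) ≤ 2 * t := by gcongr; exact min_le_left _ _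
        _ ≤ Real.sin (Real.pi * t) := h1
        _ ≤ _ := le_abs_self _
    · have h1 := Real.mul_le_sin (x := Real.pi * (1 - t)) (by nlinarith [Real.pi_pos])
        (by nlinarith [Real.pi_pos])
      have h2 : 2 / Real.pi * (Real.pi * (1 - t)) = 2 * (1 - t) := by field_simp
      have h3 : Real.sin (Real.pi * (1 - t)) = Real.sin (Real.pi * t) := by
        rw [mul_sub, mul_one, Real.sin_pi_sub]
      rw [h2, h3] at h1
      calc 2 * min t (1 - t) ≤ 2 * (1 - t) := by gcongr; exact min_le_right _ _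
        _ ≤ Real.sin (Real.pi * t) := h1
        _ ≤ _ := le_abs_self _
  linarith

lemma sum_weight_le {L : ℝ} (hL : 0 < L) (hLN : L ≤ N) :
    ∑ u : ZMod N, 1 / (1 + L ^ 2 * ‖1 - (ZMod.stdAddChar : AddChar (ZMod N) ℂ) (-u)‖ ^ 2) ≤ 2 * N / L := by
  have hN : (0 : ℝ) < N := by exact_mod_cast Nat.pos_of_ne_zero (NeZero.ne N)
  set c : ℝ := 4 * L / N with hc
  have hc0 : 0 < c := by positivity
  set g : ℝ → ℝ := fun x => 1 / (1 + (c * x) ^ 2) with hg
  have hterm : ∀ u : ZMod N, 1 / (1 + L ^ 2 * ‖1 - (ZMod.stdAddChar : AddChar (ZMod N) ℂ) (-u)‖ ^ 2) ≤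
      g (u.val : ℝ) + g ((N : ℝ) - u.val) := by
    intro u
    have h1 := norm_one_sub_e u
    have hv : (u.val : ℝ) / N < 1 := by
      rw [div_lt_one hN]; exact_mod_cast u.val_lt
    have hv0 : (0 : ℝ) ≤ (u.val : ℝ) / N := by positivity
    have gpos : ∀ x, 0 < g x := fun x => by simp only [hg]; positivity
    rcases le_total ((u.val : ℝ) / N) (1 - (u.val : ℝ) / N) with h | h
    · rw [min_eq_left h] at h1
      have h2 : 1 / (1 + L ^ 2 * ‖1 - (ZMod.stdAddChar : AddChar (ZMod N) ℂ) (-u)‖ ^ 2) ≤ g (u.val : ℝ) := by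
        simp only [hg]
        apply one_div_le_one_div_of_le (by positivity)
        have : c * (u.val : ℝ) = L * (4 * ((u.val : ℝ) / N)) := by rw [hc]; ring
        rw [this, mul_pow]
        gcongr
      linarith [gpos ((N : ℝ) - u.val)]
    · rw [min_eq_right h] at h1
      have h2 : 1 / (1 + L ^ 2 * ‖1 - (ZMod.stdAddChar : AddChar (ZMod N) ℂ) (-u)‖ ^ 2) ≤ g ((N : ℝ) - u.val) := by
        simp only [hg]
        apply one_div_le_one_div_of_le (by positivity)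
        have : c * ((N : ℝ) - u.val) = L * (4 * (1 - (u.val : ℝ) / N)) := by
          rw [hc]; field_simp
        rw [this, mul_pow]
        have h5 : 0 ≤ 4 * (1 - (u.val : ℝ) / N) := by linarith
        gcongr
      linarith [gpos (u.val : ℝ)]
  have hval : ∀ F : ℕ → ℝ, ∑ u : ZMod N, F u.val = ∑ j ∈ range N, F j := by
    intro F
    have e : ∑ j ∈ range N, F j = ∑ j : Fin N, F j := (Fin.sum_univ_eq_sum_range F N).symm
    rw [e]
    obtain ⟨n, rfl⟩ := Nat.exists_eq_succ_of_ne_zero (NeZero.ne N)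
    rfl
  have hs := sum_inv_le hc0 N
  calc ∑ u : ZMod N, 1 / (1 + L ^ 2 * ‖1 - (ZMod.stdAddChar : AddChar (ZMod N) ℂ) (-u)‖ ^ 2)
      ≤ ∑ u : ZMod N, (g (u.val : ℝ) + g ((N : ℝ) - u.val)) := sum_le_sum fun u _ => hterm u
    _ = ∑ j ∈ range N, g (j : ℝ) + ∑ j ∈ range N, g ((N : ℝ) - j) := by
        rw [sum_add_distrib, hval (fun j => g (j : ℝ)), hval (fun j => g ((N : ℝ) - j))]
    _ ≤ (1 + 2 / c) + 2 / c := by
        refine add_le_add ?_ ?_
        · calc ∑ j ∈ range N, g (j : ℝ) ≤ ∑ j ∈ range (N + 1), g (j : ℝ) := by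
                rw [sum_range_succ]
                have : 0 < g (N : ℝ) := by simp only [hg]; positivity
                linarith
            _ = g 0 + ∑ j ∈ range N, g ((j : ℝ) + 1) := by
                rw [sum_range_succ']
                push_cast
                ring
            _ ≤ 1 + 2 / c := by
                refine add_le_add ?_ ?_
                · simp [hg]
                · exact hs
        · calc ∑ j ∈ range N, g ((N : ℝ) - j) = ∑ j ∈ range N, g ((j : ℝ) + 1) := by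
                rw [← sum_range_reflect]
                refine sum_congr rfl fun j hj => ?_
                rw [mem_range] at hj
                congr 1
                have : ((N - 1 - j : ℕ) : ℝ) = N - 1 - j := by
                  rw [Nat.sub_sub, Nat.cast_sub (by omega)]; push_cast; ring
                rw [this]; ring
            _ ≤ 2 / c := hs
    _ = 1 + N / L := by rw [hc]; field_simp; ring
    _ ≤ N / L + N / L := by
        gcongr
        rw [one_le_div hL]; exact hLN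
    _ = _ := by ring

/-- `ℓ¹`-bound of the kernel. -/
theorem ker_l1 {v : ZMod N → ℝ} {L A : ℝ} (hL : 0 < L) (hLN : L ≤ N)
    (hv : ∑ k, v k ^ 2 + L ^ 2 * ∑ k, (v k - v (k + 1)) ^ 2 ≤ A * L) :
    ∑ u : ZMod N, ‖ker v u‖ ≤ N * √(2 * A) := by
  have hN : (0 : ℝ) < N := by exact_mod_cast Nat.pos_of_ne_zero (NeZero.ne N)
  have hA : 0 ≤ A := by
    have h0 : 0 ≤ ∑ k, v k ^ 2 + L ^ 2 * ∑ k, (v k - v (k + 1)) ^ 2 := by positivity
    by_contra h
    push Not at h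
    nlinarith
  set W : ZMod N → ℝ := fun u => 1 + L ^ 2 * ‖1 - (ZMod.stdAddChar : AddChar (ZMod N) ℂ) (-u)‖ ^ 2 with hW
  have hW0 : ∀ u, 0 < W u := fun u => by simp only [hW]; positivity
  have h1 : ∑ u : ZMod N, ‖ker v u‖ = ∑ u : ZMod N, √(1 / W u) * √(W u * ‖ker v u‖ ^ 2) := by
    refine sum_congr rfl fun u _ => ?_
    rw [← Real.sqrt_mul (by have := hW0 u; positivity)]
    have : 1 / W u * (W u * ‖ker v u‖ ^ 2) = ‖ker v u‖ ^ 2 := by
      have := (hW0 u).ne'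
      field_simp
    rw [this, Real.sqrt_sq (norm_nonneg _)]
  have h2 : (∑ u : ZMod N, √(1 / W u) * √(W u * ‖ker v u‖ ^ 2)) ≤
      √(∑ u : ZMod N, √(1 / W u) ^ 2) * √(∑ u : ZMod N, √(W u * ‖ker v u‖ ^ 2) ^ 2) :=
    Real.sum_mul_le_sqrt_mul_sqrt _ _ _
  have h3 : ∑ u : ZMod N, √(1 / W u) ^ 2 ≤ 2 * N / L := by
    calc ∑ u : ZMod N, √(1 / W u) ^ 2 = ∑ u : ZMod N, 1 / W u := by
          refine sum_congr rfl fun u _ => ?_
          rw [Real.sq_sqrt (by have := hW0 u; positivity)]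
      _ ≤ _ := sum_weight_le hL hLN
  have h4 : ∑ u : ZMod N, √(W u * ‖ker v u‖ ^ 2) ^ 2 ≤ N * (A * L) := by
    calc ∑ u : ZMod N, √(W u * ‖ker v u‖ ^ 2) ^ 2
        = ∑ u : ZMod N, (‖ker v u‖ ^ 2 + L ^ 2 * (‖1 - (ZMod.stdAddChar : AddChar (ZMod N) ℂ) (-u)‖ ^ 2 * ‖ker v u‖ ^ 2)) := by
          refine sum_congr rfl fun u _ => ?_
          rw [Real.sq_sqrt (by have := hW0 u; positivity)]
          simp only [hW]; ring
      _ = N * ∑ k, v k ^ 2 + L ^ 2 * (N * ∑ k, (v k - v (k + 1)) ^ 2) := by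
          rw [sum_add_distrib, ← mul_sum, parseval_ker, parseval_ker_diff]
      _ = N * (∑ k, v k ^ 2 + L ^ 2 * ∑ k, (v k - v (k + 1)) ^ 2) := by ring
      _ ≤ N * (A * L) := by gcongr
  rw [h1]
  calc _ ≤ √(2 * N / L) * √(N * (A * L)) := by
        refine h2.trans ?_
        gcongr
    _ = √((2 * N / L) * (N * (A * L))) := (Real.sqrt_mul (by positivity) _).symm
    _ = √(N ^ 2 * (2 * A)) := by
        congr 1
        field_simp
    _ = _ := by rw [Real.sqrt_mul (by positivity), Real.sqrt_sq hN.le]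

section young

/-- Young's inequality on `ZMod N`. -/
lemma young {κ f : ZMod N → ℝ} (hκ : ∀ u, 0 ≤ κ u) :
    ∑ θ : ZMod N, (∑ φ : ZMod N, κ (θ - φ) * f φ) ^ 2 ≤ (∑ u, κ u) ^ 2 * ∑ φ, f φ ^ 2 := by
  have h1 : ∀ θ : ZMod N, (∑ φ : ZMod N, κ (θ - φ) * f φ) ^ 2 ≤
      (∑ u, κ u) * ∑ φ : ZMod N, κ (θ - φ) * f φ ^ 2 := by
    intro θ
    have h2 : ∑ u, κ u = ∑ φ : ZMod N, κ (θ - φ) := by
      rw [← Equiv.sum_comp (Equiv.subLeft θ)]
      rfl
    rw [h2]
    have := Finset.sum_mul_sq_le_sq_mul_sq univ (fun φ : ZMod N => √(κ (θ - φ)))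
      (fun φ => √(κ (θ - φ)) * f φ)
    have e1 : ∀ φ : ZMod N, √(κ (θ - φ)) * (√(κ (θ - φ)) * f φ) = κ (θ - φ) * f φ := by
      intro φ
      rw [← mul_assoc, Real.mul_self_sqrt (hκ _)]
    have e2 : ∀ φ : ZMod N, √(κ (θ - φ)) ^ 2 = κ (θ - φ) := fun φ => Real.sq_sqrt (hκ _)
    have e3 : ∀ φ : ZMod N, (√(κ (θ - φ)) * f φ) ^ 2 = κ (θ - φ) * f φ ^ 2 := by
      intro φ
      rw [mul_pow, e2]
    simp only [e1, e2, e3] at this
    exact this
  calc ∑ θ : ZMod N, (∑ φ : ZMod N, κ (θ - φ) * f φ) ^ 2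
      ≤ ∑ θ : ZMod N, (∑ u, κ u) * ∑ φ : ZMod N, κ (θ - φ) * f φ ^ 2 :=
        sum_le_sum fun θ _ => h1 θ
    _ = (∑ u, κ u) * ∑ φ : ZMod N, ∑ θ : ZMod N, κ (θ - φ) * f φ ^ 2 := by
        rw [← mul_sum, sum_comm]
    _ = (∑ u, κ u) * ∑ φ : ZMod N, (∑ u, κ u) * f φ ^ 2 := by
        congr 1
        refine sum_congr rfl fun φ _ => ?_
        rw [← sum_mul]
        congr 1
        rw [← Equiv.sum_comp (Equiv.subRight φ) κ]
        rfl
    _ = _ := by rw [← mul_sum]; ring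

lemma young_sqrt {κ f : ZMod N → ℝ} (hκ : ∀ u, 0 ≤ κ u) :
    √(∑ θ : ZMod N, (∑ φ : ZMod N, κ (θ - φ) * f φ) ^ 2) ≤ (∑ u, κ u) * √(∑ φ, f φ ^ 2) := by
  have h := Real.sqrt_le_sqrt (young (f := f) hκ)
  rwa [Real.sqrt_mul (by positivity), Real.sqrt_sq (sum_nonneg fun u _ => hκ u)] at h

end young

section mult

variable {X : Type*} [NormedAddCommGroup X] [NormedSpace ℂ X]

/-- The Fourier multiplier with symbol `v`. -/
noncomputable def mult (v : ZMod N → ℝ) (f : ZMod N → X) (θ : ZMod N) : X :=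
  ∑ φ : ZMod N, ((N : ℂ)⁻¹ * ker v (θ - φ)) • f φ

/-- `ℓ²` norm. -/
noncomputable def nrm (f : ZMod N → X) : ℝ := √(∑ θ, ‖f θ‖ ^ 2)

omit [NormedSpace ℂ X] in
lemma nrm_nonneg (f : ZMod N → X) : 0 ≤ nrm f := Real.sqrt_nonneg _

lemma nrm_mult_le {v : ZMod N → ℝ} {C : ℝ} (hC : ∑ u : ZMod N, ‖ker v u‖ ≤ N * C)
    (f : ZMod N → X) : nrm (mult v f) ≤ C * nrm f := by
  have hN : (0 : ℝ) < N := by exact_mod_cast Nat.pos_of_ne_zero (NeZero.ne N)
  have h1 : nrm (mult v f) ≤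
      √(∑ θ : ZMod N, (∑ φ : ZMod N, ((N : ℝ)⁻¹ * ‖ker v (θ - φ)‖) * ‖f φ‖) ^ 2) := by
    unfold nrm
    apply Real.sqrt_le_sqrt
    refine sum_le_sum fun θ _ => ?_
    gcongr
    unfold mult
    refine (norm_sum_le _ _).trans (sum_le_sum fun φ _ => ?_)
    rw [norm_smul, norm_mul, norm_inv, Complex.norm_natCast]
  refine h1.trans ?_
  have h2 := young_sqrt (κ := fun u : ZMod N => (N : ℝ)⁻¹ * ‖ker v u‖) (f := fun φ => ‖f φ‖)
    (fun u => by positivity)
  refine h2.trans ?_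
  rw [← mul_sum]
  change _ ≤ C * √(∑ θ, ‖f θ‖ ^ 2)
  gcongr
  calc (N : ℝ)⁻¹ * ∑ u : ZMod N, ‖ker v u‖ ≤ (N : ℝ)⁻¹ * (N * C) := by gcongr
    _ = C := by field_simp

lemma mult_char (v : ZMod N → ℝ) (k : ZMod N) (x : X) (θ : ZMod N) :
    mult v (fun φ => (ZMod.stdAddChar : AddChar (ZMod N) ℂ) (k * φ) • x) θ = (v k : ℂ) • (ZMod.stdAddChar : AddChar (ZMod N) ℂ) (k * θ) • x := by
  have hN : (N : ℂ) ≠ 0 := by exact_mod_cast NeZero.ne N
  unfold mult
  simp only [smul_smul]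
  rw [← sum_smul]
  congr 1
  have h1 : ∀ φ : ZMod N, (N : ℂ)⁻¹ * ker v (θ - φ) * (ZMod.stdAddChar : AddChar (ZMod N) ℂ) (k * φ) =
      ∑ l : ZMod N, ((N : ℂ)⁻¹ * (v l) * (ZMod.stdAddChar : AddChar (ZMod N) ℂ) (l * θ)) * (ZMod.stdAddChar : AddChar (ZMod N) ℂ) (φ * (k - l)) := by
    intro φ
    unfold ker
    rw [mul_sum, sum_mul]
    refine sum_congr rfl fun l _ => ?_
    have : (ZMod.stdAddChar : AddChar (ZMod N) ℂ) (l * (θ - φ)) * (ZMod.stdAddChar : AddChar (ZMod N) ℂ) (k * φ) = (ZMod.stdAddChar : AddChar (ZMod N) ℂ) (l * θ) * (ZMod.stdAddChar : AddChar (ZMod N) ℂ) (φ * (k - l)) := by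
      rw [← AddChar.map_add_eq_mul, ← AddChar.map_add_eq_mul]; congr 1; ring
    calc _ = (N : ℂ)⁻¹ * (v l) * ((ZMod.stdAddChar : AddChar (ZMod N) ℂ) (l * (θ - φ)) * (ZMod.stdAddChar : AddChar (ZMod N) ℂ) (k * φ)) := by ring
      _ = _ := by rw [this]; ring
  rw [sum_congr rfl fun φ _ => h1 φ, sum_comm]
  calc ∑ l : ZMod N, ∑ φ : ZMod N, ((N : ℂ)⁻¹ * (v l) * (ZMod.stdAddChar : AddChar (ZMod N) ℂ) (l * θ)) * (ZMod.stdAddChar : AddChar (ZMod N) ℂ) (φ * (k - l))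
      = ∑ l : ZMod N, ((N : ℂ)⁻¹ * (v l) * (ZMod.stdAddChar : AddChar (ZMod N) ℂ) (l * θ)) * (if k - l = 0 then (N : ℂ) else 0) := by
        refine sum_congr rfl fun l _ => ?_
        rw [← mul_sum, sum_e]
    _ = (v k : ℂ) * (ZMod.stdAddChar : AddChar (ZMod N) ℂ) (k * θ) := by
        simp only [sub_eq_zero, mul_ite, mul_zero, Finset.sum_ite_eq, mem_univ, if_true]
        field_simp

lemma mult_sum {ι : Type*} (s : Finset ι) (v : ZMod N → ℝ) (f : ι → ZMod N → X) (θ : ZMod N) :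
    mult v (fun φ => ∑ i ∈ s, f i φ) θ = ∑ i ∈ s, mult v (f i) θ := by
  unfold mult
  simp only [smul_sum]
  rw [sum_comm]

/-- Multiplier acting on a finite sum of characters. -/
lemma mult_poly {ι : Type*} (s : Finset ι) (v : ZMod N → ℝ) (k : ι → ZMod N) (x : ι → X)
    (θ : ZMod N) :
    mult v (fun φ => ∑ i ∈ s, (ZMod.stdAddChar : AddChar (ZMod N) ℂ) (k i * φ) • x i) θ = ∑ i ∈ s, (v (k i) : ℂ) • (ZMod.stdAddChar : AddChar (ZMod N) ℂ) (k i * θ) • x i := by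
  rw [mult_sum s v (fun i φ => (ZMod.stdAddChar : AddChar (ZMod N) ℂ) (k i * φ) • x i)]
  exact sum_congr rfl fun i _ => mult_char v (k i) (x i) θ

end mult

end Pool.Agent.SKB
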