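import Mathlib
import Pool.Agent.SKB.Kernel

/-!
# The block lemma
-/

open Finset

namespace Pool.Agent.SKB

section symbols

variable {N : ℕ} [NeZero N]


/-- The symbol on `ZMod N` given by a function on `ℤ`. -/
noncomputable def sym (a : ℤ → ℝ) (k : ZMod N) : ℝ := a (k.val : ℤ)

lemma sum_zmod_val (F : ℕ → ℝ) : ∑ u : ZMod N, F u.val = ∑ j ∈ range N, F j := by
  have e : ∑ j ∈ range N, F j = ∑ j : Fin N, F j := (Fin.sum_univ_eq_sum_range F N).symm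
  rw [e]
  obtain ⟨n, rfl⟩ := Nat.exists_eq_succ_of_ne_zero (NeZero.ne N)
  rfl

omit [NeZero N] in
lemma sym_natCast (a : ℤ → ℝ) {k : ℕ} (hk : k < N) : sym a (k : ZMod N) = a k := by
  unfold sym
  rw [ZMod.val_natCast_of_lt hk]

lemma sym_bound {a : ℤ → ℝ} {p q ℓ : ℕ} {M Λ B : ℝ} (hℓ : 1 ≤ ℓ) (hp : 1 ≤ p) (hq : q + 2 ≤ N)
    (hpq : p ≤ q) (hsupp : ∀ k : ℤ, a k ≠ 0 → (p : ℤ) ≤ k ∧ k ≤ q) (hB : (q : ℝ) - p + 2 ≤ B * ℓ)
    (hM : ∀ k, |a k| ≤ M) (hΛ : ∀ k : ℤ, |a k - a (k + 1)| ≤ Λ / ℓ) :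
    ∑ k : ZMod N, sym a k ^ 2 + (ℓ : ℝ) ^ 2 * ∑ k : ZMod N, (sym a k - sym a (k + 1)) ^ 2 ≤
      ((M ^ 2 + Λ ^ 2) * B) * ℓ := by
  have hℓ0 : (0 : ℝ) < ℓ := by exact_mod_cast hℓ
  have hz : ∀ k : ℤ, (k < p ∨ (q : ℤ) < k) → a k = 0 := by
    intro k hk
    by_contra h
    have := hsupp k h
    omega
  have h1 : ∑ k : ZMod N, sym a k ^ 2 ≤ (B * ℓ) * M ^ 2 := by
    calc ∑ k : ZMod N, sym a k ^ 2 = ∑ j ∈ range N, a (j : ℤ) ^ 2 :=
          sum_zmod_val (fun j => a (j : ℤ) ^ 2)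
      _ = ∑ j ∈ (range N).filter (fun j : ℕ => a (j : ℤ) ≠ 0), a (j : ℤ) ^ 2 := by
          rw [sum_filter_of_ne]
          intro j _ h h'
          exact h (by rw [h']; norm_num)
      _ ≤ ∑ j ∈ (range N).filter (fun j : ℕ => a (j : ℤ) ≠ 0), M ^ 2 := by
          refine sum_le_sum fun j _ => ?_
          rw [← sq_abs]
          have := hM j
          gcongr
      _ ≤ ∑ j ∈ Icc p q, M ^ 2 := by
          refine sum_le_sum_of_subset_of_nonneg ?_ fun _ _ _ => sq_nonneg _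
          intro j hj
          rw [mem_filter] at hj
          have := hsupp j hj.2
          rw [mem_Icc]
          omega
      _ = ((q : ℝ) - p + 1) * M ^ 2 := by
          rw [sum_const, Nat.card_Icc, nsmul_eq_mul, Nat.cast_sub (by omega)]
          push_cast; ring
      _ ≤ _ := by
          have := sq_nonneg M
          gcongr
          linarith
  have h2 : ∑ k : ZMod N, (sym a k - sym a (k + 1)) ^ 2 ≤ (B * ℓ) * (Λ / ℓ) ^ 2 := by
    calc ∑ k : ZMod N, (sym a k - sym a (k + 1)) ^ 2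
        = ∑ k : ZMod N, (a (k.val : ℤ) - a ((k.val : ℤ) + 1)) ^ 2 := by
          refine sum_congr rfl fun k _ => ?_
          congr 2
          unfold sym
          rw [ZMod.val_add, ZMod.val_one_eq_one_mod]
          have hk := k.val_lt
          rcases Nat.lt_or_ge (k.val + 1) N with h | h
          · have : (k.val + 1 % N) % N = k.val + 1 := by
              rw [Nat.add_mod_mod, Nat.mod_eq_of_lt h]
            rw [this]; push_cast; rfl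
          · have h3 : k.val + 1 = N := by omega
            have : (k.val + 1 % N) % N = 0 := by
              rw [Nat.add_mod_mod, h3, Nat.mod_self]
            rw [this, hz _ (by left; push_cast; omega), hz _ (by right; omega)]
      _ = ∑ j ∈ range N, (a (j : ℤ) - a ((j : ℤ) + 1)) ^ 2 :=
          sum_zmod_val (fun j => (a (j : ℤ) - a ((j : ℤ) + 1)) ^ 2)
      _ = ∑ j ∈ (range N).filter (fun j : ℕ => a (j : ℤ) - a ((j : ℤ) + 1) ≠ 0),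
            (a (j : ℤ) - a ((j : ℤ) + 1)) ^ 2 := by
          rw [sum_filter_of_ne]
          intro j _ h h'
          exact h (by rw [h']; norm_num)
      _ ≤ ∑ j ∈ (range N).filter (fun j : ℕ => a (j : ℤ) - a ((j : ℤ) + 1) ≠ 0), (Λ / ℓ) ^ 2 := by
          refine sum_le_sum fun j _ => ?_
          rw [← sq_abs]
          have := hΛ j
          gcongr
      _ ≤ ∑ j ∈ Icc (p - 1) q, (Λ / ℓ) ^ 2 := by
          refine sum_le_sum_of_subset_of_nonneg ?_ fun _ _ _ => sq_nonneg _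
          intro j hj
          rw [mem_filter] at hj
          rw [mem_Icc]
          by_contra hcon
          apply hj.2
          rw [hz j (by omega), hz (j + 1) (by omega)]
          ring
      _ = ((q : ℝ) - p + 2) * (Λ / ℓ) ^ 2 := by
          rw [sum_const, Nat.card_Icc, nsmul_eq_mul]
          have : q + 1 - (p - 1) = q - p + 2 := by omega
          rw [this, Nat.cast_add, Nat.cast_sub hpq]
          push_cast; ring
      _ ≤ _ := by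
          have := sq_nonneg (Λ / ℓ)
          gcongr
  calc _ ≤ (B * ℓ) * M ^ 2 + (ℓ : ℝ) ^ 2 * ((B * ℓ) * (Λ / ℓ) ^ 2) := by gcongr
    _ = _ := by field_simp

lemma sym_l1 {a : ℤ → ℝ} {p q ℓ : ℕ} {M Λ B : ℝ} (hℓ : 1 ≤ ℓ) (hp : 1 ≤ p) (hq : q + 2 ≤ N)
    (hℓN : ℓ ≤ N)
    (hpq : p ≤ q) (hsupp : ∀ k : ℤ, a k ≠ 0 → (p : ℤ) ≤ k ∧ k ≤ q) (hB : (q : ℝ) - p + 2 ≤ B * ℓ)
    (hM : ∀ k, |a k| ≤ M) (hΛ : ∀ k : ℤ, |a k - a (k + 1)| ≤ Λ / ℓ) :
    ∑ u : ZMod N, ‖ker (sym a) u‖ ≤ N * √(2 * ((M ^ 2 + Λ ^ 2) * B)) :=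
  ker_l1 (L := (ℓ : ℝ)) (by exact_mod_cast hℓ) (by exact_mod_cast hℓN)
    (sym_bound hℓ hp hq hpq hsupp hB hM hΛ)

end symbols

/-! ### Cut-off functions -/

/-- Clamping to `[0,1]`. -/
noncomputable def clamp (t : ℝ) : ℝ := max 0 (min 1 t)

lemma clamp_nonneg (t : ℝ) : 0 ≤ clamp t := le_max_left _ _

lemma clamp_le_one (t : ℝ) : clamp t ≤ 1 := max_le zero_le_one (min_le_left _ _)

lemma clamp_eq_zero {t : ℝ} (h : t ≤ 0) : clamp t = 0 := by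
  unfold clamp; rw [min_eq_right (by linarith), max_eq_left h]

lemma clamp_eq_one {t : ℝ} (h : 1 ≤ t) : clamp t = 1 := by
  unfold clamp; rw [min_eq_left h, max_eq_right zero_le_one]

lemma clamp_of_mem {t : ℝ} (h0 : 0 ≤ t) (h1 : t ≤ 1) : clamp t = t := by
  unfold clamp; rw [min_eq_right h1, max_eq_right h0]

lemma clamp_lip (s t : ℝ) : |clamp s - clamp t| ≤ |s - t| := by
  unfold clamp
  refine (abs_max_sub_max_le_max _ _ _ _).trans ?_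
  rw [sub_self, abs_zero, max_le_iff]
  refine ⟨abs_nonneg _, (abs_min_sub_min_le_max _ _ _ _).trans ?_⟩
  rw [sub_self, abs_zero, max_le_iff]
  exact ⟨abs_nonneg _, le_rfl⟩

/-- The basic trapezoid supported in `(0, 10ℓ)`, equal to `1` on `[ℓ, 9ℓ]`. -/
noncomputable def phi (ℓ : ℕ) (j : ℤ) : ℝ := clamp (min ((j : ℝ) / ℓ) (10 - (j : ℝ) / ℓ))

lemma phi_nonneg (ℓ : ℕ) (j : ℤ) : 0 ≤ phi ℓ j := clamp_nonneg _

lemma phi_le_one (ℓ : ℕ) (j : ℤ) : phi ℓ j ≤ 1 := clamp_le_one _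

lemma phi_eq_zero_of_nonpos {ℓ : ℕ} {j : ℤ} (h : j ≤ 0) : phi ℓ j = 0 := by
  apply clamp_eq_zero
  refine (min_le_left _ _).trans ?_
  have : (j : ℝ) ≤ 0 := by exact_mod_cast h
  exact div_nonpos_of_nonpos_of_nonneg this (Nat.cast_nonneg _)

lemma phi_eq_zero_of_ge {ℓ : ℕ} (hℓ : 1 ≤ ℓ) {j : ℤ} (h : (10 * ℓ : ℤ) ≤ j) : phi ℓ j = 0 := by
  have hℓ0 : (0 : ℝ) < ℓ := by exact_mod_cast hℓ
  apply clamp_eq_zero
  refine (min_le_right _ _).trans ?_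
  have : (10 * ℓ : ℝ) ≤ j := by exact_mod_cast h
  have : 10 ≤ (j : ℝ) / ℓ := by rw [le_div_iff₀ hℓ0]; exact this
  linarith

lemma phi_eq_one {ℓ : ℕ} (hℓ : 1 ≤ ℓ) {j : ℤ} (h1 : (ℓ : ℤ) ≤ j) (h2 : j ≤ 9 * ℓ) :
    phi ℓ j = 1 := by
  have hℓ0 : (0 : ℝ) < ℓ := by exact_mod_cast hℓ
  apply clamp_eq_one
  have h1' : (ℓ : ℝ) ≤ j := by exact_mod_cast h1
  have h2' : (j : ℝ) ≤ 9 * ℓ := by exact_mod_cast h2
  rw [le_min_iff]
  constructor
  · rw [le_div_iff₀ hℓ0]; linarith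
  · have : (j : ℝ) / ℓ ≤ 9 := by rw [div_le_iff₀ hℓ0]; exact h2'
    linarith

lemma phi_le (ℓ : ℕ) {j : ℤ} (hj : 0 ≤ j) : phi ℓ j ≤ (j : ℝ) / ℓ := by
  unfold phi clamp
  have : (0 : ℝ) ≤ (j : ℝ) / ℓ := by
    have : (0 : ℝ) ≤ j := by exact_mod_cast hj
    positivity
  rw [max_le_iff]
  exact ⟨this, (min_le_right _ _).trans (min_le_left _ _)⟩

lemma phi_lip {ℓ : ℕ} (hℓ : 1 ≤ ℓ) (j : ℤ) : |phi ℓ j - phi ℓ (j + 1)| ≤ 1 / ℓ := by
  have hℓ0 : (0 : ℝ) < ℓ := by exact_mod_cast hℓ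
  unfold phi
  refine (clamp_lip _ _).trans ((abs_min_sub_min_le_max _ _ _ _).trans ?_)
  have e1 : (j : ℝ) / ℓ - ((j + 1 : ℤ) : ℝ) / ℓ = -(1 / ℓ) := by push_cast; ring
  have e2 : (10 - (j : ℝ) / ℓ) - (10 - ((j + 1 : ℤ) : ℝ) / ℓ) = 1 / ℓ := by push_cast; ring
  rw [e1, e2, abs_neg, max_self, abs_of_pos (by positivity)]

/-- Trapezoid centred at `c`, equal to `1` on `[c-ℓ,c+ℓ]`, supported in `(c-2ℓ,c+2ℓ)`. -/
noncomputable def trap (ℓ : ℕ) (c : ℤ) (j : ℤ) : ℝ := clamp (2 - |(j : ℝ) - c| / ℓ)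

/-- Tent centred at `c`, supported in `(c-ℓ,c+ℓ)`. -/
noncomputable def tent (ℓ : ℕ) (c : ℤ) (j : ℤ) : ℝ := clamp (1 - |(j : ℝ) - c| / ℓ)

lemma abs_abs_sub_step (j c : ℤ) : |(|(j : ℝ) - c| - |((j + 1 : ℤ) : ℝ) - c|)| ≤ 1 := by
  refine (abs_abs_sub_abs_le_abs_sub _ _).trans ?_
  have : ((j : ℝ) - c) - (((j + 1 : ℤ) : ℝ) - c) = -1 := by push_cast; ring
  rw [this]; norm_num

lemma trap_lip {ℓ : ℕ} (hℓ : 1 ≤ ℓ) (c j : ℤ) : |trap ℓ c j - trap ℓ c (j + 1)| ≤ 1 / ℓ := by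
  have hℓ0 : (0 : ℝ) < ℓ := by exact_mod_cast hℓ
  unfold trap
  refine (clamp_lip _ _).trans ?_
  have e : (2 - |(j : ℝ) - c| / ℓ) - (2 - |((j + 1 : ℤ) : ℝ) - c| / ℓ) =
      -((|(j : ℝ) - c| - |((j + 1 : ℤ) : ℝ) - c|) / ℓ) := by ring
  rw [e, abs_neg, abs_div, abs_of_pos hℓ0]
  gcongr
  exact abs_abs_sub_step j c

lemma tent_lip {ℓ : ℕ} (hℓ : 1 ≤ ℓ) (c j : ℤ) : |tent ℓ c j - tent ℓ c (j + 1)| ≤ 1 / ℓ := by
  have hℓ0 : (0 : ℝ) < ℓ := by exact_mod_cast hℓ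
  unfold tent
  refine (clamp_lip _ _).trans ?_
  have e : (1 - |(j : ℝ) - c| / ℓ) - (1 - |((j + 1 : ℤ) : ℝ) - c| / ℓ) =
      -((|(j : ℝ) - c| - |((j + 1 : ℤ) : ℝ) - c|) / ℓ) := by ring
  rw [e, abs_neg, abs_div, abs_of_pos hℓ0]
  gcongr
  exact abs_abs_sub_step j c

lemma trap_supp {ℓ : ℕ} (hℓ : 1 ≤ ℓ) {c j : ℤ} (h : trap ℓ c j ≠ 0) :
    c - 2 * ℓ < j ∧ j < c + 2 * ℓ := by
  have hℓ0 : (0 : ℝ) < ℓ := by exact_mod_cast hℓ
  have h1 : ¬ (2 - |(j : ℝ) - c| / ℓ ≤ 0) := fun h' => h (clamp_eq_zero h')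
  have h2 : |(j : ℝ) - c| < 2 * ℓ := by
    have : |(j : ℝ) - c| / ℓ < 2 := by linarith [not_le.1 h1]
    rwa [div_lt_iff₀ hℓ0] at this
  rw [abs_lt] at h2
  have h3 : ((c - 2 * ℓ : ℤ) : ℝ) < j := by push_cast; linarith
  have h4 : (j : ℝ) < ((c + 2 * ℓ : ℤ) : ℝ) := by push_cast; linarith
  exact ⟨by exact_mod_cast h3, by exact_mod_cast h4⟩

lemma trap_eq_one {ℓ : ℕ} (hℓ : 1 ≤ ℓ) {c j : ℤ} (h1 : c - ℓ ≤ j) (h2 : j ≤ c + ℓ) :
    trap ℓ c j = 1 := by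
  have hℓ0 : (0 : ℝ) < ℓ := by exact_mod_cast hℓ
  apply clamp_eq_one
  have h3 : ((c - ℓ : ℤ) : ℝ) ≤ j := by exact_mod_cast h1
  have h4 : (j : ℝ) ≤ ((c + ℓ : ℤ) : ℝ) := by exact_mod_cast h2
  push_cast at h3 h4
  have : |(j : ℝ) - c| ≤ ℓ := by rw [abs_le]; constructor <;> linarith
  have : |(j : ℝ) - c| / ℓ ≤ 1 := by rw [div_le_one hℓ0]; exact this
  linarith

lemma trap_nonneg (ℓ : ℕ) (c j : ℤ) : 0 ≤ trap ℓ c j := clamp_nonneg _

lemma trap_le_one (ℓ : ℕ) (c j : ℤ) : trap ℓ c j ≤ 1 := clamp_le_one _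

lemma tent_nonneg (ℓ : ℕ) (c j : ℤ) : 0 ≤ tent ℓ c j := clamp_nonneg _

lemma tent_le_one (ℓ : ℕ) (c j : ℤ) : tent ℓ c j ≤ 1 := clamp_le_one _

lemma tent_supp {ℓ : ℕ} (hℓ : 1 ≤ ℓ) {c j : ℤ} (h : tent ℓ c j ≠ 0) :
    c - ℓ < j ∧ j < c + ℓ := by
  have hℓ0 : (0 : ℝ) < ℓ := by exact_mod_cast hℓ
  have h1 : ¬ (1 - |(j : ℝ) - c| / ℓ ≤ 0) := fun h' => h (clamp_eq_zero h')
  have h2 : |(j : ℝ) - c| < ℓ := by
    have : |(j : ℝ) - c| / ℓ < 1 := by linarith [not_le.1 h1]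
    rwa [div_lt_one hℓ0] at this
  rw [abs_lt] at h2
  have h3 : ((c - ℓ : ℤ) : ℝ) < j := by push_cast; linarith
  have h4 : (j : ℝ) < ((c + ℓ : ℤ) : ℝ) := by push_cast; linarith
  exact ⟨by exact_mod_cast h3, by exact_mod_cast h4⟩

lemma clamp_tent_step (t : ℝ) (B : ℝ) (hB : 0 ≤ B) :
    clamp (min (t + 1) (B + 1 - t)) + clamp (1 - |t - (B + 1)|) =
      clamp (min (t + 1) (B + 1 + 1 - t)) := by
  rcases le_total t B with h1 | h1
  · have e1 : clamp (1 - |t - (B + 1)|) = 0 := by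
      apply clamp_eq_zero
      have : 1 ≤ |t - (B + 1)| := by rw [abs_sub_comm]; exact le_trans (by linarith) (le_abs_self _)
      linarith
    rw [e1, add_zero]
    rcases le_total t 0 with h2 | h2
    · rw [min_eq_left (by linarith), min_eq_left (by linarith)]
    · rw [clamp_eq_one, clamp_eq_one]
      · rw [le_min_iff]; constructor <;> linarith
      · rw [le_min_iff]; constructor <;> linarith
  · rcases le_total t (B + 1) with h2 | h2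
    · have e1 : |t - (B + 1)| = B + 1 - t := by rw [abs_sub_comm]; exact abs_of_nonneg (by linarith)
      rw [e1, min_eq_right (by linarith), clamp_of_mem (by linarith) (by linarith),
        clamp_of_mem (by linarith) (by linarith), clamp_eq_one]
      · ring
      · rw [le_min_iff]; constructor <;> linarith
    · have e1 : |t - (B + 1)| = t - (B + 1) := abs_of_nonneg (by linarith)
      rw [e1, min_eq_right (by linarith), min_eq_right (by linarith),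
        clamp_eq_zero (t := B + 1 - t) (by linarith), zero_add]
      congr 1; ring

/-- Partial sums of the tents. -/
lemma sum_tent {ℓ : ℕ} (hℓ : 1 ≤ ℓ) (c : ℤ) (B : ℕ) (j : ℤ) :
    ∑ b ∈ range (B + 1), tent ℓ (c + b * ℓ) j =
      clamp (min (((j : ℝ) - c) / ℓ + 1) ((B : ℝ) + 1 - ((j : ℝ) - c) / ℓ)) := by
  have hℓ0 : (0 : ℝ) < ℓ := by exact_mod_cast hℓ
  set t : ℝ := ((j : ℝ) - c) / ℓ with ht
  have htent : ∀ b : ℕ, tent ℓ (c + b * ℓ) j = clamp (1 - |t - b|) := by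
    intro b
    unfold tent
    congr 2
    rw [ht]
    push_cast
    rw [show (j : ℝ) - (c + b * ℓ) = (((j : ℝ) - c) / ℓ - b) * ℓ by field_simp; ring, abs_mul,
      abs_of_pos hℓ0]
    field_simp
  simp only [htent]
  clear_value t
  induction B with
  | zero =>
    simp only [Nat.cast_zero, zero_add, sum_range_one, sub_zero]
    congr 1
    rcases le_total t 0 with h | h
    · rw [abs_of_nonpos h, min_eq_left (by linarith)]; ring
    · rw [abs_of_nonneg h, min_eq_right (by linarith)]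
  | succ B ih =>
    rw [sum_range_succ, ih]
    have := clamp_tent_step t B (Nat.cast_nonneg B)
    push_cast
    exact this

lemma sum_tent_le_one {ℓ : ℕ} (hℓ : 1 ≤ ℓ) (c : ℤ) (B : ℕ) (j : ℤ) :
    ∑ b ∈ range B, tent ℓ (c + b * ℓ) j ≤ 1 := by
  rcases B with _ | B
  · simp
  · rw [sum_tent hℓ]; exact clamp_le_one _

lemma sum_tent_eq_one {ℓ : ℕ} (hℓ : 1 ≤ ℓ) {c : ℤ} {B : ℕ} {j : ℤ} (h1 : c ≤ j)
    (h2 : j ≤ c + B * ℓ) : ∑ b ∈ range (B + 1), tent ℓ (c + b * ℓ) j = 1 := by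
  have hℓ0 : (0 : ℝ) < ℓ := by exact_mod_cast hℓ
  rw [sum_tent hℓ]
  apply clamp_eq_one
  have h1' : (c : ℝ) ≤ j := by exact_mod_cast h1
  have h2' : (j : ℝ) ≤ c + B * ℓ := by exact_mod_cast h2
  rw [le_min_iff]
  constructor
  · have : 0 ≤ ((j : ℝ) - c) / ℓ := div_nonneg (by linarith) hℓ0.le
    linarith
  · have : ((j : ℝ) - c) / ℓ ≤ B := by rw [div_le_iff₀ hℓ0]; linarith
    linarith

end Pool.Agent.SKB
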