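import Mathlib

/-!
# Strong Kreiss condition implies `‖exp(zT)‖ ≤ K e^{|z|}`
-/

open Filter Topology

namespace Pool.Agent.SKB

section tele

variable {R : Type*} [NormedRing R]

lemma pow_sub_pow_tele (a b : R) (n : ℕ) :
    a ^ n - b ^ n = ∑ j ∈ Finset.range n, a ^ j * (a - b) * b ^ (n - 1 - j) := by
  induction n with
  | zero => simp
  | succ n ih =>
    rw [Finset.sum_range_succ]
    have h1 : ∀ j ∈ Finset.range n, a ^ j * (a - b) * b ^ (n + 1 - 1 - j) =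
        (a ^ j * (a - b) * b ^ (n - 1 - j)) * b := by
      intro j hj
      rw [Finset.mem_range] at hj
      rw [mul_assoc _ (b ^ _) b, ← pow_succ]
      congr 2
      omega
    rw [Finset.sum_congr rfl h1, ← Finset.sum_mul, ← ih]
    simp only [Nat.add_sub_cancel, Nat.sub_self, pow_zero, mul_one]
    rw [pow_succ, pow_succ]
    noncomm_ring

lemma norm_pow_sub_pow_le {a b : R} {A B d : ℝ} (n : ℕ)
    (hA : 0 ≤ A) (ha : ∀ j < n, ‖a ^ j‖ ≤ A) (hb : ∀ j < n, ‖b ^ j‖ ≤ B)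
    (hd : ‖a - b‖ ≤ d) : ‖a ^ n - b ^ n‖ ≤ n * (A * d * B) := by
  rw [pow_sub_pow_tele]
  have hd0 : 0 ≤ d := (norm_nonneg _).trans hd
  calc ‖∑ j ∈ Finset.range n, a ^ j * (a - b) * b ^ (n - 1 - j)‖
      ≤ ∑ j ∈ Finset.range n, ‖a ^ j * (a - b) * b ^ (n - 1 - j)‖ := norm_sum_le _ _
    _ ≤ ∑ j ∈ Finset.range n, A * d * B := by
        refine Finset.sum_le_sum fun j hj => ?_
        rw [Finset.mem_range] at hj
        calc ‖a ^ j * (a - b) * b ^ (n - 1 - j)‖ ≤ ‖a ^ j * (a - b)‖ * ‖b ^ (n - 1 - j)‖ :=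
              norm_mul_le _ _
          _ ≤ ‖a ^ j‖ * ‖a - b‖ * ‖b ^ (n - 1 - j)‖ := by
              gcongr
              exact norm_mul_le _ _
          _ ≤ A * d * B := by
              gcongr
              · exact ha j hj
              · exact hb _ (by omega)
    _ = _ := by simp

end tele

variable {X : Type*} [NormedAddCommGroup X] [NormedSpace ℂ X] [CompleteSpace X]

lemma norm_exp_le_exp_norm' (a : X →L[ℂ] X) : ‖NormedSpace.exp a‖ ≤ Real.exp ‖a‖ := by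
  have h1 := (NormedSpace.exp_series_hasSum_exp' (𝕂 := ℂ) a)
  have h2 : HasSum (fun n : ℕ => ‖a‖ ^ n / (n.factorial : ℝ)) (Real.exp ‖a‖) := by
    have := NormedSpace.exp_series_hasSum_exp' (𝕂 := ℝ) (‖a‖)
    rw [← Real.exp_eq_exp_ℝ] at this
    simpa [div_eq_inv_mul] using this
  refine tsum_of_norm_bounded (f := fun n : ℕ => (n.factorial⁻¹ : ℂ) • a ^ n) h2 ?_ |>.trans_eq' ?_
  · intro n
    rw [norm_smul, norm_inv, Complex.norm_natCast, div_eq_inv_mul]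
    gcongr
    rcases n with _ | n
    · simp only [pow_zero]
      exact ContinuousLinearMap.norm_id_le
    · exact norm_pow_le' a (Nat.succ_pos n)
  · rw [h1.tsum_eq]

/-- The strong Kreiss resolvent condition implies the exponential bound. -/
theorem exp_bound {T : X →L[ℂ] X} {K : ℝ} (hK : 0 ≤ K)
    (hT : ∀ lam : ℂ, 1 < ‖lam‖ → ∃ R : X →L[ℂ] X, R * (lam • 1 - T) = 1 ∧
      (lam • 1 - T) * R = 1 ∧ ∀ n : ℕ, ‖R ^ n‖ ≤ K / (‖lam‖ - 1) ^ n) (z : ℂ) :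
    ‖NormedSpace.exp (z • T)‖ ≤ K * Real.exp ‖z‖ := by
  let _ : NormedAlgebra ℚ (X →L[ℂ] X) := NormedAlgebra.restrictScalars ℚ ℂ _
  rcases subsingleton_or_nontrivial X with hX | hX
  · have : NormedSpace.exp (z • T) = 0 := Subsingleton.elim _ _
    rw [this, norm_zero]; positivity
  by_cases hz : z = 0
  · subst hz
    have h2 := hT 2 (by norm_num)
    obtain ⟨R, -, -, hR⟩ := h2
    have := hR 0
    simp only [pow_zero, div_one] at this
    simpa using this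
  have hz0 : 0 < ‖z‖ := norm_pos_iff.2 hz
  set a : X →L[ℂ] X := z • T with ha
  -- the resolvents
  have hn : ∀ n : ℕ, 2 * ‖z‖ < n → ∃ B : X →L[ℂ] X,
      B = 1 + ((n : ℂ)⁻¹ • a) + ((n : ℂ)⁻¹ • a) * ((n : ℂ)⁻¹ • a) * B ∧
      ∀ j : ℕ, ‖B ^ j‖ ≤ K * ((1 - ‖z‖ / n)⁻¹) ^ j := by
    intro n hn
    have hn0 : (0 : ℝ) < n := by linarith
    have hnC : (n : ℂ) ≠ 0 := by
      intro h
      have : (n : ℝ) = 0 := by exact_mod_cast h
      linarith
    have hlam : 1 < ‖(n : ℂ) / z‖ := by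
      rw [norm_div, Complex.norm_natCast, lt_div_iff₀ hz0]
      linarith
    obtain ⟨R, h1, h2, h3⟩ := hT _ hlam
    refine ⟨((n : ℂ) / z) • R, ?_, ?_⟩
    · have hb : ((n : ℂ) / z) • R = 1 + ((n : ℂ)⁻¹ • a) * (((n : ℂ) / z) • R) := by
        have h4 : ((n : ℂ) / z) • R - T * R = 1 := by
          have := h2
          rw [sub_mul, smul_mul_assoc, one_mul] at this
          exact this
        have h5 : ((n : ℂ)⁻¹ • a) * (((n : ℂ) / z) • R) = T * R := by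
          rw [ha, smul_smul, smul_mul_smul_comm]
          have : (n : ℂ)⁻¹ * z * (n / z) = 1 := by field_simp
          rw [this, one_smul]
        rw [h5, ← h4]
        abel
      calc ((n : ℂ) / z) • R = 1 + ((n : ℂ)⁻¹ • a) * (((n : ℂ) / z) • R) := hb
        _ = 1 + ((n : ℂ)⁻¹ • a) * (1 + ((n : ℂ)⁻¹ • a) * (((n : ℂ) / z) • R)) :=
            congrArg (fun y => 1 + ((n : ℂ)⁻¹ • a) * y) hb
        _ = _ := by
            rw [mul_add, mul_one]
            noncomm_ring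
    · intro j
      rw [smul_pow, norm_smul, norm_pow]
      have h6 := h3 j
      rw [norm_div, Complex.norm_natCast] at h6 ⊢
      have h7 : 0 < (n : ℝ) / ‖z‖ - 1 := by
        rw [sub_pos, lt_div_iff₀ hz0]; linarith
      calc ((n : ℝ) / ‖z‖) ^ j * ‖R ^ j‖ ≤ ((n : ℝ) / ‖z‖) ^ j * (K / ((n : ℝ) / ‖z‖ - 1) ^ j) := by
            gcongr
        _ = K * ((1 - ‖z‖ / n)⁻¹) ^ j := by
            rw [mul_div_assoc', mul_comm, mul_div_assoc, ← div_pow]
            congr 2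
            have h8 : 1 - ‖z‖ / n = ((n : ℝ) / ‖z‖ - 1) / ((n : ℝ) / ‖z‖) := by
              field_simp
            rw [h8, inv_div]
  -- exponential estimate for `exp (a/n)`
  have hE : ∀ n : ℕ, 0 < n → NormedSpace.exp a = NormedSpace.exp ((n : ℂ)⁻¹ • a) ^ n := by
    intro n hn
    rw [← NormedSpace.exp_nsmul]
    congr 1
    have : (n : ℂ) ≠ 0 := by exact_mod_cast hn.ne'
    rw [← Nat.cast_smul_eq_nsmul ℂ, smul_smul, mul_inv_cancel₀ this, one_smul]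
  have hEj : ∀ n : ℕ, 0 < n → ∀ j < n, ‖NormedSpace.exp ((n : ℂ)⁻¹ • a) ^ j‖ ≤ Real.exp ‖a‖ := by
    intro n hn j hj
    rw [← NormedSpace.exp_nsmul]
    refine (norm_exp_le_exp_norm' _).trans ?_
    apply Real.exp_le_exp.2
    rw [← Nat.cast_smul_eq_nsmul ℂ, smul_smul, norm_smul]
    have h1 : ‖(j : ℂ) * (n : ℂ)⁻¹‖ ≤ 1 := by
      rw [norm_mul, norm_inv, Complex.norm_natCast, Complex.norm_natCast, ← div_eq_mul_inv]
      rw [div_le_one (by exact_mod_cast hn)]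
      exact_mod_cast hj.le
    exact mul_le_of_le_one_left (norm_nonneg _) h1
  -- little-o
  have hlo : ∀ ε > 0, ∀ᶠ n : ℕ in atTop,
      ‖NormedSpace.exp ((n : ℂ)⁻¹ • a) - 1 - (n : ℂ)⁻¹ • a‖ ≤ ε * (‖a‖ / n) := by
    intro ε hε
    have h1 : HasFDerivAt (NormedSpace.exp : (X →L[ℂ] X) → (X →L[ℂ] X))
        (1 : (X →L[ℂ] X) →L[ℂ] (X →L[ℂ] X)) 0 := hasFDerivAt_exp_zero
    have h2 := h1.isLittleO
    have h3 : Tendsto (fun n : ℕ => (n : ℂ)⁻¹ • a) atTop (𝓝 0) := by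
      have : Tendsto (fun n : ℕ => (n : ℂ)⁻¹) atTop (𝓝 0) := tendsto_inv_atTop_nhds_zero_nat
      simpa using this.smul_const a
    have h4 := (h2.comp_tendsto h3)
    have h5 := h4.def hε
    filter_upwards [h5, eventually_gt_atTop 0] with n hn hn0
    simp only [Function.comp_apply, NormedSpace.exp_zero, sub_zero] at hn
    have h6 : ‖(n : ℂ)⁻¹ • a‖ = ‖a‖ / n := by
      rw [norm_smul, norm_inv, Complex.norm_natCast, inv_mul_eq_div]
    rw [h6] at hn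
    exact hn
  -- final estimate
  have hlim1 : Tendsto (fun n : ℕ => K * ((1 - ‖z‖ / n)⁻¹) ^ n) atTop (𝓝 (K * Real.exp ‖z‖)) := by
    refine Tendsto.const_mul K ?_
    have h1 := Real.tendsto_one_add_div_pow_exp (-‖z‖)
    have h2 := h1.inv₀ (Real.exp_pos _).ne'
    rw [Real.exp_neg, inv_inv] at h2
    refine h2.congr fun n => ?_
    rw [inv_pow]
    congr 2
    ring
  have hbd : ∀ ε > 0, ‖NormedSpace.exp a‖ ≤ K * Real.exp ‖z‖ + ε := by
    intro ε hε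
    set D : ℝ := Real.exp ‖a‖ * (K * Real.exp ‖z‖ + 1) with hD
    have hD0 : 0 < D := by positivity
    set e0 : ℝ := ε / (2 * D * (‖a‖ + 1)) with he0
    have he0p : 0 < e0 := by positivity
    have hB1 : ∀ᶠ n : ℕ in atTop, K * ((1 - ‖z‖ / n)⁻¹) ^ n ≤ K * Real.exp ‖z‖ + 1 := by
      filter_upwards [hlim1.eventually (gt_mem_nhds (by linarith : K * Real.exp ‖z‖ < K * Real.exp ‖z‖ + 1))] with n hn
      exact hn.le
    have hB2 : ∀ᶠ n : ℕ in atTop, K * ((1 - ‖z‖ / n)⁻¹) ^ n ≤ K * Real.exp ‖z‖ + ε / 4 := by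
      filter_upwards [hlim1.eventually (gt_mem_nhds (by linarith : K * Real.exp ‖z‖ < K * Real.exp ‖z‖ + ε / 4))] with n hn
      exact hn.le
    have hsmall : ∀ᶠ n : ℕ in atTop, D * (‖a‖ ^ 2 * (K * Real.exp ‖z‖ + 1)) / n ≤ ε / 4 := by
      have : Tendsto (fun n : ℕ => D * (‖a‖ ^ 2 * (K * Real.exp ‖z‖ + 1)) / (n : ℝ)) atTop (𝓝 0) :=
        tendsto_const_div_atTop_nhds_zero_nat _
      filter_upwards [this.eventually (gt_mem_nhds (by positivity : (0 : ℝ) < ε / 4))] with n hn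
      exact hn.le
    have hbig : ∀ᶠ n : ℕ in atTop, 2 * ‖z‖ < (n : ℝ) :=
      (tendsto_natCast_atTop_atTop (R := ℝ)).eventually_gt_atTop _
    obtain ⟨n, h1, h2, h3, h4, h5, h6⟩ := (hB1.and (hB2.and (hsmall.and (hbig.and
      ((hlo e0 he0p).and (eventually_gt_atTop 0)))))).exists
    obtain ⟨B, hB, hBj⟩ := hn n h4
    have hn0 : (0 : ℝ) < n := by exact_mod_cast h6
    have hq : 1 ≤ (1 - ‖z‖ / n)⁻¹ := by
      have h7 : ‖z‖ / n < 1 := by rw [div_lt_one hn0]; linarith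
      have h8 : 0 ≤ ‖z‖ / n := by positivity
      exact (one_le_inv₀ (by linarith)).2 (by linarith)
    have hBj' : ∀ j ≤ n, ‖B ^ j‖ ≤ K * Real.exp ‖z‖ + 1 := by
      intro j hj
      refine (hBj j).trans (le_trans ?_ h1)
      gcongr
    have hB1' : ‖B‖ ≤ K * Real.exp ‖z‖ + 1 := by
      have := hBj' 1 h6
      rwa [pow_one] at this
    have hdiff : ‖NormedSpace.exp ((n : ℂ)⁻¹ • a) - B‖ ≤
        e0 * (‖a‖ / n) + ‖a‖ ^ 2 / n ^ 2 * (K * Real.exp ‖z‖ + 1) := by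
      have e1 : NormedSpace.exp ((n : ℂ)⁻¹ • a) - B =
          (NormedSpace.exp ((n : ℂ)⁻¹ • a) - 1 - (n : ℂ)⁻¹ • a) -
            ((n : ℂ)⁻¹ • a) * ((n : ℂ)⁻¹ • a) * B := by
        nth_rewrite 1 [hB]
        abel
      rw [e1]
      refine (norm_sub_le _ _).trans (add_le_add h5 ?_)
      have e2 : ‖(n : ℂ)⁻¹ • a‖ = ‖a‖ / n := by
        rw [norm_smul, norm_inv, Complex.norm_natCast, inv_mul_eq_div]
      calc ‖((n : ℂ)⁻¹ • a) * ((n : ℂ)⁻¹ • a) * B‖ ≤ ‖(n : ℂ)⁻¹ • a‖ * ‖(n : ℂ)⁻¹ • a‖ * ‖B‖ := by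
            refine (norm_mul_le _ _).trans ?_
            gcongr
            exact norm_mul_le _ _
        _ ≤ (‖a‖ / n) * (‖a‖ / n) * (K * Real.exp ‖z‖ + 1) := by rw [e2]; gcongr
        _ = _ := by ring
    have htele := norm_pow_sub_pow_le n (Real.exp_pos ‖a‖).le (hEj n h6)
      (fun j hj => hBj' j hj.le) hdiff
    rw [← hE n h6] at htele
    have hfin : (n : ℝ) * (Real.exp ‖a‖ * (e0 * (‖a‖ / n) + ‖a‖ ^ 2 / n ^ 2 * (K * Real.exp ‖z‖ + 1)) *
        (K * Real.exp ‖z‖ + 1)) ≤ ε / 2 + ε / 4 := by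
      have e3 : (n : ℝ) * (Real.exp ‖a‖ * (e0 * (‖a‖ / n) + ‖a‖ ^ 2 / n ^ 2 * (K * Real.exp ‖z‖ + 1)) *
          (K * Real.exp ‖z‖ + 1)) = D * (e0 * ‖a‖) + D * (‖a‖ ^ 2 * (K * Real.exp ‖z‖ + 1)) / n := by
        rw [hD]
        field_simp
      rw [e3]
      refine add_le_add ?_ h3
      rw [he0]
      have : D * (ε / (2 * D * (‖a‖ + 1)) * ‖a‖) = (ε / 2) * (‖a‖ / (‖a‖ + 1)) := by
        field_simp
      rw [this]
      have h9 : ‖a‖ / (‖a‖ + 1) ≤ 1 := by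
        rw [div_le_one (by positivity)]; linarith
      exact mul_le_of_le_one_right (by positivity) h9
    have hBn : ‖B ^ n‖ ≤ K * Real.exp ‖z‖ + ε / 4 := (hBj n).trans h2
    calc ‖NormedSpace.exp a‖ = ‖(NormedSpace.exp a - B ^ n) + B ^ n‖ := by rw [sub_add_cancel]
      _ ≤ ‖NormedSpace.exp a - B ^ n‖ + ‖B ^ n‖ := norm_add_le _ _
      _ ≤ (ε / 2 + ε / 4) + (K * Real.exp ‖z‖ + ε / 4) := add_le_add (htele.trans hfin) hBn
      _ = _ := by ring
  exact le_of_forall_pos_le_add hbd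

end Pool.Agent.SKB
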