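import Mathlib
import Pool.Agent.SKB.Block
import Pool.Agent.SKB.ExpBound

/-!
# Poisson weights, crude power bound, the block lemma
-/

open Finset Filter Topology

namespace Pool.Agent.SKB

/-- Poisson weights. -/
noncomputable def pw (m i : ℕ) : ℝ := Real.exp (-(m : ℝ)) * ((m : ℝ) ^ i / (i.factorial : ℝ))

lemma pw_nonneg (m i : ℕ) : 0 ≤ pw m i := by unfold pw; positivity

lemma hasSum_exp_real (t : ℝ) : HasSum (fun i : ℕ => t ^ i / (i.factorial : ℝ)) (Real.exp t) := by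
  have := NormedSpace.exp_series_hasSum_exp' (𝕂 := ℝ) t
  rw [← Real.exp_eq_exp_ℝ] at this
  simpa [div_eq_inv_mul] using this

lemma hasSum_shift {f g : ℕ → ℝ} {s : ℝ} (h : HasSum f s) (h0 : g 0 = 0)
    (h1 : ∀ i, g (i + 1) = f i) : HasSum g s := by
  rw [← hasSum_nat_add_iff' 1]
  simpa [h0, h1] using h

lemma hasSum_first (t : ℝ) :
    HasSum (fun i : ℕ => (i : ℝ) * (t ^ i / (i.factorial : ℝ))) (t * Real.exp t) := by
  refine hasSum_shift ((hasSum_exp_real t).mul_left t) (by simp) fun i => ?_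
  rw [Nat.factorial_succ]
  have : (i.factorial : ℝ) ≠ 0 := by exact_mod_cast i.factorial_ne_zero
  push_cast
  field_simp
  ring

lemma hasSum_second (t : ℝ) :
    HasSum (fun i : ℕ => (i : ℝ) * ((i : ℝ) - 1) * (t ^ i / (i.factorial : ℝ)))
      (t * (t * Real.exp t)) := by
  refine hasSum_shift ((hasSum_first t).mul_left t) (by simp) fun i => ?_
  rw [Nat.factorial_succ]
  have : (i.factorial : ℝ) ≠ 0 := by exact_mod_cast i.factorial_ne_zero
  push_cast
  field_simp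
  ring

lemma hasSum_pw (m : ℕ) : HasSum (pw m) 1 := by
  have := (hasSum_exp_real m).mul_left (Real.exp (-(m : ℝ)))
  rwa [← Real.exp_add, neg_add_cancel, Real.exp_zero] at this

lemma hasSum_pw_var (m : ℕ) : HasSum (fun i : ℕ => ((i : ℝ) - m) ^ 2 * pw m i) m := by
  have h0 := (hasSum_exp_real m).mul_left (Real.exp (-(m : ℝ)) * (m : ℝ) ^ 2)
  have h1 := (hasSum_first m).mul_left (Real.exp (-(m : ℝ)) * (1 - 2 * m))
  have h2 := (hasSum_second m).mul_left (Real.exp (-(m : ℝ)))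
  have h := (h0.add h1).add h2
  have e : Real.exp (-(m : ℝ)) * (m : ℝ) ^ 2 * Real.exp m +
      Real.exp (-(m : ℝ)) * (1 - 2 * m) * (m * Real.exp m) +
      Real.exp (-(m : ℝ)) * (m * (m * Real.exp m)) = m := by
    have e1 : Real.exp (-(m : ℝ)) * Real.exp m = 1 := by
      rw [← Real.exp_add, neg_add_cancel, Real.exp_zero]
    calc _ = (Real.exp (-(m : ℝ)) * Real.exp m) * ((m : ℝ) ^ 2 + (1 - 2 * m) * m + m * m) := by ring
      _ = m := by rw [e1]; ring
  rw [e] at h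
  have e2 : (fun i : ℕ => ((i : ℝ) - m) ^ 2 * pw m i) = fun i : ℕ =>
      Real.exp (-(m : ℝ)) * (m : ℝ) ^ 2 * ((m : ℝ) ^ i / (i.factorial : ℝ)) +
      Real.exp (-(m : ℝ)) * (1 - 2 * m) * ((i : ℝ) * ((m : ℝ) ^ i / (i.factorial : ℝ))) +
      Real.exp (-(m : ℝ)) * ((i : ℝ) * ((i : ℝ) - 1) * ((m : ℝ) ^ i / (i.factorial : ℝ))) := by
    funext i
    unfold pw
    ring
  rw [e2]
  exact h

lemma sum_pw_le_one (m M : ℕ) : ∑ i ∈ range M, pw m i ≤ 1 :=
  sum_le_hasSum _ (fun i _ => pw_nonneg m i) (hasSum_pw m)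

lemma cheb (m : ℕ) : ∃ M₁ : ℕ, ∀ M ≥ M₁, ∀ ℓ : ℕ, 1 ≤ ℓ → m ≤ ℓ ^ 2 →
    1 / 2 ≤ ∑ i ∈ (range M).filter (fun i : ℕ => |(i : ℤ) - m| ≤ 2 * ℓ), pw m i := by
  have h1 : Tendsto (fun M => ∑ i ∈ range M, pw m i) atTop (𝓝 1) := (hasSum_pw m).tendsto_sum_nat
  have h2 := h1.eventually (lt_mem_nhds (by norm_num : (3 / 4 : ℝ) < 1))
  obtain ⟨M₁, hM₁⟩ := eventually_atTop.1 h2
  refine ⟨M₁, fun M hM ℓ hℓ hm => ?_⟩
  have h3 : 3 / 4 < ∑ i ∈ range M, pw m i := hM₁ M hM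
  rw [← sum_filter_add_sum_filter_not (range M) (fun i : ℕ => |(i : ℤ) - m| ≤ 2 * ℓ)] at h3
  have hℓ0 : (0 : ℝ) < ℓ := by exact_mod_cast hℓ
  have h4 : ∑ i ∈ (range M).filter (fun i : ℕ => ¬ |(i : ℤ) - m| ≤ 2 * ℓ), pw m i ≤ 1 / 4 := by
    have h5 : ∑ i ∈ (range M).filter (fun i : ℕ => ¬ |(i : ℤ) - m| ≤ 2 * ℓ),
        ((i : ℝ) - m) ^ 2 * pw m i ≤ m := by
      refine (sum_le_sum_of_subset_of_nonneg (filter_subset _ _) fun i _ _ => ?_).trans
        (sum_le_hasSum (range M) (fun i _ => ?_) (hasSum_pw_var m))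
      · have := pw_nonneg m i; positivity
      · have := pw_nonneg m i; positivity
    have h6 : ∑ i ∈ (range M).filter (fun i : ℕ => ¬ |(i : ℤ) - m| ≤ 2 * ℓ),
        (4 * (ℓ : ℝ) ^ 2) * pw m i ≤
        ∑ i ∈ (range M).filter (fun i : ℕ => ¬ |(i : ℤ) - m| ≤ 2 * ℓ),
        ((i : ℝ) - m) ^ 2 * pw m i := by
      refine sum_le_sum fun i hi => ?_
      rw [mem_filter, not_le] at hi
      have h7 : (2 * ℓ : ℝ) < |(i : ℝ) - m| := by
        have := hi.2
        have h8 : ((2 * ℓ : ℤ) : ℝ) < ((|(i : ℤ) - m| : ℤ) : ℝ) := by exact_mod_cast this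
        push_cast at h8
        exact h8
      have h9 : (2 * ℓ : ℝ) ^ 2 ≤ ((i : ℝ) - m) ^ 2 := by
        rw [← sq_abs ((i : ℝ) - m)]
        gcongr
      have := pw_nonneg m i
      gcongr
      linarith
    rw [← mul_sum] at h6
    have h10 : (m : ℝ) ≤ (ℓ : ℝ) ^ 2 := by exact_mod_cast hm
    have h11 : 0 < 4 * (ℓ : ℝ) ^ 2 := by positivity
    have h12 : (4 * (ℓ : ℝ) ^ 2) * ∑ i ∈ (range M).filter (fun i : ℕ => ¬ |(i : ℤ) - m| ≤ 2 * ℓ),
        pw m i ≤ (4 * (ℓ : ℝ) ^ 2) * (1 / 4) := by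
      linarith [h6.trans h5]
    exact le_of_mul_le_mul_left h12 h11
  linarith

section op

variable {X : Type*} [NormedAddCommGroup X] [NormedSpace ℂ X] [CompleteSpace X]

/-- Truncated exponential. -/
noncomputable def trexp (T : X →L[ℂ] X) (m M : ℕ) (γ : ℂ) : X →L[ℂ] X :=
  ∑ i ∈ range M, ((pw m i : ℂ) * γ ^ i) • T ^ i

lemma trexp_bound {T : X →L[ℂ] X} {K : ℝ}
    (hT : ∀ z : ℂ, ‖NormedSpace.exp (z • T)‖ ≤ K * Real.exp ‖z‖) (m : ℕ) :
    ∃ M₀ : ℕ, ∀ M ≥ M₀, ∀ γ : ℂ, ‖γ‖ = 1 → ‖trexp T m M γ‖ ≤ K + 1 := by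
  have hsum : ∀ γ : ℂ, HasSum (fun i : ℕ => ((pw m i : ℂ) * γ ^ i) • T ^ i)
      ((Real.exp (-(m : ℝ)) : ℂ) • NormedSpace.exp (((m : ℂ) * γ) • T)) := by
    intro γ
    have h := (NormedSpace.exp_series_hasSum_exp' (𝕂 := ℂ) (((m : ℂ) * γ) • T)).const_smul
      (Real.exp (-(m : ℝ)) : ℂ)
    have e2 : (fun i : ℕ => ((pw m i : ℂ) * γ ^ i) • T ^ i) = fun i : ℕ =>
        (Real.exp (-(m : ℝ)) : ℂ) • (((i.factorial : ℂ))⁻¹ • (((m : ℂ) * γ) • T) ^ i) := by
      funext i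
      rw [smul_pow, smul_smul, smul_smul]
      congr 1
      unfold pw
      push_cast
      rw [mul_pow]
      ring
    rw [e2]
    exact h
  have hg : Summable (fun i : ℕ => pw m i * (1 + ‖T‖ ^ i)) := by
    have h1 := (hasSum_pw m).summable
    have h2 : Summable (fun i : ℕ => pw m i * ‖T‖ ^ i) := by
      have h3 := ((hasSum_exp_real ((m : ℝ) * ‖T‖)).mul_left (Real.exp (-(m : ℝ)))).summable
      refine (summable_congr fun i => ?_).2 h3
      unfold pw
      rw [mul_pow]; ring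
    refine (summable_congr fun i => ?_).2 (h1.add h2)
    ring
  have hTi : ∀ i : ℕ, ‖T ^ i‖ ≤ 1 + ‖T‖ ^ i := by
    intro i
    rcases i with _ | i
    · have : ‖(1 : X →L[ℂ] X)‖ ≤ 1 := ContinuousLinearMap.norm_id_le
      simp only [pow_zero]
      linarith
    · have := norm_pow_le' T (Nat.succ_pos i)
      rw [Nat.succ_eq_add_one] at this
      linarith
  have hfg : ∀ γ : ℂ, ‖γ‖ = 1 → ∀ i : ℕ, ‖((pw m i : ℂ) * γ ^ i) • T ^ i‖ ≤
      pw m i * (1 + ‖T‖ ^ i) := by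
    intro γ hγ i
    rw [norm_smul, norm_mul, norm_pow, hγ, one_pow, mul_one, Complex.norm_real,
      Real.norm_of_nonneg (pw_nonneg m i)]
    have := pw_nonneg m i
    gcongr
    exact hTi i
  have htail := tendsto_sum_nat_add (fun i : ℕ => pw m i * (1 + ‖T‖ ^ i))
  obtain ⟨M₀, hM₀⟩ := eventually_atTop.1 (htail.eventually (gt_mem_nhds (by norm_num : (0 : ℝ) < 1)))
  refine ⟨M₀, fun M hM γ hγ => ?_⟩
  have h1 := hM₀ M hM
  set f : ℕ → (X →L[ℂ] X) := fun i => ((pw m i : ℂ) * γ ^ i) • T ^ i with hf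
  have hfs : Summable f := (hsum γ).summable
  have h2 : trexp T m M γ + ∑' i, f (i + M) =
      (Real.exp (-(m : ℝ)) : ℂ) • NormedSpace.exp (((m : ℂ) * γ) • T) := by
    rw [← (hsum γ).tsum_eq]
    exact hfs.sum_add_tsum_nat_add M
  have h3 : ‖∑' i, f (i + M)‖ ≤ 1 := by
    have h4 : Summable (fun i => pw m (i + M) * (1 + ‖T‖ ^ (i + M))) :=
      (summable_nat_add_iff M).2 hg
    refine (tsum_of_norm_bounded h4.hasSum fun i => hfg γ hγ (i + M)).trans ?_
    refine le_trans (le_of_eq ?_) h1.le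
    exact tsum_congr fun i => by rw [add_comm]
  have h5 : ‖(Real.exp (-(m : ℝ)) : ℂ) • NormedSpace.exp (((m : ℂ) * γ) • T)‖ ≤ K := by
    rw [norm_smul, Complex.norm_real, Real.norm_of_nonneg (Real.exp_pos _).le]
    have h6 := hT ((m : ℂ) * γ)
    rw [norm_mul, hγ, mul_one, Complex.norm_natCast] at h6
    calc Real.exp (-(m : ℝ)) * _ ≤ Real.exp (-(m : ℝ)) * (K * Real.exp m) := by gcongr
      _ = K * (Real.exp (-(m : ℝ)) * Real.exp m) := by ring
      _ = K := by rw [← Real.exp_add, neg_add_cancel, Real.exp_zero, mul_one]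
  calc ‖trexp T m M γ‖ = ‖(Real.exp (-(m : ℝ)) : ℂ) • NormedSpace.exp (((m : ℂ) * γ) • T) -
        ∑' i, f (i + M)‖ := by rw [← h2, add_sub_cancel_right]
    _ ≤ K + 1 := (norm_sub_le _ _).trans (add_le_add h5 h3)

lemma fact_exp_le : ∀ n : ℕ, 1 ≤ n →
    (n.factorial : ℝ) * Real.exp n ≤ Real.exp 1 * (n : ℝ) ^ (n + 1) := by
  intro n hn
  induction n, hn using Nat.le_induction with
  | base => simp
  | succ n hn ih =>
    have hn0 : (0 : ℝ) < n := by exact_mod_cast hn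
    have key : Real.exp 1 * (n : ℝ) ^ (n + 1) ≤ ((n : ℝ) + 1) ^ (n + 1) := by
      have h1 : Real.exp (1 / ((n : ℝ) + 1)) ≤ ((n : ℝ) + 1) / n := by
        have h2 := Real.add_one_le_exp (-(1 / ((n : ℝ) + 1)))
        have h3 : (n : ℝ) / (n + 1) ≤ Real.exp (-(1 / ((n : ℝ) + 1))) := by
          refine le_trans (le_of_eq ?_) h2
          field_simp
          ring
        rw [Real.exp_neg] at h3
        have h4 := inv_anti₀ (by positivity) h3
        rw [inv_inv, inv_div] at h4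
        exact h4
      have h5 : Real.exp 1 ≤ (((n : ℝ) + 1) / n) ^ (n + 1) := by
        calc Real.exp 1 = Real.exp (1 / ((n : ℝ) + 1)) ^ (n + 1) := by
              rw [← Real.exp_nat_mul]; congr 1; push_cast; field_simp
          _ ≤ _ := by gcongr
      calc Real.exp 1 * (n : ℝ) ^ (n + 1) ≤ (((n : ℝ) + 1) / n) ^ (n + 1) * (n : ℝ) ^ (n + 1) := by
            gcongr
        _ = _ := by rw [← mul_pow]; congr 1; field_simp
    rw [Nat.factorial_succ]
    push_cast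
    calc ((n : ℝ) + 1) * (n.factorial : ℝ) * Real.exp ((n : ℝ) + 1)
        = ((n : ℝ) + 1) * Real.exp 1 * ((n.factorial : ℝ) * Real.exp n) := by
          rw [Real.exp_add]; ring
      _ ≤ ((n : ℝ) + 1) * Real.exp 1 * (Real.exp 1 * (n : ℝ) ^ (n + 1)) := by gcongr
      _ ≤ ((n : ℝ) + 1) * Real.exp 1 * ((n : ℝ) + 1) ^ (n + 1) := by gcongr
      _ = _ := by ring

lemma pw_self_ge (n : ℕ) : 1 / (3 * ((n : ℝ) + 1)) ≤ pw n n := by
  rcases Nat.eq_zero_or_pos n with rfl | hn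
  · simp [pw]; norm_num
  · have hn0 : (0 : ℝ) < n := by exact_mod_cast hn
    have h1 := fact_exp_le n hn
    have hf : (0 : ℝ) < n.factorial := by exact_mod_cast n.factorial_pos
    unfold pw
    rw [Real.exp_neg, ← div_eq_inv_mul, div_div, div_le_div_iff₀ (by positivity) (by positivity),
      one_mul]
    calc (n.factorial : ℝ) * Real.exp n ≤ Real.exp 1 * (n : ℝ) ^ (n + 1) := h1
      _ ≤ 3 * (n : ℝ) ^ (n + 1) := by
          gcongr
          exact Real.exp_one_lt_three.le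
      _ = (n : ℝ) ^ n * (3 * n) := by ring
      _ ≤ (n : ℝ) ^ n * (3 * ((n : ℝ) + 1)) := by gcongr; linarith

end op

section crude

variable {X : Type*} [NormedAddCommGroup X] [NormedSpace ℂ X] [CompleteSpace X]

/-- crude power bound. -/
lemma norm_pow_le_crude {T : X →L[ℂ] X} {K : ℝ}
    (hT : ∀ z : ℂ, ‖NormedSpace.exp (z • T)‖ ≤ K * Real.exp ‖z‖) (k : ℕ) :
    ‖T ^ k‖ ≤ 3 * (K + 1) * ((k : ℝ) + 1) := by
  obtain ⟨M₀, hM₀⟩ := trexp_bound hT k
  set M := max M₀ (k + 1) with hM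
  have : NeZero M := ⟨by omega⟩
  have hkM : k < M := by omega
  have hMC : (M : ℂ) ≠ 0 := by exact_mod_cast NeZero.ne M
  have hb := hM₀ M (le_max_left _ _)
  set e : AddChar (ZMod M) ℂ := ZMod.stdAddChar with he
  have key : ∑ θ : ZMod M, e (θ * (-(k : ZMod M))) • trexp T k M (e θ) =
      ((M : ℂ) * (pw k k : ℂ)) • T ^ k := by
    unfold trexp
    simp only [smul_sum, smul_smul]
    rw [sum_comm]
    have h1 : ∀ i ∈ range M, ∑ θ : ZMod M, (e (θ * (-(k : ZMod M))) * ((pw k i : ℂ) * e θ ^ i)) • T ^ i =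
        (if i = k then ((M : ℂ) * (pw k k : ℂ)) • T ^ k else 0) := by
      intro i hi
      rw [mem_range] at hi
      rw [← sum_smul]
      have h2 : ∀ θ : ZMod M, e (θ * (-(k : ZMod M))) * ((pw k i : ℂ) * e θ ^ i) =
          (pw k i : ℂ) * e (θ * ((i : ZMod M) - k)) := by
        intro θ
        have h3 : e θ ^ i = e (θ * (i : ZMod M)) := by
          rw [← AddChar.map_nsmul_eq_pow]
          congr 1
          rw [nsmul_eq_mul, mul_comm]
        rw [h3]
        have h4 : e (θ * ((i : ZMod M) - k)) = e (θ * (-(k : ZMod M))) * e (θ * (i : ZMod M)) := by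
          rw [← AddChar.map_add_eq_mul]; congr 1; ring
        rw [h4]; ring
      rw [sum_congr rfl fun θ _ => h2 θ, ← mul_sum, he, sum_e]
      by_cases hik : i = k
      · subst hik
        simp [mul_comm]
      · have h5 : (i : ZMod M) - k ≠ 0 := by
          intro h
          rw [sub_eq_zero] at h
          have h6 := congrArg ZMod.val h
          rw [ZMod.val_natCast_of_lt hi, ZMod.val_natCast_of_lt hkM] at h6
          exact hik h6
        rw [if_neg h5, if_neg hik]; simp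
    rw [sum_congr rfl h1, Finset.sum_ite_eq' (range M) k, if_pos (mem_range.2 hkM)]
  have h7 : ‖((M : ℂ) * (pw k k : ℂ)) • T ^ k‖ ≤ M * (K + 1) := by
    rw [← key]
    calc ‖∑ θ : ZMod M, e (θ * (-(k : ZMod M))) • trexp T k M (e θ)‖
        ≤ ∑ θ : ZMod M, ‖e (θ * (-(k : ZMod M))) • trexp T k M (e θ)‖ := norm_sum_le _ _
      _ ≤ ∑ θ : ZMod M, (K + 1) := by
          refine sum_le_sum fun θ _ => ?_
          rw [norm_smul, he, norm_e, one_mul]
          exact hb _ (norm_e θ)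
      _ = _ := by rw [sum_const, card_univ, ZMod.card, nsmul_eq_mul]
  rw [norm_smul, norm_mul, Complex.norm_natCast, Complex.norm_real,
    Real.norm_of_nonneg (pw_nonneg k k), mul_assoc] at h7
  have hM0 : (0 : ℝ) < M := by exact_mod_cast Nat.pos_of_ne_zero (NeZero.ne M)
  have h8 : pw k k * ‖T ^ k‖ ≤ K + 1 := le_of_mul_le_mul_left h7 hM0
  have h9 := pw_self_ge k
  have h10 : 1 / (3 * ((k : ℝ) + 1)) * ‖T ^ k‖ ≤ K + 1 :=
    (mul_le_mul_of_nonneg_right h9 (norm_nonneg _)).trans h8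
  have h11 : (0 : ℝ) < 3 * ((k : ℝ) + 1) := by positivity
  rw [one_div, inv_mul_le_iff₀ h11] at h10
  linarith

end crude

end Pool.Agent.SKB
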