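import Mathlib
import Pool.Agent.SKB.Poisson

/-!
# The block lemma
-/

open Finset Filter Topology

namespace Pool.Agent.SKB

variable {N : ℕ} [NeZero N]


/-- The convolution of the Poisson weights with `phi`. -/
noncomputable def Wf (m M ℓ : ℕ) (k : ℤ) : ℝ := ∑ i ∈ range M, pw m i * phi ℓ (k - i)

lemma Wf_lip {m M ℓ : ℕ} (hℓ : 1 ≤ ℓ) (k : ℤ) : |Wf m M ℓ k - Wf m M ℓ (k + 1)| ≤ 1 / ℓ := by
  unfold Wf
  rw [← sum_sub_distrib]
  calc |∑ i ∈ range M, (pw m i * phi ℓ (k - i) - pw m i * phi ℓ (k + 1 - i))|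
      ≤ ∑ i ∈ range M, |pw m i * phi ℓ (k - i) - pw m i * phi ℓ (k + 1 - i)| :=
        abs_sum_le_sum_abs _ _
    _ ≤ ∑ i ∈ range M, pw m i * (1 / ℓ) := by
        refine sum_le_sum fun i _ => ?_
        rw [← mul_sub, abs_mul, abs_of_nonneg (pw_nonneg m i)]
        have h := phi_lip hℓ (k - i)
        rw [show k - i + 1 = k + 1 - i by ring] at h
        have := pw_nonneg m i
        gcongr
    _ = (∑ i ∈ range M, pw m i) * (1 / ℓ) := by rw [sum_mul]
    _ ≤ 1 * (1 / ℓ) := by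
        gcongr
        exact sum_pw_le_one m M
    _ = _ := one_mul _

lemma Wf_ge {m M ℓ : ℕ} (hℓ : 1 ≤ ℓ)
    (hch : 1 / 2 ≤ ∑ i ∈ (range M).filter (fun i : ℕ => |(i : ℤ) - m| ≤ 2 * ℓ), pw m i)
    {k : ℤ} (h1 : (m : ℤ) + 3 * ℓ ≤ k) (h2 : k ≤ m + 7 * ℓ) : 1 / 2 ≤ Wf m M ℓ k := by
  refine hch.trans ?_
  unfold Wf
  rw [← sum_filter_add_sum_filter_not (range M) (fun i : ℕ => |(i : ℤ) - m| ≤ 2 * ℓ)
    (fun i => pw m i * phi ℓ (k - i))]
  have h3 : ∑ i ∈ (range M).filter (fun i : ℕ => |(i : ℤ) - m| ≤ 2 * ℓ), pw m i =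
      ∑ i ∈ (range M).filter (fun i : ℕ => |(i : ℤ) - m| ≤ 2 * ℓ), pw m i * phi ℓ (k - i) := by
    refine sum_congr rfl fun i hi => ?_
    rw [mem_filter, abs_le] at hi
    rw [phi_eq_one hℓ (by omega) (by omega), mul_one]
  rw [h3]
  have : 0 ≤ ∑ i ∈ (range M).filter (fun i : ℕ => ¬ |(i : ℤ) - m| ≤ 2 * ℓ),
      pw m i * phi ℓ (k - i) :=
    sum_nonneg fun i _ => mul_nonneg (pw_nonneg m i) (phi_nonneg _ _)
  linarith

section

variable {X : Type*} [NormedAddCommGroup X] [NormedSpace ℂ X]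

variable (N) in
/-- The operator polynomial with coefficients `c`. -/
noncomputable def S (T : X →L[ℂ] X) (c : ℤ → ℝ) (x : X) (θ : ZMod N) : X :=
  ∑ k ∈ range N, (ZMod.stdAddChar : AddChar (ZMod N) ℂ) ((k : ZMod N) * θ) • ((c k : ℂ) • (T ^ k) x)

lemma mult_S (T : X →L[ℂ] X) (a c : ℤ → ℝ) (x : X) :
    mult (sym a) (S N T c x) = S N T (fun k => a k * c k) x := by
  funext θ
  have h := mult_poly (range N) (sym a : ZMod N → ℝ) (fun k : ℕ => (k : ZMod N))
    (fun k : ℕ => (c k : ℂ) • (T ^ k) x) θ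
  change mult (sym a) (fun φ => ∑ k ∈ range N, (ZMod.stdAddChar : AddChar (ZMod N) ℂ) ((k : ZMod N) * φ) • ((c k : ℂ) • (T ^ k) x)) θ = _
  rw [h]
  unfold S
  refine sum_congr rfl fun k hk => ?_
  rw [mem_range] at hk
  rw [sym_natCast a hk]
  simp only [smul_smul]
  congr 1
  push_cast
  ring

omit [NeZero N] in
/-- The constant in the block lemma. -/
noncomputable def Cb : ℝ := √(2 * ((2 ^ 2 + 6 ^ 2) * 6))

/-- **Block lemma**. -/
theorem block {T : X →L[ℂ] X} {K₁ : ℝ} {m M ℓ : ℕ} (hℓ : 1 ≤ ℓ)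
    (hE : ∀ γ : ℂ, ‖γ‖ = 1 → ‖trexp T m M γ‖ ≤ K₁)
    (hch : 1 / 2 ≤ ∑ i ∈ (range M).filter (fun i : ℕ => |(i : ℤ) - m| ≤ 2 * ℓ), pw m i)
    (hN : M + 10 * ℓ ≤ N) (hN2 : m + 8 * ℓ + 2 ≤ N) (x : X) :
    nrm (S N T (trap ℓ (m + 5 * ℓ)) x) ≤ Cb * (K₁ * nrm (S N T (phi ℓ) x)) := by
  have hℓ0 : (0 : ℝ) < ℓ := by exact_mod_cast hℓ
  set c : ℤ → ℝ := trap ℓ (m + 5 * ℓ) with hc
  set a : ℤ → ℝ := fun k => c k / Wf m M ℓ k with ha
  have hcs : ∀ k : ℤ, c k ≠ 0 → (m : ℤ) + 3 * ℓ + 1 ≤ k ∧ k ≤ m + 7 * ℓ - 1 := by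
    intro k hk
    have := trap_supp hℓ hk
    omega
  have hW : ∀ k : ℤ, c k ≠ 0 → 1 / 2 ≤ Wf m M ℓ k := by
    intro k hk
    have := hcs k hk
    exact Wf_ge hℓ hch (by omega) (by omega)
  have hc0 : ∀ k, 0 ≤ c k := fun k => trap_nonneg _ _ _
  have hc1 : ∀ k, c k ≤ 1 := fun k => trap_le_one _ _ _
  have hlip : ∀ k : ℤ, |c k - c (k + 1)| ≤ 1 / ℓ := fun k => trap_lip hℓ _ _
  -- bounds for `a`
  have ha_abs : ∀ k, |a k| ≤ 2 := by
    intro k
    by_cases h : c k = 0
    · simp [ha, h]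
    · have h1 := hW k h
      simp only [ha]
      rw [abs_div, abs_of_nonneg (hc0 k), abs_of_pos (by linarith), div_le_iff₀ (by linarith)]
      linarith [hc1 k]
  have ha_lip : ∀ k : ℤ, |a k - a (k + 1)| ≤ 6 / ℓ := by
    intro k
    have hl := hlip k
    by_cases h : c k = 0
    · by_cases h' : c (k + 1) = 0
      · simp only [ha, h, h', zero_div, sub_zero, abs_zero]; positivity
      · have h1 := hW _ h'
        simp only [ha, h, zero_div, zero_sub, abs_neg]
        rw [h, zero_sub, abs_neg] at hl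
        rw [abs_div, abs_of_pos (by linarith : 0 < Wf m M ℓ (k + 1)), div_le_iff₀ (by linarith)]
        calc |c (k + 1)| ≤ 1 / ℓ := hl
          _ ≤ 6 / ℓ * (1 / 2) := by
              rw [div_mul_div_comm, div_le_div_iff₀ hℓ0 (by positivity)]; linarith
          _ ≤ _ := by gcongr
    · have h1 := hW k h
      by_cases h' : c (k + 1) = 0
      · simp only [ha, h', zero_div, sub_zero]
        rw [h', sub_zero] at hl
        rw [abs_div, abs_of_pos (by linarith : 0 < Wf m M ℓ k), div_le_iff₀ (by linarith)]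
        calc |c k| ≤ 1 / ℓ := hl
          _ ≤ 6 / ℓ * (1 / 2) := by
              rw [div_mul_div_comm, div_le_div_iff₀ hℓ0 (by positivity)]; linarith
          _ ≤ _ := by gcongr
      · have h2 := hW _ h'
        have hw := Wf_lip (m := m) (M := M) hℓ k
        have hw1 : Wf m M ℓ k ≠ 0 := by linarith
        have hw2 : Wf m M ℓ (k + 1) ≠ 0 := by linarith
        have e : a k - a (k + 1) = (c k - c (k + 1)) / Wf m M ℓ k +
            c (k + 1) * ((Wf m M ℓ (k + 1) - Wf m M ℓ k) / (Wf m M ℓ k * Wf m M ℓ (k + 1))) := by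
          simp only [ha]
          field_simp
          ring
        rw [e]
        refine (abs_add_le _ _).trans ?_
        have e1 : |(c k - c (k + 1)) / Wf m M ℓ k| ≤ 2 / ℓ := by
          rw [abs_div, abs_of_pos (by linarith : 0 < Wf m M ℓ k), div_le_iff₀ (by linarith)]
          calc |c k - c (k + 1)| ≤ 1 / ℓ := hl
            _ = 2 / ℓ * (1 / 2) := by ring
            _ ≤ _ := by gcongr
        have e2 : |c (k + 1) * ((Wf m M ℓ (k + 1) - Wf m M ℓ k) /
            (Wf m M ℓ k * Wf m M ℓ (k + 1)))| ≤ 4 / ℓ := by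
          rw [abs_mul, abs_of_nonneg (hc0 _), abs_div, abs_sub_comm,
            abs_of_pos (mul_pos (by linarith) (by linarith) : 0 < Wf m M ℓ k * Wf m M ℓ (k + 1))]
          have h5 : (1 / 4 : ℝ) ≤ Wf m M ℓ k * Wf m M ℓ (k + 1) := by nlinarith
          calc c (k + 1) * (|Wf m M ℓ k - Wf m M ℓ (k + 1)| / (Wf m M ℓ k * Wf m M ℓ (k + 1)))
              ≤ 1 * ((1 / ℓ) / (1 / 4)) := by
                gcongr
                exact hc1 _
            _ = 4 / ℓ := by ring
        calc _ ≤ 2 / (ℓ : ℝ) + 4 / ℓ := add_le_add e1 e2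
          _ = 6 / ℓ := by ring
  -- the multiplier norm
  have hsupp_a : ∀ k : ℤ, a k ≠ 0 → ((m + 3 * ℓ : ℕ) : ℤ) ≤ k ∧ k ≤ ((m + 7 * ℓ : ℕ) : ℤ) := by
    intro k hk
    have h1 : c k ≠ 0 := by
      intro h
      exact hk (by simp [ha, h])
    have := hcs k h1
    push_cast
    omega
  have hker : ∑ u : ZMod N, ‖ker (sym a) u‖ ≤ N * Cb := by
    refine sym_l1 (p := m + 3 * ℓ) (q := m + 7 * ℓ) (B := 6) hℓ (by omega) (by omega) (by omega)
      (by omega) hsupp_a ?_ ha_abs ha_lip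
    push_cast
    have : (1 : ℝ) ≤ ℓ := by exact_mod_cast hℓ
    linarith
  -- the main identity
  set f : ZMod N → X := fun θ => trexp T m M ((ZMod.stdAddChar : AddChar (ZMod N) ℂ) θ) (S N T (phi ℓ) x θ) with hf
  have hf1 : f = fun θ => ∑ ij ∈ range M ×ˢ range N,
      (ZMod.stdAddChar : AddChar (ZMod N) ℂ) (((ij.1 + ij.2 : ℕ) : ZMod N) * θ) •
        (((pw m ij.1 * phi ℓ (ij.2 : ℤ) : ℝ) : ℂ) • (T ^ (ij.1 + ij.2)) x) := by
    funext θ
    simp only [hf, trexp, S]
    rw [_root_.sum_apply, sum_product]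
    refine sum_congr rfl fun i _ => ?_
    rw [_root_.smul_apply, map_sum, smul_sum]
    refine sum_congr rfl fun j _ => ?_
    rw [map_smul, map_smul, ← mul_apply_eq_comp, ← pow_add]
    simp only [smul_smul]
    congr 1
    have h3 : (ZMod.stdAddChar : AddChar (ZMod N) ℂ) θ ^ i = (ZMod.stdAddChar : AddChar (ZMod N) ℂ) ((i : ZMod N) * θ) := by
      rw [← AddChar.map_nsmul_eq_pow, nsmul_eq_mul]
    have h4 : (ZMod.stdAddChar : AddChar (ZMod N) ℂ) (((i + j : ℕ) : ZMod N) * θ) = (ZMod.stdAddChar : AddChar (ZMod N) ℂ) ((i : ZMod N) * θ) * (ZMod.stdAddChar : AddChar (ZMod N) ℂ) ((j : ZMod N) * θ) := by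
      rw [← AddChar.map_add_eq_mul]; congr 1; push_cast; ring
    rw [h3, h4]
    push_cast
    ring
  have hmul : mult (sym a) f = S N T c x := by
    funext θ
    rw [hf1]
    rw [mult_poly (range M ×ˢ range N) (sym a) (fun ij : ℕ × ℕ => ((ij.1 + ij.2 : ℕ) : ZMod N))
      (fun ij : ℕ × ℕ => ((pw m ij.1 * phi ℓ (ij.2 : ℤ) : ℝ) : ℂ) • (T ^ (ij.1 + ij.2)) x) θ]
    set G : ℕ → ℕ → X := fun i k => ((a k * (pw m i * phi ℓ ((k : ℤ) - i)) : ℝ) : ℂ) •
      (ZMod.stdAddChar : AddChar (ZMod N) ℂ) ((k : ZMod N) * θ) • (T ^ k) x with hG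
    have h1 : ∀ i ∈ range M, ∀ j ∈ range N, (sym a (((i + j : ℕ) : ZMod N)) : ℂ) •
        (ZMod.stdAddChar : AddChar (ZMod N) ℂ) (((i + j : ℕ) : ZMod N) * θ) •
          (((pw m i * phi ℓ (j : ℤ) : ℝ) : ℂ) • (T ^ (i + j)) x) = G i (i + j) := by
      intro i hi j hj
      rw [mem_range] at hi hj
      by_cases hj2 : j < 10 * ℓ
      · rw [sym_natCast a (by omega)]
        simp only [hG, smul_smul]
        congr 1
        have : ((i + j : ℕ) : ℤ) - i = j := by push_cast; ring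
        rw [this]
        push_cast
        ring
      · have h0 : phi ℓ (j : ℤ) = 0 := phi_eq_zero_of_ge hℓ (by omega)
        have : ((i + j : ℕ) : ℤ) - i = j := by push_cast; ring
        simp only [hG, this, h0, mul_zero, Complex.ofReal_zero, zero_smul, smul_zero]
    rw [sum_product]
    have h2 : ∀ i ∈ range M, ∑ j ∈ range N, G i (i + j) = ∑ k ∈ range N, G i k := by
      intro i hi
      rw [mem_range] at hi
      have hz1 : ∀ k : ℕ, k < i → G i k = 0 := by
        intro k hk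
        have h0 : phi ℓ ((k : ℤ) - i) = 0 := phi_eq_zero_of_nonpos (by omega)
        simp only [hG, h0, mul_zero, Complex.ofReal_zero, zero_smul]
      have hz2 : ∀ k : ℕ, i + 10 * ℓ ≤ k → G i k = 0 := by
        intro k hk
        have h0 : phi ℓ ((k : ℤ) - i) = 0 := phi_eq_zero_of_ge hℓ (by omega)
        simp only [hG, h0, mul_zero, Complex.ofReal_zero, zero_smul]
      have e1 : ∑ j ∈ range N, G i (i + j) = ∑ k ∈ Ico i (i + N), G i k := by
        rw [sum_Ico_eq_sum_range, Nat.add_sub_cancel_left]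
      have e2 : ∑ k ∈ Ico i (i + N), G i k = ∑ k ∈ Ico i (i + 10 * ℓ), G i k := by
        symm
        apply sum_subset
        · intro k hk; rw [mem_Ico] at hk ⊢; omega
        · intro k hk hk'
          rw [mem_Ico] at hk hk'
          exact hz2 k (by omega)
      have e3 : ∑ k ∈ range N, G i k = ∑ k ∈ Ico i (i + 10 * ℓ), G i k := by
        symm
        apply sum_subset
        · intro k hk; rw [mem_Ico] at hk; rw [mem_range]; omega
        · intro k hk hk'
          rw [mem_Ico] at hk'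
          rcases Nat.lt_or_ge k i with h | h
          · exact hz1 k h
          · exact hz2 k (by omega)
      rw [e1, e2, e3]
    calc ∑ i ∈ range M, ∑ j ∈ range N, (sym a (((i + j : ℕ) : ZMod N)) : ℂ) •
        (ZMod.stdAddChar : AddChar (ZMod N) ℂ) (((i + j : ℕ) : ZMod N) * θ) •
          (((pw m i * phi ℓ (j : ℤ) : ℝ) : ℂ) • (T ^ (i + j)) x)
        = ∑ i ∈ range M, ∑ k ∈ range N, G i k := by
          refine sum_congr rfl fun i hi => ?_
          rw [← h2 i hi]
          exact sum_congr rfl fun j hj => h1 i hi j hj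
      _ = ∑ k ∈ range N, ∑ i ∈ range M, G i k := sum_comm
      _ = S N T c x θ := by
          unfold S
          refine sum_congr rfl fun k _ => ?_
          simp only [hG]
          rw [← sum_smul, ← Complex.ofReal_sum, ← mul_sum]
          have h5 : a k * ∑ i ∈ range M, pw m i * phi ℓ ((k : ℤ) - i) = c k := by
            change a k * Wf m M ℓ k = c k
            simp only [ha]
            by_cases h : c k = 0
            · rw [h]; simp
            · have := hW k h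
              rw [div_mul_cancel₀]
              linarith
          rw [h5, smul_comm]
  rw [← hmul]
  refine (nrm_mult_le hker f).trans ?_
  have hCb : 0 ≤ Cb := Real.sqrt_nonneg _
  gcongr
  -- `nrm f ≤ K₁ * nrm S`
  have hK₁ : 0 ≤ K₁ := (norm_nonneg _).trans (hE 1 (by simp))
  unfold nrm
  rw [← Real.sqrt_sq hK₁, ← Real.sqrt_mul (sq_nonneg _), mul_sum]
  apply Real.sqrt_le_sqrt
  refine sum_le_sum fun θ _ => ?_
  rw [← mul_pow]
  gcongr
  exact (ContinuousLinearMap.le_opNorm _ _).trans (by gcongr; exact hE _ (norm_e θ))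

end

end Pool.Agent.SKB
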