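import Mathlib
import Pool.Agent.SKB.Kernel

/-!
# Sums of blocks in curved spaces
-/

open Finset Filter Topology

namespace Pool.Agent.SKB

variable {N : ℕ} [NeZero N]


/-- The matrix of the block sum operator. -/
noncomputable def bm {B : ℕ} (t : Fin B → ZMod N → ℝ) (θ : ZMod N) (p : Fin B × ZMod N) : ℂ :=
  (N : ℂ)⁻¹ * ker (t p.1) (θ - p.2)

lemma bm_reg {B : ℕ} {t : Fin B → ZMod N → ℝ} {C₁ : ℝ} (hC₁ : 0 ≤ C₁)
    (hker : ∀ b, ∑ u : ZMod N, ‖ker (t b) u‖ ≤ N * C₁) : RegLe (bm t) (C₁ * √B) := by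
  have hN : (0 : ℝ) < N := by exact_mod_cast Nat.pos_of_ne_zero (NeZero.ne N)
  intro u w hu hw
  have h1 : ∀ b : Fin B, ∑ θ : ZMod N, (∑ φ : ZMod N, ((N : ℝ)⁻¹ * ‖ker (t b) (θ - φ)‖) * u (b, φ)) * w θ ≤
      (C₁ * √(∑ φ : ZMod N, u (b, φ) ^ 2)) * √(∑ θ, w θ ^ 2) := by
    intro b
    refine (Real.sum_mul_le_sqrt_mul_sqrt _ _ _).trans ?_
    gcongr
    refine (young_sqrt (κ := fun v : ZMod N => (N : ℝ)⁻¹ * ‖ker (t b) v‖)
      (f := fun φ => u (b, φ)) (fun v => by positivity)).trans ?_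
    gcongr
    rw [← mul_sum]
    calc (N : ℝ)⁻¹ * ∑ u : ZMod N, ‖ker (t b) u‖ ≤ (N : ℝ)⁻¹ * (N * C₁) := by
          gcongr; exact hker b
      _ = C₁ := by field_simp
  have h2 : ∑ θ : ZMod N, ∑ p : Fin B × ZMod N, ‖bm t θ p‖ * u p * w θ =
      ∑ b : Fin B, ∑ θ : ZMod N, (∑ φ : ZMod N, ((N : ℝ)⁻¹ * ‖ker (t b) (θ - φ)‖) * u (b, φ)) * w θ := by
    refine Eq.trans (sum_congr rfl fun θ _ => Fintype.sum_prod_type _) ?_
    rw [sum_comm]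
    refine sum_congr rfl fun b _ => sum_congr rfl fun θ _ => ?_
    rw [sum_mul]
    refine sum_congr rfl fun φ _ => ?_
    simp only [bm]
    rw [norm_mul, norm_inv, Complex.norm_natCast]
  rw [h2]
  calc _ ≤ ∑ b : Fin B, (C₁ * √(∑ φ : ZMod N, u (b, φ) ^ 2)) * √(∑ θ, w θ ^ 2) :=
        sum_le_sum fun b _ => h1 b
    _ = C₁ * (∑ b : Fin B, 1 * √(∑ φ : ZMod N, u (b, φ) ^ 2)) * √(∑ θ, w θ ^ 2) := by
        rw [mul_sum, sum_mul]
        refine sum_congr rfl fun b _ => by ring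
    _ ≤ C₁ * (√(∑ b : Fin B, (1 : ℝ) ^ 2) * √(∑ b : Fin B, √(∑ φ : ZMod N, u (b, φ) ^ 2) ^ 2)) *
          √(∑ θ, w θ ^ 2) := by
        gcongr
        exact Real.sum_mul_le_sqrt_mul_sqrt _ _ _
    _ = C₁ * √B * √(∑ j, u j ^ 2) * √(∑ k, w k ^ 2) := by
        have e1 : ∑ b : Fin B, (1 : ℝ) ^ 2 = B := by simp
        have e2 : ∑ b : Fin B, √(∑ φ : ZMod N, u (b, φ) ^ 2) ^ 2 = ∑ j, u j ^ 2 := by
          rw [Fintype.sum_prod_type]
          refine sum_congr rfl fun b _ => ?_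
          exact Real.sq_sqrt (sum_nonneg fun _ _ => sq_nonneg _)
        rw [e1, e2]; ring

lemma bm_op {B : ℕ} {t : Fin B → ZMod N → ℝ} (ht0 : ∀ b k, 0 ≤ t b k)
    (ht1 : ∀ k, ∑ b, t b k ≤ 1) : OpLe (bm t) 1 := by
  have hN : (0 : ℝ) < N := by exact_mod_cast Nat.pos_of_ne_zero (NeZero.ne N)
  intro u
  set uh : Fin B → ZMod N → ℂ := fun b k => (N : ℂ)⁻¹ * ∑ φ : ZMod N, u (b, φ) * (ZMod.stdAddChar : AddChar (ZMod N) ℂ) (φ * (-k)) with huh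
  have h1 : ∀ θ : ZMod N, ∑ p : Fin B × ZMod N, bm t θ p * u p =
      ∑ k : ZMod N, (∑ b : Fin B, (t b k : ℂ) * uh b k) * (ZMod.stdAddChar : AddChar (ZMod N) ℂ) (k * θ) := by
    intro θ
    rw [Fintype.sum_prod_type]
    simp only [sum_mul]
    rw [sum_comm (s := (univ : Finset (ZMod N))) (t := (univ : Finset (Fin B)))]
    refine sum_congr rfl fun b _ => ?_
    simp only [bm, ker, huh, mul_sum, sum_mul]
    rw [sum_comm]
    refine sum_congr rfl fun k _ => sum_congr rfl fun φ _ => ?_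
    have : (ZMod.stdAddChar : AddChar (ZMod N) ℂ) (k * (θ - φ)) = (ZMod.stdAddChar : AddChar (ZMod N) ℂ) (φ * (-k)) * (ZMod.stdAddChar : AddChar (ZMod N) ℂ) (k * θ) := by
      rw [← AddChar.map_add_eq_mul]; congr 1; ring
    rw [this]; ring
  have h2 : ∑ θ : ZMod N, ‖∑ p : Fin B × ZMod N, bm t θ p * u p‖ ^ 2 =
      N * ∑ k : ZMod N, ‖∑ b : Fin B, (t b k : ℂ) * uh b k‖ ^ 2 := by
    rw [sum_congr rfl fun θ _ => by rw [h1 θ]]
    exact parseval _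
  rw [h2]
  have h3 : ∀ k : ZMod N, ‖∑ b : Fin B, (t b k : ℂ) * uh b k‖ ^ 2 ≤ ∑ b : Fin B, ‖uh b k‖ ^ 2 := by
    intro k
    have h4 : ‖∑ b : Fin B, (t b k : ℂ) * uh b k‖ ≤ ∑ b : Fin B, √(t b k) * (√(t b k) * ‖uh b k‖) := by
      refine (norm_sum_le _ _).trans (le_of_eq (sum_congr rfl fun b _ => ?_))
      rw [norm_mul, Complex.norm_real, Real.norm_of_nonneg (ht0 b k), ← mul_assoc,
        Real.mul_self_sqrt (ht0 b k)]
    have h5 := Finset.sum_mul_sq_le_sq_mul_sq univ (fun b : Fin B => √(t b k))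
      (fun b => √(t b k) * ‖uh b k‖)
    calc ‖∑ b : Fin B, (t b k : ℂ) * uh b k‖ ^ 2
        ≤ (∑ b : Fin B, √(t b k) * (√(t b k) * ‖uh b k‖)) ^ 2 := by gcongr
      _ ≤ (∑ b : Fin B, √(t b k) ^ 2) * ∑ b : Fin B, (√(t b k) * ‖uh b k‖) ^ 2 := h5
      _ = (∑ b : Fin B, t b k) * ∑ b : Fin B, t b k * ‖uh b k‖ ^ 2 := by
          congr 1
          · exact sum_congr rfl fun b _ => Real.sq_sqrt (ht0 b k)
          · exact sum_congr rfl fun b _ => by rw [mul_pow, Real.sq_sqrt (ht0 b k)]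
      _ ≤ 1 * ∑ b : Fin B, 1 * ‖uh b k‖ ^ 2 := by
          have h6 : ∀ b, t b k ≤ 1 := fun b =>
            (single_le_sum (f := fun b => t b k) (fun b _ => ht0 b k) (mem_univ b)).trans (ht1 k)
          gcongr with b _
          · exact sum_nonneg fun b _ => mul_nonneg (ht0 b k) (sq_nonneg _)
          · exact ht1 k
          · exact h6 b
      _ = _ := by simp
  have h7 : ∀ b : Fin B, ∑ k : ZMod N, ‖uh b k‖ ^ 2 = (N : ℝ)⁻¹ * ∑ φ : ZMod N, ‖u (b, φ)‖ ^ 2 := by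
    intro b
    have h8 : ∑ k : ZMod N, ‖∑ φ : ZMod N, u (b, φ) * (ZMod.stdAddChar : AddChar (ZMod N) ℂ) (φ * (-k))‖ ^ 2 =
        N * ∑ φ : ZMod N, ‖u (b, φ)‖ ^ 2 := by
      rw [← parseval (fun φ => u (b, φ))]
      exact Equiv.sum_comp (Equiv.neg (ZMod N)) (fun k => ‖∑ φ : ZMod N, u (b, φ) * (ZMod.stdAddChar : AddChar (ZMod N) ℂ) (φ * k)‖ ^ 2)
    simp only [huh, norm_mul, norm_inv, Complex.norm_natCast, mul_pow]
    rw [← mul_sum, h8]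
    field_simp
  calc (N : ℝ) * ∑ k : ZMod N, ‖∑ b : Fin B, (t b k : ℂ) * uh b k‖ ^ 2
      ≤ N * ∑ k : ZMod N, ∑ b : Fin B, ‖uh b k‖ ^ 2 := by
        gcongr with k _
        exact h3 k
    _ = N * ∑ b : Fin B, ((N : ℝ)⁻¹ * ∑ φ : ZMod N, ‖u (b, φ)‖ ^ 2) := by
        rw [sum_comm]
        congr 1
        exact sum_congr rfl fun b _ => h7 b
    _ = 1 ^ 2 * ∑ j, ‖u j‖ ^ 2 := by
        rw [← mul_sum, Fintype.sum_prod_type]
        field_simp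

theorem blocksum {X : Type*} [NormedAddCommGroup X] [NormedSpace ℂ X] {ϑ : ℝ} (hX : Curved X ϑ)
    {B : ℕ} {t : Fin B → ZMod N → ℝ} {C₁ : ℝ} (hC₁ : 0 ≤ C₁)
    (hker : ∀ b, ∑ u : ZMod N, ‖ker (t b) u‖ ≤ N * C₁) (ht0 : ∀ b k, 0 ≤ t b k)
    (ht1 : ∀ k, ∑ b, t b k ≤ 1) (h : Fin B → ZMod N → X) :
    nrm (fun θ => ∑ b, mult (t b) (h b) θ) ≤ (C₁ * √B) ^ (1 - ϑ) * √(∑ b, nrm (h b) ^ 2) := by
  have h1 := hX (Fin B × ZMod N) (ZMod N) (bm t) (C₁ * √B) 1 (by positivity) zero_le_one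
    (bm_reg hC₁ hker) (bm_op ht0 ht1) (fun p => h p.1 p.2)
  rw [Real.one_rpow, one_mul] at h1
  have e1 : ∀ θ : ZMod N, ∑ p : Fin B × ZMod N, bm t θ p • h p.1 p.2 = ∑ b, mult (t b) (h b) θ := by
    intro θ
    rw [Fintype.sum_prod_type]
    rfl
  have e2 : ∑ p : Fin B × ZMod N, ‖h p.1 p.2‖ ^ 2 = ∑ b, nrm (h b) ^ 2 := by
    rw [Fintype.sum_prod_type]
    refine sum_congr rfl fun b _ => ?_
    unfold nrm
    rw [Real.sq_sqrt (sum_nonneg fun _ _ => sq_nonneg _)]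
  simp only [e1, e2] at h1
  exact h1

end Pool.Agent.SKB
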