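import Mathlib
import Pool.Agent.SKB.BlockLemma
import Pool.Agent.SKB.BlockSum

/-!
# The recursion
-/

open Finset Filter Topology

namespace Pool.Agent.SKB

section nrm

variable {N : ℕ} [NeZero N] {X : Type*} [NormedAddCommGroup X]

lemma nrm_add_le (f g : ZMod N → X) : nrm (fun θ => f θ + g θ) ≤ nrm f + nrm g := by
  have h0 : 0 ≤ nrm f + nrm g := add_nonneg (nrm_nonneg _) (nrm_nonneg _)
  unfold nrm at *
  rw [Real.sqrt_le_left h0]
  have h1 : ∑ θ, ‖f θ + g θ‖ ^ 2 ≤ ∑ θ, (‖f θ‖ ^ 2 + 2 * (‖f θ‖ * ‖g θ‖) + ‖g θ‖ ^ 2) := by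
    refine sum_le_sum fun θ _ => ?_
    have := norm_add_le (f θ) (g θ)
    calc ‖f θ + g θ‖ ^ 2 ≤ (‖f θ‖ + ‖g θ‖) ^ 2 := by gcongr
      _ = _ := by ring
  have h2 := Real.sum_mul_le_sqrt_mul_sqrt univ (fun θ : ZMod N => ‖f θ‖) (fun θ => ‖g θ‖)
  rw [sum_add_distrib, sum_add_distrib, ← mul_sum] at h1
  have h3 : √(∑ θ, ‖f θ‖ ^ 2) ^ 2 = ∑ θ, ‖f θ‖ ^ 2 := Real.sq_sqrt (by positivity)
  have h4 : √(∑ θ, ‖g θ‖ ^ 2) ^ 2 = ∑ θ, ‖g θ‖ ^ 2 := Real.sq_sqrt (by positivity)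
  nlinarith [h1, h2, h3, h4]

lemma nrm_le_of_forall {f : ZMod N → X} {A : ℝ} (hA : 0 ≤ A) (h : ∀ θ, ‖f θ‖ ≤ A) :
    nrm f ≤ √N * A := by
  unfold nrm
  calc √(∑ θ, ‖f θ‖ ^ 2) ≤ √(∑ θ : ZMod N, A ^ 2) := by
        apply Real.sqrt_le_sqrt
        refine sum_le_sum fun θ _ => ?_
        have := h θ
        gcongr
    _ = √(N * A ^ 2) := by rw [sum_const, card_univ, ZMod.card, nsmul_eq_mul]
    _ = _ := by rw [Real.sqrt_mul (Nat.cast_nonneg _), Real.sqrt_sq hA]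

end nrm

variable {N : ℕ} [NeZero N]


variable {X : Type*} [NormedAddCommGroup X] [NormedSpace ℂ X]

lemma S_add (T : X →L[ℂ] X) (c d : ℤ → ℝ) (x : X) (θ : ZMod N) :
    S N T (fun k => c k + d k) x θ = S N T c x θ + S N T d x θ := by
  unfold S
  rw [← sum_add_distrib]
  refine sum_congr rfl fun k _ => ?_
  push_cast
  rw [add_smul, smul_add]

lemma S_sum {ι : Type*} (s : Finset ι) (T : X →L[ℂ] X) (c : ι → ℤ → ℝ) (x : X) (θ : ZMod N) :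
    S N T (fun k => ∑ i ∈ s, c i k) x θ = ∑ i ∈ s, S N T (c i) x θ := by
  unfold S
  rw [sum_comm]
  refine sum_congr rfl fun k _ => ?_
  push_cast
  rw [sum_smul, smul_sum]

lemma nrm_S_crude {T : X →L[ℂ] X} {K : ℝ} (hK : 0 ≤ K)
    (hT : ∀ k : ℕ, ‖T ^ k‖ ≤ 3 * (K + 1) * ((k : ℝ) + 1)) (c : ℤ → ℝ) (x : X) {A : ℝ}
    (hA : ∑ k ∈ range N, |c k| * (3 * (K + 1) * ((k : ℝ) + 1)) ≤ A) :
    nrm (S N T c x) ≤ √N * (A * ‖x‖) := by
  have hA0 : 0 ≤ A := le_trans (sum_nonneg fun k _ => by positivity) hA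
  refine nrm_le_of_forall (by positivity) fun θ => ?_
  unfold S
  calc ‖∑ k ∈ range N, (ZMod.stdAddChar : AddChar (ZMod N) ℂ) ((k : ZMod N) * θ) • ((c k : ℂ) • (T ^ k) x)‖
      ≤ ∑ k ∈ range N, ‖(ZMod.stdAddChar : AddChar (ZMod N) ℂ) ((k : ZMod N) * θ) • ((c k : ℂ) • (T ^ k) x)‖ := norm_sum_le _ _
    _ ≤ ∑ k ∈ range N, |c k| * (3 * (K + 1) * ((k : ℝ) + 1)) * ‖x‖ := by
        refine sum_le_sum fun k _ => ?_
        rw [norm_smul, norm_smul, norm_e, one_mul, Complex.norm_real, Real.norm_eq_abs, mul_assoc]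
        gcongr
        exact (ContinuousLinearMap.le_opNorm _ _).trans
          (by gcongr; exact hT k)
    _ = (∑ k ∈ range N, |c k| * (3 * (K + 1) * ((k : ℝ) + 1))) * ‖x‖ := by rw [sum_mul]
    _ ≤ A * ‖x‖ := by gcongr

/-- The modulus `N` is large enough for all scales up to `R`. -/
def Good (N : ℕ) (T : X →L[ℂ] X) (K₁ : ℝ) (R : ℕ) : Prop :=
  R ^ 2 + 10 * R + 2 ≤ N ∧ ∀ m ≤ R ^ 2, ∃ M, M + 10 * R ≤ N ∧
    (∀ γ : ℂ, ‖γ‖ = 1 → ‖trexp T m M γ‖ ≤ K₁) ∧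
    ∀ ℓ : ℕ, 1 ≤ ℓ → m ≤ ℓ ^ 2 →
      1 / 2 ≤ ∑ i ∈ (range M).filter (fun i : ℕ => |(i : ℤ) - m| ≤ 2 * ℓ), pw m i

lemma block_good {T : X →L[ℂ] X} {K₁ : ℝ} {R ℓ m : ℕ} (hG : Good N T K₁ R) (hℓ : 1 ≤ ℓ)
    (hℓR : ℓ ≤ R) (hm : m ≤ ℓ ^ 2) (x : X) :
    nrm (S N T (trap ℓ (m + 5 * ℓ)) x) ≤ Cb * (K₁ * nrm (S N T (phi ℓ) x)) := by
  have hℓR2 : ℓ ^ 2 ≤ R ^ 2 := Nat.pow_le_pow_left hℓR 2
  obtain ⟨hN, hG⟩ := hG
  obtain ⟨M, hM, hE, hch⟩ := hG m (by omega)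
  exact block hℓ hE (hch ℓ hℓ hm) (by omega) (by omega) x

lemma exists_good [CompleteSpace X] {T : X →L[ℂ] X} {K : ℝ}
    (hT : ∀ z : ℂ, ‖NormedSpace.exp (z • T)‖ ≤ K * Real.exp ‖z‖) (R : ℕ) :
    ∃ N₀ : ℕ, ∀ N ≥ N₀, Good N T (K + 1) R := by
  choose M₀ hM₀ using trexp_bound hT
  choose M₁ hM₁ using cheb
  refine ⟨R ^ 2 + 10 * R + 2 + ∑ m ∈ range (R ^ 2 + 1), (M₀ m + M₁ m), fun N hN => ⟨?_, ?_⟩⟩
  · omega
  · intro m hm
    refine ⟨M₀ m + M₁ m, ?_, hM₀ m _ (by omega), hM₁ m _ (by omega)⟩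
    have : M₀ m + M₁ m ≤ ∑ m ∈ range (R ^ 2 + 1), (M₀ m + M₁ m) :=
      single_le_sum (f := fun m => M₀ m + M₁ m) (fun _ _ => Nat.zero_le _)
        (mem_range.2 (by omega))
    omega

/-- constant of the tents. -/
noncomputable def C1 : ℝ := √(2 * ((1 ^ 2 + 2 ^ 2) * 4))

lemma rec_ineq {ϑ : ℝ} (hX : Curved X ϑ) {T : X →L[ℂ] X} {K K₁ : ℝ} (hK : 0 ≤ K)
    (hT : ∀ k : ℕ, ‖T ^ k‖ ≤ 3 * (K + 1) * ((k : ℝ) + 1)) {R ℓ L : ℕ}
    (hG : Good N T K₁ R) (hℓ : 1 ≤ ℓ) (hℓL : ℓ ≤ L) (hL : 10 * L ≤ ℓ ^ 2)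
    (hℓR : ℓ ≤ R) (x : X) :
    nrm (S N T (phi L) x) ≤ √N * ((648 * (K + 1) * ((ℓ : ℝ) ^ 3 / L)) * ‖x‖) +
      (C1 * √ℓ) ^ (1 - ϑ) * √(ℓ * (Cb * (K₁ * nrm (S N T (phi ℓ) x))) ^ 2) := by
  have hℓ0 : (0 : ℝ) < ℓ := by exact_mod_cast hℓ
  have hL1 : 1 ≤ L := hℓ.trans hℓL
  have hL0 : (0 : ℝ) < L := by exact_mod_cast hL1
  have hℓR2 : ℓ ^ 2 ≤ R ^ 2 := Nat.pow_le_pow_left hℓR 2
  have hNR := hG.1
  set t : ℕ → ℤ → ℝ := fun b k => phi L k * tent ℓ (6 * ℓ + b * ℓ) k with ht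
  have ht0 : ∀ b k, 0 ≤ t b k := fun b k => mul_nonneg (phi_nonneg _ _) (tent_nonneg _ _ _)
  have htsum : ∀ k, ∑ b ∈ range ℓ, t b k ≤ 1 := by
    intro k
    simp only [ht]
    rw [← mul_sum]
    have h1 := sum_tent_le_one hℓ (6 * ℓ) ℓ k
    have h2 : 0 ≤ ∑ b ∈ range ℓ, tent ℓ (6 * ℓ + b * ℓ) k := sum_nonneg fun _ _ => tent_nonneg _ _ _
    exact mul_le_one₀ (phi_le_one _ _) h2 h1
  set r : ℤ → ℝ := fun k => phi L k - ∑ b ∈ range ℓ, t b k with hr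
  -- decomposition
  have hdec : S N T (phi L) x = fun θ => S N T r x θ + ∑ b : Fin ℓ, mult (sym (t b))
      (S N T (trap ℓ (((b : ℕ) + 1) * ℓ + 5 * ℓ)) x) θ := by
    funext θ
    have e1 : phi L = fun k => r k + ∑ b ∈ range ℓ, t b k := by
      funext k; simp only [hr]; ring
    rw [e1, S_add, S_sum, Finset.sum_range]
    congr 1
    refine sum_congr rfl fun b _ => ?_
    rw [mult_S]
    congr 2
    funext k
    by_cases h : tent ℓ (6 * ℓ + b * ℓ) k = 0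
    · simp only [ht, h, mul_zero, zero_mul]
    · have h1 := tent_supp hℓ h
      rw [trap_eq_one hℓ (by linarith [h1.1]) (by linarith [h1.2]), mul_one]
  -- the remainder
  have hrem : nrm (S N T r x) ≤ √N * ((648 * (K + 1) * ((ℓ : ℝ) ^ 3 / L)) * ‖x‖) := by
    refine nrm_S_crude hK hT r x ?_
    have hr0 : ∀ k : ℕ, 6 * ℓ ≤ k → r k = 0 := by
      intro k hk
      simp only [hr, ht]
      rw [← mul_sum]
      rcases Nat.lt_or_ge k (10 * L) with h | h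
      · have h2 : ∑ b ∈ range ℓ, tent ℓ (6 * ℓ + b * ℓ) (k : ℤ) = 1 := by
          obtain ⟨B, rfl⟩ : ∃ B, ℓ = B + 1 := ⟨ℓ - 1, by omega⟩
          refine sum_tent_eq_one hℓ (by exact_mod_cast hk) ?_
          have h3 : k ≤ 6 * (B + 1) + B * (B + 1) := by nlinarith
          exact_mod_cast h3
        rw [h2]; ring
      · rw [phi_eq_zero_of_ge hL1 (by exact_mod_cast h)]; ring
    have hr1 : ∀ k : ℕ, |r k| ≤ (k : ℝ) / L := by
      intro k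
      have h1 : 0 ≤ r k := by
        simp only [hr, ht]
        rw [← mul_sum]
        have h1 := sum_tent_le_one hℓ (6 * ℓ) ℓ k
        have h2 := phi_nonneg L k
        nlinarith
      rw [abs_of_nonneg h1]
      have h2 : 0 ≤ ∑ b ∈ range ℓ, t b k := sum_nonneg fun b _ => ht0 b k
      have h3 := phi_le L (j := (k : ℤ)) (by positivity)
      simp only [hr]
      push_cast at h3
      linarith
    calc ∑ k ∈ range N, |r k| * (3 * (K + 1) * ((k : ℝ) + 1))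
        = ∑ k ∈ range (6 * ℓ), |r k| * (3 * (K + 1) * ((k : ℝ) + 1)) := by
          symm
          apply sum_subset
          · intro k hk; rw [mem_range] at hk ⊢; nlinarith
          · intro k _ hk
            rw [mem_range, not_lt] at hk
            rw [hr0 k hk]; simp
      _ ≤ ∑ k ∈ range (6 * ℓ), (6 * ℓ / L) * (3 * (K + 1) * (6 * ℓ)) := by
          refine sum_le_sum fun k hk => ?_
          rw [mem_range] at hk
          have h1 : (k : ℝ) + 1 ≤ 6 * ℓ := by exact_mod_cast hk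
          have h2 := hr1 k
          have h3 : (k : ℝ) / L ≤ 6 * ℓ / L := by gcongr; linarith
          gcongr
          exact h2.trans h3
      _ = 648 * (K + 1) * ((ℓ : ℝ) ^ 3 / L) := by
          rw [sum_const, card_range, nsmul_eq_mul]
          push_cast
          field_simp
          ring
  -- the blocks
  have hker : ∀ b : Fin ℓ, ∑ u : ZMod N, ‖ker (sym (t b)) u‖ ≤ N * C1 := by
    intro b
    have hb := b.2
    have hbℓ : (b : ℕ) * ℓ + ℓ ≤ ℓ ^ 2 := by nlinarith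
    refine sym_l1 (p := 5 * ℓ + b * ℓ) (q := 7 * ℓ + b * ℓ) (B := 4) hℓ (by omega) (by omega)
      (by omega) (by omega) ?_ ?_ ?_ ?_
    · intro k hk
      have h1 : tent ℓ (6 * ℓ + b * ℓ) k ≠ 0 := by
        intro h
        exact hk (by simp only [ht, h, mul_zero])
      have := tent_supp hℓ h1
      push_cast at this ⊢
      constructor <;> linarith [this.1, this.2]
    · push_cast
      have : (1 : ℝ) ≤ ℓ := by exact_mod_cast hℓ
      linarith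
    · intro k
      rw [abs_of_nonneg (ht0 b k)]
      simp only [ht]
      exact mul_le_one₀ (phi_le_one _ _) (tent_nonneg _ _ _) (tent_le_one _ _ _)
    · intro k
      simp only [ht]
      have e : phi L k * tent ℓ (6 * ℓ + b * ℓ) k - phi L (k + 1) * tent ℓ (6 * ℓ + b * ℓ) (k + 1) =
          (phi L k - phi L (k + 1)) * tent ℓ (6 * ℓ + b * ℓ) k +
          phi L (k + 1) * (tent ℓ (6 * ℓ + b * ℓ) k - tent ℓ (6 * ℓ + b * ℓ) (k + 1)) := by ring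
      rw [e]
      refine (abs_add_le _ _).trans ?_
      rw [abs_mul, abs_mul, abs_of_nonneg (tent_nonneg _ _ _), abs_of_nonneg (phi_nonneg L (k + 1))]
      have h1 := phi_lip hL1 k
      have h2 := tent_lip hℓ (6 * ℓ + b * ℓ) k
      have h3 : (1 : ℝ) / L ≤ 1 / ℓ := by
        apply one_div_le_one_div_of_le hℓ0
        exact_mod_cast hℓL
      calc _ ≤ (1 / (ℓ : ℝ)) * 1 + 1 * (1 / (ℓ : ℝ)) := by
            gcongr
            · exact tent_nonneg _ _ _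
            · exact h1.trans h3
            · exact tent_le_one _ _ _
            · exact phi_le_one _ _
        _ = 2 / (ℓ : ℝ) := by ring
  have hC1 : 0 ≤ C1 := Real.sqrt_nonneg _
  have hCb : 0 ≤ Cb := Real.sqrt_nonneg _
  have hbs := blocksum hX (N := N) (B := ℓ) (t := fun b => sym (t b)) hC1 hker
    (fun b k => ht0 b _) (fun k => by
      have := htsum (k.val : ℤ)
      rw [Finset.sum_range] at this
      exact this) (fun b => S N T (trap ℓ (((b : ℕ) + 1) * ℓ + 5 * ℓ)) x)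
  rw [hdec]
  refine (nrm_add_le _ _).trans (add_le_add hrem (hbs.trans ?_))
  have h0 : 0 ≤ C1 * √ℓ := by positivity
  gcongr
  calc ∑ b : Fin ℓ, nrm (S N T (trap ℓ (((b : ℕ) + 1) * ℓ + 5 * ℓ)) x) ^ 2
      ≤ ∑ b : Fin ℓ, (Cb * (K₁ * nrm (S N T (phi ℓ) x))) ^ 2 := by
        refine sum_le_sum fun b _ => ?_
        have hb := b.2
        have h1 : ((b : ℕ) + 1) * ℓ ≤ ℓ ^ 2 := by nlinarith
        have h2 := block_good hG hℓ hℓR h1 x
        have h3 := nrm_nonneg (S N T (trap ℓ (((b : ℕ) + 1) * ℓ + 5 * ℓ)) x)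
        push_cast at h2
        gcongr
    _ = _ := by rw [sum_const, card_univ, Fintype.card_fin, nsmul_eq_mul]

end Pool.Agent.SKB
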