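import Mathlib
import Pool.Agent.SKB.Recursion
import Pool.Agent.SKB.HilbertOp

/-!
# Duality for curved spaces, adjoint operators and the pairing identity
-/

open Finset Filter Topology

namespace Pool.Agent.SKB

section dual

variable {X : Type*} [NormedAddCommGroup X] [NormedSpace ℂ X]

/-- The adjoint operator. -/
noncomputable def adj (T : X →L[ℂ] X) : (X →L[ℂ] ℂ) →L[ℂ] (X →L[ℂ] ℂ) :=
  (ContinuousLinearMap.compL ℂ X X ℂ).flip T

lemma adj_apply (T : X →L[ℂ] X) (y : X →L[ℂ] ℂ) (x : X) : adj T y x = y (T x) := rfl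

lemma adj_mul (S T : X →L[ℂ] X) : adj (S * T) = adj T * adj S := by
  ext y x; rfl

lemma adj_one : adj (1 : X →L[ℂ] X) = 1 := by
  ext y x; rfl

lemma adj_pow (T : X →L[ℂ] X) (n : ℕ) : adj (T ^ n) = adj T ^ n := by
  induction n with
  | zero => rw [pow_zero, pow_zero, adj_one]
  | succ n ih => rw [pow_succ, adj_mul, ih, pow_succ']

lemma adj_smul (c : ℂ) (T : X →L[ℂ] X) : adj (c • T) = c • adj T := by
  ext y x
  simp [adj_apply]

lemma norm_adj_le (T : X →L[ℂ] X) : ‖adj T‖ ≤ ‖T‖ := by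
  refine ContinuousLinearMap.opNorm_le_bound _ (norm_nonneg _) fun y => ?_
  rw [mul_comm]
  exact ContinuousLinearMap.opNorm_comp_le y T

lemma adj_sum {ι : Type*} (s : Finset ι) (f : ι → (X →L[ℂ] X)) :
    adj (∑ i ∈ s, f i) = ∑ i ∈ s, adj (f i) :=
  map_sum ((ContinuousLinearMap.compL ℂ X X ℂ).flip) f s

lemma adj_trexp (T : X →L[ℂ] X) (m M : ℕ) (γ : ℂ) :
    trexp (adj T) m M γ = adj (trexp T m M γ) := by
  unfold trexp
  rw [adj_sum]
  refine sum_congr rfl fun i _ => ?_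
  rw [adj_smul, adj_pow]

lemma Good.adj {N R : ℕ} {T : X →L[ℂ] X} {K₁ : ℝ} (h : Good N T K₁ R) :
    Good N (Pool.Agent.SKB.adj T) K₁ R := by
  refine ⟨h.1, fun m hm => ?_⟩
  obtain ⟨M, hM, hE, hch⟩ := h.2 m hm
  refine ⟨M, hM, fun γ hγ => ?_, hch⟩
  rw [adj_trexp]
  exact (norm_adj_le _).trans (hE γ hγ)

/-- Duality for curved spaces. -/
theorem Curved.dual {ϑ : ℝ} (hX : Curved X ϑ) : Curved (X →L[ℂ] ℂ) ϑ := by
  intro ι κ _ _ a r s hr hs hreg hop y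
  set z : κ → (X →L[ℂ] ℂ) := fun k => ∑ j, a k j • y j with hz
  set V : ℝ := ∑ k, ‖z k‖ ^ 2 with hV
  have hV0 : 0 ≤ V := by positivity
  set A : ℝ := s ^ ϑ * r ^ (1 - ϑ) with hA
  have hA0 : 0 ≤ A := by positivity
  set Y : ℝ := √(∑ j, ‖y j‖ ^ 2) with hY
  have hY0 : 0 ≤ Y := Real.sqrt_nonneg _
  change √V ≤ A * Y
  have key : ∀ δ : ℝ, 0 < δ → δ < 1 → (1 - δ) * V ≤ A * Y * √V := by
    intro δ hδ0 hδ1
    have h1 : ∀ k, ∃ u : X, ‖u‖ ≤ 1 ∧ ∃ ρ : ℝ, z k u = (ρ : ℂ) ∧ (1 - δ) * ‖z k‖ ≤ ρ := by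
      intro k
      by_cases h0 : z k = 0
      · refine ⟨0, by simp, 0, by simp, by simp [h0]⟩
      · have h2 : (1 - δ) * ‖z k‖ < ‖z k‖ := by
          have : 0 < ‖z k‖ := norm_pos_iff.2 h0
          nlinarith
        obtain ⟨u, hu1, hu2⟩ := ContinuousLinearMap.exists_lt_apply_of_lt_opNorm (z k) h2
        have hne : z k u ≠ 0 := by
          intro h
          rw [h, norm_zero] at hu2
          have : 0 ≤ (1 - δ) * ‖z k‖ := mul_nonneg (by linarith) (norm_nonneg _)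
          linarith
        have hn : ((‖z k u‖ : ℝ) : ℂ) ≠ 0 := by
          exact_mod_cast (norm_ne_zero_iff.2 hne)
        refine ⟨((starRingEnd ℂ) (z k u) / (‖z k u‖ : ℝ)) • u, ?_, ‖z k u‖, ?_, hu2.le⟩
        · rw [norm_smul, norm_div, RCLike.norm_conj, Complex.norm_real, norm_norm, div_self
            (norm_ne_zero_iff.2 hne), one_mul]
          exact hu1.le
        · rw [map_smul, smul_eq_mul, div_mul_eq_mul_div, div_eq_iff hn, mul_comm,
            Complex.mul_conj, Complex.normSq_eq_norm_sq]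
          push_cast; ring
    choose u hu1 ρ hρ hρ2 using h1
    set β : κ → ℝ := fun k => ‖z k‖ with hβ
    have hT := hX κ ι (fun j k => a k j) r s hr hs (RegLe.transpose hreg) (OpLe.transpose hs hop)
      (fun k => ((β k : ℝ) : ℂ) • u k)
    have h3 : ((∑ k, β k * ρ k : ℝ) : ℂ) = ∑ j, y j (∑ k, a k j • (((β k : ℝ) : ℂ) • u k)) := by
      simp only [map_sum, map_smul, smul_eq_mul]
      rw [sum_comm]
      push_cast
      refine sum_congr rfl fun k _ => ?_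
      rw [← hρ k]
      simp only [hz, _root_.sum_apply, _root_.smul_apply, smul_eq_mul]
      rw [mul_sum]
      refine sum_congr rfl fun j _ => ?_
      ring
    have h4 : ∑ k, β k * ρ k ≤ ∑ j, ‖y j‖ * ‖∑ k, a k j • (((β k : ℝ) : ℂ) • u k)‖ := by
      calc ∑ k, β k * ρ k ≤ ‖((∑ k, β k * ρ k : ℝ) : ℂ)‖ := by
            rw [Complex.norm_real]; exact Real.le_norm_self _
        _ = ‖∑ j, y j (∑ k, a k j • (((β k : ℝ) : ℂ) • u k))‖ := by rw [h3]
        _ ≤ ∑ j, ‖y j (∑ k, a k j • (((β k : ℝ) : ℂ) • u k))‖ := norm_sum_le _ _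
        _ ≤ _ := sum_le_sum fun j _ => (y j).le_opNorm _
    have h5 : ∑ j, ‖y j‖ * ‖∑ k, a k j • (((β k : ℝ) : ℂ) • u k)‖ ≤
        Y * √(∑ j, ‖∑ k, a k j • (((β k : ℝ) : ℂ) • u k)‖ ^ 2) :=
      Real.sum_mul_le_sqrt_mul_sqrt _ _ _
    have h6 : √(∑ k, ‖((β k : ℝ) : ℂ) • u k‖ ^ 2) ≤ √V := by
      apply Real.sqrt_le_sqrt
      refine sum_le_sum fun k _ => ?_
      rw [norm_smul, Complex.norm_real, Real.norm_of_nonneg (norm_nonneg _)]
      have : β k * ‖u k‖ ≤ ‖z k‖ := mul_le_of_le_one_right (norm_nonneg _) (hu1 k)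
      gcongr
    have h7 : (1 - δ) * V ≤ ∑ k, β k * ρ k := by
      rw [hV, mul_sum]
      refine sum_le_sum fun k _ => ?_
      have := hρ2 k
      calc (1 - δ) * ‖z k‖ ^ 2 = ‖z k‖ * ((1 - δ) * ‖z k‖) := by ring
        _ ≤ ‖z k‖ * ρ k := by gcongr
    calc (1 - δ) * V ≤ Y * √(∑ j, ‖∑ k, a k j • (((β k : ℝ) : ℂ) • u k)‖ ^ 2) :=
          h7.trans (h4.trans h5)
      _ ≤ Y * (A * √V) := by
          gcongr
          exact hT.trans (by rw [← hA]; gcongr)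
      _ = _ := by ring
  have hlim : V ≤ A * Y * √V := by
    have h8 : Tendsto (fun δ : ℝ => (1 - δ) * V) (𝓝[>] 0) (𝓝 ((1 - 0) * V)) := by
      have : Continuous (fun δ : ℝ => (1 - δ) * V) := by fun_prop
      exact (this.tendsto 0).mono_left nhdsWithin_le_nhds
    rw [sub_zero, one_mul] at h8
    refine le_of_tendsto h8 ?_
    filter_upwards [Ioo_mem_nhdsGT (zero_lt_one (α := ℝ))] with δ hδ
    exact key δ hδ.1 hδ.2
  rcases hV0.eq_or_lt with h | h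
  · rw [← h, Real.sqrt_zero]; positivity
  · have h9 : 0 < √V := Real.sqrt_pos.2 h
    have h10 : √V * √V ≤ (A * Y) * √V := by rw [Real.mul_self_sqrt hV0]; exact hlim
    exact le_of_mul_le_mul_right h10 h9

end dual

section pairing

variable {N : ℕ} [NeZero N]


variable {X : Type*} [NormedAddCommGroup X] [NormedSpace ℂ X]

lemma pairing (T : X →L[ℂ] X) {ℓ n : ℕ} (hℓ : 1 ≤ ℓ) (hn : 10 * ℓ ≤ n) (hN : n + 10 * ℓ ≤ N)
    (x : X) (y : X →L[ℂ] ℂ) :
    ∑ θ : ZMod N, (ZMod.stdAddChar : AddChar (ZMod N) ℂ) (θ * (-(n : ZMod N))) *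
      (S N (adj T) (phi ℓ) y θ) (S N T (trap ℓ ((n : ℤ) - 5 * ℓ)) x θ) =
    ((N * ∑ j ∈ range N, phi ℓ j * trap ℓ ((n : ℤ) - 5 * ℓ) ((n : ℤ) - j) : ℝ) : ℂ) * y ((T ^ n) x) := by
  set c : ℤ → ℝ := trap ℓ ((n : ℤ) - 5 * ℓ) with hc
  have hcs : ∀ k : ℤ, c k ≠ 0 → (n : ℤ) - 7 * ℓ < k ∧ k < n - 3 * ℓ := by
    intro k hk
    have := trap_supp hℓ hk
    constructor <;> linarith [this.1, this.2]
  have h1 : ∀ θ : ZMod N, (ZMod.stdAddChar : AddChar (ZMod N) ℂ) (θ * (-(n : ZMod N))) *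
      (S N (adj T) (phi ℓ) y θ) (S N T c x θ) =
      ∑ j ∈ range N, ∑ k ∈ range N, ((phi ℓ j * c k : ℝ) : ℂ) * y ((T ^ (j + k)) x) *
        (ZMod.stdAddChar : AddChar (ZMod N) ℂ) (θ * ((j : ZMod N) + k - n)) := by
    intro θ
    unfold S
    rw [_root_.sum_apply, mul_sum]
    refine sum_congr rfl fun j _ => ?_
    rw [map_sum, mul_sum]
    refine sum_congr rfl fun k _ => ?_
    rw [_root_.smul_apply, _root_.smul_apply, ← adj_pow, adj_apply, map_smul, map_smul, map_smul,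
      map_smul, ← mul_apply_eq_comp, ← pow_add]
    simp only [smul_eq_mul]
    have : (ZMod.stdAddChar : AddChar (ZMod N) ℂ) (θ * ((j : ZMod N) + k - n)) =
        (ZMod.stdAddChar : AddChar (ZMod N) ℂ) (θ * (-(n : ZMod N))) * (ZMod.stdAddChar : AddChar (ZMod N) ℂ) ((j : ZMod N) * θ) * (ZMod.stdAddChar : AddChar (ZMod N) ℂ) ((k : ZMod N) * θ) := by
      rw [← AddChar.map_add_eq_mul, ← AddChar.map_add_eq_mul]; congr 1; ring
    rw [this]
    push_cast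
    ring
  rw [sum_congr rfl fun θ _ => h1 θ, sum_comm]
  rw [Complex.ofReal_mul, Complex.ofReal_natCast, Complex.ofReal_sum, mul_sum, sum_mul]
  refine sum_congr rfl fun j hj => ?_
  rw [mem_range] at hj
  rw [sum_comm]
  have h2 : ∀ k ∈ range N, ∑ θ : ZMod N, ((phi ℓ j * c k : ℝ) : ℂ) * y ((T ^ (j + k)) x) *
        (ZMod.stdAddChar : AddChar (ZMod N) ℂ) (θ * ((j : ZMod N) + k - n)) =
      ((phi ℓ j * c k : ℝ) : ℂ) * y ((T ^ (j + k)) x) *
        (if (j : ZMod N) + k - n = 0 then (N : ℂ) else 0) := by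
    intro k _
    rw [← mul_sum, sum_e]
  rw [sum_congr rfl h2]
  by_cases hj2 : j < 10 * ℓ
  · rw [sum_eq_single (n - j)]
    · have e1 : (j : ZMod N) + ((n - j : ℕ) : ZMod N) - n = 0 := by
        rw [← Nat.cast_add, Nat.add_sub_cancel' (by omega), sub_self]
      rw [if_pos e1, Nat.add_sub_cancel' (by omega)]
      have e2 : ((n - j : ℕ) : ℤ) = (n : ℤ) - j := by
        rw [Nat.cast_sub (by omega)]
      rw [e2]
      push_cast
      ring
    · intro k hk hkn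
      rw [mem_range] at hk
      by_cases hck : c k = 0
      · simp [hck]
      · have h3 := hcs k hck
        have h4 : j + k < N := by omega
        have h5 : (j : ZMod N) + k - n ≠ 0 := by
          intro h
          rw [sub_eq_zero, ← Nat.cast_add] at h
          have h6 := congrArg ZMod.val h
          rw [ZMod.val_natCast_of_lt h4, ZMod.val_natCast_of_lt (by omega)] at h6
          omega
        rw [if_neg h5, mul_zero]
    · intro h
      exact absurd (mem_range.2 (by omega)) h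
  · have h0 : phi ℓ (j : ℤ) = 0 := phi_eq_zero_of_ge hℓ (by omega)
    simp [h0]

omit [NeZero N] in
lemma pairing_weight {ℓ n : ℕ} (hℓ : 1 ≤ ℓ) (hN : n + 10 * ℓ ≤ N) :
    (ℓ : ℝ) ≤ ∑ j ∈ range N, phi ℓ j * trap ℓ ((n : ℤ) - 5 * ℓ) ((n : ℤ) - j) := by
  have h1 : ∑ j ∈ Ico (4 * ℓ) (6 * ℓ), phi ℓ j * trap ℓ ((n : ℤ) - 5 * ℓ) ((n : ℤ) - j) = 2 * ℓ := by
    have : ∀ j ∈ Ico (4 * ℓ) (6 * ℓ), phi ℓ j * trap ℓ ((n : ℤ) - 5 * ℓ) ((n : ℤ) - j) = 1 := by
      intro j hj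
      rw [mem_Ico] at hj
      rw [phi_eq_one hℓ (by omega) (by omega), trap_eq_one hℓ (by omega) (by omega), one_mul]
    rw [sum_congr rfl this, sum_const, Nat.card_Ico, nsmul_eq_mul, mul_one,
      Nat.cast_sub (by omega)]
    push_cast; ring
  have h2 : ∑ j ∈ Ico (4 * ℓ) (6 * ℓ), phi ℓ j * trap ℓ ((n : ℤ) - 5 * ℓ) ((n : ℤ) - j) ≤
      ∑ j ∈ range N, phi ℓ j * trap ℓ ((n : ℤ) - 5 * ℓ) ((n : ℤ) - j) := by
    refine sum_le_sum_of_subset_of_nonneg ?_ fun j _ _ => mul_nonneg (phi_nonneg _ _) (trap_nonneg _ _ _)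
    intro j hj
    rw [mem_Ico] at hj
    rw [mem_range]; omega
  have : (0 : ℝ) ≤ ℓ := Nat.cast_nonneg _
  linarith

lemma norm_pairing_le (f : ZMod N → (X →L[ℂ] ℂ)) (g : ZMod N → X) (k : ZMod N) :
    ‖∑ θ : ZMod N, (ZMod.stdAddChar : AddChar (ZMod N) ℂ) (θ * k) * f θ (g θ)‖ ≤ nrm f * nrm g := by
  calc ‖∑ θ : ZMod N, (ZMod.stdAddChar : AddChar (ZMod N) ℂ) (θ * k) * f θ (g θ)‖ ≤ ∑ θ : ZMod N, ‖f θ‖ * ‖g θ‖ := by
        refine (norm_sum_le _ _).trans (sum_le_sum fun θ _ => ?_)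
        rw [norm_mul, norm_e, one_mul]
        exact (f θ).le_opNorm _
    _ ≤ _ := Real.sum_mul_le_sqrt_mul_sqrt _ _ _

end pairing

end Pool.Agent.SKB
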