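import Mathlib
import Pool.Agent.SKB.Recursion

/-!
# The main recursive bound
-/

open Finset Filter Topology

namespace Pool.Agent.SKB

lemma C1_ge : 1 ≤ C1 := by
  unfold C1
  rw [Real.one_le_sqrt]
  norm_num

lemma Cb_ge : 1 ≤ Cb := by
  unfold Cb
  rw [Real.one_le_sqrt]
  norm_num

/-- Properties of `ℓ = ⌈√(10 L)⌉`. -/
lemma scale {L : ℕ} (hL : 10 ^ 4 ≤ L) : ∃ ℓ : ℕ, 1 ≤ ℓ ∧ ℓ < L ∧ 10 * L ≤ ℓ ^ 2 ∧ ℓ ^ 2 ≤ 40 * L ∧
    Real.log (ℓ + 2) ≤ (3 / 4) * Real.log (L + 2) := by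
  have hLr : (10 ^ 4 : ℝ) ≤ L := by exact_mod_cast hL
  set s : ℝ := √(10 * L) with hs
  have hs2 : s ^ 2 = 10 * L := Real.sq_sqrt (by positivity)
  have hs0 : 0 ≤ s := Real.sqrt_nonneg _
  have hs300 : 300 ≤ s := by
    by_contra h
    push Not at h
    nlinarith
  set ℓ : ℕ := ⌈s⌉₊ with hℓ
  have h1 : s ≤ ℓ := Nat.le_ceil s
  have h2 : (ℓ : ℝ) < s + 1 := Nat.ceil_lt_add_one hs0
  refine ⟨ℓ, ?_, ?_, ?_, ?_, ?_⟩
  · have : (1 : ℝ) ≤ ℓ := by linarith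
    exact_mod_cast this
  · have : (ℓ : ℝ) < L := by nlinarith
    exact_mod_cast this
  · have : (10 * L : ℝ) ≤ (ℓ : ℝ) ^ 2 := by
      rw [← hs2]; gcongr
    exact_mod_cast this
  · have : (ℓ : ℝ) ^ (2 : ℕ) ≤ 40 * (L : ℝ) := by
      have h3 : (ℓ : ℝ) ≤ 2 * s := by linarith
      nlinarith
    exact_mod_cast this
  · -- `ℓ + 2 ≤ (L+2)^(3/4)`
    set y : ℝ := ((L : ℝ) + 2) ^ ((1 : ℝ) / 4) with hy
    have hy0 : 0 < y := by positivity
    have hy4 : y ^ 4 = L + 2 := by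
      rw [hy, ← Real.rpow_natCast, ← Real.rpow_mul (by positivity)]
      norm_num
    have hy10 : 10 ≤ y := by
      by_contra h
      push Not at h
      have : y ^ 4 < 10 ^ 4 := by gcongr
      rw [hy4] at this
      linarith
    have h3 : (ℓ : ℝ) + 2 ≤ y ^ 3 := by
      have h4 : s ≤ 4 * y ^ 2 := by
        rw [hs]
        apply Real.sqrt_le_iff.2
        constructor
        · positivity
        · nlinarith [sq_nonneg y]
      nlinarith [sq_nonneg y]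
    have h5 : Real.log (L + 2) = 4 * Real.log y := by
      rw [← hy4, Real.log_pow]; norm_num
    calc Real.log (ℓ + 2) ≤ Real.log (y ^ 3) := Real.log_le_log (by positivity) h3
      _ = 3 * Real.log y := by rw [Real.log_pow]; norm_num
      _ = _ := by rw [h5]; ring

lemma one_le_log {L : ℕ} (hL : 1 ≤ L) : 1 ≤ Real.log (L + 2) := by
  rw [Real.le_log_iff_exp_le (by positivity)]
  have : (1 : ℝ) ≤ L := by exact_mod_cast hL
  linarith [Real.exp_one_lt_three]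

universe u

theorem main_bound (ϑ : ℝ) (h0 : 0 < ϑ) (h1 : ϑ ≤ 1) (K : ℝ) (hK : 0 ≤ K) :
    ∃ D β : ℝ, 0 < D ∧ 0 ≤ β ∧ ∀ (X : Type u) [NormedAddCommGroup X] [NormedSpace ℂ X],
      Curved X ϑ → ∀ T : X →L[ℂ] X,
      (∀ k : ℕ, ‖T ^ k‖ ≤ 3 * (K + 1) * ((k : ℝ) + 1)) →
      ∀ (R N : ℕ) [NeZero N], Good N T (K + 1) R → ∀ L : ℕ, 1 ≤ L → L ≤ R → ∀ x : X,
        nrm (S N T (phi L) x) ≤
          √N * (((L : ℝ) ^ (1 - ϑ / 2) * (D * Real.log (L + 2) ^ β)) * ‖x‖) := by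
  set e : ℝ := 1 - ϑ / 2 with he
  have he0 : 1 / 2 ≤ e := by linarith
  have he1 : e ≤ 1 := by linarith
  have hC1 := C1_ge
  have hCb := Cb_ge
  -- constants
  set C4 : ℝ := 40 * (C1 * (Cb * (K + 1))) with hC4
  have hC4p : 1 ≤ C4 := by
    have : 1 ≤ C1 * (Cb * (K + 1)) := by
      have : 1 ≤ Cb * (K + 1) := by nlinarith
      nlinarith
    linarith
  set C5 : ℝ := 648 * (K + 1) * 256 with hC5
  set β : ℝ := Real.log (2 * C4) / Real.log (4 / 3) with hβ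
  have hlog43 : 0 < Real.log (4 / 3) := Real.log_pos (by norm_num)
  have hβ0 : 0 ≤ β := div_nonneg (Real.log_nonneg (by linarith)) hlog43.le
  have hβ1 : (3 / 4 : ℝ) ^ β * C4 = 1 / 2 := by
    have e1 : (3 / 4 : ℝ) ^ β = (2 * C4)⁻¹ := by
      rw [Real.rpow_def_of_pos (by norm_num)]
      have : Real.log (3 / 4) = -Real.log (4 / 3) := by
        rw [← Real.log_inv]; norm_num
      rw [this, hβ]
      have e2 : -Real.log (4 / 3) * (Real.log (2 * C4) / Real.log (4 / 3)) = -Real.log (2 * C4) := by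
        field_simp
      rw [e2, Real.exp_neg, Real.exp_log (by linarith)]
    rw [e1]
    field_simp
  set D : ℝ := 3 * (K + 1) * 10 ^ 10 + 2 * C5 with hD
  have hC5p : 0 < C5 := by positivity
  have hDp : 0 < D := by positivity
  refine ⟨D, β, hDp, hβ0, ?_⟩
  intro X _ _ hX T hT R N _ hG L
  induction L using Nat.strong_induction_on with
  | _ L ih =>
  intro hL1 hLR x
  have hL1r : (1 : ℝ) ≤ L := by exact_mod_cast hL1
  have hL0 : (0 : ℝ) < L := by linarith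
  have hlog := one_le_log hL1
  have hlogβ : 1 ≤ Real.log (L + 2) ^ β := Real.one_le_rpow hlog hβ0
  have hLe : 1 ≤ (L : ℝ) ^ e := Real.one_le_rpow hL1r (by linarith)
  rcases Nat.lt_or_ge L (10 ^ 4) with hsmall | hbig
  · -- small case
    have hb : nrm (S N T (phi L) x) ≤ √N * ((3 * (K + 1) * 10 ^ 10) * ‖x‖) := by
      refine nrm_S_crude hK hT _ x ?_
      have hN := hG.1
      have hsub : 10 * L ≤ N := by nlinarith
      calc ∑ k ∈ range N, |phi L k| * (3 * (K + 1) * ((k : ℝ) + 1))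
          = ∑ k ∈ range (10 * L), |phi L k| * (3 * (K + 1) * ((k : ℝ) + 1)) := by
            symm
            apply sum_subset
            · intro k hk; rw [mem_range] at hk ⊢; omega
            · intro k _ hk
              rw [mem_range, not_lt] at hk
              rw [phi_eq_zero_of_ge hL1 (by exact_mod_cast hk)]; simp
        _ ≤ ∑ k ∈ range (10 * L), 1 * (3 * (K + 1) * 10 ^ 5) := by
            refine sum_le_sum fun k hk => ?_
            rw [mem_range] at hk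
            have h3 : (k : ℝ) + 1 ≤ 10 ^ 5 := by
              have : k + 1 ≤ 10 ^ 5 := by omega
              exact_mod_cast this
            rw [abs_of_nonneg (phi_nonneg _ _)]
            gcongr
            exact phi_le_one _ _
        _ = (10 * L : ℝ) * (3 * (K + 1) * 10 ^ 5) := by
            rw [sum_const, card_range, nsmul_eq_mul]; push_cast; ring
        _ ≤ (10 ^ 5) * (3 * (K + 1) * 10 ^ 5) := by
            have : (L : ℝ) ≤ 10 ^ 4 := by exact_mod_cast hsmall.le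
            gcongr
            linarith
        _ = _ := by ring
    refine hb.trans ?_
    refine mul_le_mul_of_nonneg_left (mul_le_mul_of_nonneg_right ?_ (norm_nonneg _))
      (Real.sqrt_nonneg _)
    calc 3 * (K + 1) * 10 ^ 10 ≤ D := by rw [hD]; linarith
      _ = 1 * (D * 1) := by ring
      _ ≤ _ := by gcongr
  · -- large case
    obtain ⟨ℓ, hℓ1, hℓL, hℓ2, hℓ3, hℓ4⟩ := scale hbig
    have hℓ0 : (0 : ℝ) < ℓ := by exact_mod_cast hℓ1
    have hih := ih ℓ hℓL hℓ1 (by omega) x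
    have hrec := rec_ineq hX hK hT hG hℓ1 hℓL.le hℓ2 (by omega) x
    refine hrec.trans ?_
    have hN0 : 0 ≤ √(N : ℝ) := Real.sqrt_nonneg _
    -- first term
    have hℓ3r : (ℓ : ℝ) ^ 2 ≤ 40 * L := by exact_mod_cast hℓ3
    have hsqrtL : √(L : ℝ) ≤ (L : ℝ) ^ e := by
      rw [Real.sqrt_eq_rpow]
      exact Real.rpow_le_rpow_of_exponent_le hL1r he0
    have hcub : (ℓ : ℝ) ^ 3 / L ≤ 256 * (L : ℝ) ^ e := by
      have h3 : (ℓ : ℝ) ≤ √40 * √L := by
        rw [← Real.sqrt_mul (by norm_num)]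
        exact Real.le_sqrt_of_sq_le hℓ3r
      have h4 : √(40 : ℝ) ≤ 6.4 := by
        rw [Real.sqrt_le_left (by norm_num)]; norm_num
      calc (ℓ : ℝ) ^ 3 / L = (ℓ : ℝ) * (ℓ : ℝ) ^ 2 / L := by ring
        _ ≤ (√40 * √L) * (40 * L) / L := by gcongr
        _ = 40 * √40 * √L := by field_simp
        _ ≤ 40 * 6.4 * (L : ℝ) ^ e := by gcongr
        _ = _ := by ring
    have ht1 : √(N : ℝ) * (648 * (K + 1) * ((ℓ : ℝ) ^ 3 / L) * ‖x‖) ≤
        √N * ((C5 * (L : ℝ) ^ e) * ‖x‖) := by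
      refine mul_le_mul_of_nonneg_left (mul_le_mul_of_nonneg_right ?_ (norm_nonneg _))
        (Real.sqrt_nonneg _)
      rw [hC5]
      calc 648 * (K + 1) * ((ℓ : ℝ) ^ 3 / L) ≤ 648 * (K + 1) * (256 * (L : ℝ) ^ e) := by gcongr
        _ = _ := by ring
    -- second term
    set Y : ℝ := nrm (S N T (phi ℓ) x) with hY
    have hY0 : 0 ≤ Y := nrm_nonneg _
    have hfac : (C1 * √ℓ) ^ (1 - ϑ) * √(ℓ * (Cb * ((K + 1) * Y)) ^ 2) ≤
        (C1 * (Cb * (K + 1))) * ((ℓ : ℝ) ^ e * Y) := by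
      have e1 : √((ℓ : ℝ) * (Cb * ((K + 1) * Y)) ^ 2) = √ℓ * (Cb * ((K + 1) * Y)) := by
        rw [Real.sqrt_mul hℓ0.le, Real.sqrt_sq (by positivity)]
      have e2 : (C1 * √ℓ) ^ (1 - ϑ) ≤ C1 * (ℓ : ℝ) ^ ((1 - ϑ) / 2) := by
        rw [Real.mul_rpow (by linarith) (Real.sqrt_nonneg _)]
        have e3 : C1 ^ (1 - ϑ) ≤ C1 := by
          calc C1 ^ (1 - ϑ) ≤ C1 ^ (1 : ℝ) := Real.rpow_le_rpow_of_exponent_le hC1 (by linarith)
            _ = C1 := Real.rpow_one _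
        have e4 : √(ℓ : ℝ) ^ (1 - ϑ) = (ℓ : ℝ) ^ ((1 - ϑ) / 2) := by
          rw [Real.sqrt_eq_rpow, ← Real.rpow_mul hℓ0.le]
          congr 1; ring
        rw [e4]
        gcongr
      have e5 : (ℓ : ℝ) ^ ((1 - ϑ) / 2) * √ℓ = (ℓ : ℝ) ^ e := by
        rw [Real.sqrt_eq_rpow, ← Real.rpow_add hℓ0]
        congr 1; rw [he]; ring
      rw [e1]
      calc (C1 * √ℓ) ^ (1 - ϑ) * (√ℓ * (Cb * ((K + 1) * Y)))
          ≤ (C1 * (ℓ : ℝ) ^ ((1 - ϑ) / 2)) * (√ℓ * (Cb * ((K + 1) * Y))) := by gcongr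
        _ = (C1 * (Cb * (K + 1))) * (((ℓ : ℝ) ^ ((1 - ϑ) / 2) * √ℓ) * Y) := by ring
        _ = _ := by rw [e5]
    have hee : (ℓ : ℝ) ^ e * (ℓ : ℝ) ^ e ≤ 40 * (L : ℝ) ^ e := by
      calc (ℓ : ℝ) ^ e * (ℓ : ℝ) ^ e = ((ℓ : ℝ) ^ 2) ^ e := by
            rw [← Real.mul_rpow hℓ0.le hℓ0.le]; congr 1; ring
        _ ≤ (40 * L) ^ e := by gcongr
        _ = 40 ^ e * (L : ℝ) ^ e := Real.mul_rpow (by norm_num) hL0.le
        _ ≤ 40 * (L : ℝ) ^ e := by
            gcongr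
            calc (40 : ℝ) ^ e ≤ 40 ^ (1 : ℝ) := Real.rpow_le_rpow_of_exponent_le (by norm_num) he1
              _ = 40 := Real.rpow_one _
    have hlogℓ : C4 * Real.log (ℓ + 2) ^ β ≤ (1 / 2) * Real.log (L + 2) ^ β := by
      have hl0 : 0 ≤ Real.log ((ℓ : ℝ) + 2) := by linarith [one_le_log hℓ1]
      calc C4 * Real.log (ℓ + 2) ^ β ≤ C4 * ((3 / 4) * Real.log (L + 2)) ^ β := by gcongr
        _ = ((3 / 4 : ℝ) ^ β * C4) * Real.log (L + 2) ^ β := by
            rw [Real.mul_rpow (by norm_num) (by linarith)]; ring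
        _ = _ := by rw [hβ1]
    have ht2 : (C1 * √ℓ) ^ (1 - ϑ) * √(ℓ * (Cb * ((K + 1) * Y)) ^ 2) ≤
        √N * (((L : ℝ) ^ e * (D * ((1 / 2) * Real.log (L + 2) ^ β))) * ‖x‖) := by
      refine hfac.trans ?_
      calc (C1 * (Cb * (K + 1))) * ((ℓ : ℝ) ^ e * Y)
          ≤ (C1 * (Cb * (K + 1))) * ((ℓ : ℝ) ^ e *
              (√N * (((ℓ : ℝ) ^ e * (D * Real.log (ℓ + 2) ^ β)) * ‖x‖))) := by gcongr
        _ = √N * ((C1 * (Cb * (K + 1))) * ((ℓ : ℝ) ^ e * (ℓ : ℝ) ^ e) *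
              (D * Real.log (ℓ + 2) ^ β) * ‖x‖) := by ring
        _ ≤ √N * ((C1 * (Cb * (K + 1))) * (40 * (L : ℝ) ^ e) *
              (D * Real.log (ℓ + 2) ^ β) * ‖x‖) := by
            have hl0 : 0 ≤ Real.log ((ℓ : ℝ) + 2) := by linarith [one_le_log hℓ1]
            gcongr
        _ = √N * ((L : ℝ) ^ e * (D * (C4 * Real.log (ℓ + 2) ^ β)) * ‖x‖) := by rw [hC4]; ring
        _ ≤ _ := by gcongr
    calc _ ≤ √N * ((C5 * (L : ℝ) ^ e) * ‖x‖) +
          √N * (((L : ℝ) ^ e * (D * ((1 / 2) * Real.log (L + 2) ^ β))) * ‖x‖) := add_le_add ht1 ht2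
      _ = √N * (((L : ℝ) ^ e * (C5 + D * ((1 / 2) * Real.log (L + 2) ^ β))) * ‖x‖) := by ring
      _ ≤ √N * (((L : ℝ) ^ e * (D * Real.log (L + 2) ^ β)) * ‖x‖) := by
          gcongr
          have h5 : C5 ≤ D * (1 / 2) * 1 := by rw [hD]; linarith [hK]
          have h6 : D * (1 / 2) * 1 ≤ D * (1 / 2) * Real.log (L + 2) ^ β := by gcongr
          linarith

end Pool.Agent.SKB
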