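import Mathlib
import Pool.Agent.SKB.MainBound
import Pool.Agent.SKB.Dual

/-!
# Growth of powers of strongly Kreiss bounded operators on curved spaces
-/

open Finset Filter Topology

namespace Pool.Agent.SKB

universe u

/-- **Part A.** Power growth from the exponential bound on a curved Banach space. -/
theorem growth (ϑ : ℝ) (h0 : 0 < ϑ) (h1 : ϑ ≤ 1) (K : ℝ) (hK : 0 ≤ K) :
    ∃ C b : ℝ, 0 < C ∧ 0 < b ∧ ∀ (X : Type u) [NormedAddCommGroup X] [NormedSpace ℂ X]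
      [CompleteSpace X], Curved X ϑ → ∀ T : X →L[ℂ] X,
      (∀ z : ℂ, ‖NormedSpace.exp (z • T)‖ ≤ K * Real.exp ‖z‖) →
      ∀ n : ℕ, 1 ≤ n → ‖T ^ n‖ ≤ C * (n : ℝ) ^ ((1 - ϑ) / 2) * Real.log (n + 2) ^ b := by
  obtain ⟨D, β, hD, hβ, hmain⟩ := main_bound.{u} ϑ h0 h1 K hK
  have hCb := Cb_ge
  set C : ℝ := 3 * (K + 1) * 500 + 2 * (Cb * (K + 1) * D ^ 2) with hC
  have hCp : 0 < C := by positivity
  refine ⟨C, 2 * β + 1, hCp, by linarith, ?_⟩
  intro X _ _ _ hX T hT n hn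
  have hn1 : (1 : ℝ) ≤ n := by exact_mod_cast hn
  have hn0 : (0 : ℝ) < n := by linarith
  have hlog := one_le_log hn
  have hne : 1 ≤ (n : ℝ) ^ ((1 - ϑ) / 2) := Real.one_le_rpow hn1 (by linarith)
  have hlogb : 1 ≤ Real.log (n + 2) ^ (2 * β + 1) := Real.one_le_rpow hlog (by linarith)
  have hcr := fun k => norm_pow_le_crude hT k
  rcases Nat.lt_or_ge n 400 with hsmall | hbig
  · calc ‖T ^ n‖ ≤ 3 * (K + 1) * ((n : ℝ) + 1) := hcr n
      _ ≤ 3 * (K + 1) * 500 := by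
          have : (n : ℝ) < 400 := by exact_mod_cast hsmall
          gcongr
          linarith
      _ ≤ C := by
          rw [hC]
          have : 0 ≤ 2 * (Cb * (K + 1) * D ^ 2) := by positivity
          linarith
      _ = C * 1 * 1 := by ring
      _ ≤ _ := by gcongr
  · -- the scale
    set s : ℝ := √n with hs
    have hs2 : s ^ 2 = n := Real.sq_sqrt hn0.le
    have hs0 : 0 ≤ s := Real.sqrt_nonneg _
    have hbigr : (400 : ℝ) ≤ n := by exact_mod_cast hbig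
    have hs20 : 20 ≤ s := by
      by_contra h
      push Not at h
      nlinarith
    set ℓ : ℕ := ⌈s⌉₊ with hℓ
    have hl1 : s ≤ ℓ := Nat.le_ceil s
    have hl2 : (ℓ : ℝ) < s + 1 := Nat.ceil_lt_add_one hs0
    have hℓ1 : 1 ≤ ℓ := by
      have : (1 : ℝ) ≤ ℓ := by linarith
      exact_mod_cast this
    have hℓ0 : (0 : ℝ) < ℓ := by exact_mod_cast hℓ1
    have hnℓ : n ≤ ℓ ^ 2 := by
      have : (n : ℝ) ≤ (ℓ : ℝ) ^ 2 := by rw [← hs2]; gcongr
      exact_mod_cast this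
    have hℓn : 10 * ℓ ≤ n := by
      have : (10 * ℓ : ℝ) ≤ n := by nlinarith
      exact_mod_cast this
    have hℓ2 : (ℓ : ℝ) ^ 2 ≤ 4 * n := by nlinarith
    -- choose `N`
    obtain ⟨N₀, hN₀⟩ := exists_good hT ℓ
    set N : ℕ := max N₀ 1 with hN
    have : NeZero N := ⟨by omega⟩
    have hG : Good N T (K + 1) ℓ := hN₀ N (le_max_left _ _)
    have hG' : Good N (adj T) (K + 1) ℓ := hG.adj
    have hcr' : ∀ k : ℕ, ‖(adj T) ^ k‖ ≤ 3 * (K + 1) * ((k : ℝ) + 1) := by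
      intro k
      rw [← adj_pow]
      exact (norm_adj_le _).trans (hcr k)
    have hN1 := hG.1
    have hNn : n + 10 * ℓ ≤ N := by omega
    have hNr : (0 : ℝ) < N := by
      have : 0 < N := by omega
      exact_mod_cast this
    -- the bound
    set E : ℝ := (ℓ : ℝ) ^ (1 - ϑ / 2) * (D * Real.log (ℓ + 2) ^ β) with hE
    have hlogℓ := one_le_log hℓ1
    have hE0 : 0 ≤ E := by
      have : 0 ≤ Real.log ((ℓ : ℝ) + 2) := by linarith
      positivity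
    have hbound : ∀ x : X, ‖(T ^ n) x‖ ≤ (Cb * (K + 1) * E ^ 2 / ℓ) * ‖x‖ := by
      intro x
      have hA0 : 0 ≤ (Cb * (K + 1) * E ^ 2 / ℓ) * ‖x‖ := by positivity
      refine NormedSpace.norm_le_dual_bound ℂ _ hA0 fun y => ?_
      have hx := hmain X hX T hcr ℓ N hG ℓ hℓ1 le_rfl x
      have hy := hmain (X →L[ℂ] ℂ) hX.dual (adj T) hcr' ℓ N hG' ℓ hℓ1 le_rfl y
      rw [← hE] at hx hy
      have hpair := pairing (N := N) T hℓ1 hℓn hNn x y
      have hw := pairing_weight (N := N) (n := n) hℓ1 hNn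
      set w : ℝ := ∑ j ∈ range N, phi ℓ j * trap ℓ ((n : ℤ) - 5 * ℓ) ((n : ℤ) - j) with hwdef
      have hw0 : 0 < w := lt_of_lt_of_le hℓ0 hw
      have hnp := norm_pairing_le (S N (adj T) (phi ℓ) y) (S N T (trap ℓ ((n : ℤ) - 5 * ℓ)) x)
        (-(n : ZMod N))
      rw [hpair, norm_mul, Complex.norm_real, Real.norm_of_nonneg (by positivity)] at hnp
      have hblock := block_good (m := n - 10 * ℓ) hG hℓ1 le_rfl (by omega) x
      have hcast : (((n - 10 * ℓ : ℕ) : ℤ)) + 5 * ℓ = (n : ℤ) - 5 * ℓ := by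
        rw [Nat.cast_sub hℓn]; push_cast; ring
      rw [hcast] at hblock
      have h5 : nrm (S N (adj T) (phi ℓ) y) * nrm (S N T (trap ℓ ((n : ℤ) - 5 * ℓ)) x) ≤
          (√N * (E * ‖y‖)) * (Cb * ((K + 1) * (√N * (E * ‖x‖)))) := by
        have := nrm_nonneg (S N T (trap ℓ ((n : ℤ) - 5 * ℓ)) x)
        have := nrm_nonneg (S N (adj T) (phi ℓ) y)
        refine mul_le_mul hy (hblock.trans ?_) (nrm_nonneg _) (by positivity)
        gcongr
      have h6 : (√N * (E * ‖y‖)) * (Cb * ((K + 1) * (√N * (E * ‖x‖)))) =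
          N * (Cb * (K + 1) * E ^ 2 * ‖x‖ * ‖y‖) := by
        have : √(N : ℝ) * √N = N := Real.mul_self_sqrt hNr.le
        calc _ = (√(N : ℝ) * √N) * (Cb * (K + 1) * E ^ 2 * ‖x‖ * ‖y‖) := by ring
          _ = _ := by rw [this]
      rw [h6] at h5
      have h7 : (N : ℝ) * (w * ‖y ((T ^ n) x)‖) ≤ N * (Cb * (K + 1) * E ^ 2 * ‖x‖ * ‖y‖) := by
        rw [← mul_assoc]
        exact hnp.trans h5
      have h8 : w * ‖y ((T ^ n) x)‖ ≤ Cb * (K + 1) * E ^ 2 * ‖x‖ * ‖y‖ :=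
        le_of_mul_le_mul_left h7 hNr
      have h9 : (ℓ : ℝ) * ‖y ((T ^ n) x)‖ ≤ Cb * (K + 1) * E ^ 2 * ‖x‖ * ‖y‖ :=
        (mul_le_mul_of_nonneg_right hw (norm_nonneg _)).trans h8
      calc ‖y ((T ^ n) x)‖ = ((ℓ : ℝ) * ‖y ((T ^ n) x)‖) / ℓ := by field_simp
        _ ≤ (Cb * (K + 1) * E ^ 2 * ‖x‖ * ‖y‖) / ℓ := by gcongr
        _ = _ := by ring
    have hfin : Cb * (K + 1) * E ^ 2 / ℓ ≤
        2 * (Cb * (K + 1) * D ^ 2) * (n : ℝ) ^ ((1 - ϑ) / 2) * Real.log (n + 2) ^ (2 * β + 1) := by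
      have e1 : E ^ 2 / ℓ = D ^ 2 * (ℓ : ℝ) ^ (1 - ϑ) * Real.log (ℓ + 2) ^ (2 * β) := by
        have hl : 0 < Real.log ((ℓ : ℝ) + 2) := by linarith
        have e2 : ((ℓ : ℝ) ^ (1 - ϑ / 2)) ^ 2 = (ℓ : ℝ) ^ (1 - ϑ) * ℓ := by
          rw [← Real.rpow_natCast, ← Real.rpow_mul hℓ0.le]
          nth_rewrite 3 [← Real.rpow_one (ℓ : ℝ)]
          rw [← Real.rpow_add hℓ0]
          congr 1; push_cast; ring
        have e3 : (Real.log ((ℓ : ℝ) + 2) ^ β) ^ 2 = Real.log (ℓ + 2) ^ (2 * β) := by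
          rw [← Real.rpow_natCast, ← Real.rpow_mul hl.le]
          congr 1; push_cast; ring
        rw [hE, mul_pow, mul_pow, e2, e3]
        field_simp
      have e4 : (ℓ : ℝ) ^ (1 - ϑ) ≤ 2 * (n : ℝ) ^ ((1 - ϑ) / 2) := by
        calc (ℓ : ℝ) ^ (1 - ϑ) = ((ℓ : ℝ) ^ 2) ^ ((1 - ϑ) / 2) := by
              rw [← Real.rpow_natCast, ← Real.rpow_mul hℓ0.le]
              congr 1; push_cast; ring
          _ ≤ (4 * n) ^ ((1 - ϑ) / 2) := by
              apply Real.rpow_le_rpow (by positivity) hℓ2 (by linarith)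
          _ = 4 ^ ((1 - ϑ) / 2) * (n : ℝ) ^ ((1 - ϑ) / 2) := Real.mul_rpow (by norm_num) hn0.le
          _ ≤ 2 * (n : ℝ) ^ ((1 - ϑ) / 2) := by
              gcongr
              calc (4 : ℝ) ^ ((1 - ϑ) / 2) ≤ 4 ^ ((1 : ℝ) / 2) :=
                    Real.rpow_le_rpow_of_exponent_le (by norm_num) (by linarith)
                _ = 2 := by
                    rw [show (4 : ℝ) = 2 ^ (2 : ℝ) by norm_num, ← Real.rpow_mul (by norm_num)]
                    norm_num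
      have e5 : Real.log ((ℓ : ℝ) + 2) ^ (2 * β) ≤ Real.log (n + 2) ^ (2 * β + 1) := by
        have hl : 0 ≤ Real.log ((ℓ : ℝ) + 2) := by linarith
        have hle : (ℓ : ℝ) ≤ n := by
          have : ℓ ≤ n := by omega
          exact_mod_cast this
        calc Real.log ((ℓ : ℝ) + 2) ^ (2 * β) ≤ Real.log (n + 2) ^ (2 * β) := by
              gcongr
          _ ≤ Real.log (n + 2) ^ (2 * β + 1) :=
              Real.rpow_le_rpow_of_exponent_le hlog (by linarith)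
      have hl0 : 0 ≤ Real.log ((ℓ : ℝ) + 2) := by linarith
      calc Cb * (K + 1) * E ^ 2 / ℓ = Cb * (K + 1) * (E ^ 2 / ℓ) := by ring
        _ = Cb * (K + 1) * (D ^ 2 * (ℓ : ℝ) ^ (1 - ϑ) * Real.log (ℓ + 2) ^ (2 * β)) := by rw [e1]
        _ ≤ Cb * (K + 1) * (D ^ 2 * (2 * (n : ℝ) ^ ((1 - ϑ) / 2)) *
              Real.log (n + 2) ^ (2 * β + 1)) := by gcongr
        _ = _ := by ring
    have hopn : ‖T ^ n‖ ≤ Cb * (K + 1) * E ^ 2 / ℓ :=
      ContinuousLinearMap.opNorm_le_bound _ (by positivity) hbound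
    refine hopn.trans (hfin.trans ?_)
    have hl0 : 0 ≤ Real.log ((n : ℝ) + 2) := by linarith
    gcongr
    rw [hC]
    have : 0 ≤ 3 * (K + 1) * 500 := by positivity
    linarith

/-- **Part A, strong Kreiss form.** -/
theorem growth_of_strongKreiss (ϑ : ℝ) (h0 : 0 < ϑ) (h1 : ϑ ≤ 1) (K : ℝ) (hK : 0 ≤ K) :
    ∃ C b : ℝ, 0 < C ∧ 0 < b ∧ ∀ (X : Type u) [NormedAddCommGroup X] [NormedSpace ℂ X]
      [CompleteSpace X], Curved X ϑ → ∀ T : X →L[ℂ] X,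
      (∀ lam : ℂ, 1 < ‖lam‖ → ∃ R : X →L[ℂ] X, R * (lam • 1 - T) = 1 ∧
        (lam • 1 - T) * R = 1 ∧ ∀ n : ℕ, ‖R ^ n‖ ≤ K / (‖lam‖ - 1) ^ n) →
      ∀ n : ℕ, 1 ≤ n → ‖T ^ n‖ ≤ C * (n : ℝ) ^ ((1 - ϑ) / 2) * Real.log (n + 2) ^ b := by
  obtain ⟨C, b, hC, hb, h⟩ := growth.{u} ϑ h0 h1 K hK
  exact ⟨C, b, hC, hb, fun X _ _ _ hX T hT => h X hX T (exp_bound hK hT)⟩

end Pool.Agent.SKB
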