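import Mathlib

/-!
# Scalar inequalities for homogeneous functionals
-/

open scoped BigOperators

namespace Pool.Agent.SKB

/-- tangent inequality: `v^p - u^p ≤ P v (v^{p-1} - u^{p-1})`, `P = p/(p-1)`. -/
lemma rpow_sub_le {p u v : ℝ} (hp : 1 < p) (hu : 0 < u) (huv : u ≤ v) :
    v ^ p - u ^ p ≤ p / (p - 1) * v * (v ^ (p - 1) - u ^ (p - 1)) := by
  have hv : 0 < v := hu.trans_le huv
  have hp1 : 0 < p - 1 := by linarith
  set P := p / (p - 1) with hP
  have hP1 : 1 ≤ P := by rw [hP, le_div_iff₀ hp1]; linarith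
  -- `x = u/v`, Bernoulli for `s = x^{p-1} - 1`
  set x := u / v with hx
  have hx0 : 0 < x := by positivity
  have hx1 : x ≤ 1 := by rw [hx, div_le_one hv]; exact huv
  have hb : 1 + P * (x ^ (p - 1) - 1) ≤ (1 + (x ^ (p - 1) - 1)) ^ P :=
    one_add_mul_self_le_rpow_one_add (by have := Real.rpow_nonneg hx0.le (p - 1); linarith) hP1
  have hxp : (1 + (x ^ (p - 1) - 1)) ^ P = x ^ p := by
    rw [add_sub_cancel, ← Real.rpow_mul hx0.le]
    congr 1
    rw [hP]; field_simp
  rw [hxp] at hb
  have hu' : u = x * v := by rw [hx]; field_simp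
  have e1 : u ^ p = x ^ p * v ^ p := by rw [hu', Real.mul_rpow hx0.le hv.le]
  have e2 : u ^ (p - 1) = x ^ (p - 1) * v ^ (p - 1) := by rw [hu', Real.mul_rpow hx0.le hv.le]
  have e3 : v ^ p = v * v ^ (p - 1) := by
    nth_rewrite 2 [← Real.rpow_one v]
    rw [← Real.rpow_add hv]; congr 1; ring
  have hvp : 0 < v ^ p := Real.rpow_pos_of_pos hv p
  calc v ^ p - u ^ p = v ^ p * (1 - x ^ p) := by rw [e1]; ring
    _ ≤ v ^ p * (P * (1 - x ^ (p - 1))) := by
        gcongr
        linarith
    _ = P * v * (v ^ (p - 1) - u ^ (p - 1)) := by rw [e2, e3]; ring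

/-- The potential `Ψ(v) = P lam v^{p-1} - c v^p`, monotone up to `lam/c`. -/
lemma psi_diff {p c lam u v : ℝ} (hp : 1 < p) (hc : 0 < c) (hu : 0 < u) (huv : u ≤ v) :
    p / (p - 1) * (lam - c * v) * (v ^ (p - 1) - u ^ (p - 1)) ≤
      (p / (p - 1) * lam * v ^ (p - 1) - c * v ^ p) -
      (p / (p - 1) * lam * u ^ (p - 1) - c * u ^ p) := by
  have h := rpow_sub_le hp hu huv
  have h2 : c * (v ^ p - u ^ p) ≤ c * (p / (p - 1) * v * (v ^ (p - 1) - u ^ (p - 1))) := by
    gcongr
  nlinarith

/-- **Scalar lemma G**. -/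
lemma scalar_G {p ε c lam : ℝ} (hp : 1 < p) (hε : 0 < ε) (hc : 0 < c) (hlam : 0 ≤ lam) (m : ℕ) :
    ∑ i ∈ Finset.range m, ε * Real.exp (i * ε * (1 - 1 / p)) *
      max (lam - c * Real.exp (i * ε / p)) 0 ≤
      Real.exp (ε * (1 - 1 / p)) * (lam ^ p * c ^ (1 - p) / (p - 1)) := by
  have hp0 : 0 < p := by linarith
  have hp1 : 0 < p - 1 := by linarith
  rcases hlam.eq_or_lt with h0 | hlam0
  · have : ∀ i ∈ Finset.range m, ε * Real.exp (i * ε * (1 - 1 / p)) *
        max (lam - c * Real.exp (i * ε / p)) 0 = 0 := by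
      intro i _
      rw [← h0, max_eq_right]
      · ring
      · have := Real.exp_pos (i * ε / p)
        nlinarith
    rw [Finset.sum_eq_zero this]
    positivity
  set P := p / (p - 1) with hP
  have hP0 : 0 < P := by positivity
  -- `v i = exp ((i-1) ε / p)`, truncated at `lam/c`
  let v : ℕ → ℝ := fun i => Real.exp (((i : ℝ) - 1) * ε / p)
  have hv0 : ∀ i, 0 < v i := fun i => Real.exp_pos _
  have hvm : ∀ i, v i ≤ v (i + 1) := by
    intro i
    apply Real.exp_le_exp.2
    push_cast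
    gcongr
    linarith
  let Ψ : ℝ → ℝ := fun x => P * lam * x ^ (p - 1) - c * x ^ p
  let w : ℕ → ℝ := fun i => min (v i) (lam / c)
  have hlc : 0 < lam / c := by positivity
  have hw0 : ∀ i, 0 < w i := fun i => lt_min (hv0 i) hlc
  have hwm : ∀ i, w i ≤ w (i + 1) := fun i => min_le_min_right _ (hvm i)
  have hΨm : ∀ i, Ψ (w i) ≤ Ψ (w (i + 1)) := by
    intro i
    have h1 := psi_diff (lam := lam) hp hc (hw0 i) (hwm i)
    have h2 : c * w (i + 1) ≤ lam := by
      have : w (i + 1) ≤ lam / c := min_le_right _ _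
      rwa [le_div_iff₀' hc] at this
    have h3 : (w i) ^ (p - 1) ≤ (w (i + 1)) ^ (p - 1) :=
      Real.rpow_le_rpow (hw0 i).le (hwm i) hp1.le
    have h4 : 0 ≤ p / (p - 1) * (lam - c * w (i + 1)) * ((w (i + 1)) ^ (p - 1) - (w i) ^ (p - 1)) := by
      have : 0 ≤ lam - c * w (i + 1) := by linarith
      have : 0 ≤ (w (i + 1)) ^ (p - 1) - (w i) ^ (p - 1) := by linarith
      positivity
    have := h4.trans h1
    simp only [Ψ]
    linarith
  have hterm : ∀ i : ℕ, ε * Real.exp (i * ε * (1 - 1 / p)) *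
      max (lam - c * Real.exp (i * ε / p)) 0 ≤
      Real.exp (ε * (1 - 1 / p)) * (Ψ (w (i + 1)) - Ψ (w i)) := by
    intro i
    have hvi : v (i + 1) = Real.exp (i * ε / p) := by
      simp only [v]; push_cast; congr 1; ring
    rcases le_or_gt lam (c * Real.exp (i * ε / p)) with h | h
    · rw [max_eq_right (by linarith), mul_zero]
      have := hΨm i
      have := Real.exp_pos (ε * (1 - 1 / p))
      nlinarith
    · rw [max_eq_left (by linarith)]
      have hw1 : w (i + 1) = v (i + 1) := by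
        apply min_eq_left
        rw [le_div_iff₀' hc, hvi]; exact h.le
      have hw2 : w i = v i := by
        apply min_eq_left
        rw [le_div_iff₀' hc]
        have := hvm i
        rw [hvi] at this
        nlinarith
      rw [hw1, hw2]
      have h1 := psi_diff (lam := lam) hp hc (hv0 i) (hvm i)
      have e1 : (v (i + 1)) ^ (p - 1) = Real.exp (i * ε * (1 - 1 / p)) := by
        rw [hvi, ← Real.exp_mul]; congr 1; field_simp
      have e2 : (v i) ^ (p - 1) = Real.exp (i * ε * (1 - 1 / p)) * Real.exp (-(ε * (1 - 1 / p))) := by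
        simp only [v]
        rw [← Real.exp_mul, ← Real.exp_add]; congr 1; field_simp; ring
      rw [e1, e2, hvi] at h1
      have hx : 0 < Real.exp (i * ε * (1 - 1 / p)) := Real.exp_pos _
      have hPi : P * (1 - 1 / p) = 1 := by rw [hP]; field_simp
      set g := ε * (1 - 1 / p) with hg
      have hgε : ε = P * g := by rw [hg]; rw [← mul_assoc, mul_comm P, mul_assoc, hPi, mul_one]
      -- `g ≤ exp g - 1 = exp g (1 - exp (-g))`
      have h5 : g ≤ Real.exp g * (1 - Real.exp (-g)) := by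
        have : Real.exp g * (1 - Real.exp (-g)) = Real.exp g - 1 := by
          rw [mul_sub, mul_one, ← Real.exp_add, add_neg_cancel, Real.exp_zero]
        rw [this]
        linarith [Real.add_one_le_exp g]
      have h6 : 0 ≤ lam - c * Real.exp (i * ε / p) := by linarith
      have hΨ : Ψ (v (i + 1)) - Ψ (v i) = (p / (p - 1) * lam * Real.exp (i * ε * (1 - 1 / p)) -
          c * (Real.exp (i * ε / p)) ^ p) - (p / (p - 1) * lam *
          (Real.exp (i * ε * (1 - 1 / p)) * Real.exp (-g)) - c * v i ^ p) := by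
        simp only [Ψ]
        rw [e1, e2, hvi]
      rw [hΨ]
      calc ε * Real.exp (i * ε * (1 - 1 / p)) * (lam - c * Real.exp (i * ε / p))
          = (P * Real.exp (i * ε * (1 - 1 / p)) * (lam - c * Real.exp (i * ε / p))) * g := by
            rw [hgε]; ring_nf
        _ ≤ (P * Real.exp (i * ε * (1 - 1 / p)) * (lam - c * Real.exp (i * ε / p))) *
            (Real.exp g * (1 - Real.exp (-g))) := by gcongr
        _ = Real.exp g * (p / (p - 1) * (lam - c * Real.exp (i * ε / p)) *
            (Real.exp (i * ε * (1 - 1 / p)) - Real.exp (i * ε * (1 - 1 / p)) * Real.exp (-g))) := by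
            rw [hP]; ring
        _ ≤ _ := by gcongr
  have hsum : ∑ i ∈ Finset.range m, ε * Real.exp (i * ε * (1 - 1 / p)) *
      max (lam - c * Real.exp (i * ε / p)) 0 ≤
      Real.exp (ε * (1 - 1 / p)) * (Ψ (w m) - Ψ (w 0)) := by
    rw [← Finset.sum_range_sub (fun i => Ψ (w i)), Finset.mul_sum]
    exact Finset.sum_le_sum fun i _ => hterm i
  have hΨ0 : 0 ≤ Ψ (w 0) := by
    have h1 : c * w 0 ≤ lam := by
      have : w 0 ≤ lam / c := min_le_right _ _
      rwa [le_div_iff₀' hc] at this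
    have h2 : (w 0) ^ p = (w 0) * (w 0) ^ (p - 1) := by
      nth_rewrite 2 [← Real.rpow_one (w 0)]
      rw [← Real.rpow_add (hw0 0)]; congr 1; ring
    have h3 : 1 ≤ P := by rw [hP, le_div_iff₀ hp1]; linarith
    have h4 : 0 < (w 0) ^ (p - 1) := Real.rpow_pos_of_pos (hw0 0) _
    have h5 : Ψ (w 0) = (P * lam - c * w 0) * (w 0) ^ (p - 1) := by
      simp only [Ψ]; rw [h2]; ring
    rw [h5]
    have : 0 ≤ P * lam - c * w 0 := by nlinarith
    positivity
  have hΨtop : Ψ (w m) ≤ lam ^ p * c ^ (1 - p) / (p - 1) := by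
    have h1 := psi_diff (lam := lam) hp hc (hw0 m) (min_le_right (v m) (lam / c))
    have h2 : lam - c * (lam / c) = 0 := by field_simp; ring
    rw [h2, mul_zero, zero_mul] at h1
    have h3 : Ψ (w m) ≤ P * lam * (lam / c) ^ (p - 1) - c * (lam / c) ^ p := by
      simp only [Ψ, hP]; linarith
    refine h3.trans (le_of_eq ?_)
    rw [Real.div_rpow hlam hc.le, Real.div_rpow hlam hc.le]
    have e1 : lam ^ p = lam * lam ^ (p - 1) := by
      nth_rewrite 2 [← Real.rpow_one lam]
      rw [← Real.rpow_add hlam0]; congr 1; ring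
    have e2 : c ^ p = c * c ^ (p - 1) := by
      nth_rewrite 2 [← Real.rpow_one c]
      rw [← Real.rpow_add hc]; congr 1; ring
    have e3 : c ^ (1 - p) = (c ^ (p - 1))⁻¹ := by
      rw [← Real.rpow_neg hc.le]; congr 1; ring
    have h4 : 0 < c ^ (p - 1) := Real.rpow_pos_of_pos hc _
    rw [e1, e2, e3, hP]
    field_simp
    ring
  refine hsum.trans ?_
  gcongr
  linarith

end Pool.Agent.SKB
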