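import Mathlib
import Pool.Agent.SKB.Lp
import Pool.Agent.SKB.Scalar

/-!
# Trace class elements, `L^1`-norms of families, layers
-/

open scoped ENNReal NNReal ComplexOrder Topology
open Filter

namespace Pool.Agent.SKB

variable {A : Type*} [CStarAlgebra A] [PartialOrder A] [StarOrderedRing A] {τ : TraceWt A}

/-- Moments of families `g φ(g*g)`. -/
lemma mom_fam (g : A) {φ : ℝ → ℝ} (hφ : Continuous φ) {q : ℝ} (hq : 0 < q) :
    mom τ q (g * cfc φ (star g * g)) =
      τ (cfc (fun t : ℝ => (φ t ^ 2 * t) ^ (q / 2)) (star g * g)) := by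
  unfold mom
  rw [fam_star_mul g hφ hφ]
  have h1 : cfc (fun t => φ t * t * φ t) (star g * g) =
      cfc (fun t => φ t ^ 2 * t) (star g * g) := cfc_congr fun t _ => by ring
  rw [h1, ← cfc_comp' (fun x : ℝ => x ^ (q / 2)) (fun t => φ t ^ 2 * t) (star g * g)
    (continuous_pw hq).continuousOn (by fun_prop) (sa_sq g)]

/-- `L^1` norm of a family in terms of `√t`. -/
lemma mom_one_fam (g : A) {φ : ℝ → ℝ} (hφ : Continuous φ) (h0 : ∀ t, 0 ≤ t → 0 ≤ φ t) :
    mom τ 1 (g * cfc φ (star g * g)) = τ (cfc (fun t : ℝ => φ t * √t) (star g * g)) := by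
  rw [mom_fam g hφ one_pos]
  congr 1
  refine cfc_congr fun t ht => ?_
  have ht0 := spec_nonneg g ht
  rw [← Real.sqrt_eq_rpow, Real.sqrt_mul (sq_nonneg _), Real.sqrt_sq (h0 t ht0)]

lemma mom_one_eq (g : A) : mom τ 1 g = τ (cfc (fun t : ℝ => √t) (star g * g)) := by
  unfold mom
  congr 1
  refine cfc_congr fun t _ => ?_
  rw [← Real.sqrt_eq_rpow]

lemma mom_lt_of_one (g : A) (h : mom τ 1 g < ∞) {q : ℝ} (hq : 1 ≤ q) : mom τ q g < ∞ := by
  have hq0 : 0 < q := by linarith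
  rw [mom_one_eq] at h
  unfold mom
  apply tau_cfc_lt_top g (continuous_pw hq0).continuousOn (φ := fun t : ℝ => √t) (by fun_prop) _
    (C := (‖g‖ ^ 2) ^ ((q - 1) / 2)) (by positivity) _ _ h
  · intro t ht; positivity
  · intro t ht htg
    rcases ht.eq_or_lt with h0 | h0
    · rw [← h0, Real.zero_rpow (by positivity)]; simp
    · have : t ^ (q / 2) = t ^ ((q - 1) / 2) * √t := by
        rw [Real.sqrt_eq_rpow, ← Real.rpow_add h0]; congr 1; ring
      rw [this]
      have h2 : 0 ≤ (q - 1) / 2 := by linarith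
      gcongr
  · intro t _; positivity

lemma fin2_of_mom_one (g : A) (h : mom τ 1 g < ∞) : τ.Fin2 g := by
  have h2 := mom_lt_of_one g h (q := 2) (by norm_num)
  unfold mom at h2
  have : cfc (fun t : ℝ => t ^ ((2 : ℝ) / 2)) (star g * g) = star g * g := by
    conv_rhs => rw [← cfc_id' ℝ (star g * g) (sa_sq g)]
    refine cfc_congr fun t _ => by simp
  rw [this] at h2
  exact h2

lemma cut_Fin2 {h : A} {q : ℝ} (hq : 0 < q) (hh : mom τ q h < ∞) {δ : ℝ} (hδ : 0 < δ) :
    τ.Fin2 (cfc (cut δ) (star h * h)) := by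
  unfold TraceWt.Fin2
  rw [star_cfc_real, ← cfc_mul (cut δ) (cut δ) (star h * h) (by fun_prop) (by fun_prop)]
  unfold mom at hh
  apply tau_cfc_lt_top h (φ := fun t : ℝ => t ^ (q / 2)) (by fun_prop)
    (continuous_pw hq).continuousOn _ (C := (δ ^ (q / 2))⁻¹) (by positivity) _ _ hh
  · intro t ht
    have := cut_nonneg δ t
    positivity
  · intro t ht _
    rcases le_or_gt t δ with h' | h'
    · rw [cut_eq_zero hδ h', mul_zero]; positivity
    · have h1 := cut_le_one δ t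
      have h2 := cut_nonneg δ t
      have h3 : δ ^ (q / 2) ≤ t ^ (q / 2) := by gcongr
      have h4 : 0 < δ ^ (q / 2) := by positivity
      have h5 : 1 ≤ (δ ^ (q / 2))⁻¹ * t ^ (q / 2) := by
        rw [inv_mul_eq_div, one_le_div h4]; exact h3
      nlinarith
  · intro t _; positivity

/-- `q (g - trn δ g)` is small for trace class `g`. -/
lemma q_sub_trn_le (g : A) (h : mom τ 1 g < ∞) {δ : ℝ} (hδ : 0 < δ) :
    τ.q (g - trn δ g) ≤ √(2 * δ) * (mom τ 1 g).toReal := by
  have e : g - trn δ g = g * cfc (fun t : ℝ => 1 - cut δ t ^ 2) (star g * g) := by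
    unfold trn
    rw [cfc_sub (fun _ => (1 : ℝ)) (fun t => cut δ t ^ 2) (star g * g) (by fun_prop) (by fun_prop),
      cfc_const_one ℝ (star g * g) (sa_sq g), mul_sub, mul_one]
  have hle : τ (cfc (fun t : ℝ => (1 - cut δ t ^ 2) ^ 2 * t) (star g * g)) ≤
      τ (cfc (fun t : ℝ => √(2 * δ) * √t) (star g * g)) := by
    apply tau_cfc_mono g (by fun_prop) (by fun_prop)
    · intro t ht; positivity
    · intro t ht _
      rcases le_or_gt (2 * δ) t with h' | h'
      · rw [cut_eq_one hδ h']; simp; positivity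
      · have h1 := cut_sq_le_one δ t
        have h2 : 0 ≤ cut δ t ^ 2 := sq_nonneg _
        have h3 : (1 - cut δ t ^ 2) ^ 2 ≤ 1 := by nlinarith
        have h4 : √t ≤ √(2 * δ) := Real.sqrt_le_sqrt h'.le
        calc (1 - cut δ t ^ 2) ^ 2 * t ≤ 1 * t := by gcongr
          _ = √t * √t := by rw [one_mul, Real.mul_self_sqrt ht]
          _ ≤ √(2 * δ) * √t := by gcongr
  have hmul : cfc (fun t : ℝ => √(2 * δ) * √t) (star g * g) =
      √(2 * δ) • cfc (fun t : ℝ => √t) (star g * g) :=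
    cfc_const_mul _ _ (star g * g) (by fun_prop)
  rw [hmul, τ.map_smul (Real.sqrt_nonneg _) (cfc_nonneg fun t _ => Real.sqrt_nonneg _),
    ← mom_one_eq] at hle
  rw [e, fam_q g (by fun_prop)]
  have h5 := ENNReal.toReal_mono (ENNReal.mul_lt_top ENNReal.ofReal_lt_top h).ne hle
  rwa [ENNReal.toReal_mul, ENNReal.toReal_ofReal (Real.sqrt_nonneg _)] at h5

/-- Hölder's inequality for the pair `(∞, 1)`. -/
lemma ip_le_one_infty {y X : A} (hy : mom τ 1 y < ∞) (hX : τ.Fin2 X) :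
    ‖τ.ip y X‖ ≤ ‖X‖ * (mom τ 1 y).toReal := by
  have hyF := fin2_of_mom_one y hy
  have main : ∀ δ : ℝ, 0 < δ → ‖τ.ip y X‖ ≤ ‖X‖ * (mom τ 1 y).toReal +
      √(√(2 * δ) * (mom τ 1 y).toReal) * √(τ.q X) := by
    intro δ hδ
    have htm : tmom τ δ 1 y < ∞ := (tmom_le_mom one_pos δ y).trans_lt hy
    have htF : τ.Fin2 (trn δ y) := trn_Fin2 hδ y one_pos htm
    have h1 : ‖τ.ip (trn δ y) X‖ ≤ ‖X‖ * (mom τ 1 y).toReal := by
      have := Phi_ip_le hδ y (v := 1) (c := 0) (by norm_num) htm hX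
      rw [Phi_zero] at this
      refine this.trans ?_
      have := ENNReal.toReal_mono hy.ne (tmom_le_mom (τ := τ) one_pos δ y)
      gcongr
    have h2 : τ.ip y X = τ.ip (trn δ y) X + τ.ip (y - trn δ y) X := by
      rw [← TraceWt.ip_add_left htF (hyF.sub htF) hX]
      congr 1
      abel
    rw [h2]
    refine (norm_add_le _ _).trans (add_le_add h1 ?_)
    refine (τ.norm_ip_le (hyF.sub htF) hX).trans ?_
    have := q_sub_trn_le y hy hδ
    gcongr
  have hlim : Tendsto (fun δ : ℝ => ‖X‖ * (mom τ 1 y).toReal +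
      √(√(2 * δ) * (mom τ 1 y).toReal) * √(τ.q X)) (𝓝[>] 0)
      (𝓝 (‖X‖ * (mom τ 1 y).toReal + √(√(2 * 0) * (mom τ 1 y).toReal) * √(τ.q X))) :=
    Tendsto.mono_left (Continuous.tendsto (by fun_prop) 0) nhdsWithin_le_nhds
  have : ‖X‖ * (mom τ 1 y).toReal + √(√(2 * 0) * (mom τ 1 y).toReal) * √(τ.q X) =
      ‖X‖ * (mom τ 1 y).toReal := by simp
  rw [this] at hlim
  refine ge_of_tendsto hlim ?_
  filter_upwards [self_mem_nhdsWithin] with δ hδ
  exact main δ hδ

lemma ip_le_infty_one {y X : A} (hy : mom τ 1 y < ∞) (hX : τ.Fin2 X) :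
    ‖τ.ip X y‖ ≤ ‖X‖ * (mom τ 1 y).toReal := by
  rw [← TraceWt.ip_conj, RCLike.norm_conj]
  exact ip_le_one_infty hy hX

/-- Finite sums of `τ ∘ cfc`. -/
lemma tau_cfc_sum {ι : Type*} (s : Finset ι) (g : A) (c : ι → ℝ) (f : ι → ℝ → ℝ)
    (hc : ∀ i ∈ s, 0 ≤ c i) (hf : ∀ i ∈ s, Continuous (f i)) (h0 : ∀ i ∈ s, ∀ t, 0 ≤ t → 0 ≤ f i t) :
    ∑ i ∈ s, ENNReal.ofReal (c i) * τ (cfc (f i) (star g * g)) =
      τ (cfc (fun t => ∑ i ∈ s, c i * f i t) (star g * g)) := by
  classical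
  induction s using Finset.induction_on with
  | empty =>
    simp only [Finset.sum_empty]
    have : cfc (fun _ : ℝ => (0 : ℝ)) (star g * g) = 0 := by
      rw [cfc_const_zero]
    rw [this, τ.map_zero]
  | insert a s has ih =>
    have ih' := ih (fun i hi => hc i (Finset.mem_insert_of_mem hi))
      (fun i hi => hf i (Finset.mem_insert_of_mem hi))
      (fun i hi => h0 i (Finset.mem_insert_of_mem hi))
    have hca := hc a (Finset.mem_insert_self a s)
    have hfa := hf a (Finset.mem_insert_self a s)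
    have h0a := h0 a (Finset.mem_insert_self a s)
    rw [Finset.sum_insert has, ih']
    simp only [Finset.sum_insert has]
    have hcs : Continuous (fun t => ∑ i ∈ s, c i * f i t) :=
      continuous_finsetSum _ fun i hi => (hf i (Finset.mem_insert_of_mem hi)).const_mul _
    rw [cfc_add (star g * g) (fun t => c a * f a t) (fun t => ∑ i ∈ s, c i * f i t)
      (hfa.const_mul _).continuousOn hcs.continuousOn, cfc_const_mul _ _ _ hfa.continuousOn,
      τ.map_add, τ.map_smul hca]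
    · exact cfc_nonneg fun t ht => h0a t (spec_nonneg g ht)
    · exact smul_nonneg hca (cfc_nonneg fun t ht => h0a t (spec_nonneg g ht))
    · exact cfc_nonneg fun t ht => Finset.sum_nonneg fun i hi =>
        mul_nonneg (hc i (Finset.mem_insert_of_mem hi))
          (h0 i (Finset.mem_insert_of_mem hi) t (spec_nonneg g ht))

lemma tau_cfc_sum_toReal {ι : Type*} (s : Finset ι) (g : A) (c : ι → ℝ) (f : ι → ℝ → ℝ)
    (hc : ∀ i ∈ s, 0 ≤ c i) (hf : ∀ i ∈ s, Continuous (f i)) (h0 : ∀ i ∈ s, ∀ t, 0 ≤ t → 0 ≤ f i t)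
    (hfin : ∀ i ∈ s, τ (cfc (f i) (star g * g)) < ∞) :
    ∑ i ∈ s, c i * (τ (cfc (f i) (star g * g))).toReal =
      (τ (cfc (fun t => ∑ i ∈ s, c i * f i t) (star g * g))).toReal := by
  rw [← tau_cfc_sum s g c f hc hf h0, ENNReal.toReal_sum]
  · refine Finset.sum_congr rfl fun i hi => ?_
    rw [ENNReal.toReal_mul, ENNReal.toReal_ofReal (hc i hi)]
  · intro i hi
    exact (ENNReal.mul_lt_top ENNReal.ofReal_lt_top (hfin i hi)).ne

end Pool.Agent.SKB
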