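import Mathlib
import Pool.Agent.SKB.LOne

/-!
# Synthesis: the `L^P` norm of `∑ ε e^{iε/P} w_i` for a scaled family `w_i`
-/

open scoped ENNReal NNReal ComplexOrder Topology
open Filter

namespace Pool.Agent.SKB

variable {A : Type*} [CStarAlgebra A] [PartialOrder A] [StarOrderedRing A] {τ : TraceWt A}

lemma mom_finset_sum_lt {q : ℝ} (hq : 1 ≤ q) {ι : Type*} (s : Finset ι) (c : ι → ℂ) (w : ι → A)
    (hw : ∀ i ∈ s, mom τ q (w i) < ∞) : mom τ q (∑ i ∈ s, c i • w i) < ∞ := by
  classical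
  induction s using Finset.induction_on with
  | empty =>
    rw [Finset.sum_empty, mom_zero (by linarith)]
    exact ENNReal.zero_lt_top
  | insert a s has ih =>
    rw [Finset.sum_insert has]
    exact mom_add_lt hq (mom_smul_lt hq (hw a (Finset.mem_insert_self a s)) _)
      (ih fun i hi => hw i (Finset.mem_insert_of_mem hi))

lemma ip_finset_sum {ι : Type*} (s : Finset ι) (c : ι → ℂ) (w : ι → A) {z : A}
    (hz : τ.Fin2 z) (hw : ∀ i ∈ s, τ.Fin2 (w i)) :
    τ.Fin2 (∑ i ∈ s, c i • w i) ∧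
      τ.ip z (∑ i ∈ s, c i • w i) = ∑ i ∈ s, c i * τ.ip z (w i) := by
  classical
  induction s using Finset.induction_on with
  | empty =>
    constructor
    · rw [Finset.sum_empty]; exact τ.N.zero_mem
    · rw [Finset.sum_empty, Finset.sum_empty]
      have := TraceWt.ip_smul_right (τ := τ) hz (y := 0) (show τ.Fin2 0 from τ.N.zero_mem) 0
      simpa using this
  | insert a s has ih =>
    have ih' := ih fun i hi => hw i (Finset.mem_insert_of_mem hi)
    have ha := hw a (Finset.mem_insert_self a s)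
    rw [Finset.sum_insert has, Finset.sum_insert has]
    refine ⟨(ha.smul _).add ih'.1, ?_⟩
    rw [TraceWt.ip_add_right hz (ha.smul _) ih'.1, TraceWt.ip_smul_right hz ha, ih'.2]

/-- splitting a family at height `lam`. -/
lemma ip_split_le (h : A) {ψ : ℝ → ℝ} (hψ : Continuous ψ) (hψ0 : ∀ t, 0 ≤ t → 0 ≤ ψ t)
    (hone : mom τ 1 (h * cfc ψ (star h * h)) < ∞) {lam : ℝ} (hlam : 0 < lam)
    {w : A} (hw : mom τ 1 w < ∞) :
    ‖τ.ip (h * cfc ψ (star h * h)) w‖ ≤
      ‖w‖ * (τ (cfc (fun t : ℝ => max (ψ t * √t - lam) 0) (star h * h))).toReal +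
      lam * (mom τ 1 w).toReal := by
  set b := star h * h with hb
  have hwF := fin2_of_mom_one w hw
  -- `ψ₁ = ψ * lam / max (ψ √t) lam`
  have hden : ∀ t : ℝ, max (ψ t * √t) lam ≠ 0 := fun t =>
    (lt_of_lt_of_le hlam (le_max_right _ _)).ne'
  let ψ₁ : ℝ → ℝ := fun t => ψ t * (lam / max (ψ t * √t) lam)
  have hc1 : Continuous ψ₁ := by
    refine hψ.mul (continuous_const.div ?_ hden)
    fun_prop
  let ψ₀ : ℝ → ℝ := fun t => ψ t - ψ₁ t
  have hc0 : Continuous ψ₀ := hψ.sub hc1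
  have hdiv : ∀ t, 0 ≤ lam / max (ψ t * √t) lam := fun t =>
    div_nonneg hlam.le (hlam.le.trans (le_max_right _ _))
  have hdiv1 : ∀ t, lam / max (ψ t * √t) lam ≤ 1 := fun t => by
    rw [div_le_one (lt_of_lt_of_le hlam (le_max_right _ _))]
    exact le_max_right _ _
  have h1nn : ∀ t, 0 ≤ t → 0 ≤ ψ₁ t := fun t ht => mul_nonneg (hψ0 t ht) (hdiv t)
  have h0nn : ∀ t, 0 ≤ t → 0 ≤ ψ₀ t := fun t ht => by
    have : ψ₁ t ≤ ψ t := mul_le_of_le_one_right (hψ0 t ht) (hdiv1 t)
    simp only [ψ₀]; linarith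
  have hval1 : ∀ t, 0 ≤ t → ψ₁ t * √t = min (ψ t * √t) lam := by
    intro t ht
    have hZ : 0 ≤ ψ t * √t := mul_nonneg (hψ0 t ht) (Real.sqrt_nonneg _)
    simp only [ψ₁]
    rcases le_total (ψ t * √t) lam with h' | h'
    · rw [max_eq_right h', min_eq_left h', div_self hlam.ne', mul_one]
    · rw [max_eq_left h', min_eq_right h']
      have : ψ t * √t ≠ 0 := (hlam.trans_le h').ne'
      calc ψ t * (lam / (ψ t * √t)) * √t = (ψ t * √t) * (lam / (ψ t * √t)) := by ring
        _ = lam := by rw [mul_div_assoc', mul_comm, mul_div_assoc, div_self this, mul_one]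
  have hval0 : ∀ t, 0 ≤ t → ψ₀ t * √t = max (ψ t * √t - lam) 0 := by
    intro t ht
    have := hval1 t ht
    simp only [ψ₀]
    rw [sub_mul, this]
    rcases le_total (ψ t * √t) lam with h' | h'
    · rw [min_eq_left h', max_eq_right (by linarith)]; ring
    · rw [min_eq_right h', max_eq_left (by linarith)]
  have hsplit : h * cfc ψ b = h * cfc ψ₀ b + h * cfc ψ₁ b := by
    rw [← mul_add, ← cfc_add b ψ₀ ψ₁ hc0.continuousOn hc1.continuousOn]
    congr 1
    exact cfc_congr fun t _ => by simp only [ψ₀]; ring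
  have hz1n : ‖h * cfc ψ₁ b‖ ≤ lam := by
    apply fam_norm_le h hc1 hlam.le
    intro t ht _
    have h1 := hval1 t ht
    have h2 : ψ₁ t * √t ≤ lam := by rw [h1]; exact min_le_right _ _
    have h3 : 0 ≤ ψ₁ t * √t := mul_nonneg (h1nn t ht) (Real.sqrt_nonneg _)
    calc ψ₁ t ^ 2 * t = (ψ₁ t * √t) ^ 2 := by rw [mul_pow (ψ₁ t), Real.sq_sqrt ht]
      _ ≤ lam ^ 2 := by gcongr
  have hone' : τ (cfc (fun t : ℝ => ψ t * √t) b) < ∞ := by
    rw [← mom_one_fam h hψ hψ0]; exact hone
  have hm0 : mom τ 1 (h * cfc ψ₀ b) = τ (cfc (fun t : ℝ => max (ψ t * √t - lam) 0) b) := by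
    rw [mom_one_fam h hc0 h0nn]
    congr 1
    exact cfc_congr fun t ht => hval0 t (spec_nonneg h ht)
  have hm0f : mom τ 1 (h * cfc ψ₀ b) < ∞ := by
    rw [mom_one_fam h hc0 h0nn]
    refine lt_of_le_of_lt (tau_cfc_mono h (by fun_prop) (by fun_prop) ?_ ?_) hone'
    · intro t ht; exact mul_nonneg (h0nn t ht) (Real.sqrt_nonneg _)
    · intro t ht _
      have : ψ₀ t ≤ ψ t := by simp only [ψ₀]; linarith [h1nn t ht]
      gcongr
  have hm1f : mom τ 1 (h * cfc ψ₁ b) < ∞ := by
    rw [mom_one_fam h hc1 h1nn]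
    refine lt_of_le_of_lt (tau_cfc_mono h (by fun_prop) (by fun_prop) ?_ ?_) hone'
    · intro t ht; exact mul_nonneg (h1nn t ht) (Real.sqrt_nonneg _)
    · intro t ht _
      have : ψ₁ t ≤ ψ t := mul_le_of_le_one_right (hψ0 t ht) (hdiv1 t)
      gcongr
  have hF0 := fin2_of_mom_one _ hm0f
  have hF1 := fin2_of_mom_one _ hm1f
  rw [hsplit, TraceWt.ip_add_left hF0 hF1 hwF]
  refine (norm_add_le _ _).trans ?_
  have e0 : ‖τ.ip (h * cfc ψ₀ b) w‖ ≤
      ‖w‖ * (τ (cfc (fun t : ℝ => max (ψ t * √t - lam) 0) b)).toReal := by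
    rw [← hm0]; exact ip_le_one_infty hm0f hwF
  have e1 : ‖τ.ip (h * cfc ψ₁ b) w‖ ≤ lam * (mom τ 1 w).toReal := by
    refine (ip_le_infty_one hw hF1).trans ?_
    gcongr
  exact add_le_add e0 e1

/-- **Synthesis bound**. -/
theorem synth_bound {p : ℝ} (hp : 1 < p) {ε B : ℝ} (hε : 0 < ε) (hB : 0 < B) (m : ℕ) (hm : 0 < m)
    (w : ℕ → A) (hw : ∀ i, mom τ 1 (w i) < ∞) (hwn : ∀ i, ‖w i‖ ≤ B)
    (hw1 : ∀ i, (mom τ 1 (w i)).toReal ≤ Real.exp (-(i * ε)) * B) :
    mom τ (p / (p - 1)) (∑ i ∈ Finset.range m, ((ε * Real.exp (i * ε * (1 - 1 / p)) : ℝ) : ℂ) • w i)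
      ≤ ENNReal.ofReal ((B * (p / (p - 1))) ^ (p / (p - 1)) * Real.exp (ε / p) * (m * ε)) := by
  have hp0 : 0 < p := by linarith
  have hp1 : 0 < p - 1 := by linarith
  set P := p / (p - 1) with hP
  have hP1 : 1 < P := by rw [hP, lt_div_iff₀ hp1]; linarith
  have hP0 : 0 < P := by linarith
  have hmr : (0 : ℝ) < m := by exact_mod_cast hm
  set Y := ∑ i ∈ Finset.range m, ((ε * Real.exp (i * ε * (1 - 1 / p)) : ℝ) : ℂ) • w i with hY
  have hY1 : mom τ 1 Y < ∞ := mom_finset_sum_lt le_rfl _ _ _ fun i _ => hw i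
  have hYP : mom τ P Y < ∞ := mom_lt_of_one Y hY1 hP1.le
  have hYF := fin2_of_mom_one Y hY1
  set b := star Y * Y with hb
  rw [mom_eq_iSup hP0]
  refine iSup_le fun n => ?_
  set δ := (1 / 2 : ℝ) ^ n with hδdef
  have hδ : 0 < δ := by positivity
  have htm : tmom τ δ P Y < ∞ := (tmom_le_mom hP0 δ Y).trans_lt hYP
  rw [← ENNReal.ofReal_toReal htm.ne]
  apply ENNReal.ofReal_le_ofReal
  set T := (tmom τ δ P Y).toReal with hT
  have hT0 : 0 ≤ T := ENNReal.toReal_nonneg
  -- norming element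
  have hL := continuous_Lg hδ
  let ψ : ℝ → ℝ := fun t => cut δ t ^ 2 * Real.exp ((P - 2) / 2 * Lg δ t)
  have hψc : Continuous ψ := by simp only [ψ]; fun_prop
  have hψ0 : ∀ t, 0 ≤ t → 0 ≤ ψ t := fun t _ => by simp only [ψ]; positivity
  have hz : Phi δ Y (((P - 2) / 2 : ℝ) : ℂ) = Y * cfc ψ b := Phi_ofReal hδ Y _
  have hK : τ.Fin2 (cfc (cut (δ / 2)) b) := cut_Fin2 hP0 hYP (by positivity)
  have hzF : τ.Fin2 (Y * cfc ψ b) := by rw [← hz]; exact Phi_Fin2 hδ Y hP0 htm _
  have hTeq : τ.ip (Y * cfc ψ b) Y = (T : ℂ) := by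
    have h1 := ip_norming hδ Y htm hK
    have h2 := Phi_mul_K hδ Y ((P - 2) / 2)
    rw [hz] at h1 h2
    have h3 : τ.ip (Y * cfc ψ b * cfc (cut (δ / 2)) b) Y = τ.ip (Y * cfc ψ b)
        (Y * star (cfc (cut (δ / 2)) b)) := TraceWt.ip_mul_right hzF hYF _
    rw [h2, star_cfc_real] at h3
    rw [h3, h1]
  -- pointwise values
  have hZpow : ∀ t, 0 ≤ t → (ψ t * √t) ^ p ≤ cut δ t ^ 2 * t ^ (P / 2) := by
    intro t ht
    rcases le_or_gt t δ with h' | h'
    · simp only [ψ]
      rw [cut_eq_zero hδ h']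
      simp [Real.zero_rpow hp0.ne']
    · have ht0 : 0 < t := hδ.trans h'
      simp only [ψ]
      rw [exp_Lg hδ h'.le, Real.sqrt_eq_rpow, mul_assoc, ← Real.rpow_add ht0,
        Real.mul_rpow (by positivity) (by positivity), ← Real.rpow_mul ht]
      have e1 : ((P - 2) / 2 + 1 / 2) * p = P / 2 := by
        rw [hP]; field_simp; ring
      rw [e1]
      have h2 : (cut δ t ^ 2) ^ p ≤ cut δ t ^ 2 := by
        have h3 := cut_sq_le_one δ t
        calc (cut δ t ^ 2) ^ p ≤ (cut δ t ^ 2) ^ (1 : ℝ) :=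
              Real.rpow_le_rpow_of_exponent_ge' (sq_nonneg _) h3 zero_le_one hp.le
          _ = cut δ t ^ 2 := Real.rpow_one _
      gcongr
  -- trace class property of `z`
  have hzone : mom τ 1 (Y * cfc ψ b) < ∞ := by
    rw [mom_one_fam Y hψc hψ0]
    have h1 : τ (cfc (fun t : ℝ => √t) b) < ∞ := by rw [← mom_one_eq]; exact hY1
    apply tau_cfc_lt_top Y (φ := fun t : ℝ => √t) (by fun_prop) (by fun_prop) _
      (C := Real.exp (|(P - 2) / 2| * (|Real.log δ| + |Real.log (max (‖Y‖ ^ 2) δ)|)))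
      (by positivity) _ _ h1
    · intro t ht; exact mul_nonneg (hψ0 t ht) (Real.sqrt_nonneg _)
    · intro t ht htY
      have h2 : ψ t ≤ Real.exp (|(P - 2) / 2| *
          (|Real.log δ| + |Real.log (max (‖Y‖ ^ 2) δ)|)) := by
        simp only [ψ]
        have h3 : cut δ t ^ 2 ≤ 1 := cut_sq_le_one δ t
        have h4 : Real.exp ((P - 2) / 2 * Lg δ t) ≤ Real.exp (|(P - 2) / 2| *
            (|Real.log δ| + |Real.log (max (‖Y‖ ^ 2) δ)|)) := by
          apply Real.exp_le_exp.2
          have h5 : Real.log δ ≤ Lg δ t := by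
            unfold Lg
            exact Real.log_le_log hδ (le_max_right _ _)
          have h6 : Lg δ t ≤ Real.log (max (‖Y‖ ^ 2) δ) := by
            unfold Lg
            apply Real.log_le_log (lt_of_lt_of_le hδ (le_max_right _ _))
            exact max_le_max_right δ htY
          have h7 : |Lg δ t| ≤ |Real.log δ| + |Real.log (max (‖Y‖ ^ 2) δ)| := by
            rw [abs_le]
            constructor
            · have := neg_abs_le (Real.log δ)
              have := abs_nonneg (Real.log (max (‖Y‖ ^ 2) δ))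
              linarith
            · have := le_abs_self (Real.log (max (‖Y‖ ^ 2) δ))
              have := abs_nonneg (Real.log δ)
              linarith
          calc (P - 2) / 2 * Lg δ t ≤ |(P - 2) / 2 * Lg δ t| := le_abs_self _
            _ = |(P - 2) / 2| * |Lg δ t| := abs_mul _ _
            _ ≤ _ := by gcongr
        have h8 := Real.exp_pos ((P - 2) / 2 * Lg δ t)
        calc cut δ t ^ 2 * Real.exp ((P - 2) / 2 * Lg δ t)
            ≤ 1 * Real.exp ((P - 2) / 2 * Lg δ t) := by gcongr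
          _ = Real.exp ((P - 2) / 2 * Lg δ t) := one_mul _
          _ ≤ _ := h4
      gcongr
    · intro t _; positivity
  -- the constant `c`
  set c := (B * P * Real.exp (ε * (1 - 1 / p))) ^ (1 / (p - 1)) with hc
  have hc0 : 0 < c := by positivity
  have hcp : c ^ (1 - p) = (B * P * Real.exp (ε * (1 - 1 / p)))⁻¹ := by
    rw [hc, ← Real.rpow_mul (by positivity), ← Real.rpow_neg_one]
    congr 1
    field_simp
    ring
  -- main estimate
  have hpair : T ≤ ∑ i ∈ Finset.range m, (ε * Real.exp (i * ε * (1 - 1 / p))) *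
      (B * (τ (cfc (fun t : ℝ => max (ψ t * √t - c * Real.exp (i * ε / p)) 0) b)).toReal +
        c * Real.exp (i * ε / p) * (Real.exp (-(i * ε)) * B)) := by
    have h1 : T = ‖τ.ip (Y * cfc ψ b) Y‖ := by
      rw [hTeq, Complex.norm_real, Real.norm_of_nonneg hT0]
    have h2 := (ip_finset_sum (τ := τ) (Finset.range m)
      (fun i => ((ε * Real.exp (i * ε * (1 - 1 / p)) : ℝ) : ℂ)) w hzF
      (fun i _ => fin2_of_mom_one _ (hw i))).2
    have h2' : τ.ip (Y * cfc ψ b) Y = ∑ i ∈ Finset.range m,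
        ((ε * Real.exp (i * ε * (1 - 1 / p)) : ℝ) : ℂ) * τ.ip (Y * cfc ψ b) (w i) := h2
    rw [h1, h2']
    refine (norm_sum_le _ _).trans (Finset.sum_le_sum fun i _ => ?_)
    rw [norm_mul, Complex.norm_real, Real.norm_of_nonneg (by positivity)]
    gcongr
    have h3 := ip_split_le Y hψc hψ0 hzone (lam := c * Real.exp (i * ε / p)) (by positivity)
      (hw i)
    refine h3.trans ?_
    have h4 := hwn i
    have h5 := hw1 i
    have h6 : 0 ≤ (τ (cfc (fun t : ℝ => max (ψ t * √t - c * Real.exp (i * ε / p)) 0)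
      b)).toReal := ENNReal.toReal_nonneg
    gcongr
  -- second sum
  have hsecond : ∑ i ∈ Finset.range m, (ε * Real.exp (i * ε * (1 - 1 / p))) *
      (c * Real.exp (i * ε / p) * (Real.exp (-(i * ε)) * B)) = B * c * (m * ε) := by
    have : ∀ i ∈ Finset.range m, (ε * Real.exp (i * ε * (1 - 1 / p))) *
        (c * Real.exp (i * ε / p) * (Real.exp (-(i * ε)) * B)) = B * c * ε := by
      intro i _
      have e : Real.exp (i * ε * (1 - 1 / p)) * Real.exp (i * ε / p) * Real.exp (-(i * ε)) = 1 := by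
        have e0 : i * ε * (1 - 1 / p) + i * ε / p + -(i * ε) = 0 := by
          field_simp
          ring
        rw [← Real.exp_add, ← Real.exp_add, e0, Real.exp_zero]
      calc _ = B * c * ε * (Real.exp (i * ε * (1 - 1 / p)) * Real.exp (i * ε / p) *
            Real.exp (-(i * ε))) := by ring
        _ = _ := by rw [e, mul_one]
    rw [Finset.sum_congr rfl this, Finset.sum_const, Finset.card_range, nsmul_eq_mul]
    ring
  -- first sum
  have hone' : τ (cfc (fun t : ℝ => ψ t * √t) b) < ∞ := by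
    rw [← mom_one_fam Y hψc hψ0]; exact hzone
  have hfi : ∀ i ∈ Finset.range m,
      τ (cfc (fun t : ℝ => max (ψ t * √t - c * Real.exp (i * ε / p)) 0) b) < ∞ := by
    intro i _
    refine lt_of_le_of_lt (tau_cfc_mono Y (by fun_prop) (by fun_prop) ?_ ?_) hone'
    · intro t _; exact le_max_right _ _
    · intro t ht _
      have h1 : 0 ≤ ψ t * √t := mul_nonneg (hψ0 t ht) (Real.sqrt_nonneg _)
      have h2 : 0 ≤ c * Real.exp (i * ε / p) := by positivity
      exact max_le (by linarith) h1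
  have hfirst : ∑ i ∈ Finset.range m, (ε * Real.exp (i * ε * (1 - 1 / p))) *
      (τ (cfc (fun t : ℝ => max (ψ t * √t - c * Real.exp (i * ε / p)) 0) b)).toReal ≤
      Real.exp (ε * (1 - 1 / p)) * (c ^ (1 - p) / (p - 1)) * T := by
    rw [tau_cfc_sum_toReal (Finset.range m) Y _ _ (fun i _ => by positivity)
      (fun i _ => by fun_prop) (fun i _ t _ => le_max_right _ _) hfi]
    have h1 : τ (cfc (fun t => ∑ i ∈ Finset.range m, (ε * Real.exp (i * ε * (1 - 1 / p))) *
        max (ψ t * √t - c * Real.exp (i * ε / p)) 0) b) ≤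
        τ (cfc (fun t : ℝ => (Real.exp (ε * (1 - 1 / p)) * (c ^ (1 - p) / (p - 1))) *
          (cut δ t ^ 2 * t ^ (P / 2))) b) := by
      apply tau_cfc_mono Y (by fun_prop)
        ((continuous_tfun δ hP0.le).const_mul _).continuousOn
      · intro t ht
        exact Finset.sum_nonneg fun i _ => by positivity
      · intro t ht _
        have h2 := scalar_G hp hε hc0 (lam := ψ t * √t)
          (mul_nonneg (hψ0 t ht) (Real.sqrt_nonneg _)) m
        refine h2.trans ?_
        have h3 := hZpow t ht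
        have h4 : 0 ≤ Real.exp (ε * (1 - 1 / p)) * (c ^ (1 - p) / (p - 1)) := by positivity
        calc Real.exp (ε * (1 - 1 / p)) * ((ψ t * √t) ^ p * c ^ (1 - p) / (p - 1))
            = Real.exp (ε * (1 - 1 / p)) * (c ^ (1 - p) / (p - 1)) * (ψ t * √t) ^ p := by ring
          _ ≤ _ := by gcongr
    rw [cfc_const_mul _ _ _ (continuous_tfun δ hP0.le).continuousOn,
      τ.map_smul (by positivity) (cfc_nonneg fun t ht => by
        have := spec_nonneg Y ht
        positivity)] at h1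
    have h5 := ENNReal.toReal_mono (ENNReal.mul_lt_top ENNReal.ofReal_lt_top htm).ne h1
    rwa [ENNReal.toReal_mul, ENNReal.toReal_ofReal (by positivity)] at h5
  have hcomb : T ≤ B * (Real.exp (ε * (1 - 1 / p)) * (c ^ (1 - p) / (p - 1)) * T) +
      B * c * (m * ε) := by
    refine hpair.trans ?_
    have : ∑ i ∈ Finset.range m, (ε * Real.exp (i * ε * (1 - 1 / p))) *
      (B * (τ (cfc (fun t : ℝ => max (ψ t * √t - c * Real.exp (i * ε / p)) 0) b)).toReal +
        c * Real.exp (i * ε / p) * (Real.exp (-(i * ε)) * B)) =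
      B * ∑ i ∈ Finset.range m, (ε * Real.exp (i * ε * (1 - 1 / p))) *
        (τ (cfc (fun t : ℝ => max (ψ t * √t - c * Real.exp (i * ε / p)) 0) b)).toReal +
      ∑ i ∈ Finset.range m, (ε * Real.exp (i * ε * (1 - 1 / p))) *
        (c * Real.exp (i * ε / p) * (Real.exp (-(i * ε)) * B)) := by
      rw [Finset.mul_sum, ← Finset.sum_add_distrib]
      refine Finset.sum_congr rfl fun i _ => by ring
    rw [this, hsecond]
    gcongr
  have hkey : B * (Real.exp (ε * (1 - 1 / p)) * (c ^ (1 - p) / (p - 1)) * T) = T / p := by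
    rw [hcp, hP]
    have := Real.exp_pos (ε * (1 - 1 / p))
    field_simp
  rw [hkey] at hcomb
  have hfinal : T ≤ P * (B * c * (m * ε)) := by
    have h1 : T * (1 - 1 / p) ≤ B * c * (m * ε) := by
      have : T * (1 - 1 / p) = T - T / p := by ring
      linarith
    have h2 : P * (1 - 1 / p) = 1 := by rw [hP]; field_simp
    calc T = P * (T * (1 - 1 / p)) := by
          rw [← mul_assoc, mul_comm P T, mul_assoc, h2, mul_one]
      _ ≤ _ := by gcongr
  refine hfinal.trans (le_of_eq ?_)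
  have e1 : c = (B * P) ^ (P - 1) * Real.exp (ε / p) := by
    have h1 : P - 1 = 1 / (p - 1) := by rw [hP]; field_simp; ring
    rw [hc, Real.mul_rpow (by positivity) (Real.exp_pos _).le, ← Real.exp_mul, h1]
    congr 2
    field_simp
  have e2 : (B * P) ^ P = B * P * (B * P) ^ (P - 1) := by
    nth_rewrite 2 [← Real.rpow_one (B * P)]
    rw [← Real.rpow_add (by positivity)]
    congr 1
    ring
  rw [e1, e2]
  ring

end Pool.Agent.SKB
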