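import Mathlib
import Pool.Agent.SKB.Synth

/-!
# Layer decomposition: bounding functionals of `L^{P,1}`-type
-/

open scoped ENNReal NNReal ComplexOrder Topology
open Filter

namespace Pool.Agent.SKB

/-- tangent inequality -/
lemma tangent_le {P u v : ℝ} (hP : 1 ≤ P) (hu : 0 < u) (hv : 0 ≤ v) :
    P * u ^ (P - 1) * (v - u) ≤ v ^ P - u ^ P := by
  have h1 : 1 + P * (v / u - 1) ≤ (1 + (v / u - 1)) ^ P :=
    one_add_mul_self_le_rpow_one_add (by have : 0 ≤ v / u := by positivity
                                         linarith) hP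
  rw [add_sub_cancel, Real.div_rpow hv hu.le] at h1
  have hup : 0 < u ^ P := Real.rpow_pos_of_pos hu _
  have h2 : u ^ P * (1 + P * (v / u - 1)) ≤ v ^ P := by
    calc u ^ P * (1 + P * (v / u - 1)) ≤ u ^ P * (v ^ P / u ^ P) := by gcongr
      _ = v ^ P := by field_simp
  have e : u ^ P = u * u ^ (P - 1) := by
    nth_rewrite 2 [← Real.rpow_one u]
    rw [← Real.rpow_add hu]; congr 1; ring
  have h3 : u ^ P * (1 + P * (v / u - 1)) = u ^ P + P * u ^ (P - 1) * (v - u) := by
    rw [e]; field_simp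
  linarith

/-- scalar layer inequality -/
lemma layer_scalar {P : ℝ} (hP : 1 ≤ P) (lam : ℕ → ℝ) (h0 : ∀ n, 0 < lam n)
    (hmono : ∀ n, lam n ≤ lam (n + 1)) {x : ℝ} (hx : 0 ≤ x) (m : ℕ) :
    ∑ n ∈ Finset.range m, lam n ^ (P - 1) * (min x (lam (n + 1)) - min x (lam n)) +
      lam m ^ (P - 1) * (x - min x (lam m)) ≤ x ^ P / P := by
  have hP0 : 0 < P := by linarith
  have key : ∀ n (v : ℝ), min x (lam n) ≤ v → v ≤ x → 
      lam n ^ (P - 1) * (v - min x (lam n)) ≤ (v ^ P - (min x (lam n)) ^ P) / P := by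
    intro n v hv1 hv2
    rcases le_or_gt x (lam n) with h | h
    · rw [min_eq_left h] at hv1 ⊢
      have : v = x := le_antisymm hv2 hv1
      rw [this]; simp
    · rw [min_eq_right h.le] at hv1 ⊢
      have := tangent_le hP (h0 n) (v := v) ((h0 n).le.trans hv1)
      rw [le_div_iff₀ hP0]
      linarith
  have hsum : ∑ n ∈ Finset.range m, lam n ^ (P - 1) * (min x (lam (n + 1)) - min x (lam n)) ≤
      ∑ n ∈ Finset.range m, ((min x (lam (n + 1))) ^ P / P - (min x (lam n)) ^ P / P) := by
    refine Finset.sum_le_sum fun n _ => ?_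
    rw [← sub_div]
    exact key n _ (min_le_min_left _ (hmono n)) (min_le_left _ _)
  rw [Finset.sum_range_sub (fun n => (min x (lam n)) ^ P / P)] at hsum
  have hlast := key m x (min_le_left _ _) le_rfl
  have h00 : 0 ≤ (min x (lam 0)) ^ P / P := by
    have : 0 ≤ min x (lam 0) := le_min hx (h0 0).le
    positivity
  have : (x ^ P - (min x (lam m)) ^ P) / P = x ^ P / P - (min x (lam m)) ^ P / P := sub_div _ _ _
  linarith

/-- The cut-off `lam / max √t lam`. -/
noncomputable def ct (lam t : ℝ) : ℝ := lam / max (√t) lam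

lemma continuous_ct {lam : ℝ} (h : 0 < lam) : Continuous (ct lam) := by
  unfold ct
  refine continuous_const.div (by fun_prop) fun t => ?_
  exact (lt_of_lt_of_le h (le_max_right _ _)).ne'

lemma ct_mul {lam : ℝ} (h : 0 < lam) (t : ℝ) : ct lam t * √t = min (√t) lam := by
  unfold ct
  rcases le_total (√t) lam with h' | h'
  · rw [max_eq_right h', min_eq_left h', div_self h.ne', one_mul]
  · rw [max_eq_left h', min_eq_right h']
    have : √t ≠ 0 := (h.trans_le h').ne'
    rw [div_mul_cancel₀ _ this]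

lemma ct_nonneg {lam : ℝ} (h : 0 < lam) (t : ℝ) : 0 ≤ ct lam t := by
  unfold ct
  exact div_nonneg h.le (h.le.trans (le_max_right _ _))

lemma ct_le_one {lam : ℝ} (h : 0 < lam) (t : ℝ) : ct lam t ≤ 1 := by
  unfold ct
  rw [div_le_one (lt_of_lt_of_le h (le_max_right _ _))]
  exact le_max_right _ _

lemma ct_mono {lam lam' : ℝ} (h : 0 < lam) (h' : lam ≤ lam') (t : ℝ) : ct lam t ≤ ct lam' t := by
  unfold ct
  have h1 : 0 < max (√t) lam := lt_of_lt_of_le h (le_max_right _ _)
  have h2 : 0 < max (√t) lam' := lt_of_lt_of_le (h.trans_le h') (le_max_right _ _)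
  rw [div_le_div_iff₀ h1 h2]
  rcases le_total (√t) lam with h3 | h3
  · rw [max_eq_right h3, max_eq_right (h3.trans h')]
    linarith [mul_comm lam lam']
  · rw [max_eq_left h3]
    rcases le_total (√t) lam' with h4 | h4
    · rw [max_eq_right h4]
      have : 0 < lam' := h.trans_le h'
      nlinarith
    · rw [max_eq_left h4]
      have := Real.sqrt_nonneg t
      nlinarith

variable {A : Type*} [CStarAlgebra A] [PartialOrder A] [StarOrderedRing A] {τ : TraceWt A}

/-- **Layer bound**. -/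
theorem layer_bound {p : ℝ} (hp : 1 < p) {C : ℝ} (hC : 0 ≤ C) (f : A → ℂ)
    (hadd : ∀ x y, mom τ 1 x < ∞ → mom τ 1 y < ∞ → f (x + y) = f x + f y)
    (hH : ∀ w, mom τ 1 w < ∞ → ∀ t : ℝ, 0 < t →
      ‖f w‖ ≤ C * (1 / p * t ^ (1 - 1 / p) * ‖w‖ +
        (1 - 1 / p) * t ^ (-(1 / p)) * (mom τ 1 w).toReal))
    (W : A) (hW : mom τ 1 W < ∞) (m : ℕ) {ρ : ℝ} (hρ : 1 < ρ) {κ : ℝ} (hκ : 0 < κ) :
    ‖f W‖ ≤ C * (1 / p * κ ^ (1 - p) * (1 + m * (ρ - 1)) + (1 - 1 / p) * (mom τ 1 W).toReal +
      1 / p * (ρ ^ m)⁻¹ * ‖W‖ + κ * (1 - 1 / p) ^ 2 * (mom τ (p / (p - 1)) W).toReal) := by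
  have hp0 : 0 < p := by linarith
  have hp1 : 0 < p - 1 := by linarith
  have hρ0 : 0 < ρ := by linarith
  set P := p / (p - 1) with hP
  have hP1 : 1 < P := by rw [hP, lt_div_iff₀ hp1]; linarith
  have hP0 : 0 < P := by linarith
  have hPinv : 1 - 1 / p = 1 / P := by rw [hP]; field_simp
  have hPm : P - 1 = 1 / (p - 1) := by rw [hP]; field_simp; try ring
  have h1p : 0 < 1 - 1 / p := by rw [hPinv]; positivity
  set b := star W * W with hb
  let lam : ℕ → ℝ := fun n => κ ^ (1 - p) * ρ ^ n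
  have hlam0 : ∀ n, 0 < lam n := fun n => by simp only [lam]; positivity
  have hlams : ∀ n, lam (n + 1) = lam n * ρ := fun n => by simp only [lam]; rw [pow_succ]; ring
  have hlamm : ∀ n, lam n ≤ lam (n + 1) := fun n => by
    rw [hlams]; have := hlam0 n; nlinarith
  -- `β n = κ lam_n^{P-1} = (ρ^n)^{P-1}`
  let β : ℕ → ℝ := fun n => κ * lam n ^ (P - 1)
  have hβ : ∀ n, β n = (ρ ^ n) ^ (P - 1) := by
    intro n
    simp only [β, lam]
    rw [Real.mul_rpow (by positivity) (by positivity), ← Real.rpow_mul hκ.le]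
    have e : (1 - p) * (P - 1) = -1 := by rw [hPm]; field_simp; ring
    rw [e, Real.rpow_neg_one, ← mul_assoc, mul_inv_cancel₀ hκ.ne', one_mul]
  have hβ0 : ∀ n, 0 < β n := fun n => by rw [hβ]; positivity
  -- the optimal parameters `t n = β n ^ (-p)`
  have ht1 : ∀ n, (β n ^ (-p)) ^ (1 - 1 / p) = (ρ ^ n)⁻¹ := by
    intro n
    rw [hβ, ← Real.rpow_mul (by positivity), ← Real.rpow_mul (by positivity), ← Real.rpow_neg_one]
    congr 1
    rw [hPm]; field_simp
  have ht2 : ∀ n, (β n ^ (-p)) ^ (-(1 / p)) = β n := by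
    intro n
    rw [← Real.rpow_mul (hβ0 n).le]
    have : -p * -(1 / p) = 1 := by field_simp
    rw [this, Real.rpow_one]
  -- truncations
  let V : ℕ → A := fun n => W * cfc (ct (lam n)) b
  have hVd : ∀ n, V (n + 1) - V n = W * cfc (fun t => ct (lam (n + 1)) t - ct (lam n) t) b := by
    intro n
    simp only [V]
    rw [← mul_sub, ← cfc_sub _ _ b (continuous_ct (hlam0 _)).continuousOn
      (continuous_ct (hlam0 _)).continuousOn]
  have hVl : W - V m = W * cfc (fun t => 1 - ct (lam m) t) b := by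
    simp only [V]
    rw [cfc_sub (fun _ => (1 : ℝ)) (ct (lam m)) b (by fun_prop) (continuous_ct (hlam0 _)).continuousOn,
      cfc_const_one ℝ b (sa_sq W), mul_sub, mul_one]
  have hW' : τ (cfc (fun t : ℝ => √t) b) < ∞ := by rw [← mom_one_eq]; exact hW
  -- traces of layers
  have hdc : ∀ n, Continuous (fun t => ct (lam (n + 1)) t - ct (lam n) t) := fun n =>
    (continuous_ct (hlam0 _)).sub (continuous_ct (hlam0 _))
  have hlc : Continuous (fun t => 1 - ct (lam m) t) := continuous_const.sub (continuous_ct (hlam0 _))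
  have hm0 : mom τ 1 (V 0) = τ (cfc (fun t : ℝ => min (√t) (lam 0)) b) := by
    simp only [V]
    rw [mom_one_fam W (continuous_ct (hlam0 0)) (fun t _ => ct_nonneg (hlam0 0) t)]
    congr 1
    exact cfc_congr fun t _ => ct_mul (hlam0 0) t
  have hmn : ∀ n, mom τ 1 (V (n + 1) - V n) =
      τ (cfc (fun t : ℝ => min (√t) (lam (n + 1)) - min (√t) (lam n)) b) := by
    intro n
    rw [hVd, mom_one_fam W (hdc n) (fun t _ => sub_nonneg.2 (ct_mono (hlam0 n) (hlamm n) t))]
    congr 1
    refine cfc_congr fun t _ => ?_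
    change (ct (lam (n + 1)) t - ct (lam n) t) * √t = _
    rw [sub_mul, ct_mul (hlam0 _), ct_mul (hlam0 _)]
  have hml : mom τ 1 (W - V m) = τ (cfc (fun t : ℝ => √t - min (√t) (lam m)) b) := by
    rw [hVl, mom_one_fam W hlc (fun t _ => sub_nonneg.2 (ct_le_one (hlam0 m) t))]
    congr 1
    refine cfc_congr fun t _ => ?_
    change (1 - ct (lam m) t) * √t = _
    rw [sub_mul, one_mul, ct_mul (hlam0 _)]
  have hm0f : mom τ 1 (V 0) < ∞ := by
    rw [hm0]
    exact (tau_cfc_mono W (by fun_prop) (by fun_prop)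
      (fun t _ => le_min (Real.sqrt_nonneg _) (hlam0 0).le)
      (fun t _ _ => min_le_left _ _)).trans_lt hW'
  have hm0le : (mom τ 1 (V 0)).toReal ≤ (mom τ 1 W).toReal := by
    apply ENNReal.toReal_mono hW.ne
    rw [hm0, mom_one_eq]
    exact tau_cfc_mono W (by fun_prop) (by fun_prop)
      (fun t _ => le_min (Real.sqrt_nonneg _) (hlam0 0).le) (fun t _ _ => min_le_left _ _)
  have hmnf : ∀ n, mom τ 1 (V (n + 1) - V n) < ∞ := by
    intro n
    rw [hmn]
    refine (tau_cfc_mono W (by fun_prop) (by fun_prop) ?_ ?_).trans_lt hW'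
    · intro t _
      exact sub_nonneg.2 (min_le_min_left _ (hlamm n))
    · intro t _ _
      have h1 : 0 ≤ min (√t) (lam n) := le_min (Real.sqrt_nonneg _) (hlam0 n).le
      have h2 : min (√t) (lam (n + 1)) ≤ √t := min_le_left _ _
      linarith
  have hmlf : mom τ 1 (W - V m) < ∞ := by
    rw [hml]
    refine (tau_cfc_mono W (by fun_prop) (by fun_prop) ?_ ?_).trans_lt hW'
    · intro t _
      exact sub_nonneg.2 (min_le_left _ _)
    · intro t _ _
      have h1 : 0 ≤ min (√t) (lam m) := le_min (Real.sqrt_nonneg _) (hlam0 m).le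
      linarith
  have hVf : ∀ n, mom τ 1 (V n) < ∞ := by
    intro n
    induction n with
    | zero => exact hm0f
    | succ n ih =>
      have : V (n + 1) = V n + (V (n + 1) - V n) := by abel
      rw [this]
      exact mom_add_lt le_rfl ih (hmnf n)
  -- norms of layers
  have hn0 : ‖V 0‖ ≤ lam 0 := by
    apply fam_norm_le W (continuous_ct (hlam0 0)) (hlam0 0).le
    intro t ht _
    calc ct (lam 0) t ^ 2 * t = (ct (lam 0) t * √t) ^ 2 := by rw [mul_pow, Real.sq_sqrt ht]
      _ ≤ lam 0 ^ 2 := by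
          rw [ct_mul (hlam0 0)]
          have : 0 ≤ min (√t) (lam 0) := le_min (Real.sqrt_nonneg _) (hlam0 0).le
          gcongr
          exact min_le_right _ _
  have hnn : ∀ n, ‖V (n + 1) - V n‖ ≤ lam (n + 1) - lam n := by
    intro n
    rw [hVd]
    apply fam_norm_le W (hdc n) (sub_nonneg.2 (hlamm n))
    intro t ht _
    calc (ct (lam (n + 1)) t - ct (lam n) t) ^ 2 * t
        = ((ct (lam (n + 1)) t - ct (lam n) t) * √t) ^ 2 := by rw [mul_pow, Real.sq_sqrt ht]
      _ ≤ (lam (n + 1) - lam n) ^ 2 := by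
          rw [sub_mul, ct_mul (hlam0 _), ct_mul (hlam0 _)]
          have h1 : 0 ≤ min (√t) (lam (n + 1)) - min (√t) (lam n) :=
            sub_nonneg.2 (min_le_min_left _ (hlamm n))
          refine pow_le_pow_left₀ h1 ?_ 2
          have := hlamm n
          have h9 := min_le_right (√t) (lam (n + 1))
          rcases le_total (√t) (lam n) with h' | h'
          · have e1 : min (√t) (lam n) = √t := min_eq_left h'
            have e2 : min (√t) (lam (n + 1)) = √t := min_eq_left (h'.trans this)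
            linarith
          · have e1 : min (√t) (lam n) = lam n := min_eq_right h'
            linarith
  have hnl : ‖W - V m‖ ≤ ‖W‖ := by
    rw [hVl]
    apply fam_norm_le W hlc (norm_nonneg _)
    intro t ht htW
    have h1 := ct_nonneg (hlam0 m) t
    have h2 := ct_le_one (hlam0 m) t
    have h3 : (1 - ct (lam m) t) ^ 2 ≤ 1 := by nlinarith
    calc (1 - ct (lam m) t) ^ 2 * t ≤ 1 * ‖W‖ ^ 2 := by gcongr
      _ = ‖W‖ ^ 2 := one_mul _
  -- bounds for the functional on each layer
  have hf0 : ‖f (V 0)‖ ≤ C * (1 / p * κ ^ (1 - p) + (1 - 1 / p) * (mom τ 1 W).toReal) := by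
    have h1 := hH (V 0) hm0f 1 one_pos
    rw [Real.one_rpow, Real.one_rpow, mul_one, mul_one] at h1
    refine h1.trans ?_
    have h2 : lam 0 = κ ^ (1 - p) := by simp [lam]
    rw [← h2]
    gcongr
  have hfn : ∀ n, ‖f (V (n + 1) - V n)‖ ≤ C * (1 / p * κ ^ (1 - p) * (ρ - 1) +
      (1 - 1 / p) * (β n * (mom τ 1 (V (n + 1) - V n)).toReal)) := by
    intro n
    have h1 := hH (V (n + 1) - V n) (hmnf n) (β n ^ (-p)) (Real.rpow_pos_of_pos (hβ0 n) _)
    rw [ht1, ht2] at h1
    refine h1.trans ?_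
    have h2 : (ρ ^ n)⁻¹ * (lam (n + 1) - lam n) = κ ^ (1 - p) * (ρ - 1) := by
      rw [hlams]
      simp only [lam]
      have : ρ ^ n ≠ 0 := by positivity
      field_simp
    have h3 : (ρ ^ n)⁻¹ * ‖V (n + 1) - V n‖ ≤ κ ^ (1 - p) * (ρ - 1) := by
      rw [← h2]
      have := hnn n
      gcongr
    apply mul_le_mul_of_nonneg_left _ hC
    have h4 : 0 < 1 / p := by positivity
    calc 1 / p * (ρ ^ n)⁻¹ * ‖V (n + 1) - V n‖ +
          (1 - 1 / p) * β n * (mom τ 1 (V (n + 1) - V n)).toReal
        = 1 / p * ((ρ ^ n)⁻¹ * ‖V (n + 1) - V n‖) +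
          (1 - 1 / p) * (β n * (mom τ 1 (V (n + 1) - V n)).toReal) := by ring
      _ ≤ 1 / p * (κ ^ (1 - p) * (ρ - 1)) +
          (1 - 1 / p) * (β n * (mom τ 1 (V (n + 1) - V n)).toReal) := by gcongr
      _ = _ := by ring
  have hfl : ‖f (W - V m)‖ ≤ C * (1 / p * (ρ ^ m)⁻¹ * ‖W‖ +
      (1 - 1 / p) * (β m * (mom τ 1 (W - V m)).toReal)) := by
    have h1 := hH (W - V m) hmlf (β m ^ (-p)) (Real.rpow_pos_of_pos (hβ0 m) _)
    rw [ht1, ht2] at h1
    refine h1.trans ?_
    apply mul_le_mul_of_nonneg_left _ hC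
    rw [mul_assoc (1 - 1 / p)]
    gcongr
  -- telescoping
  have htel : ∀ k : ℕ, ‖f (V k)‖ ≤ ‖f (V 0)‖ +
      ∑ n ∈ Finset.range k, ‖f (V (n + 1) - V n)‖ := by
    intro k
    induction k with
    | zero => simp
    | succ k ih =>
      rw [Finset.sum_range_succ]
      have h1 : f (V (k + 1)) = f (V k) + f (V (k + 1) - V k) := by
        rw [← hadd _ _ (hVf k) (hmnf k)]
        congr 1
        abel
      rw [h1]
      refine (norm_add_le _ _).trans ?_
      linarith
  have hfW : f W = f (V m) + f (W - V m) := by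
    rw [← hadd _ _ (hVf m) hmlf]
    congr 1
    abel
  -- the trace sum
  have hsum : ∑ n ∈ Finset.range m, β n * (mom τ 1 (V (n + 1) - V n)).toReal +
      β m * (mom τ 1 (W - V m)).toReal ≤ κ * (1 - 1 / p) * (mom τ P W).toReal := by
    have hWP : mom τ P W < ∞ := mom_lt_of_one W hW hP1.le
    -- use a sum over `range (m+1)`
    let g : ℕ → ℝ → ℝ := fun n t => if n = m then √t - min (√t) (lam m) else
      min (√t) (lam (n + 1)) - min (√t) (lam n)
    have hgc : ∀ n, Continuous (g n) := by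
      intro n
      by_cases h : n = m
      · have : g n = fun t => √t - min (√t) (lam m) := by funext t; simp [g, h]
        rw [this]; fun_prop
      · have : g n = fun t => min (√t) (lam (n + 1)) - min (√t) (lam n) := by
          funext t; simp [g, h]
        rw [this]; fun_prop
    have hg0 : ∀ n t, 0 ≤ g n t := by
      intro n t
      by_cases h : n = m
      · simp only [g, h, if_true]; exact sub_nonneg.2 (min_le_left _ _)
      · simp only [g, h, if_false]; exact sub_nonneg.2 (min_le_min_left _ (hlamm n))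
    have hgn : ∀ n ∈ Finset.range m, (mom τ 1 (V (n + 1) - V n)) = τ (cfc (g n) b) := by
      intro n hn
      have hne : n ≠ m := (Finset.mem_range.1 hn).ne
      have : g n = fun t => min (√t) (lam (n + 1)) - min (√t) (lam n) := by
        funext t; simp [g, hne]
      rw [hmn, this]
    have hgm : mom τ 1 (W - V m) = τ (cfc (g m) b) := by
      have : g m = fun t => √t - min (√t) (lam m) := by funext t; simp [g]
      rw [hml, this]
    have e1 : ∑ n ∈ Finset.range m, β n * (mom τ 1 (V (n + 1) - V n)).toReal +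
        β m * (mom τ 1 (W - V m)).toReal =
        ∑ n ∈ Finset.range (m + 1), β n * (τ (cfc (g n) b)).toReal := by
      rw [Finset.sum_range_succ, ← hgm]
      congr 1
      exact Finset.sum_congr rfl fun n hn => by rw [hgn n hn]
    rw [e1, tau_cfc_sum_toReal (Finset.range (m + 1)) W β g (fun n _ => (hβ0 n).le)
      (fun n _ => hgc n) (fun n _ t _ => hg0 n t)]
    · have h1 : τ (cfc (fun t => ∑ n ∈ Finset.range (m + 1), β n * g n t) b) ≤
          τ (cfc (fun t : ℝ => κ * (1 - 1 / p) * t ^ (P / 2)) b) := by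
        apply tau_cfc_mono W (continuous_finsetSum _ fun n _ => (hgc n).const_mul _).continuousOn
          ((continuous_pw hP0).const_mul _).continuousOn
        · intro t _
          exact Finset.sum_nonneg fun n _ => mul_nonneg (hβ0 n).le (hg0 n t)
        · intro t ht _
          have h2 := layer_scalar hP1.le lam hlam0 hlamm (Real.sqrt_nonneg t) m
          rw [Finset.sum_range_succ]
          have e2 : ∀ n ∈ Finset.range m, β n * g n t =
              κ * (lam n ^ (P - 1) * (min (√t) (lam (n + 1)) - min (√t) (lam n))) := by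
            intro n hn
            have hne : n ≠ m := (Finset.mem_range.1 hn).ne
            simp only [g, hne, if_false, β]; ring
          have e3 : β m * g m t = κ * (lam m ^ (P - 1) * (√t - min (√t) (lam m))) := by
            simp only [g, if_true, β]; ring
          rw [Finset.sum_congr rfl e2, e3, ← Finset.mul_sum, ← mul_add]
          have e4 : κ * (1 - 1 / p) * t ^ (P / 2) = κ * ((√t) ^ P / P) := by
            rw [hPinv, Real.sqrt_eq_rpow, ← Real.rpow_mul ht]
            have : 1 / 2 * P = P / 2 := by ring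
            rw [this]; ring
          rw [e4]
          gcongr
      rw [cfc_const_mul _ _ _ (continuous_pw hP0).continuousOn, τ.map_smul (by positivity)
        (cfc_nonneg fun t ht => by
          have := spec_nonneg W ht
          positivity)] at h1
      have h5 := ENNReal.toReal_mono (ENNReal.mul_lt_top ENNReal.ofReal_lt_top hWP).ne h1
      rwa [ENNReal.toReal_mul, ENNReal.toReal_ofReal (by positivity)] at h5
    · intro n hn
      rcases (Finset.mem_range_succ_iff.1 hn).eq_or_lt with h | h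
      · rw [h, ← hgm]; exact hmlf
      · rw [← hgn n (Finset.mem_range.2 h)]; exact hmnf n
  -- final assembly
  rw [hfW]
  have hS1 : ∑ n ∈ Finset.range m, ‖f (V (n + 1) - V n)‖ ≤
      C * (1 / p * κ ^ (1 - p) * (m * (ρ - 1)) + (1 - 1 / p) *
        ∑ n ∈ Finset.range m, β n * (mom τ 1 (V (n + 1) - V n)).toReal) := by
    calc _ ≤ ∑ n ∈ Finset.range m, C * (1 / p * κ ^ (1 - p) * (ρ - 1) +
          (1 - 1 / p) * (β n * (mom τ 1 (V (n + 1) - V n)).toReal)) :=
          Finset.sum_le_sum fun n _ => hfn n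
      _ = _ := by
          rw [← Finset.mul_sum, Finset.sum_add_distrib, Finset.sum_const, Finset.card_range,
            nsmul_eq_mul, ← Finset.mul_sum]
          ring
  have hT := htel m
  calc ‖f (V m) + f (W - V m)‖ ≤ ‖f (V m)‖ + ‖f (W - V m)‖ := norm_add_le _ _
    _ ≤ C * (1 / p * κ ^ (1 - p) + (1 - 1 / p) * (mom τ 1 W).toReal) +
        C * (1 / p * κ ^ (1 - p) * (m * (ρ - 1)) + (1 - 1 / p) *
        ∑ n ∈ Finset.range m, β n * (mom τ 1 (V (n + 1) - V n)).toReal) +
        C * (1 / p * (ρ ^ m)⁻¹ * ‖W‖ + (1 - 1 / p) * (β m * (mom τ 1 (W - V m)).toReal)) := by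
        linarith
    _ = C * (1 / p * κ ^ (1 - p) * (1 + m * (ρ - 1)) + (1 - 1 / p) * (mom τ 1 W).toReal +
        1 / p * (ρ ^ m)⁻¹ * ‖W‖ + (1 - 1 / p) *
        (∑ n ∈ Finset.range m, β n * (mom τ 1 (V (n + 1) - V n)).toReal +
          β m * (mom τ 1 (W - V m)).toReal)) := by ring
    _ ≤ C * (1 / p * κ ^ (1 - p) * (1 + m * (ρ - 1)) + (1 - 1 / p) * (mom τ 1 W).toReal +
        1 / p * (ρ ^ m)⁻¹ * ‖W‖ + (1 - 1 / p) * (κ * (1 - 1 / p) * (mom τ P W).toReal)) := by
        gcongr
    _ = _ := by ring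

end Pool.Agent.SKB
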