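import Mathlib
import Pool.Agent.SKB.Layer

/-!
# Optimised layer bound
-/

open scoped ENNReal NNReal ComplexOrder Topology
open Filter

namespace Pool.Agent.SKB

variable {A : Type*} [CStarAlgebra A] [PartialOrder A] [StarOrderedRing A] {τ : TraceWt A}

/-- **Layer bound**, with optimised parameters. -/
theorem layer_bound_opt {p : ℝ} (hp : 1 < p) {C : ℝ} (hC : 0 ≤ C) (f : A → ℂ)
    (hadd : ∀ x y, mom τ 1 x < ∞ → mom τ 1 y < ∞ → f (x + y) = f x + f y)
    (hH : ∀ w, mom τ 1 w < ∞ → ∀ t : ℝ, 0 < t →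
      ‖f w‖ ≤ C * (1 / p * t ^ (1 - 1 / p) * ‖w‖ +
        (1 - 1 / p) * t ^ (-(1 / p)) * (mom τ 1 w).toReal))
    (W : A) (hW : mom τ 1 W < ∞) (m : ℕ) (hm : 0 < m) {ε : ℝ} (hε : 0 < ε) :
    ‖f W‖ ≤ C * ((Real.exp (ε * (1 - 1 / p)) * (m * ε) ^ (1 / p) * (1 - 1 / p) +
        1 / p * (m * ε) ^ (-(1 - 1 / p))) * lqnrm τ (p / (p - 1)) W +
      (1 - 1 / p) * (mom τ 1 W).toReal +
      1 / p * Real.exp (-(m * ε * (1 - 1 / p))) * ‖W‖) := by
  have hp0 : 0 < p := by linarith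
  have hp1 : 0 < p - 1 := by linarith
  set P := p / (p - 1) with hP
  have hP1 : 1 < P := by rw [hP, lt_div_iff₀ hp1]; linarith
  have hP0 : 0 < P := by linarith
  have hPinv : 1 - 1 / p = 1 / P := by rw [hP]; field_simp
  have h1p : 0 < 1 - 1 / p := by rw [hPinv]; positivity
  set c := 1 - 1 / p with hc
  have hcP : c * P = 1 := by rw [hPinv]; field_simp
  have hpc : 1 / p = 1 - c := by rw [hc]; ring
  set R : ℝ := m * ε with hR
  have hm' : (0 : ℝ) < m := by exact_mod_cast hm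
  have hR0 : 0 < R := by positivity
  set ρ := Real.exp (ε * c) with hρ
  have hρ1 : 1 < ρ := by rw [hρ]; exact Real.one_lt_exp_iff.2 (by positivity)
  have hρm : (ρ ^ m)⁻¹ = Real.exp (-(R * c)) := by
    rw [hρ, ← Real.exp_nat_mul, ← Real.exp_neg]
    congr 1
    rw [hR]; ring
  have hρ2 : m * (ρ - 1) ≤ R * c * ρ := by
    have h1 : 1 - ε * c ≤ Real.exp (-(ε * c)) := by
      have := Real.add_one_le_exp (-(ε * c)); linarith
    have h2 : ρ * Real.exp (-(ε * c)) = 1 := by rw [hρ, ← Real.exp_add, add_neg_cancel, Real.exp_zero]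
    have h3 : ρ * (1 - ε * c) ≤ 1 := by
      calc ρ * (1 - ε * c) ≤ ρ * Real.exp (-(ε * c)) := by gcongr
        _ = 1 := h2
    have h4 : ρ - 1 ≤ ε * c * ρ := by linarith
    calc m * (ρ - 1) ≤ m * (ε * c * ρ) := by gcongr
      _ = R * c * ρ := by rw [hR]; ring
  set L := lqnrm τ P W with hL
  have hL0 : 0 ≤ L := lqnrm_nonneg _ _
  set M := (mom τ P W).toReal with hM
  have hM0 : 0 ≤ M := ENNReal.toReal_nonneg
  have hML : M = L ^ P := by
    rw [hL]; unfold lqnrm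
    rw [← Real.rpow_mul hM0, one_div, inv_mul_cancel₀ hP0.ne', Real.rpow_one]
  have key : ∀ η : ℝ, 0 < η → ‖f W‖ ≤ C * ((ρ * R ^ (1 / p) * c + 1 / p * R ^ (-c)) * (L + η) +
      c * (mom τ 1 W).toReal + 1 / p * Real.exp (-(R * c)) * ‖W‖) := by
    intro η hη
    set ω := L + η with hω
    have hω0 : 0 < ω := by positivity
    set κ := R ^ (1 / p) * ω ^ (1 - P) with hκ
    have hκ0 : 0 < κ := by positivity
    have h1 := layer_bound hp hC f hadd hH W hW m hρ1 hκ0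
    refine h1.trans (mul_le_mul_of_nonneg_left ?_ hC)
    have e1 : κ ^ (1 - p) = R ^ (-c) * ω := by
      rw [hκ, Real.mul_rpow (by positivity) (by positivity), ← Real.rpow_mul hR0.le,
        ← Real.rpow_mul hω0.le]
      have e2 : 1 / p * (1 - p) = -c := by rw [hc]; field_simp; ring
      have e3 : (1 - P) * (1 - p) = 1 := by rw [hP]; field_simp; ring
      rw [e2, e3, Real.rpow_one]
    have e4 : κ * (1 - 1 / p) ^ 2 * (mom τ (p / (p - 1)) W).toReal ≤ R ^ (1 / p) * ω * c ^ 2 := by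
      change κ * c ^ 2 * M ≤ _
      have h2 : M ≤ ω ^ P := by
        rw [hML]
        exact Real.rpow_le_rpow hL0 (by rw [hω]; linarith) hP0.le
      have h3 : ω ^ (1 - P) * ω ^ P = ω := by
        rw [← Real.rpow_add hω0]; simp
      calc κ * c ^ 2 * M ≤ κ * c ^ 2 * ω ^ P := by gcongr
        _ = R ^ (1 / p) * (ω ^ (1 - P) * ω ^ P) * c ^ 2 := by rw [hκ]; ring
        _ = _ := by rw [h3]
    have e5 : 1 / p * κ ^ (1 - p) * (1 + m * (ρ - 1)) ≤
        1 / p * R ^ (-c) * ω + 1 / p * (R ^ (1 / p) * ω * c * ρ) := by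
      rw [e1]
      have h4 : R ^ (-c) * R = R ^ (1 / p) := by
        nth_rewrite 2 [← Real.rpow_one R]
        rw [← Real.rpow_add hR0, hpc]; congr 1; ring
      calc 1 / p * (R ^ (-c) * ω) * (1 + m * (ρ - 1))
          ≤ 1 / p * (R ^ (-c) * ω) * (1 + R * c * ρ) := by gcongr
        _ = 1 / p * R ^ (-c) * ω + 1 / p * ((R ^ (-c) * R) * ω * c * ρ) := by ring
        _ = _ := by rw [h4]
    have e6 : R ^ (1 / p) * ω * c ^ 2 ≤ R ^ (1 / p) * ω * c ^ 2 * ρ := by
      have : 0 ≤ R ^ (1 / p) * ω * c ^ 2 := by positivity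
      nlinarith
    have e7 : 1 / p * (R ^ (1 / p) * ω * c * ρ) + R ^ (1 / p) * ω * c ^ 2 * ρ =
        ρ * R ^ (1 / p) * c * ω := by
      rw [hpc]; ring
    rw [hρm]
    have e8 : (ρ * R ^ (1 / p) * c + 1 / p * R ^ (-c)) * ω =
        ρ * R ^ (1 / p) * c * ω + 1 / p * R ^ (-c) * ω := by ring
    rw [e8]
    linarith
  set D := C * (ρ * R ^ (1 / p) * c + 1 / p * R ^ (-c)) with hD
  have hD0 : 0 ≤ D := by positivity
  apply le_of_forall_pos_le_add
  intro e he
  have h1 := key (e / (D + 1)) (by positivity)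
  have h2 : D * (e / (D + 1)) ≤ e := by
    rw [mul_div_assoc', div_le_iff₀ (by positivity)]
    nlinarith
  calc ‖f W‖ ≤ _ := h1
    _ = C * ((ρ * R ^ (1 / p) * c + 1 / p * R ^ (-c)) * L +
      c * (mom τ 1 W).toReal + 1 / p * Real.exp (-(R * c)) * ‖W‖) + D * (e / (D + 1)) := by
        rw [hD]; ring
    _ ≤ _ := by gcongr

end Pool.Agent.SKB
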