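import Mathlib
import Pool.Agent.SKB.LayerOpt

/-!
# Homogeneous functionals: the pairing inequality
-/

open scoped ENNReal NNReal ComplexOrder Topology
open Filter

namespace Pool.Agent.SKB

variable {A : Type*} [CStarAlgebra A] [PartialOrder A] [StarOrderedRing A] {τ : TraceWt A}

lemma map_sum_of {f : A → ℂ}
    (hadd : ∀ x y, mom τ 1 x < ∞ → mom τ 1 y < ∞ → f (x + y) = f x + f y)
    (hsmul : ∀ (c : ℂ) x, mom τ 1 x < ∞ → f (c • x) = c * f x)
    {ι : Type*} (s : Finset ι) (c : ι → ℂ) (w : ι → A) (hw : ∀ i ∈ s, mom τ 1 (w i) < ∞) :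
    f (∑ i ∈ s, c i • w i) = ∑ i ∈ s, c i * f (w i) := by
  classical
  induction s using Finset.induction_on with
  | empty =>
    have h := hsmul 0 0 (by rw [mom_zero one_pos]; exact ENNReal.zero_lt_top)
    simpa using h
  | insert a s has ih =>
    rw [Finset.sum_insert has, Finset.sum_insert has,
      hadd _ _ (mom_smul_lt le_rfl (hw a (Finset.mem_insert_self a s)) _)
      (mom_finset_sum_lt le_rfl _ _ _ fun i hi => hw i (Finset.mem_insert_of_mem hi)),
      hsmul _ _ (hw a (Finset.mem_insert_self a s)),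
      ih fun i hi => hw i (Finset.mem_insert_of_mem hi)]

lemma mom_one_sum_le {ι : Type*} (s : Finset ι) (c : ι → ℂ) (w : ι → A)
    (hw : ∀ i ∈ s, mom τ 1 (w i) < ∞) :
    (mom τ 1 (∑ i ∈ s, c i • w i)).toReal ≤ ∑ i ∈ s, ‖c i‖ * (mom τ 1 (w i)).toReal := by
  classical
  induction s using Finset.induction_on with
  | empty =>
    rw [Finset.sum_empty, Finset.sum_empty, mom_zero one_pos, ENNReal.toReal_zero]
  | insert a s has ih =>
    rw [Finset.sum_insert has, Finset.sum_insert has]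
    have h1 := hw a (Finset.mem_insert_self a s)
    have h2 := ih fun i hi => hw i (Finset.mem_insert_of_mem hi)
    have h3 := lqnrm_add_le (τ := τ) le_rfl (mom_smul_lt le_rfl h1 (c a))
      (mom_finset_sum_lt le_rfl s c w fun i hi => hw i (Finset.mem_insert_of_mem hi))
    have h4 := lqnrm_smul_le (τ := τ) le_rfl h1 (c a)
    simp only [lqnrm_one] at h3 h4
    linarith

omit [PartialOrder A] [StarOrderedRing A] in
lemma norm_sum_smul_le' {ι : Type*} (s : Finset ι) (c : ι → ℂ) (w : ι → A) :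
    ‖∑ i ∈ s, c i • w i‖ ≤ ∑ i ∈ s, ‖c i‖ * ‖w i‖ := by
  refine (norm_sum_le _ _).trans (Finset.sum_le_sum fun i _ => ?_)
  rw [norm_smul]

lemma sum_exp_le {c ε : ℝ} (hc : 0 < c) (m : ℕ) :
    ∑ i ∈ Finset.range m, ε * Real.exp (i * ε * c) ≤ Real.exp (m * ε * c) / c := by
  have h1 : ∀ i : ℕ, ε * Real.exp (i * ε * c) ≤
      Real.exp (((i + 1 : ℕ) : ℝ) * ε * c) / c - Real.exp (i * ε * c) / c := by
    intro i
    have h2 := Real.add_one_le_exp (ε * c)
    have h3 : Real.exp (((i + 1 : ℕ) : ℝ) * ε * c) = Real.exp (i * ε * c) * Real.exp (ε * c) := by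
      rw [← Real.exp_add]; congr 1; push_cast; ring
    rw [h3, ← sub_div, le_div_iff₀ hc]
    have h4 := Real.exp_pos (i * ε * c)
    nlinarith
  calc ∑ i ∈ Finset.range m, ε * Real.exp (i * ε * c)
      ≤ ∑ i ∈ Finset.range m, (Real.exp (((i + 1 : ℕ) : ℝ) * ε * c) / c -
        Real.exp (i * ε * c) / c) := Finset.sum_le_sum fun i _ => h1 i
    _ = Real.exp (m * ε * c) / c - Real.exp ((0 : ℕ) * ε * c) / c :=
        Finset.sum_range_sub (fun i : ℕ => Real.exp (i * ε * c) / c) m
    _ ≤ _ := by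
        have : 0 ≤ Real.exp ((0 : ℕ) * ε * c) / c := by positivity
        linarith

lemma sum_exp_neg_le {d ε : ℝ} (hd : 0 < d) (hε : 0 < ε) (m : ℕ) :
    ∑ i ∈ Finset.range m, Real.exp (-(i * ε * d)) ≤ (1 - Real.exp (-(ε * d)))⁻¹ := by
  have h0 : Real.exp (-(ε * d)) < 1 := by
    rw [Real.exp_lt_one_iff]
    have : 0 < ε * d := by positivity
    linarith
  have h1 : ∀ i : ℕ, Real.exp (-(i * ε * d)) = Real.exp (-(ε * d)) ^ i := by
    intro i
    rw [← Real.exp_nat_mul]; congr 1; ring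
  simp only [h1]
  exact geom_sum_le_inv_one_sub' (Real.exp_pos _).le h0 m
where
  geom_sum_le_inv_one_sub' {x : ℝ} (hx0 : 0 ≤ x) (hx1 : x < 1) (m : ℕ) :
      ∑ i ∈ Finset.range m, x ^ i ≤ (1 - x)⁻¹ := by
    have h := mul_neg_geom_sum x m
    have h2 : 0 < 1 - x := by linarith
    rw [← one_div, le_div_iff₀ h2, mul_comm, h]
    have : 0 ≤ x ^ m := pow_nonneg hx0 m
    linarith

/-- The pairing inequality for homogeneous functionals. -/
theorem assembly {ι κ : Type} [Fintype ι] [Fintype κ] {a : κ → ι → ℂ} {r s : ℝ}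
    (hr : 0 ≤ r) (hs : 0 ≤ s) (hreg : RegLe a r) (hop : OpLe a s) {p : ℝ} (hp : 1 < p)
    (f : κ → A → ℂ) (C : κ → ℝ) (hC : ∀ k, 0 ≤ C k)
    (hadd : ∀ k x y, mom τ 1 x < ∞ → mom τ 1 y < ∞ → f k (x + y) = f k x + f k y)
    (hsmul : ∀ k (c : ℂ) x, mom τ 1 x < ∞ → f k (c • x) = c * f k x)
    (hH : ∀ k w, mom τ 1 w < ∞ → ∀ t : ℝ, 0 < t →
      ‖f k w‖ ≤ C k * (1 / p * t ^ (1 - 1 / p) * ‖w‖ +
        (1 - 1 / p) * t ^ (-(1 / p)) * (mom τ 1 w).toReal))
    (g : ℝ → A → A) (hgf : ∀ t w, mom τ 1 w < ∞ → mom τ 1 (g t w) < ∞)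
    (hgn : ∀ t w, ‖g t w‖ ≤ ‖w‖)
    (hg1 : ∀ t w, mom τ 1 w < ∞ → (mom τ 1 (g t w)).toReal ≤ Real.exp (-t) * (mom τ 1 w).toReal)
    (hfg : ∀ k t w, mom τ 1 w < ∞ →
      f k (g t w) = (Real.exp (-(t * (1 - 1 / p))) : ℝ) * f k w)
    (y : ι → A) (hy : ∀ j, mom τ 1 (y j) < ∞) (B : ι → ℝ) (hB : ∀ j, 0 < B j)
    (hyn : ∀ j, ‖y j‖ ≤ B j) (hy1 : ∀ j, (mom τ 1 (y j)).toReal ≤ B j) :
    ‖∑ k, f k (∑ j, a k j • y j)‖ ≤
      s ^ vt (p / (p - 1)) * r ^ (1 - vt (p / (p - 1))) * √(∑ k, C k ^ 2) * √(∑ j, B j ^ 2) := by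
  have hp0 : 0 < p := by linarith
  have hp1 : 0 < p - 1 := by linarith
  set P := p / (p - 1) with hP
  have hP1 : 1 < P := by rw [hP, lt_div_iff₀ hp1]; linarith
  have hP0 : 0 < P := by linarith
  have hPinv : 1 - 1 / p = 1 / P := by rw [hP]; field_simp
  have h1p : 0 < 1 - 1 / p := by rw [hPinv]; positivity
  set c := 1 - 1 / p with hc
  have hcP : c * P = 1 := by rw [hPinv]; field_simp
  set S := s ^ vt P * r ^ (1 - vt P) with hS
  have hS0 : 0 ≤ S := by positivity
  set Q := S * √(∑ k, C k ^ 2) * √(∑ j, B j ^ 2) with hQ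
  have hQ0 : 0 ≤ Q := by positivity
  set Lhs := ‖∑ k, f k (∑ j, a k j • y j)‖ with hLhs
  -- main estimate for fixed `ε`, `m`
  have main : ∀ ε : ℝ, 0 < ε → ∃ D : ℝ, ∀ m : ℕ, 0 < m →
      (m * ε) * Lhs ≤ Real.exp (ε * c * (1 + 1 / p)) * Q * (m * ε) + D := by
    intro ε hε
    set Γ := ε * (1 - Real.exp (-(ε * (1 / p))))⁻¹ with hΓ
    set D1 : κ → ℝ := fun k => ∑ j, ‖a k j‖ * (B j * Γ) with hD1
    set D2 : κ → ℝ := fun k => ∑ j, ‖a k j‖ * (B j / c) with hD2
    refine ⟨∑ k, C k * (c * D1 k + 1 / p * D2 k) + 1 / p * P * Real.exp (ε * c / p) * Q, ?_⟩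
    intro m hm
    have hm' : (0 : ℝ) < m := by exact_mod_cast hm
    set R : ℝ := m * ε with hR
    have hR0 : 0 < R := by positivity
    let Y : ι → A := fun j => ∑ i ∈ Finset.range m, ((ε * Real.exp (i * ε * c) : ℝ) : ℂ) • g (i * ε) (y j)
    have hwf : ∀ j (i : ℕ), mom τ 1 (g (i * ε) (y j)) < ∞ := fun j i => hgf _ _ (hy j)
    have hYf : ∀ j, mom τ 1 (Y j) < ∞ := fun j => mom_finset_sum_lt le_rfl _ _ _ fun i _ => hwf j i
    have hYPf : ∀ j, mom τ P (Y j) < ∞ := fun j => mom_lt_of_one _ (hYf j) hP1.le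
    let W : κ → A := fun k => ∑ j, a k j • Y j
    have hWf : ∀ k, mom τ 1 (W k) < ∞ := fun k => mom_finset_sum_lt le_rfl _ _ _ fun j _ => hYf j
    -- values of the functionals
    have hfY : ∀ k j, f k (Y j) = (R : ℂ) * f k (y j) := by
      intro k j
      simp only [Y]
      rw [map_sum_of (hadd k) (hsmul k) _ _ _ fun i _ => hwf j i]
      have : ∀ i ∈ Finset.range m, ((ε * Real.exp (i * ε * c) : ℝ) : ℂ) * f k (g (i * ε) (y j)) =
          (ε : ℂ) * f k (y j) := by
        intro i _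
        rw [hfg k _ _ (hy j), ← mul_assoc, ← Complex.ofReal_mul, mul_assoc ε, ← Real.exp_add,
          add_neg_cancel, Real.exp_zero, mul_one]
      rw [Finset.sum_congr rfl this, Finset.sum_const, Finset.card_range, nsmul_eq_mul, hR]
      push_cast; ring
    have hfW : ∑ k, f k (W k) = (R : ℂ) * ∑ k, f k (∑ j, a k j • y j) := by
      rw [Finset.mul_sum]
      refine Finset.sum_congr rfl fun k _ => ?_
      simp only [W]
      rw [map_sum_of (hadd k) (hsmul k) _ _ _ fun j _ => hYf j,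
        map_sum_of (hadd k) (hsmul k) _ _ _ fun j _ => hy j, Finset.mul_sum]
      refine Finset.sum_congr rfl fun j _ => ?_
      rw [hfY]; ring
    -- bounds on `Y`
    have hYP : ∀ j, lqnrm τ P (Y j) ≤ B j * (P * (Real.exp (ε * c / p) * R ^ c)) := by
      intro j
      have h1 := synth_bound (τ := τ) hp hε (hB j) m hm (fun i => g (i * ε) (y j)) (hwf j)
        (fun i => (hgn _ _).trans (hyn j)) (fun i => (hg1 _ _ (hy j)).trans (by gcongr; exact hy1 j))
      have h2 : (mom τ P (Y j)).toReal ≤ (B j * P) ^ P * Real.exp (ε / p) * R := by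
        have hBj := (hB j).le
        have := ENNReal.toReal_mono ENNReal.ofReal_ne_top h1
        rwa [ENNReal.toReal_ofReal (by positivity)] at this
      have hBj := (hB j).le
      calc lqnrm τ P (Y j) = (mom τ P (Y j)).toReal ^ (1 / P) := rfl
        _ ≤ ((B j * P) ^ P * Real.exp (ε / p) * R) ^ (1 / P) := by gcongr
        _ = B j * (P * (Real.exp (ε * c / p) * R ^ c)) := by
            rw [Real.mul_rpow (by positivity) (by positivity),
              Real.mul_rpow (by positivity) (by positivity), ← Real.rpow_mul (by positivity),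
              ← Real.exp_mul, ← hPinv]
            have : P * c = 1 := by rw [mul_comm]; exact hcP
            rw [this, Real.rpow_one]
            have e : ε / p * c = ε * c / p := by ring
            rw [e]; ring
    have hYn : ∀ j, ‖Y j‖ ≤ B j / c * Real.exp (R * c) := by
      intro j
      calc ‖Y j‖ ≤ ∑ i ∈ Finset.range m, ‖((ε * Real.exp (i * ε * c) : ℝ) : ℂ)‖ * ‖g (i * ε) (y j)‖ :=
            norm_sum_smul_le' _ _ _
        _ ≤ ∑ i ∈ Finset.range m, (ε * Real.exp (i * ε * c)) * B j := by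
            refine Finset.sum_le_sum fun i _ => ?_
            rw [Complex.norm_real, Real.norm_of_nonneg (by positivity)]
            have := (hgn (i * ε) (y j)).trans (hyn j)
            gcongr
        _ = (∑ i ∈ Finset.range m, ε * Real.exp (i * ε * c)) * B j := by rw [Finset.sum_mul]
        _ ≤ (Real.exp (m * ε * c) / c) * B j := by
            have := sum_exp_le (ε := ε) h1p m
            have hBj := (hB j).le
            gcongr
        _ = _ := by rw [hR]; ring
    have hY1 : ∀ j, (mom τ 1 (Y j)).toReal ≤ B j * Γ := by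
      intro j
      calc (mom τ 1 (Y j)).toReal
          ≤ ∑ i ∈ Finset.range m, ‖((ε * Real.exp (i * ε * c) : ℝ) : ℂ)‖ *
            (mom τ 1 (g (i * ε) (y j))).toReal := mom_one_sum_le _ _ _ fun i _ => hwf j i
        _ ≤ ∑ i ∈ Finset.range m, B j * ε * Real.exp (-(i * ε * (1 / p))) := by
            refine Finset.sum_le_sum fun i _ => ?_
            rw [Complex.norm_real, Real.norm_of_nonneg (by positivity)]
            have h1 : (mom τ 1 (g (i * ε) (y j))).toReal ≤ Real.exp (-(i * ε)) * B j :=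
              (hg1 _ _ (hy j)).trans (by gcongr; exact hy1 j)
            calc ε * Real.exp (i * ε * c) * (mom τ 1 (g (i * ε) (y j))).toReal
                ≤ ε * Real.exp (i * ε * c) * (Real.exp (-(i * ε)) * B j) := by gcongr
              _ = B j * ε * (Real.exp (i * ε * c) * Real.exp (-(i * ε))) := by ring
              _ = _ := by
                  rw [← Real.exp_add]
                  congr 2
                  rw [hc]; ring
        _ = B j * ε * ∑ i ∈ Finset.range m, Real.exp (-(i * ε * (1 / p))) := by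
            rw [Finset.mul_sum]
        _ ≤ B j * ε * (1 - Real.exp (-(ε * (1 / p))))⁻¹ := by
            have := sum_exp_neg_le (d := 1 / p) (by positivity) hε m
            have hBj := (hB j).le
            gcongr
        _ = _ := by rw [hΓ]; ring
    -- bounds on `W`
    have hWn : ∀ k, ‖W k‖ ≤ D2 k * Real.exp (R * c) := by
      intro k
      refine (norm_sum_smul_le' _ _ _).trans ?_
      rw [hD2, Finset.sum_mul]
      refine Finset.sum_le_sum fun j _ => ?_
      rw [mul_assoc]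
      have := hYn j
      gcongr
    have hW1 : ∀ k, (mom τ 1 (W k)).toReal ≤ D1 k := by
      intro k
      refine (mom_one_sum_le _ _ _ fun j _ => hYf j).trans ?_
      refine Finset.sum_le_sum fun j _ => ?_
      have := hY1 j
      gcongr
    have hWP := (lqnrm_matrix (τ := τ) hr hs hreg hop Y hP1.le hYPf).2
    -- the layer bound
    have hlay : ∀ k, ‖f k (W k)‖ ≤ (Real.exp (ε * c) * R ^ (1 / p) * c + 1 / p * R ^ (-c)) *
        (C k * lqnrm τ P (W k)) + C k * (c * D1 k + 1 / p * D2 k) := by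
      intro k
      have h1 := layer_bound_opt (τ := τ) hp (hC k) (f k) (hadd k) (hH k) (W k) (hWf k) m hm hε
      refine h1.trans ?_
      have h2 : 1 / p * Real.exp (-(R * c)) * ‖W k‖ ≤ 1 / p * D2 k := by
        calc 1 / p * Real.exp (-(R * c)) * ‖W k‖
            ≤ 1 / p * Real.exp (-(R * c)) * (D2 k * Real.exp (R * c)) := by
              have := hWn k
              gcongr
          _ = 1 / p * D2 k * (Real.exp (-(R * c)) * Real.exp (R * c)) := by ring
          _ = 1 / p * D2 k := by rw [← Real.exp_add, neg_add_cancel, Real.exp_zero, mul_one]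
      have h3 : c * (mom τ 1 (W k)).toReal ≤ c * D1 k := by
        have := hW1 k
        gcongr
      have h4 := hC k
      calc C k * ((Real.exp (ε * c) * R ^ (1 / p) * c + 1 / p * R ^ (-c)) * lqnrm τ P (W k) +
            c * (mom τ 1 (W k)).toReal + 1 / p * Real.exp (-(R * c)) * ‖W k‖)
          ≤ C k * ((Real.exp (ε * c) * R ^ (1 / p) * c + 1 / p * R ^ (-c)) * lqnrm τ P (W k) +
            c * D1 k + 1 / p * D2 k) := by gcongr
        _ = _ := by ring
    -- Cauchy–Schwarz and the matrix inequality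
    have hCS : ∑ k, C k * lqnrm τ P (W k) ≤ P * (Real.exp (ε * c / p) * R ^ c) * Q := by
      have h5 : √(∑ j, lqnrm τ P (Y j) ^ 2) ≤ P * (Real.exp (ε * c / p) * R ^ c) * √(∑ j, B j ^ 2) := by
        have hk0 : 0 ≤ P * (Real.exp (ε * c / p) * R ^ c) := by positivity
        rw [← Real.sqrt_sq hk0, ← Real.sqrt_mul (sq_nonneg _)]
        apply Real.sqrt_le_sqrt
        rw [Finset.mul_sum]
        refine Finset.sum_le_sum fun j _ => ?_
        rw [← mul_pow]
        have h6 := hYP j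
        have h7 := lqnrm_nonneg (τ := τ) P (Y j)
        calc lqnrm τ P (Y j) ^ 2 ≤ (B j * (P * (Real.exp (ε * c / p) * R ^ c))) ^ 2 := by gcongr
          _ = _ := by ring
      calc ∑ k, C k * lqnrm τ P (W k)
          ≤ √(∑ k, C k ^ 2) * √(∑ k, lqnrm τ P (W k) ^ 2) := Real.sum_mul_le_sqrt_mul_sqrt _ _ _
        _ ≤ √(∑ k, C k ^ 2) * (S * (P * (Real.exp (ε * c / p) * R ^ c) * √(∑ j, B j ^ 2))) := by
            gcongr
            exact hWP.trans (by gcongr)
        _ = _ := by rw [hQ]; ring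
    have hfin : R * Lhs = ‖∑ k, f k (W k)‖ := by
      rw [hfW, norm_mul, Complex.norm_real, Real.norm_of_nonneg hR0.le]
    rw [hfin]
    have hRR : R ^ (1 / p) * R ^ c = R := by
      rw [← Real.rpow_add hR0, hc]; simp
    have hRR' : R ^ (-c) * R ^ c = 1 := by
      rw [← Real.rpow_add hR0]; simp
    calc ‖∑ k, f k (W k)‖ ≤ ∑ k, ‖f k (W k)‖ := norm_sum_le _ _
      _ ≤ ∑ k, ((Real.exp (ε * c) * R ^ (1 / p) * c + 1 / p * R ^ (-c)) *
        (C k * lqnrm τ P (W k)) + C k * (c * D1 k + 1 / p * D2 k)) :=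
          Finset.sum_le_sum fun k _ => hlay k
      _ = (Real.exp (ε * c) * R ^ (1 / p) * c + 1 / p * R ^ (-c)) * (∑ k, C k * lqnrm τ P (W k)) +
          ∑ k, C k * (c * D1 k + 1 / p * D2 k) := by
          rw [Finset.sum_add_distrib, Finset.mul_sum]
      _ ≤ (Real.exp (ε * c) * R ^ (1 / p) * c + 1 / p * R ^ (-c)) *
          (P * (Real.exp (ε * c / p) * R ^ c) * Q) + ∑ k, C k * (c * D1 k + 1 / p * D2 k) := by
          gcongr
      _ = Real.exp (ε * c) * Real.exp (ε * c / p) * (c * P) * (R ^ (1 / p) * R ^ c) * Q +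
          1 / p * P * Real.exp (ε * c / p) * (R ^ (-c) * R ^ c) * Q +
          ∑ k, C k * (c * D1 k + 1 / p * D2 k) := by ring
      _ = Real.exp (ε * c * (1 + 1 / p)) * Q * R +
          (∑ k, C k * (c * D1 k + 1 / p * D2 k) + 1 / p * P * Real.exp (ε * c / p) * Q) := by
          rw [hRR, hRR', hcP, ← Real.exp_add]
          have : ε * c + ε * c / p = ε * c * (1 + 1 / p) := by ring
          rw [this]; ring
  -- limit `m → ∞`
  have step1 : ∀ ε : ℝ, 0 < ε → Lhs ≤ Real.exp (ε * c * (1 + 1 / p)) * Q := by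
    intro ε hε
    obtain ⟨D, hD⟩ := main ε hε
    have h1 : ∀ m : ℕ, 0 < m → Lhs ≤ Real.exp (ε * c * (1 + 1 / p)) * Q + D / ε * (1 / m) := by
      intro m hm
      have hm' : (0 : ℝ) < m := by exact_mod_cast hm
      have h2 := hD m hm
      have h3 : 0 < m * ε := by positivity
      have h4 : Lhs ≤ (Real.exp (ε * c * (1 + 1 / p)) * Q * (m * ε) + D) / (m * ε) := by
        rw [le_div_iff₀ h3, mul_comm]; exact h2
      refine h4.trans (le_of_eq ?_)
      field_simp
    have hlim : Tendsto (fun m : ℕ => Real.exp (ε * c * (1 + 1 / p)) * Q + D / ε * (1 / (m : ℝ)))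
        atTop (𝓝 (Real.exp (ε * c * (1 + 1 / p)) * Q + D / ε * 0)) :=
      (tendsto_one_div_atTop_nhds_zero_nat.const_mul (D / ε)).const_add _
    rw [mul_zero, add_zero] at hlim
    refine ge_of_tendsto hlim ?_
    filter_upwards [eventually_gt_atTop 0] with m hm
    exact h1 m hm
  have hlim : Tendsto (fun ε : ℝ => Real.exp (ε * c * (1 + 1 / p)) * Q) (𝓝[>] 0)
      (𝓝 (Real.exp (0 * c * (1 + 1 / p)) * Q)) :=
    Tendsto.mono_left (Continuous.tendsto (by fun_prop) 0) nhdsWithin_le_nhds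
  rw [zero_mul, zero_mul, Real.exp_zero, one_mul] at hlim
  refine ge_of_tendsto hlim ?_
  filter_upwards [self_mem_nhdsWithin] with ε hε
  exact step1 ε hε

end Pool.Agent.SKB
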