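import Mathlib
import Pool.Agent.SKB.Lp

/-!
# Haagerup's `L^p` spaces, as spaces of homogeneous functionals: definitions
-/

open scoped ENNReal NNReal ComplexOrder Topology
open Filter

namespace Pool.Agent.SKB

universe u

variable {M : Type u} [CStarAlgebra M] [PartialOrder M] [StarOrderedRing M]

/-- `{y ∈ M : τ(|y|) < ∞}`. -/
def tcDom (τ : NSFTrace M) : Submodule ℂ M where
  carrier := {y | τ.toFun (absPow 1 y) < ∞}
  add_mem' := fun hx hy => mom_add_lt (τ := τ.wt) le_rfl hx hy
  zero_mem' := by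
    change mom τ.wt 1 0 < ∞
    rw [mom_zero one_pos]
    exact ENNReal.zero_lt_top
  smul_mem' := fun c _ hx => mom_smul_lt (τ := τ.wt) le_rfl hx c

/-- `L^1(M,τ) ∩ M = {y ∈ M : τ(|y|) < ∞}` with the norm `max (‖y‖, τ(|y|))`. -/
def TC (τ : NSFTrace M) : Type u := tcDom τ

variable (τ : NSFTrace M)

noncomputable instance : AddCommGroup (TC τ) := (inferInstance : AddCommGroup (tcDom τ))
noncomputable instance : Module ℂ (TC τ) := (inferInstance : Module ℂ (tcDom τ))

/-- The underlying element of the algebra. -/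
def TC.val {τ : NSFTrace M} (y : TC τ) : M := (show tcDom τ from y).1

/-- The norm `max (‖y‖, τ(|y|))`. -/
noncomputable def tcNorm (y : M) : ℝ := max ‖y‖ (τ.toFun (absPow 1 y)).toReal

lemma tcNorm_eq (y : M) : tcNorm τ y = max ‖y‖ (lqnrm τ.wt 1 y) := by
  rw [lqnrm_one]; rfl

noncomputable instance : NormedAddCommGroup (TC τ) :=
  AddGroupNorm.toNormedAddCommGroup
    { toFun := fun y => tcNorm τ y.val
      map_zero' := by
        rw [tcNorm_eq]
        change max ‖(0 : M)‖ (lqnrm τ.wt 1 (0 : M)) = 0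
        rw [norm_zero, lqnrm_zero one_pos, max_self]
      add_le' := fun x y => by
        simp only [tcNorm_eq]
        change max ‖x.val + y.val‖ (lqnrm τ.wt 1 (x.val + y.val)) ≤ _
        refine max_le ((norm_add_le _ _).trans (add_le_add (le_max_left _ _) (le_max_left _ _)))
          ((lqnrm_add_le (τ := τ.wt) le_rfl (show tcDom τ from x).2 (show tcDom τ from y).2).trans
            (add_le_add (le_max_right _ _) (le_max_right _ _)))
      neg' := fun x => by
        change max ‖-x.val‖ (τ.toFun (absPow 1 (-x.val))).toReal =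
          max ‖x.val‖ (τ.toFun (absPow 1 x.val)).toReal
        unfold absPow
        simp
      eq_zero_of_map_eq_zero' := fun x hx => by
        have h1 : ‖x.val‖ ≤ 0 := (le_max_left _ _).trans hx.le
        exact Subtype.ext (norm_le_zero_iff.1 h1) }

noncomputable instance : NormedSpace ℂ (TC τ) where
  norm_smul_le := fun c x => by
    change tcNorm τ (c • x.val) ≤ ‖c‖ * tcNorm τ x.val
    simp only [tcNorm_eq]
    refine max_le ?_ ?_
    · rw [norm_smul]
      have := le_max_left ‖x.val‖ (lqnrm τ.wt 1 x.val)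
      gcongr
    · refine (lqnrm_smul_le (τ := τ.wt) le_rfl (show tcDom τ from x).2 c).trans ?_
      exact mul_le_mul_of_nonneg_left (le_max_right ‖x.val‖ (lqnrm τ.wt 1 x.val)) (norm_nonneg c)

/-- A one-parameter group `θ` of *-automorphisms with `τ ∘ θ_s = e^{-s} τ`, like the dual action on
the core of a von Neumann algebra. -/
structure ScalingFlow (τ : NSFTrace M) where
  /-- the automorphisms -/
  toFun : ℝ → (M ≃⋆ₐ[ℂ] M)
  map_add' : ∀ s t x, toFun (s + t) x = toFun s (toFun t x)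
  scaling' : ∀ (s : ℝ) (a : M), 0 ≤ a →
    τ.toFun (toFun s a) = ENNReal.ofReal (Real.exp (-s)) * τ.toFun a

variable {τ}

/-- The dual space of `TC τ`. -/
def TCDual (τ : NSFTrace M) : Type u := TC τ →L[ℂ] ℂ

noncomputable instance : NormedAddCommGroup (TCDual τ) :=
  (inferInstance : NormedAddCommGroup (TC τ →L[ℂ] ℂ))
noncomputable instance : NormedSpace ℂ (TCDual τ) :=
  (inferInstance : NormedSpace ℂ (TC τ →L[ℂ] ℂ))

/-- The functional as a function on `TC τ`. -/
noncomputable def TCDual.app (ξ : TCDual τ) (y : TC τ) : ℂ := (show TC τ →L[ℂ] ℂ from ξ) y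

/-- `ξ(θ_s y) = e^{-s(1-1/p)} ξ(y)` for all `s`, `y`. -/
def IsHom (θ : ScalingFlow τ) (p : ℝ) (ξ : TC τ → ℂ) : Prop :=
  ∀ (s : ℝ) (y z : TC τ), z.val = θ.toFun s y.val → ξ z = (Real.exp (-(s * (1 - 1 / p))) : ℝ) * ξ y

lemma IsHom.add {θ : ScalingFlow τ} {p : ℝ} {ξ η : TCDual τ} (hξ : IsHom θ p ξ.app)
    (hη : IsHom θ p η.app) : IsHom θ p (ξ + η).app := fun s y z h => by
  change ξ.app z + η.app z = _ * (ξ.app y + η.app y)
  rw [hξ s y z h, hη s y z h]; ring

lemma IsHom.zero {θ : ScalingFlow τ} {p : ℝ} : IsHom θ p (0 : TCDual τ).app := fun s y z _ => by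
  change (0 : ℂ) = _ * 0
  rw [mul_zero]

lemma IsHom.smul {θ : ScalingFlow τ} {p : ℝ} (c : ℂ) {ξ : TCDual τ} (hξ : IsHom θ p ξ.app) :
    IsHom θ p (c • ξ).app := fun s y z h => by
  change c * ξ.app z = _ * (c * ξ.app y)
  rw [hξ s y z h]; ring

variable (τ)

/-- The bounded linear functionals `ξ` on `TC τ` with `ξ(θ_s y) = e^{-s(1-1/p)} ξ(y)`. -/
def homFun (θ : ScalingFlow τ) (p : ℝ) : Submodule ℂ (TCDual τ) where
  carrier := {ξ | IsHom θ p ξ.app}
  add_mem' := IsHom.add
  zero_mem' := IsHom.zero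
  smul_mem' := fun c _ h => IsHom.smul c h

/-- Haagerup's space `L^p` of the flow `(M,τ,θ)`: the bounded linear functionals `ξ` on `TC τ`
with `ξ(θ_s y) = e^{-s(1-1/p)} ξ(y)`, with the dual norm. -/
def HLp (θ : ScalingFlow τ) (p : ℝ) : Type u := homFun τ θ p

variable {τ}

noncomputable instance (θ : ScalingFlow τ) (p : ℝ) : NormedAddCommGroup (HLp τ θ p) :=
  (inferInstance : NormedAddCommGroup (homFun τ θ p))
noncomputable instance (θ : ScalingFlow τ) (p : ℝ) : NormedSpace ℂ (HLp τ θ p) :=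
  (inferInstance : NormedSpace ℂ (homFun τ θ p))

end Pool.Agent.SKB
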