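import Mathlib
import Pool.Agent.SKB.Assembly
import Pool.Agent.SKB.Dual
import Pool.Agent.SKB.HaagDef

/-!
# Haagerup's `L^p` spaces are curved
-/

open scoped ENNReal NNReal ComplexOrder Topology
open Filter

namespace Pool.Agent.SKB

universe u

section pairing

variable {X : Type*} [NormedAddCommGroup X] [NormedSpace ℂ X]

/-- A pairing inequality gives curvature for subspaces of the dual. -/
theorem curved_of_pairing (S : Submodule ℂ (X →L[ℂ] ℂ)) {ϑ : ℝ}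
    (hX : ∀ (ι κ : Type) [Fintype ι] [Fintype κ] (a : κ → ι → ℂ) (r s : ℝ), 0 ≤ r → 0 ≤ s →
      RegLe a r → OpLe a s → ∀ (ξ : κ → S) (y : ι → X),
        ‖∑ k, (ξ k : X →L[ℂ] ℂ) (∑ j, a k j • y j)‖ ≤
          s ^ ϑ * r ^ (1 - ϑ) * √(∑ k, ‖ξ k‖ ^ 2) * √(∑ j, ‖y j‖ ^ 2)) :
    Curved S ϑ := by
  intro ι κ _ _ a r s hr hs hreg hop y
  set z : κ → S := fun k => ∑ j, a k j • y j with hz
  set V : ℝ := ∑ k, ‖z k‖ ^ 2 with hV
  have hV0 : 0 ≤ V := by positivity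
  set A : ℝ := s ^ ϑ * r ^ (1 - ϑ) with hA
  have hA0 : 0 ≤ A := by positivity
  set Y : ℝ := √(∑ j, ‖y j‖ ^ 2) with hY
  have hY0 : 0 ≤ Y := Real.sqrt_nonneg _
  change √V ≤ A * Y
  have key : ∀ δ : ℝ, 0 < δ → δ < 1 → (1 - δ) * V ≤ A * Y * √V := by
    intro δ hδ0 hδ1
    have h1 : ∀ k, ∃ u : X, ‖u‖ ≤ 1 ∧ ∃ ρ : ℝ, (z k : X →L[ℂ] ℂ) u = (ρ : ℂ) ∧
        (1 - δ) * ‖z k‖ ≤ ρ := by
      intro k
      by_cases h0 : z k = 0
      · refine ⟨0, by simp, 0, by simp, by simp [h0]⟩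
      · have h2 : (1 - δ) * ‖(z k : X →L[ℂ] ℂ)‖ < ‖(z k : X →L[ℂ] ℂ)‖ := by
          have : 0 < ‖(z k : X →L[ℂ] ℂ)‖ := norm_pos_iff.2 (by simpa using h0)
          nlinarith
        obtain ⟨u, hu1, hu2⟩ := ContinuousLinearMap.exists_lt_apply_of_lt_opNorm (z k).1 h2
        have hne : (z k : X →L[ℂ] ℂ) u ≠ 0 := by
          intro h
          rw [h, norm_zero] at hu2
          have : 0 ≤ (1 - δ) * ‖(z k : X →L[ℂ] ℂ)‖ := mul_nonneg (by linarith) (norm_nonneg _)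
          linarith
        have hn : ((‖(z k : X →L[ℂ] ℂ) u‖ : ℝ) : ℂ) ≠ 0 := by
          exact_mod_cast (norm_ne_zero_iff.2 hne)
        refine ⟨((starRingEnd ℂ) ((z k : X →L[ℂ] ℂ) u) / (‖(z k : X →L[ℂ] ℂ) u‖ : ℝ)) • u, ?_,
          ‖(z k : X →L[ℂ] ℂ) u‖, ?_, hu2.le⟩
        · rw [norm_smul, norm_div, RCLike.norm_conj, Complex.norm_real, norm_norm, div_self
            (norm_ne_zero_iff.2 hne), one_mul]
          exact hu1.le
        · rw [map_smul, smul_eq_mul, div_mul_eq_mul_div, div_eq_iff hn, mul_comm,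
            Complex.mul_conj, Complex.normSq_eq_norm_sq]
          push_cast; ring
    choose u hu1 ρ hρ hρ2 using h1
    set β : κ → ℝ := fun k => ‖z k‖ with hβ
    have hT := hX κ ι (fun j k => a k j) r s hr hs (RegLe.transpose hreg) (OpLe.transpose hs hop)
      y (fun k => ((β k : ℝ) : ℂ) • u k)
    have hzc : ∀ k, (z k : X →L[ℂ] ℂ) = ∑ j, a k j • (y j : X →L[ℂ] ℂ) := by
      intro k
      simp [hz]
    have h3 : ((∑ k, β k * ρ k : ℝ) : ℂ) =
        ∑ j, (y j : X →L[ℂ] ℂ) (∑ k, a k j • (((β k : ℝ) : ℂ) • u k)) := by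
      simp only [map_sum, map_smul, smul_eq_mul]
      rw [Finset.sum_comm]
      push_cast
      refine Finset.sum_congr rfl fun k _ => ?_
      rw [← hρ k, hzc k]
      simp only [_root_.sum_apply, _root_.smul_apply, smul_eq_mul]
      rw [Finset.mul_sum]
      refine Finset.sum_congr rfl fun j _ => ?_
      ring
    have h4 : ∑ k, β k * ρ k ≤ ‖∑ j, (y j : X →L[ℂ] ℂ) (∑ k, a k j • (((β k : ℝ) : ℂ) • u k))‖ := by
      rw [← h3, Complex.norm_real]
      exact Real.le_norm_self _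
    have h6 : √(∑ k, ‖((β k : ℝ) : ℂ) • u k‖ ^ 2) ≤ √V := by
      apply Real.sqrt_le_sqrt
      refine Finset.sum_le_sum fun k _ => ?_
      have hβk : 0 ≤ β k := by rw [hβ]; exact norm_nonneg (z k)
      rw [norm_smul, Complex.norm_real, Real.norm_of_nonneg hβk]
      have : β k * ‖u k‖ ≤ ‖z k‖ := mul_le_of_le_one_right hβk (hu1 k)
      gcongr
    have h7 : (1 - δ) * V ≤ ∑ k, β k * ρ k := by
      rw [hV, Finset.mul_sum]
      refine Finset.sum_le_sum fun k _ => ?_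
      have := hρ2 k
      calc (1 - δ) * ‖z k‖ ^ 2 = ‖z k‖ * ((1 - δ) * ‖z k‖) := by ring
        _ ≤ ‖z k‖ * ρ k := by gcongr
    calc (1 - δ) * V ≤ _ := h7.trans (h4.trans hT)
      _ ≤ A * Y * √V := by rw [← hA, ← hY]; gcongr
  have hlim : V ≤ A * Y * √V := by
    have h8 : Tendsto (fun δ : ℝ => (1 - δ) * V) (𝓝[>] 0) (𝓝 ((1 - 0) * V)) := by
      have : Continuous (fun δ : ℝ => (1 - δ) * V) := by fun_prop
      exact (this.tendsto 0).mono_left nhdsWithin_le_nhds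
    rw [sub_zero, one_mul] at h8
    refine le_of_tendsto h8 ?_
    filter_upwards [Ioo_mem_nhdsGT (zero_lt_one (α := ℝ))] with δ hδ
    exact key δ hδ.1 hδ.2
  rcases hV0.eq_or_lt with h | h
  · rw [← h, Real.sqrt_zero]; positivity
  · have h9 : 0 < √V := Real.sqrt_pos.2 h
    have h10 : √V * √V ≤ (A * Y) * √V := by rw [Real.mul_self_sqrt hV0]; exact hlim
    exact le_of_mul_le_mul_right h10 h9

end pairing

variable {M : Type u} [CStarAlgebra M] [PartialOrder M] [StarOrderedRing M]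

variable (τ : NSFTrace M)

/-- The bounded linear functionals `ξ` on `TC τ` with `ξ(θ_s y) = e^{-s(1-1/p)} ξ(y)`. -/
def homRaw (θ : ScalingFlow τ) (p : ℝ) : Submodule ℂ (TC τ →L[ℂ] ℂ) where
  carrier := {ξ | ∀ (s : ℝ) (y z : TC τ), z.val = θ.toFun s y.val →
    ξ z = (Real.exp (-(s * (1 - 1 / p))) : ℝ) * ξ y}
  add_mem' := fun {ξ η} hξ hη s y z h => by
    change ξ z + η z = _ * (ξ y + η y)
    rw [hξ s y z h, hη s y z h]; ring
  zero_mem' := fun s y z _ => by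
    change (0 : ℂ) = _ * 0
    rw [mul_zero]
  smul_mem' := fun c {ξ} hξ s y z h => by
    change c * ξ z = _ * (c * ξ y)
    rw [hξ s y z h]; ring

variable {τ}

lemma mom_flow (θ : ScalingFlow τ) (s : ℝ) (w : M) :
    mom τ.wt 1 (θ.toFun s w) = ENNReal.ofReal (Real.exp (-s)) * mom τ.wt 1 w := by
  change τ.toFun (absPow 1 (θ.toFun s w)) = _ * τ.toFun (absPow 1 w)
  rw [← θ.scaling' s (absPow 1 w) (cfc_nonneg fun t ht => by
    have := spec_nonneg w ht
    positivity)]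
  congr 1
  unfold absPow
  rw [← map_star, ← map_mul]
  have hcont : Continuous (θ.toFun s) :=
    (StarAlgEquiv.isometry (θ.toFun s)).continuous
  exact (StarAlgHomClass.map_cfc (S := ℂ) (θ.toFun s) (fun t : ℝ => t ^ ((1 : ℝ) / 2)) (star w * w)
    ((continuous_pw one_pos).continuousOn) hcont (sa_sq w) (by
      rw [map_mul, map_star]; exact sa_sq _)).symm

lemma flow_mem (θ : ScalingFlow τ) (s : ℝ) {w : M} (hw : mom τ.wt 1 w < ∞) :
    mom τ.wt 1 (θ.toFun s w) < ∞ := by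
  rw [mom_flow]
  exact ENNReal.mul_lt_top ENNReal.ofReal_lt_top hw

lemma flow_toReal (θ : ScalingFlow τ) (s : ℝ) (w : M) :
    (mom τ.wt 1 (θ.toFun s w)).toReal = Real.exp (-s) * (mom τ.wt 1 w).toReal := by
  rw [mom_flow, ENNReal.toReal_mul, ENNReal.toReal_ofReal (Real.exp_pos _).le]

lemma flow_norm (θ : ScalingFlow τ) (s : ℝ) (w : M) : ‖θ.toFun s w‖ = ‖w‖ :=
  StarAlgEquiv.norm_map (θ.toFun s) w

/-- Constructor for elements of `TC τ`. -/
def TC.mk (w : M) (hw : mom τ.wt 1 w < ∞) : TC τ := (⟨w, hw⟩ : tcDom τ)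

lemma TC.val_mk (w : M) (hw : mom τ.wt 1 w < ∞) : (TC.mk w hw).val = w := rfl

lemma TC.norm_mk (w : M) (hw : mom τ.wt 1 w < ∞) :
    ‖TC.mk w hw‖ = max ‖w‖ (mom τ.wt 1 w).toReal := rfl

/-- The functional as a function on the algebra. -/
noncomputable def ext0 (ξ : TC τ →L[ℂ] ℂ) (w : M) : ℂ :=
  open Classical in if hw : mom τ.wt 1 w < ∞ then ξ (TC.mk w hw) else 0

lemma ext0_apply (ξ : TC τ →L[ℂ] ℂ) {w : M} (hw : mom τ.wt 1 w < ∞) :
    ext0 ξ w = ξ (TC.mk w hw) := by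
  unfold ext0; rw [dif_pos hw]

lemma hom_basic (θ : ScalingFlow τ) {p : ℝ} (hp : 1 < p) (ξ : homRaw τ θ p) {w : M}
    (hw : mom τ.wt 1 w < ∞) {α β : ℝ} (hα : 0 < α) (hβ : 0 < β) (h1 : ‖w‖ ≤ α)
    (h2 : (mom τ.wt 1 w).toReal ≤ β) :
    ‖ext0 ξ.1 w‖ ≤ ‖ξ‖ * (α ^ (1 / p) * β ^ (1 - 1 / p)) := by
  set s := Real.log (β / α) with hs
  have hes : Real.exp s = β / α := Real.exp_log (by positivity)
  have hes' : Real.exp (-s) = α / β := by rw [Real.exp_neg, hes, inv_div]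
  have h3 := ξ.2 s (TC.mk w hw) (TC.mk (θ.toFun s w) (flow_mem θ s hw)) rfl
  have h4 : ‖ξ.1 (TC.mk (θ.toFun s w) (flow_mem θ s hw))‖ ≤ ‖ξ‖ * α := by
    refine (ξ.1.le_opNorm _).trans ?_
    have : ‖TC.mk (θ.toFun s w) (flow_mem θ s hw)‖ ≤ α := by
      rw [TC.norm_mk, flow_norm, flow_toReal, hes']
      refine max_le h1 ?_
      calc α / β * (mom τ.wt 1 w).toReal ≤ α / β * β := by gcongr
        _ = α := by field_simp
    exact mul_le_mul_of_nonneg_left this (norm_nonneg _)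
  rw [h3, norm_mul, Complex.norm_real, Real.norm_of_nonneg (Real.exp_pos _).le] at h4
  rw [ext0_apply _ hw]
  have h5 : Real.exp (s * (1 - 1 / p)) * Real.exp (-(s * (1 - 1 / p))) = 1 := by
    rw [← Real.exp_add, add_neg_cancel, Real.exp_zero]
  calc ‖ξ.1 (TC.mk w hw)‖ = Real.exp (s * (1 - 1 / p)) *
        (Real.exp (-(s * (1 - 1 / p))) * ‖ξ.1 (TC.mk w hw)‖) := by rw [← mul_assoc, h5, one_mul]
    _ ≤ Real.exp (s * (1 - 1 / p)) * (‖ξ‖ * α) := by gcongr
    _ = ‖ξ‖ * (α ^ (1 / p) * β ^ (1 - 1 / p)) := by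
        rw [Real.exp_mul, hes, Real.div_rpow hβ.le hα.le]
        have h6 : α = α ^ (1 / p) * α ^ (1 - 1 / p) := by
          rw [← Real.rpow_add hα]; simp
        have h7 : 0 < α ^ (1 - 1 / p) := by positivity
        calc β ^ (1 - 1 / p) / α ^ (1 - 1 / p) * (‖ξ‖ * α)
            = β ^ (1 - 1 / p) / α ^ (1 - 1 / p) * (‖ξ‖ * (α ^ (1 / p) * α ^ (1 - 1 / p))) := by
              rw [← h6]
          _ = _ := by field_simp

lemma hom_bound (θ : ScalingFlow τ) {p : ℝ} (hp : 1 < p) (ξ : homRaw τ θ p) {w : M}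
    (hw : mom τ.wt 1 w < ∞) {t : ℝ} (ht : 0 < t) :
    ‖ext0 ξ.1 w‖ ≤ ‖ξ‖ * (1 / p * t ^ (1 - 1 / p) * ‖w‖ +
      (1 - 1 / p) * t ^ (-(1 / p)) * (mom τ.wt 1 w).toReal) := by
  have hp0 : 0 < p := by linarith
  have hc : 0 ≤ 1 - 1 / p := by
    have : 1 / p < 1 := by rw [div_lt_one hp0]; exact hp
    linarith
  set c := 1 - 1 / p with hcdef
  have key : ∀ α β : ℝ, 0 < α → 0 < β → α ^ (1 / p) * β ^ c ≤ 1 / p * t ^ c * α + c * t ^ (-(1 / p)) * β := by
    intro α β hα hβ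
    have h1 := Real.geom_mean_le_arith_mean2_weighted (w₁ := 1 / p) (w₂ := c) (p₁ := t ^ c * α)
      (p₂ := t ^ (-(1 / p)) * β) (by positivity) hc (by positivity) (by positivity) (by rw [hcdef]; ring)
    have h2 : (t ^ c * α) ^ (1 / p) * (t ^ (-(1 / p)) * β) ^ c = α ^ (1 / p) * β ^ c := by
      rw [Real.mul_rpow (by positivity) hα.le, Real.mul_rpow (by positivity) hβ.le,
        ← Real.rpow_mul ht.le, ← Real.rpow_mul ht.le]
      have h3 : t ^ (c * (1 / p)) * t ^ (-(1 / p) * c) = 1 := by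
        rw [← Real.rpow_add ht]; ring_nf; simp
      calc t ^ (c * (1 / p)) * α ^ (1 / p) * (t ^ (-(1 / p) * c) * β ^ c)
          = (t ^ (c * (1 / p)) * t ^ (-(1 / p) * c)) * (α ^ (1 / p) * β ^ c) := by ring
        _ = _ := by rw [h3, one_mul]
    rw [h2] at h1
    refine h1.trans (le_of_eq (by ring))
  have hlim : Tendsto (fun η : ℝ => ‖ξ‖ * (1 / p * t ^ c * (‖w‖ + η) +
      c * t ^ (-(1 / p)) * ((mom τ.wt 1 w).toReal + η))) (𝓝[>] 0)
      (𝓝 (‖ξ‖ * (1 / p * t ^ c * (‖w‖ + 0) + c * t ^ (-(1 / p)) * ((mom τ.wt 1 w).toReal + 0)))) :=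
    Tendsto.mono_left (Continuous.tendsto (by fun_prop) 0) nhdsWithin_le_nhds
  rw [add_zero, add_zero] at hlim
  refine ge_of_tendsto hlim ?_
  filter_upwards [self_mem_nhdsWithin] with η hη
  have hη' : 0 < η := hη
  have h8 : 0 < ‖w‖ + η := by positivity
  have h9 : 0 < (mom τ.wt 1 w).toReal + η := by
    have : 0 ≤ (mom τ.wt 1 w).toReal := ENNReal.toReal_nonneg
    linarith
  refine (hom_basic θ hp ξ hw h8 h9 (by linarith) (by linarith)).trans ?_
  exact mul_le_mul_of_nonneg_left (key _ _ h8 h9) (norm_nonneg ξ)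

lemma vt_conj {p : ℝ} (hp : 1 < p) : vt (p / (p - 1)) = vt p := by
  unfold vt
  have hp0 : p ≠ 0 := by linarith
  have h : 1 - 2 / (p / (p - 1)) = -(1 - 2 / p) := by
    rw [div_div_eq_mul_div]; field_simp; ring
  rw [h, abs_neg]

/-- The pairing inequality gives curvature. -/
theorem curved_homRaw (θ : ScalingFlow τ) {p : ℝ} (hp : 1 < p) : Curved (homRaw τ θ p) (vt p) := by
  apply curved_of_pairing
  intro ι κ _ _ a r s hr hs hreg hop ξ y
  set Q := s ^ vt p * r ^ (1 - vt p) * √(∑ k, ‖ξ k‖ ^ 2) with hQ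
  have key : ∀ η : ℝ, 0 < η → ‖∑ k, (ξ k : TC τ →L[ℂ] ℂ) (∑ j, a k j • y j)‖ ≤
      Q * √(∑ j, (‖y j‖ + η) ^ 2) := by
    intro η hη
    have h := assembly (τ := τ.wt) hr hs hreg hop hp (fun k => ext0 (ξ k).1) (fun k => ‖ξ k‖)
      (fun k => norm_nonneg (ξ k))
      (fun k x y hx hy => by
        rw [ext0_apply _ hx, ext0_apply _ hy, ext0_apply _ (mom_add_lt le_rfl hx hy), ← map_add]
        rfl)
      (fun k c x hx => by
        rw [ext0_apply _ hx, ext0_apply _ (mom_smul_lt le_rfl hx c), ← smul_eq_mul, ← map_smul]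
        rfl)
      (fun k w hw t ht => hom_bound θ hp (ξ k) hw ht)
      (fun t w => θ.toFun t w) (fun t w hw => flow_mem θ t hw) (fun t w => (flow_norm θ t w).le)
      (fun t w hw => (flow_toReal θ t w).le)
      (fun k t w hw => by
        rw [ext0_apply _ hw, ext0_apply _ (flow_mem θ t hw)]
        exact (ξ k).2 t _ _ rfl)
      (fun j => (y j).val) (fun j => (show tcDom τ from y j).2) (fun j => ‖y j‖ + η)
      (fun j => by positivity)
      (fun j => by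
        have : ‖(y j).val‖ ≤ ‖y j‖ := le_max_left _ _
        linarith)
      (fun j => by
        have : (mom τ.wt 1 (y j).val).toReal ≤ ‖y j‖ := le_max_right _ _
        linarith)
    rw [vt_conj hp] at h
    refine le_trans (le_of_eq ?_) h
    congr 1
    refine Finset.sum_congr rfl fun k _ => ?_
    have e : ∑ j, a k j • (y j).val = (∑ j, a k j • y j : TC τ).val := by
      have := map_sum (tcDom τ).subtype (fun j => a k j • (show tcDom τ from y j)) Finset.univ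
      exact this.symm
    rw [e]
    have hmem : mom τ.wt 1 (∑ j, a k j • y j : TC τ).val < ∞ :=
      (show tcDom τ from (∑ j, a k j • y j : TC τ)).2
    rw [ext0_apply _ hmem]
    rfl
  have hlim : Tendsto (fun η : ℝ => Q * √(∑ j, (‖y j‖ + η) ^ 2)) (𝓝[>] 0)
      (𝓝 (Q * √(∑ j, (‖y j‖ + 0) ^ 2))) :=
    Tendsto.mono_left (Continuous.tendsto (by fun_prop) 0) nhdsWithin_le_nhds
  simp only [add_zero] at hlim
  refine ge_of_tendsto hlim ?_
  filter_upwards [self_mem_nhdsWithin] with η hη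
  exact key η hη

lemma isClosed_homRaw (θ : ScalingFlow τ) (p : ℝ) :
    IsClosed ((homRaw τ θ p : Submodule ℂ (TC τ →L[ℂ] ℂ)) : Set (TC τ →L[ℂ] ℂ)) := by
  have : ((homRaw τ θ p : Submodule ℂ (TC τ →L[ℂ] ℂ)) : Set (TC τ →L[ℂ] ℂ)) =
      ⋂ (s : ℝ) (y : TC τ) (z : TC τ) (_ : z.val = θ.toFun s y.val),
        {ξ : TC τ →L[ℂ] ℂ | ξ z = ((Real.exp (-(s * (1 - 1 / p))) : ℝ) : ℂ) * ξ y} := by
    ext ξ
    simp only [Set.mem_iInter]
    rfl
  rw [this]
  refine isClosed_iInter fun s => isClosed_iInter fun y => isClosed_iInter fun z =>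
    isClosed_iInter fun _ => ?_
  exact isClosed_eq (by fun_prop) (by fun_prop)

instance (θ : ScalingFlow τ) (p : ℝ) : CompleteSpace (HLp τ θ p) :=
  (isClosed_homRaw θ p).completeSpace_coe

/-- Haagerup's `L^p` spaces are curved with exponent `1 - |1 - 2/p|`. -/
theorem curved_HLp (θ : ScalingFlow τ) {p : ℝ} (hp : 1 < p) : Curved (HLp τ θ p) (vt p) :=
  curved_homRaw θ hp

end Pool.Agent.SKB
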